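import Mathlib

/-!
# The conditions and the permutations
-/

set_option autoImplicit false

namespace Pool.Agent.Q207.CT

open Cardinal

/-- The circle. -/
abbrev T : Type := AddCircle (1 : ℝ)

/-- The coordinates: the level, the point of the circle, and the number of the copy. -/
abbrev Om : Type := ℕ × T × ℝ

/-- The conditions: countable partial functions. -/
structure Cnd : Type where
  /-- the values -/
  f : Om → ℝ → Option Bool
  cn : {x : Om × ℝ | f x.1 x.2 ≠ none}.Countable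

namespace Cnd

theorem ext' {p q : Cnd} (h : ∀ x κ, p.f x κ = q.f x κ) : p = q := by
  obtain ⟨f, hf⟩ := p
  obtain ⟨g, hg⟩ := q
  have h1 : f = g := funext fun x => funext fun κ => h x κ
  subst h1
  rfl

instance : Preorder Cnd where
  le p q := ∀ x κ b, q.f x κ = some b → p.f x κ = some b
  le_refl _ _ _ _ h := h
  le_trans _ _ _ h1 h2 x κ b h := h1 x κ b (h2 x κ b h)

theorem le_def {p q : Cnd} : p ≤ q ↔ ∀ x κ b, q.f x κ = some b → p.f x κ = some b := Iff.rfl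

instance : OrderTop Cnd where
  top := ⟨fun _ _ => none, by simp⟩
  le_top _ _ _ _ h := by cases h

@[simp] theorem top_f (x : Om) (κ : ℝ) : (⊤ : Cnd).f x κ = none := rfl

/-- The support. -/
def sp (p : Cnd) : Set Om := {x | ∃ κ, p.f x κ ≠ none}

theorem sp_countable (p : Cnd) : p.sp.Countable := by
  refine (p.cn.image Prod.fst).mono ?_
  rintro x ⟨κ, h⟩
  exact ⟨(x, κ), h, rfl⟩

theorem of_sp {p : Cnd} {x : Om} {κ : ℝ} {b : Bool} (h : p.f x κ = some b) : x ∈ p.sp :=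
  ⟨κ, by rw [h]; exact Option.some_ne_none _⟩

theorem not_sp {p : Cnd} {x : Om} (h : x ∉ p.sp) (κ : ℝ) : p.f x κ = none := by
  by_contra h1
  exact h ⟨κ, h1⟩

theorem sp_mono {p q : Cnd} (h : p ≤ q) : q.sp ⊆ p.sp := by
  rintro x ⟨κ, h1⟩
  obtain ⟨b, hb⟩ := Option.ne_none_iff_exists'.1 h1
  exact of_sp (h _ _ _ hb)

/-- Compatible conditions. -/
def Cmp (p q : Cnd) : Prop := ∀ x κ b b', p.f x κ = some b → q.f x κ = some b' → b = b'

open Classical in
/-- The union of a countable family of conditions. -/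
noncomputable def un {ι : Type} [Countable ι] (r : ι → Cnd) : Cnd where
  f x κ := if h : ∃ i, (r i).f x κ ≠ none then (r h.choose).f x κ else none
  cn := by
    refine (Set.countable_iUnion fun i => (r i).cn).mono ?_
    intro x hx
    by_contra h
    rw [Set.mem_iUnion] at h
    push Not at h
    apply hx
    exact dif_neg fun ⟨i, hi⟩ => h i hi

section un

variable {ι : Type} [Countable ι] {r : ι → Cnd}

theorem un_some {x : Om} {κ : ℝ} {b : Bool} (h : (un r).f x κ = some b) :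
    ∃ i, (r i).f x κ = some b := by
  by_cases h1 : ∃ i, (r i).f x κ ≠ none
  · have h2 : (un r).f x κ = (r h1.choose).f x κ := dif_pos h1
    exact ⟨_, h2.symm.trans h⟩
  · have h2 : (un r).f x κ = none := dif_neg h1
    rw [h2] at h
    cases h

theorem un_le (hc : ∀ i j, Cmp (r i) (r j)) (i : ι) : un r ≤ r i := by
  intro x κ b h
  have h1 : ∃ i, (r i).f x κ ≠ none := ⟨i, by rw [h]; exact Option.some_ne_none _⟩
  have h2 : (un r).f x κ = (r h1.choose).f x κ := dif_pos h1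
  rw [h2]
  obtain ⟨b', hb'⟩ := Option.ne_none_iff_exists'.1 h1.choose_spec
  rw [hb', hc _ _ _ _ _ _ hb' h]

theorem le_un {q : Cnd} (h : ∀ i, q ≤ r i) : q ≤ un r := by
  intro x κ b hb
  obtain ⟨i, hi⟩ := un_some hb
  exact h i _ _ _ hi

theorem sp_un : (un r).sp ⊆ ⋃ i, (r i).sp := by
  rintro x ⟨κ, h1⟩
  obtain ⟨b, hb⟩ := Option.ne_none_iff_exists'.1 h1
  obtain ⟨i, hi⟩ := un_some hb
  exact Set.mem_iUnion.2 ⟨i, of_sp hi⟩

end un

theorem cmp_of_le {p q r : Cnd} (h1 : r ≤ p) (h2 : r ≤ q) : Cmp p q := by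
  intro x κ b b' hb hb'
  have h3 := h1 _ _ _ hb
  have h4 := h2 _ _ _ hb'
  rw [h3] at h4
  exact Option.some_injective _ h4

theorem Cmp.symm {p q : Cnd} (h : Cmp p q) : Cmp q p :=
  fun x κ b b' hb hb' => (h x κ b' b hb' hb).symm

theorem Cmp.refl (p : Cnd) : Cmp p p := cmp_of_le le_rfl le_rfl

theorem exists_lb {r : ℕ → Cnd} (h : ∀ n, r (n + 1) ≤ r n) : ∃ b, ∀ n, b ≤ r n := by
  have h1 : ∀ i j, i ≤ j → r j ≤ r i := fun i j hij => antitone_nat_of_succ_le h hij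
  refine ⟨un r, un_le fun i j => ?_⟩
  exact cmp_of_le (h1 i (max i j) (le_max_left _ _)) (h1 j (max i j) (le_max_right _ _))

theorem exists_join {p q : Cnd} (h : Cmp p q) :
    ∃ r, r ≤ p ∧ r ≤ q ∧ r.sp ⊆ p.sp ∪ q.sp ∧ ∀ s, s ≤ p → s ≤ q → s ≤ r := by
  have hc : ∀ i j : Bool, Cmp (cond i p q) (cond j p q) := by
    rintro (_ | _) (_ | _)
    exacts [Cmp.refl _, h.symm, h, Cmp.refl _]
  refine ⟨un fun i : Bool => cond i p q, un_le hc true, un_le hc false, ?_, ?_⟩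
  · refine sp_un.trans (Set.iUnion_subset ?_)
    rintro (_ | _)
    exacts [Set.subset_union_right, Set.subset_union_left]
  · intro s h1 h2
    refine le_un ?_
    rintro (_ | _)
    exacts [h2, h1]

/-- Countably many requirements. -/
theorem exists_meet (D : ℕ → Cnd → Prop) (p : Cnd) (h : ∀ n, ∀ q ≤ p, ∃ r ≤ q, D n r)
    (hm : ∀ n q r, D n q → r ≤ q → D n r) : ∃ q ≤ p, ∀ n, D n q := by
  choose F hF hF' using h
  let G : ℕ → {q : Cnd // q ≤ p} := fun n => Nat.rec ⟨p, le_rfl⟩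
    (fun n q => ⟨F n q.1 q.2, (hF n q.1 q.2).trans q.2⟩) n
  obtain ⟨b, hb⟩ := exists_lb (r := fun n => (G n).1) fun n => hF n _ (G n).2
  exact ⟨b, hb 0, fun n => hm n _ _ (hF' n _ (G n).2) (hb (n + 1))⟩

/-- The action of a permutation. -/
def ap (σ : Equiv.Perm Om) (p : Cnd) : Cnd where
  f x κ := p.f (σ.symm x) κ
  cn := by
    refine (p.cn.image fun y => (σ y.1, y.2)).mono ?_
    rintro ⟨x, κ⟩ h
    exact ⟨(σ.symm x, κ), h, by simp⟩

theorem ap_f (σ : Equiv.Perm Om) (p : Cnd) (x : Om) (κ : ℝ) :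
    (ap σ p).f x κ = p.f (σ.symm x) κ := rfl

theorem ap_f' (σ : Equiv.Perm Om) (p : Cnd) (x : Om) (κ : ℝ) :
    (ap σ p).f (σ x) κ = p.f x κ := by
  rw [ap_f, Equiv.symm_apply_apply]

theorem ap_mul (σ τ : Equiv.Perm Om) (p : Cnd) : ap (σ * τ) p = ap σ (ap τ p) := rfl

theorem ap_one (p : Cnd) : ap 1 p = p := rfl

theorem ap_mono {σ : Equiv.Perm Om} {p q : Cnd} (h : p ≤ q) : ap σ p ≤ ap σ q :=
  fun x κ b hb => h (σ.symm x) κ b hb

theorem ap_inv_ap (σ : Equiv.Perm Om) (p : Cnd) : ap σ⁻¹ (ap σ p) = p := by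
  rw [← ap_mul, inv_mul_cancel, ap_one]

theorem ap_ap_inv (σ : Equiv.Perm Om) (p : Cnd) : ap σ (ap σ⁻¹ p) = p := by
  rw [← ap_mul, mul_inv_cancel, ap_one]

theorem le_ap_iff {σ : Equiv.Perm Om} {p q : Cnd} : p ≤ ap σ q ↔ ap σ⁻¹ p ≤ q := by
  constructor
  · intro h
    have h1 := ap_mono (σ := σ⁻¹) h
    rwa [ap_inv_ap] at h1
  · intro h
    have h1 := ap_mono (σ := σ) h
    rwa [ap_ap_inv] at h1

theorem mem_sp_ap {σ : Equiv.Perm Om} {p : Cnd} {x : Om} : x ∈ (ap σ p).sp ↔ σ.symm x ∈ p.sp :=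
  Iff.rfl

theorem mem_sp_ap' {σ : Equiv.Perm Om} {p : Cnd} {x : Om} : σ x ∈ (ap σ p).sp ↔ x ∈ p.sp := by
  rw [mem_sp_ap, Equiv.symm_apply_apply]

/-- Permutations that agree on the support act in the same way. -/
theorem ap_congr {σ τ : Equiv.Perm Om} {p : Cnd} (h : ∀ x ∈ p.sp, σ x = τ x) :
    ap σ p = ap τ p := by
  refine ext' fun x κ => ?_
  rw [ap_f, ap_f]
  by_cases h1 : σ.symm x ∈ p.sp
  · have h2 : x = τ (σ.symm x) := by rw [← h _ h1, Equiv.apply_symm_apply]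
    have h3 : τ.symm x = σ.symm x := by rw [Equiv.symm_apply_eq, ← h2]
    rw [h3]
  · by_cases h2 : τ.symm x ∈ p.sp
    · exfalso
      have h3 : x = σ (τ.symm x) := by rw [h _ h2, Equiv.apply_symm_apply]
      have h4 : σ.symm x = τ.symm x := by rw [Equiv.symm_apply_eq, ← h3]
      rw [h4] at h1
      exact h1 h2
    · rw [not_sp h1, not_sp h2]

/-- The restriction. -/
noncomputable def res (s : Set Om) (p : Cnd) : Cnd where
  f x κ := open Classical in if x ∈ s then p.f x κ else none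
  cn := by
    classical
    refine p.cn.mono ?_
    rintro ⟨x, κ⟩ h h1
    apply h
    change (if x ∈ s then p.f x κ else none) = none
    rw [show p.f x κ = none from h1, ite_self]

theorem res_pos {s : Set Om} {p : Cnd} {x : Om} (h : x ∈ s) (κ : ℝ) :
    (res s p).f x κ = p.f x κ := if_pos h

theorem res_neg {s : Set Om} {p : Cnd} {x : Om} (h : x ∉ s) (κ : ℝ) :
    (res s p).f x κ = none := if_neg h

theorem res_some {s : Set Om} {p : Cnd} {x : Om} {κ : ℝ} {b : Bool}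
    (h : (res s p).f x κ = some b) : x ∈ s ∧ p.f x κ = some b := by
  by_cases h1 : x ∈ s
  · rw [res_pos h1] at h
    exact ⟨h1, h⟩
  · rw [res_neg h1] at h
    cases h

theorem le_res (s : Set Om) (p : Cnd) : p ≤ res s p := fun _ _ _ h => (res_some h).2

theorem res_mono {s : Set Om} {p q : Cnd} (h : p ≤ q) : res s p ≤ res s q := by
  intro x κ b hb
  obtain ⟨h1, h2⟩ := res_some hb
  rw [res_pos h1]
  exact h _ _ _ h2

theorem res_anti {s t : Set Om} (h : s ⊆ t) (p : Cnd) : res t p ≤ res s p := by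
  intro x κ b hb
  obtain ⟨h1, h2⟩ := res_some hb
  rw [res_pos (h h1)]
  exact h2

theorem sp_res (s : Set Om) (p : Cnd) : (res s p).sp ⊆ s ∩ p.sp := by
  rintro x ⟨κ, h1⟩
  obtain ⟨b, hb⟩ := Option.ne_none_iff_exists'.1 h1
  obtain ⟨h2, h3⟩ := res_some hb
  exact ⟨h2, of_sp h3⟩

theorem res_eq {s : Set Om} {p : Cnd} (h : p.sp ⊆ s) : res s p = p := by
  refine ext' fun x κ => ?_
  by_cases h1 : x ∈ s
  · exact res_pos h1 κ
  · rw [res_neg h1, not_sp fun h2 => h1 (h h2)]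

theorem ap_res (σ : Equiv.Perm Om) (s : Set Om) (p : Cnd) :
    ap σ (res s p) = res (σ '' s) (ap σ p) := by
  refine ext' fun x κ => ?_
  rw [ap_f]
  by_cases h : σ.symm x ∈ s
  · have h1 : x ∈ σ '' s := ⟨_, h, σ.apply_symm_apply x⟩
    rw [res_pos h, res_pos h1, ap_f]
  · have h1 : x ∉ σ '' s := by
      rintro ⟨y, hy, rfl⟩
      rw [Equiv.symm_apply_apply] at h
      exact h hy
    rw [res_neg h, res_neg h1]

end Cnd

/-! ### Permutations that only move the copies -/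

/-- The permutation only moves the copies. -/
def Pure (σ : Equiv.Perm Om) : Prop := ∀ x, (σ x).1 = x.1 ∧ (σ x).2.1 = x.2.1

/-- The map only moves the copies on `D`. -/
def PureOn (φ : Om → Om) (D : Set Om) : Prop := ∀ x ∈ D, (φ x).1 = x.1 ∧ (φ x).2.1 = x.2.1

theorem lt_real {D : Set ℝ} (hD : D.Countable) : #D < #ℝ := by
  have h1 : #D ≤ ℵ₀ := Cardinal.mk_le_aleph0_iff.2 hD.to_subtype
  have h2 : ℵ₀ < #ℝ := Cardinal.aleph0_lt_mk
  exact h1.trans_lt h2

theorem exists_perm_real (D : Set ℝ) (hD : D.Countable) (φ : ℝ → ℝ) (hφ : Set.InjOn φ D) :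
    ∃ σ : Equiv.Perm ℝ, ∀ x ∈ D, σ x = φ x := by
  have h1 : #D < #ℝ := lt_real hD
  let e : D ↪ ℝ := Function.Embedding.mk (fun x : D => φ x.1)
    (fun x y h => Subtype.ext (hφ x.2 y.2 h))
  have h2 : #(Set.range e) < #ℝ := Cardinal.mk_range_le.trans_lt h1
  obtain ⟨g, hg⟩ := Cardinal.extend_function e
    (Cardinal.eq.1 (Cardinal.mk_compl_eq_mk_compl_infinite h1 h2))
  exact ⟨g, fun x hx => hg ⟨x, hx⟩⟩

theorem exists_pure {D : Set Om} (hD : D.Countable) {φ : Om → Om} (hφ : Set.InjOn φ D)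
    (hp : PureOn φ D) : ∃ σ : Equiv.Perm Om, Pure σ ∧ ∀ x ∈ D, σ x = φ x := by
  have h1 : ∀ (n : ℕ) (t : T), ∃ σ : Equiv.Perm ℝ, ∀ j, (n, t, j) ∈ D → σ j = (φ (n, t, j)).2.2 := by
    intro n t
    refine exists_perm_real {j | (n, t, j) ∈ D} ?_ (fun j => (φ (n, t, j)).2.2) ?_
    · refine (hD.image fun x : Om => x.2.2).mono ?_
      intro j hj
      exact ⟨_, hj, rfl⟩
    · intro j hj j' hj' h
      have h2 := hp _ hj
      have h3 := hp _ hj'
      have h4 : φ (n, t, j) = φ (n, t, j') := Prod.ext (h2.1.trans h3.1.symm)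
        (Prod.ext (h2.2.trans h3.2.symm) h)
      have h5 := hφ hj hj' h4
      simpa using h5
  choose σ hσ using h1
  refine ⟨⟨fun x => (x.1, x.2.1, σ x.1 x.2.1 x.2.2), fun x => (x.1, x.2.1, (σ x.1 x.2.1).symm x.2.2),
    fun x => ?_, fun x => ?_⟩, fun x => ⟨rfl, rfl⟩, ?_⟩
  · simp
  · simp
  · rintro ⟨n, t, j⟩ hx
    have h2 := hp _ hx
    change (n, t, σ n t j) = _
    rw [hσ n t j hx]
    exact Prod.ext h2.1.symm (Prod.ext h2.2.symm rfl)

/-- Infinitely many disjoint copies of `B` over `S`, away from `A`. -/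
theorem exists_copies {A B S : Set Om} (hA : A.Countable) (hB : B.Countable) (hS : S.Countable) :
    ∃ α : ℕ → Equiv.Perm Om, (∀ i, Pure (α i)) ∧ (∀ i, ∀ x ∈ S, α i x = x) ∧
      (∀ i, ∀ x ∈ B, x ∉ S → α i x ∉ A ∧ α i x ∉ B ∧ α i x ∉ S) ∧
      ∀ i j, ∀ x ∈ B, ∀ y ∈ B, x ∉ S → y ∉ S → α i x = α j y → i = j ∧ x = y := by
  classical
  set C : Set ℝ := (fun x : Om => x.2.2) '' (A ∪ B ∪ S) with hC
  have hCc : C.Countable := ((hA.union hB).union hS).image _
  have h1 : Uncountable (Cᶜ : Set ℝ) := by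
    rw [← Cardinal.aleph0_lt_mk_iff, Cardinal.mk_compl_of_infinite]
    · exact Cardinal.aleph0_lt_mk
    · exact lt_real hCc
  have h2 : Countable (ℕ × B) := by
    have := hB.to_subtype
    infer_instance
  obtain ⟨e, he⟩ : ∃ e : ℕ × B → (Cᶜ : Set ℝ), Function.Injective e := by
    obtain ⟨f, hf⟩ := exists_injective_nat (ℕ × B)
    have h3 : Infinite (Cᶜ : Set ℝ) := inferInstance
    exact ⟨fun x => Infinite.natEmbedding _ (f x),
      (Infinite.natEmbedding _).injective.comp hf⟩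
  let φ : ℕ → Om → Om := fun i x => if h : x ∈ B ∧ x ∉ S then (x.1, x.2.1, (e (i, ⟨x, h.1⟩)).1) else x
  have hpos : ∀ i x (hx : x ∈ B) (_ : x ∉ S), φ i x = (x.1, x.2.1, (e (i, ⟨x, hx⟩)).1) :=
    fun i x hx hs => dif_pos ⟨hx, hs⟩
  have hneg : ∀ i x, ¬ (x ∈ B ∧ x ∉ S) → φ i x = x := fun i x h => dif_neg h
  have hout : ∀ i x, x ∈ B → x ∉ S → φ i x ∉ A ∪ B ∪ S := by
    intro i x hx hs h
    rw [hpos i x hx hs] at h
    exact (e (i, ⟨x, hx⟩)).2 ⟨_, h, rfl⟩
  have hinj : ∀ i j x y, x ∈ B → y ∈ B → x ∉ S → y ∉ S → φ i x = φ j y → i = j ∧ x = y := by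
    intro i j x y hx hy hxs hys h
    rw [hpos i x hx hxs, hpos j y hy hys] at h
    have h3 : (e (i, ⟨x, hx⟩)).1 = (e (j, ⟨y, hy⟩)).1 := congrArg (fun z : Om => z.2.2) h
    have h4 := he (Subtype.ext h3)
    exact ⟨congrArg Prod.fst h4, congrArg (fun z => z.2.1) h4⟩
  have h3 : ∀ i, ∃ σ : Equiv.Perm Om, Pure σ ∧ ∀ x ∈ B ∪ S, σ x = φ i x := by
    intro i
    refine exists_pure (hB.union hS) ?_ ?_
    · intro x hx y hy h
      by_cases h4 : x ∈ B ∧ x ∉ S
      · by_cases h5 : y ∈ B ∧ y ∉ S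
        · exact (hinj i i x y h4.1 h5.1 h4.2 h5.2 h).2
        · exfalso
          rw [hneg i y h5] at h
          refine hout i x h4.1 h4.2 ?_
          rw [h]
          rcases hy with hy | hy
          exacts [Or.inl (Or.inr hy), Or.inr hy]
      · by_cases h5 : y ∈ B ∧ y ∉ S
        · exfalso
          rw [hneg i x h4] at h
          refine hout i y h5.1 h5.2 ?_
          rw [← h]
          rcases hx with hx | hx
          exacts [Or.inl (Or.inr hx), Or.inr hx]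
        · rwa [hneg i x h4, hneg i y h5] at h
    · intro x _
      by_cases h4 : x ∈ B ∧ x ∉ S
      · rw [hpos i x h4.1 h4.2]
        exact ⟨rfl, rfl⟩
      · rw [hneg i x h4]
        exact ⟨rfl, rfl⟩
  choose α hα hα' using h3
  refine ⟨α, hα, ?_, ?_, ?_⟩
  · intro i x hx
    rw [hα' i x (Or.inr hx), hneg i x fun h => h.2 hx]
  · intro i x hx hs
    rw [hα' i x (Or.inl hx)]
    have h4 := hout i x hx hs
    exact ⟨fun h => h4 (Or.inl (Or.inl h)), fun h => h4 (Or.inl (Or.inr h)), fun h => h4 (Or.inr h)⟩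
  · intro i j x hx y hy hxs hys h
    rw [hα' i x (Or.inl hx), hα' j y (Or.inl hy)] at h
    exact hinj i j x y hx hy hxs hys h

end Pool.Agent.Q207.CT
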