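import Mathlib

/-!
# Countable uniform spaces: schemes and enumerations of the completion
-/

set_option autoImplicit false

namespace Pool.Agent.Q207.CT

open Set Filter Uniformity Topology

/-- A uniform structure on `ℕ`, given by a decreasing sequence of relations. -/
structure Ent (E : ℕ → ℕ → ℕ → Prop) : Prop where
  rfl' : ∀ k i, E k i i
  sym : ∀ k i j, E k i j → E k j i
  mono : ∀ k l i j, l ≤ k → E k i j → E l i j
  half : ∀ k, ∃ l, ∀ a b c, E l a c → E l b c → E k a b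

/-- The sequence is a Cauchy sequence. -/
def Cau (E : ℕ → ℕ → ℕ → Prop) (b : ℕ → ℕ) : Prop :=
  ∀ k, ∃ N, ∀ m n, N ≤ m → N ≤ n → E k (b m) (b n)

namespace Ent

variable {E : ℕ → ℕ → ℕ → Prop} (h : Ent E)

/-- The points. -/
structure Pn : Type where
  /-- the number -/
  n : ℕ

instance : Countable Pn := by
  refine Function.Injective.countable (f := Pn.n) ?_
  rintro ⟨a⟩ ⟨b⟩ h
  exact congrArg Pn.mk h

/-- The basis. -/
def bas (_ : Ent E) (k : ℕ) : Set (Pn × Pn) := {p | E k p.1.n p.2.n}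

/-- The filter basis. -/
def fb : FilterBasis (Pn × Pn) where
  sets := range h.bas
  nonempty := ⟨_, 0, rfl⟩
  inter_sets := by
    rintro _ _ ⟨k, rfl⟩ ⟨l, rfl⟩
    exact ⟨h.bas (max k l), ⟨_, rfl⟩, fun p hp =>
      ⟨h.mono _ _ _ _ (le_max_left _ _) hp, h.mono _ _ _ _ (le_max_right _ _) hp⟩⟩

/-- The uniform structure. -/
@[reducible] def us : UniformSpace Pn := UniformSpace.ofCore
  (UniformSpace.Core.mkOfBasis h.fb
    (by
      rintro _ ⟨k, rfl⟩ x
      exact h.rfl' k x.n)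
    (by
      rintro _ ⟨k, rfl⟩
      exact ⟨_, ⟨k, rfl⟩, fun p hp => h.sym _ _ _ hp⟩)
    (by
      rintro _ ⟨k, rfl⟩
      obtain ⟨l, hl⟩ := h.half k
      refine ⟨_, ⟨l, rfl⟩, ?_⟩
      rintro ⟨a, b⟩ ⟨c, h1, h2⟩
      exact hl a.n b.n c.n h1 (h.sym _ _ _ h2)))

theorem has : (@uniformity Pn h.us).HasBasis (fun _ : ℕ => True) h.bas := by
  refine ⟨fun t => ?_⟩
  change t ∈ h.fb.filter ↔ _
  rw [FilterBasis.mem_filter_iff]
  constructor
  · rintro ⟨_, ⟨k, rfl⟩, hk⟩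
    exact ⟨k, trivial, hk⟩
  · rintro ⟨k, -, hk⟩
    exact ⟨_, ⟨k, rfl⟩, hk⟩

theorem cg : (@uniformity Pn h.us).IsCountablyGenerated :=
  h.has.isCountablyGenerated

/-- The completion, with its properties. -/
structure IsCpl (E : ℕ → ℕ → ℕ → Prop) (X : Type) [MetricSpace X] (co : ℕ → X) : Prop where
  den : DenseRange co
  unif : ∀ k, ∃ ε > 0, ∀ i j, dist (co i) (co j) < ε → E k i j
  unif' : ∀ ε : ℝ, 0 < ε → ∃ k, ∀ i j, E k i j → dist (co i) (co j) < ε

include h in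
theorem exists_cpl : ∃ (X : Type) (_ : MetricSpace X) (_ : CompleteSpace X)
    (_ : SecondCountableTopology X) (co : ℕ → X), IsCpl E X co := by
  letI := h.us
  haveI := h.cg
  letI := UniformSpace.pseudoMetricSpace Pn
  refine ⟨UniformSpace.Completion Pn, inferInstance, inferInstance, inferInstance,
    fun i => (UniformSpace.Completion.coe' (⟨i⟩ : Pn)), ?_, ?_, ?_⟩
  · have h1 : DenseRange (UniformSpace.Completion.coe' : Pn → UniformSpace.Completion Pn) :=
      UniformSpace.Completion.denseRange_coe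
    refine h1.mono ?_
    rintro _ ⟨⟨i⟩, rfl⟩
    exact ⟨i, rfl⟩
  · intro k
    have h1 : h.bas k ∈ 𝓤 Pn := h.has.mem_of_mem trivial
    obtain ⟨ε, hε, h2⟩ := Metric.mem_uniformity_dist.1 h1
    refine ⟨ε, hε, fun i j hij => ?_⟩
    have h3 : dist ((⟨i⟩ : Pn) : UniformSpace.Completion Pn) ((⟨j⟩ : Pn)) =
      dist (⟨i⟩ : Pn) ⟨j⟩ := UniformSpace.Completion.dist_eq _ _
    rw [h3] at hij
    exact h2 hij
  · intro ε hε
    have h1 : {p : Pn × Pn | dist p.1 p.2 < ε} ∈ 𝓤 Pn := Metric.dist_mem_uniformity hε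
    obtain ⟨k, -, h2⟩ := h.has.mem_iff.1 h1
    refine ⟨k, fun i j hij => ?_⟩
    have h3 : dist ((⟨i⟩ : Pn) : UniformSpace.Completion Pn) ((⟨j⟩ : Pn)) =
      dist (⟨i⟩ : Pn) ⟨j⟩ := UniformSpace.Completion.dist_eq _ _
    rw [h3]
    exact h2 (show ((⟨i⟩, ⟨j⟩) : Pn × Pn) ∈ h.bas k from hij)

namespace IsCpl

variable {X : Type} [MetricSpace X] {co : ℕ → X} (hc : IsCpl E X co)

include hc

theorem exists_near (x : X) (n : ℕ) : ∃ i, dist (co i) x < 1 / (n + 1) := by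
  obtain ⟨i, hi⟩ := hc.den.exists_dist_lt x (Nat.one_div_pos_of_nat (n := n) (α := ℝ))
  exact ⟨i, by rwa [dist_comm]⟩

theorem tend {x : ℕ → X} {y : X} (hx : Tendsto x atTop (𝓝 y)) {b : ℕ → ℕ}
    (hb : ∀ n, dist (co (b n)) (x n) < 1 / ((n : ℝ) + 1)) :
    Tendsto (fun n => co (b n)) atTop (𝓝 y) := by
  rw [tendsto_iff_dist_tendsto_zero] at hx ⊢
  have h1 : Tendsto (fun n : ℕ => 1 / ((n : ℝ) + 1) + dist (x n) y) atTop (𝓝 0) := by
    simpa using (tendsto_one_div_add_atTop_nhds_zero_nat (𝕜 := ℝ)).add hx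
  refine squeeze_zero (fun _ => dist_nonneg) (fun n => ?_) h1
  exact (dist_triangle _ (x n) _).trans (by linarith [hb n])

theorem cau_of {b : ℕ → ℕ} {y : X} (hb : Tendsto (fun n => co (b n)) atTop (𝓝 y)) :
    Cau E b := by
  intro k
  obtain ⟨ε, hε, h1⟩ := hc.unif k
  obtain ⟨N, hN⟩ := Metric.tendsto_atTop.1 hb (ε / 2) (half_pos hε)
  refine ⟨N, fun m n hm hn => h1 _ _ ?_⟩
  have h2 := hN m hm
  have h3 := hN n hn
  rw [dist_comm] at h3
  calc dist (co (b m)) (co (b n)) ≤ dist (co (b m)) y + dist y (co (b n)) :=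
        dist_triangle _ _ _
    _ < ε / 2 + ε / 2 := add_lt_add h2 h3
    _ = ε := by ring

theorem eq_of {b b' : ℕ → ℕ} {y : X} (hb : Tendsto (fun n => co (b n)) atTop (𝓝 y))
    (hb' : Tendsto (fun n => co (b' n)) atTop (𝓝 y)) :
    ∀ k, ∃ N, ∀ n, N ≤ n → E k (b n) (b' n) := by
  intro k
  obtain ⟨ε, hε, h1⟩ := hc.unif k
  obtain ⟨N, hN⟩ := Metric.tendsto_atTop.1 hb (ε / 2) (half_pos hε)
  obtain ⟨N', hN'⟩ := Metric.tendsto_atTop.1 hb' (ε / 2) (half_pos hε)
  refine ⟨max N N', fun n hn => h1 _ _ ?_⟩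
  have h2 := hN n ((le_max_left _ _).trans hn)
  have h3 := hN' n ((le_max_right _ _).trans hn)
  rw [dist_comm] at h3
  calc dist (co (b n)) (co (b' n)) ≤ dist (co (b n)) y + dist y (co (b' n)) :=
        dist_triangle _ _ _
    _ < ε / 2 + ε / 2 := add_lt_add h2 h3
    _ = ε := by ring

theorem ne_of {b b' : ℕ → ℕ} {y y' : X} (hb : Tendsto (fun n => co (b n)) atTop (𝓝 y))
    (hb' : Tendsto (fun n => co (b' n)) atTop (𝓝 y')) (hy : y ≠ y') :
    ∃ k N, ∀ n, N ≤ n → ¬ E k (b n) (b' n) := by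
  have hd : 0 < dist y y' := dist_pos.2 hy
  obtain ⟨k, hk⟩ := hc.unif' (dist y y' / 3) (by linarith)
  obtain ⟨N, hN⟩ := Metric.tendsto_atTop.1 hb (dist y y' / 3) (by linarith)
  obtain ⟨N', hN'⟩ := Metric.tendsto_atTop.1 hb' (dist y y' / 3) (by linarith)
  refine ⟨k, max N N', fun n hn hE => ?_⟩
  have h1 := hk _ _ hE
  have h2 := hN n ((le_max_left _ _).trans hn)
  have h3 := hN' n ((le_max_right _ _).trans hn)
  rw [dist_comm] at h2
  have h4 : dist y y' ≤ dist y (co (b n)) + dist (co (b n)) (co (b' n)) +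
      dist (co (b' n)) y' := dist_triangle4 _ _ _ _
  linarith

theorem lim_of_cau [CompleteSpace X] {b : ℕ → ℕ} (hb : Cau E b) :
    ∃ y, Tendsto (fun n => co (b n)) atTop (𝓝 y) := by
  refine cauchySeq_tendsto_of_complete ?_
  rw [Metric.cauchySeq_iff]
  intro ε hε
  obtain ⟨k, hk⟩ := hc.unif' _ hε
  obtain ⟨N, hN⟩ := hb k
  exact ⟨N, fun m hm n hn => hk _ _ (hN m n hm hn)⟩

/-- A scheme. -/
theorem exists_scheme [CompleteSpace X] [SecondCountableTopology X] (hu : ¬ (Set.univ : Set X).Countable) :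
    ∃ φ : ℕ → (ℕ → Bool) → ℕ, (∀ m d d', (∀ i < m, d i = d' i) → φ m d = φ m d') ∧
      (∀ d, Cau E fun m => φ m d) ∧
      ∀ d d', d ≠ d' → ∃ k N, ∀ m, N ≤ m → ¬ E k (φ m d) (φ m d') := by
  obtain ⟨f, -, hf, hf'⟩ := IsClosed.exists_nat_bool_injection_of_not_countable isClosed_univ hu
  choose ι hι using hc.exists_near
  let cut : ℕ → (ℕ → Bool) → (ℕ → Bool) := fun m c i => if i < m then c i else false
  have h1 : ∀ c : ℕ → Bool, Tendsto (fun m => cut m c) atTop (𝓝 c) := by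
    intro c
    rw [tendsto_pi_nhds]
    intro i
    refine tendsto_const_nhds.congr' ?_
    filter_upwards [eventually_gt_atTop i] with m hm
    exact (if_pos hm).symm
  have h2 : ∀ c : ℕ → Bool, Tendsto (fun m => co (ι (f (cut m c)) m)) atTop (𝓝 (f c)) :=
    fun c => hc.tend ((hf.tendsto c).comp (h1 c)) fun n => hι _ n
  refine ⟨fun m c => ι (f (cut m c)) m, ?_, fun c => hc.cau_of (h2 c), fun c c' hd =>
    hc.ne_of (h2 c) (h2 c') (hf'.ne hd)⟩
  intro m c c' hcc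
  have h3 : cut m c = cut m c' := by
    funext i
    by_cases hi : i < m
    · change (if i < m then c i else false) = if i < m then c' i else false
      rw [if_pos hi, if_pos hi, hcc i hi]
    · change (if i < m then c i else false) = if i < m then c' i else false
      rw [if_neg hi, if_neg hi]
  change ι (f (cut m c)) m = ι (f (cut m c')) m
  rw [h3]

/-- An enumeration of the Cauchy sequences. -/
theorem exists_enum [CompleteSpace X] (hu : (Set.univ : Set X).Countable) :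
    ∃ C : ℕ → ℕ → ℕ, ∀ b, Cau E b → ∃ l, ∀ k, ∃ N, ∀ n, N ≤ n → E k (b n) (C l n) := by
  have h0 : (Set.univ : Set X).Nonempty := ⟨co 0, trivial⟩
  obtain ⟨e, he⟩ := hu.exists_eq_range h0
  choose ι hι using hc.exists_near
  refine ⟨fun l n => ι (e l) n, fun b hb => ?_⟩
  obtain ⟨y, hy⟩ := hc.lim_of_cau hb
  obtain ⟨l, hl⟩ : y ∈ Set.range e := he ▸ trivial
  exact ⟨l, hc.eq_of hy (hc.tend (y := y) (hl ▸ tendsto_const_nhds) fun n => hι _ n)⟩

/-- If there are no isolated points, then the completion is uncountable. -/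
theorem uncountable_of [CompleteSpace X] (hd : ∀ i k, ∃ j, E k i j ∧ ∃ l, ¬ E l i j) :
    ¬ (Set.univ : Set X).Countable := by
  have hp : Preperfect (Set.univ : Set X) := by
    intro x _
    rw [accPt_iff_nhds]
    intro U hU
    obtain ⟨ε, hε, h1⟩ := Metric.mem_nhds_iff.1 hU
    obtain ⟨i, hi⟩ := hc.den.exists_dist_lt x (half_pos hε)
    rw [dist_comm] at hi
    obtain ⟨k, hk⟩ := hc.unif' _ (half_pos hε)
    obtain ⟨j, hj, l, hl⟩ := hd i k
    have h2 := hk i j hj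
    have h3 : co i ≠ co j := by
      intro h3
      obtain ⟨ε', hε', h4⟩ := hc.unif l
      refine hl (h4 i j ?_)
      rw [h3, dist_self]
      exact hε'
    by_cases h4 : co i = x
    · refine ⟨co j, ⟨h1 ?_, trivial⟩, fun h5 => h3 (h4.trans h5.symm)⟩
      rw [Metric.mem_ball, dist_comm, ← h4]
      linarith
    · exact ⟨co i, ⟨h1 (by rw [Metric.mem_ball]; linarith), trivial⟩, h4⟩
  have h1 : Perfect (Set.univ : Set X) := ⟨isClosed_univ, hp⟩
  obtain ⟨f, -, -, hf⟩ := h1.exists_nat_bool_injection ⟨co 0, trivial⟩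
  intro hcc
  haveI : Countable X := Set.countable_univ_iff.1 hcc
  have h2 : Countable (ℕ → Bool) := hf.countable
  rw [← Cardinal.mk_le_aleph0_iff] at h2
  have h3 : Cardinal.mk (ℕ → Bool) = 2 ^ Cardinal.aleph0 := by simp
  rw [h3] at h2
  exact absurd h2 (not_le.2 (Cardinal.cantor _))

end IsCpl

end Ent

end Pool.Agent.Q207.CT
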