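import Pool.Agent.Q207.CT.Sq
import Pool.Agent.Q207.CT.VS

/-!
# Complete spaces in transitive models: sizes
-/

set_option autoImplicit false
set_option linter.unusedSectionVars false
set_option linter.unreachableTactic false
set_option linter.unusedTactic false

namespace Pool.Agent.Q207.CT

open Pool.Agent.W868 Pool.Agent.W868.PName Pool.Agent.Q211.SY
open Pool.Agent.Q211.FS (reg ud_reg tb ud_tb hf)
open ZFSet (pair)

/-- The power set of `ω` of the model injects into `X`, in the model. -/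
def CLe (M : Set ZFSet.{0}) (X : ZFSet.{0}) : Prop :=
  ∃ W ∈ M, (∀ z ∈ M, z ∈ W ↔ z ⊆ ZFSet.omega) ∧ ∃ f ∈ M, IsInj W X f

theorem ud_cle : UD fun M (v : Fin 1 → ZFSet.{0}) => CLe M (v 0) := by
  unfold CLe
  (repeat' first
      | assumption
      | exact UF.proj _
      | exact UF.om
      | exact UF.empty
      | exact UD.prop _
      | exact UF.nat _
      | apply UD.isInj | apply UD.isFunc
      | apply UD.not | apply UD.and | apply UD.or | apply UD.imp | apply UD.iff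
      | apply UD.bex | apply UD.ball | apply UD.ex | apply UD.all | apply UD.subset
      | apply UD.eq | apply UD.mem | apply UF.pair
      | apply UF.insert)

theorem ud_cnt : UD fun M (v : Fin 1 → ZFSet.{0}) => CntIn M (v 0) := by
  unfold CntIn
  (repeat' first
      | assumption
      | exact UF.proj _
      | exact UF.om
      | exact UF.empty
      | exact UD.prop _
      | exact UF.nat _
      | apply UD.isInj | apply UD.isFunc
      | apply UD.not | apply UD.and | apply UD.or | apply UD.imp | apply UD.iff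
      | apply UD.bex | apply UD.ball | apply UD.ex | apply UD.all | apply UD.subset
      | apply UD.eq | apply UD.mem | apply UF.pair
      | apply UF.insert)

/-- The code of a binary function on the natural numbers. -/
noncomputable def code2 (C : ℕ → ℕ → ℕ) : ZFSet.{0} :=
  ZFSet.range fun t : ℕ × ℕ => pair (pair (nat t.1) (nat t.2)) (nat (C t.1 t.2))

/-- The table of the binary digits. -/
noncomputable def bitT : ZFSet.{0} :=
  ZFSet.range fun t : {t : ℕ × ℕ // t.1.testBit t.2 = true} => pair (nat t.1.1) (nat t.1.2)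

theorem mem_code2 {C : ℕ → ℕ → ℕ} {i j n : ZFSet.{0}} :
    pair (pair i j) n ∈ code2 C ↔ ∃ a b, i = nat a ∧ j = nat b ∧ n = nat (C a b) := by
  rw [code2, ZFSet.mem_range]
  constructor
  · rintro ⟨⟨a, b⟩, h⟩
    obtain ⟨h1, h2⟩ := ZFSet.pair_inj.1 h
    obtain ⟨h3, h4⟩ := ZFSet.pair_inj.1 h1
    exact ⟨a, b, h3.symm, h4.symm, h2.symm⟩
  · rintro ⟨a, b, rfl, rfl, rfl⟩
    exact ⟨(a, b), rfl⟩

theorem mem_code2' {C : ℕ → ℕ → ℕ} {a b : ℕ} {n : ZFSet.{0}} :
    pair (pair (nat a) (nat b)) n ∈ code2 C ↔ n = nat (C a b) := by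
  rw [mem_code2]
  constructor
  · rintro ⟨a', b', h1, h2, rfl⟩
    rw [nat_injective h1, nat_injective h2]
  · rintro rfl
    exact ⟨a, b, rfl, rfl, rfl⟩

theorem mem_bitT {a b : ℕ} : pair (nat a) (nat b) ∈ bitT ↔ a.testBit b = true := by
  rw [bitT, ZFSet.mem_range]
  constructor
  · rintro ⟨⟨⟨a', b'⟩, h0⟩, h⟩
    obtain ⟨h3, h4⟩ := ZFSet.pair_inj.1 h
    rw [← nat_injective h3, ← nat_injective h4]
    exact h0
  · intro h
    exact ⟨⟨(a, b), h⟩, rfl⟩

theorem exists_bits (c : ℕ → Bool) (m : ℕ) : ∃ e : ℕ, ∀ i < m, e.testBit i = c i :=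
  ⟨Nat.ofBits (fun i : Fin m => c i), fun i hi => Nat.testBit_ofBits_lt _ i hi⟩

/-! ### Limits -/

/-- The point `x` is the limit of the sequence. -/
def Lim (D x : ZFSet.{0}) (s : ℕ → ZFSet.{0}) : Prop :=
  ∀ k : ℕ, ∃ N, ∀ n, N ≤ n → pair (pair x (s n)) (nat k) ∈ D

/-- A sequence of points in a complete space. -/
structure Dat (M : Set ZFSet.{0}) (X D : ZFSet.{0}) (E : ℕ → ℕ → ℕ → Prop) (a : ℕ → ZFSet.{0})
    (t : ZFSet.{0}) : Prop where
  hM : IsZF M
  hX : X ∈ M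
  hD : D ∈ M
  gd : GD M X D
  aX : ∀ i, a i ∈ X
  ht : t ∈ M
  hta : ∀ z, z ∈ t ↔ ∃ i, z = pair (nat i) (a i)
  hE : ∀ k i j, pair (pair (a i) (a j)) (nat k) ∈ D ↔ E k i j

namespace Dat

variable {M : Set ZFSet.{0}} {X D : ZFSet.{0}} {E : ℕ → ℕ → ℕ → Prop} {a : ℕ → ZFSet.{0}}
  {t : ZFSet.{0}} (d : Dat M X D E a t)

include d

theorem ent : Ent E where
  rfl' k i := (d.hE k i i).1 (d.gd.rf (d.aX i) k)
  sym k i j h := (d.hE k j i).1 (d.gd.sy (d.aX i) (d.aX j) ((d.hE k i j).2 h))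
  mono k l i j hl h := (d.hE l i j).1 (d.gd.mo (d.aX i) (d.aX j) hl ((d.hE k i j).2 h))
  half k := by
    obtain ⟨l, hl⟩ := d.gd.ha k
    exact ⟨l, fun i j c h1 h2 => (d.hE k i j).1 (hl _ (d.aX i) _ (d.aX j) _ (d.aX c)
      ((d.hE l i c).2 h1) ((d.hE l j c).2 h2))⟩

theorem pair_mem_t {i : ℕ} {y : ZFSet.{0}} : pair (nat i) y ∈ t ↔ y = a i := by
  rw [d.hta]
  constructor
  · rintro ⟨j, hj⟩
    obtain ⟨h1, h2⟩ := ZFSet.pair_inj.1 hj
    rw [h2, nat_injective h1]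
  · rintro rfl
    exact ⟨i, rfl⟩

theorem lim_iff {L : ZFSet.{0} → ZFSet.{0} → Prop} {s : ℕ → ZFSet.{0}} (hs : ∀ n, s n ∈ X)
    (hL : ∀ m : ℕ, ∀ y ∈ X, L (nat m) y ↔ y = s m) {x : ZFSet.{0}} :
    (∀ k ∈ ZFSet.omega, ∃ n ∈ ZFSet.omega, ∀ m ∈ ZFSet.omega, n ∈ m → ∀ y ∈ X, L m y →
      pair (pair x y) k ∈ D) ↔ Lim D x s := by
  constructor
  · intro h k
    obtain ⟨n, hn, h1⟩ := h _ (mem_omega_iff.2 ⟨k, rfl⟩)
    obtain ⟨n, rfl⟩ := mem_omega_iff.1 hn
    exact ⟨n + 1, fun m hm => h1 _ (mem_omega_iff.2 ⟨m, rfl⟩) (nat_mem_nat.2 hm) _ (hs m)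
      ((hL m _ (hs m)).2 rfl)⟩
  · intro h k hk
    obtain ⟨k, rfl⟩ := mem_omega_iff.1 hk
    obtain ⟨N, hN⟩ := h k
    refine ⟨nat N, mem_omega_iff.2 ⟨N, rfl⟩, fun m hm hNm y hy hLy => ?_⟩
    obtain ⟨m, rfl⟩ := mem_omega_iff.1 hm
    rw [(hL m y hy).1 hLy]
    exact hN m (nat_mem_nat.1 hNm).le

theorem lim_sep {x : ZFSet.{0}} (hx : x ∈ X) {s s' : ℕ → ZFSet.{0}} (hs : ∀ n, s n ∈ X)
    (hs' : ∀ n, s' n ∈ X) (h : Lim D x s) (h' : Lim D x s') (k : ℕ) :
    ∃ N, ∀ n, N ≤ n → pair (pair (s n) (s' n)) (nat k) ∈ D := by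
  obtain ⟨l, hl⟩ := d.gd.ha k
  obtain ⟨N, hN⟩ := h l
  obtain ⟨N', hN'⟩ := h' l
  exact ⟨max N N', fun n hn => hl _ (hs n) _ (hs' n) x hx
    (d.gd.sy hx (hs n) (hN n ((le_max_left _ _).trans hn)))
    (d.gd.sy hx (hs' n) (hN' n ((le_max_right _ _).trans hn)))⟩

theorem lim_unique {x x' : ZFSet.{0}} (hx : x ∈ X) (hx' : x' ∈ X) {s : ℕ → ZFSet.{0}}
    (hs : ∀ n, s n ∈ X) (h : Lim D x s) (h' : Lim D x' s) : x = x' := by
  refine d.gd.se hx hx' fun k => ?_
  obtain ⟨l, hl⟩ := d.gd.ha k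
  obtain ⟨N, hN⟩ := h l
  obtain ⟨N', hN'⟩ := h' l
  exact hl x hx x' hx' (s (max N N')) (hs _) (hN _ (le_max_left _ _)) (hN' _ (le_max_right _ _))

theorem exists_lim {b : ℕ → ℕ} (hb : Cau E b) {L : ZFSet.{0}} (hL : L ∈ M)
    (hLa : ∀ z, z ∈ L ↔ ∃ i, z = pair (nat i) (a (b i))) :
    ∃ x ∈ X, Lim D x fun n => a (b n) :=
  d.gd.cp (fun i => d.aX (b i)) hL hLa fun k => by
    obtain ⟨N, hN⟩ := hb k
    exact ⟨N, fun m n hm hn => (d.hE k _ _).2 (hN m n hm hn)⟩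

/-- A scheme gives many points. -/
theorem cle {φ : ℕ → (ℕ → Bool) → ℕ} (h1 : ∀ m c c', (∀ i < m, c i = c' i) → φ m c = φ m c')
    (h2 : ∀ c, Cau E fun m => φ m c)
    (h3 : ∀ c c', c ≠ c' → ∃ k N, ∀ m, N ≤ m → ¬ E k (φ m c) (φ m c'))
    (hΦ : code2 (fun m e => φ m fun i => e.testBit i) ∈ M) (hbt : bitT ∈ M) : CLe M X := by
  classical
  have hM := d.hM
  have hB := hM.base
  have h0 := hM.infinity
  have hX := d.hX
  have hD := d.hD
  have ht := d.ht
  obtain ⟨W, hW, hW'⟩ := hM.power _ h0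
  set Φ := code2 (fun m e => φ m fun i => e.testBit i) with hΦ'
  let L : ZFSet.{0} → ZFSet.{0} → ZFSet.{0} → Prop := fun b m y => ∃ e ∈ ZFSet.omega,
    (∀ i ∈ m, pair e i ∈ bitT ↔ i ∈ b) ∧ ∃ c ∈ ZFSet.omega, pair (pair m e) c ∈ Φ ∧ pair c y ∈ t
  let cb : ZFSet.{0} → ℕ → Bool := fun b i => decide (nat i ∈ b)
  have hL : ∀ b (m : ℕ) y, L b (nat m) y ↔ y = a (φ m (cb b)) := by
    intro b m y
    have h4 : ∀ e : ℕ, (∀ i ∈ nat m, pair (nat e) i ∈ bitT ↔ i ∈ b) →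
        φ m (fun i => e.testBit i) = φ m (cb b) := by
      intro e he
      refine h1 m _ _ fun i hi => ?_
      have h5 := he (nat i) (nat_mem_nat.2 hi)
      rw [mem_bitT] at h5
      change e.testBit i = decide (nat i ∈ b)
      by_cases h6 : nat i ∈ b
      · rw [h5.2 h6]
        exact (decide_eq_true h6).symm
      · rw [decide_eq_false h6, ← Bool.not_eq_true]
        exact fun h7 => h6 (h5.1 h7)
    constructor
    · rintro ⟨e, he, h5, c, hc, h6, h7⟩
      obtain ⟨e, rfl⟩ := mem_omega_iff.1 he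
      rw [hΦ', mem_code2'] at h6
      rw [h6, d.pair_mem_t, h4 e h5] at h7
      exact h7
    · rintro rfl
      obtain ⟨e, he⟩ := exists_bits (cb b) m
      have h5 : ∀ i ∈ nat m, pair (nat e) i ∈ bitT ↔ i ∈ b := by
        intro i hi
        obtain ⟨i, hi', rfl⟩ := mem_nat_iff.1 hi
        rw [mem_bitT, he i hi']
        exact decide_eq_true_iff
      refine ⟨nat e, mem_omega_iff.2 ⟨e, rfl⟩, h5, nat (φ m (cb b)),
        mem_omega_iff.2 ⟨_, rfl⟩, ?_, d.pair_mem_t.2 rfl⟩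
      rw [hΦ', mem_code2', h4 e h5]
  obtain ⟨F, hF, hFs, hF'⟩ := hM.rel_mem hW hX (Q := fun b x => ∀ k ∈ ZFSet.omega,
    ∃ n ∈ ZFSet.omega, ∀ m ∈ ZFSet.omega, n ∈ m → ∀ y ∈ X, (∃ e ∈ ZFSet.omega,
    (∀ i ∈ m, pair e i ∈ bitT ↔ i ∈ b) ∧ ∃ c ∈ ZFSet.omega, pair (pair m e) c ∈ Φ ∧
    pair c y ∈ t) → pair (pair x y) k ∈ D) (by (repeat' first
      | assumption
      | exact DfnF.proj _
      | exact DfnF.const (by assumption)
      | exact DfnF.const' (by first | assumption | trivial) (by first | assumption | trivial)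
      | exact Dfn.prop _
      | apply Dfn.not | apply Dfn.and | apply Dfn.or | apply Dfn.imp | apply Dfn.iff
      | apply hB.bex | apply hB.ball | apply Dfn.ex | apply Dfn.all
      | apply Dfn.eq | apply Dfn.mem | apply hB.pair' | apply hB.subset' | apply hB.insert'
      | apply hB.isFunc' | apply hB.isInj' | apply hB.isBij' | apply hB.isOrdinal'))
  have hFl : ∀ b x, pair b x ∈ F ↔ b ∈ W ∧ x ∈ X ∧ Lim D x fun m => a (φ m (cb b)) := by
    intro b x
    rw [hF' b x]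
    exact and_congr_right fun _ => and_congr_right fun _ =>
      d.lim_iff (L := L b) (fun n => d.aX _) fun m y _ => hL b m y
  refine ⟨W, hW, fun z hz => ?_, F, hF, ⟨⟨fun z hz => ?_, fun b hb => ?_⟩, fun b b' x hb hb' => ?_⟩⟩
  · rw [hW' z]
    exact and_iff_right hz
  · exact hFs hz
  · have hbM : b ∈ M := ((hW' b).1 hb).1
    obtain ⟨Lb, hLb, hLb1, hLb'⟩ := hM.rel_mem h0 hX (Q := fun m y => ∃ e ∈ ZFSet.omega,
      (∀ i ∈ m, pair e i ∈ bitT ↔ i ∈ b) ∧ ∃ c ∈ ZFSet.omega, pair (pair m e) c ∈ Φ ∧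
      pair c y ∈ t) (by (repeat' first
      | assumption
      | exact DfnF.proj _
      | exact DfnF.const (by assumption)
      | exact DfnF.const' (by first | assumption | trivial) (by first | assumption | trivial)
      | exact Dfn.prop _
      | apply Dfn.not | apply Dfn.and | apply Dfn.or | apply Dfn.imp | apply Dfn.iff
      | apply hB.bex | apply hB.ball | apply Dfn.ex | apply Dfn.all
      | apply Dfn.eq | apply Dfn.mem | apply hB.pair' | apply hB.subset' | apply hB.insert'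
      | apply hB.isFunc' | apply hB.isInj' | apply hB.isBij' | apply hB.isOrdinal'))
    obtain ⟨x, hx, hxl⟩ := d.exists_lim (h2 (cb b)) hLb (fun z => by
      constructor
      · intro hz
        obtain ⟨m, hm, y, hy, rfl⟩ := ZFSet.mem_prod.1 (hLb1 hz)
        obtain ⟨m, rfl⟩ := mem_omega_iff.1 hm
        have h5 := ((hLb' _ _).1 hz).2.2
        exact ⟨m, by rw [(hL b m y).1 h5]⟩
      · rintro ⟨m, rfl⟩
        exact (hLb' _ _).2 ⟨mem_omega_iff.2 ⟨m, rfl⟩, d.aX _, (hL b m _).2 rfl⟩)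
    exact ⟨x, (hFl b x).2 ⟨hb, hx, hxl⟩, fun x' hx' =>
      d.lim_unique ((hFl b x').1 hx').2.1 hx (fun n => d.aX _) ((hFl b x').1 hx').2.2 hxl⟩
  · obtain ⟨hbW, hx, hl⟩ := (hFl b x).1 hb
    obtain ⟨hbW', -, hl'⟩ := (hFl b' x).1 hb'
    have h4 : cb b = cb b' := by
      by_contra h4
      obtain ⟨k, N, h5⟩ := h3 _ _ h4
      obtain ⟨N', h6⟩ := d.lim_sep hx (fun n => d.aX _) (fun n => d.aX _) hl hl' k
      exact h5 (max N N') (le_max_left _ _) ((d.hE k _ _).1 (h6 _ (le_max_right _ _)))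
    ext z
    have h5 : ∀ i : ℕ, nat i ∈ b ↔ nat i ∈ b' := by
      intro i
      have h6 := congrFun h4 i
      change decide (nat i ∈ b) = decide (nat i ∈ b') at h6
      rwa [decide_eq_decide] at h6
    constructor
    · intro hz
      obtain ⟨i, rfl⟩ := mem_omega_iff.1 (((hW' b).1 hbW).2 hz)
      exact (h5 i).1 hz
    · intro hz
      obtain ⟨i, rfl⟩ := mem_omega_iff.1 (((hW' b').1 hbW').2 hz)
      exact (h5 i).2 hz

/-- An enumeration of the Cauchy sequences gives an enumeration of the points. -/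
theorem cnt (hden : ∀ x ∈ X, ∀ k : ℕ, ∃ i, pair (pair (a i) x) (nat k) ∈ D) {C : ℕ → ℕ → ℕ}
    (hC : ∀ b, Cau E b → ∃ l, ∀ k, ∃ N, ∀ n, N ≤ n → E k (b n) (C l n))
    (hΓ : code2 C ∈ M) : CntIn M X := by
  have hM := d.hM
  have hB := hM.base
  have h0 := hM.infinity
  have hX := d.hX
  have hD := d.hD
  have ht := d.ht
  set Γ := code2 C with hΓ'
  have h1 : CntIn M ZFSet.omega := by
    obtain ⟨f, hf, hfs, hf'⟩ := hM.rel_mem h0 h0 (Q := fun x y => x = y) (by (repeat' first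
      | assumption
      | exact DfnF.proj _
      | exact DfnF.const (by assumption)
      | exact DfnF.const' (by first | assumption | trivial) (by first | assumption | trivial)
      | exact Dfn.prop _
      | apply Dfn.not | apply Dfn.and | apply Dfn.or | apply Dfn.imp | apply Dfn.iff
      | apply hB.bex | apply hB.ball | apply Dfn.ex | apply Dfn.all
      | apply Dfn.eq | apply Dfn.mem | apply hB.pair' | apply hB.subset' | apply hB.insert'
      | apply hB.isFunc' | apply hB.isInj' | apply hB.isBij' | apply hB.isOrdinal'))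
    refine ⟨f, hf, ⟨hfs, fun z hz => ⟨z, (hf' z z).2 ⟨hz, hz, rfl⟩, fun w hw =>
      ((hf' z w).1 hw).2.2.symm⟩⟩, fun x y z hx hy => ?_⟩
    rw [((hf' x z).1 hx).2.2, ((hf' y z).1 hy).2.2]
  have hG : ∀ (l : ℕ) x, (∀ k ∈ ZFSet.omega, ∃ n ∈ ZFSet.omega, ∀ m ∈ ZFSet.omega, n ∈ m →
      ∀ y ∈ X, (∃ c ∈ ZFSet.omega, pair (pair (nat l) m) c ∈ Γ ∧ pair c y ∈ t) →
      pair (pair x y) k ∈ D) ↔ Lim D x fun m => a (C l m) := by
    intro l x
    refine d.lim_iff (L := fun m y => ∃ c ∈ ZFSet.omega, pair (pair (nat l) m) c ∈ Γ ∧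
      pair c y ∈ t) (fun n => d.aX _) fun m y _ => ?_
    constructor
    · rintro ⟨c, -, h5, h6⟩
      rw [hΓ', mem_code2'] at h5
      rwa [h5, d.pair_mem_t] at h6
    · rintro rfl
      exact ⟨nat (C l m), mem_omega_iff.2 ⟨_, rfl⟩, mem_code2'.2 rfl, d.pair_mem_t.2 rfl⟩
  refine cnt_image hM h1 h0 hX (G := fun l x => ∀ k ∈ ZFSet.omega,
    ∃ n ∈ ZFSet.omega, ∀ m ∈ ZFSet.omega, n ∈ m → ∀ y ∈ X, (∃ c ∈ ZFSet.omega,
    pair (pair l m) c ∈ Γ ∧ pair c y ∈ t) → pair (pair x y) k ∈ D) (by (repeat' first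
      | assumption
      | exact DfnF.proj _
      | exact DfnF.const (by assumption)
      | exact DfnF.const' (by first | assumption | trivial) (by first | assumption | trivial)
      | exact Dfn.prop _
      | apply Dfn.not | apply Dfn.and | apply Dfn.or | apply Dfn.imp | apply Dfn.iff
      | apply hB.bex | apply hB.ball | apply Dfn.ex | apply Dfn.all
      | apply Dfn.eq | apply Dfn.mem | apply hB.pair' | apply hB.subset' | apply hB.insert'
      | apply hB.isFunc' | apply hB.isInj' | apply hB.isBij' | apply hB.isOrdinal')) ?_ ?_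
  · intro l hl x hx y hy h2 h3
    obtain ⟨l, rfl⟩ := mem_omega_iff.1 hl
    exact d.lim_unique hx hy (fun n => d.aX _) ((hG l x).1 h2) ((hG l y).1 h3)
  · intro x hx
    choose b hb using fun k => hden x hx k
    have h2 : Lim D x fun n => a (b n) := fun k =>
      ⟨k, fun n hn => d.gd.sy (d.aX _) hx (d.gd.mo (d.aX _) hx hn (hb n))⟩
    have h3 : Cau E b := by
      intro k
      obtain ⟨l, hl⟩ := d.gd.ha k
      refine ⟨l, fun m n hm hn => (d.hE _ _ _).1 (hl _ (d.aX _) _ (d.aX _) x hx ?_ ?_)⟩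
      · exact d.gd.mo (d.aX _) hx hm (hb m)
      · exact d.gd.mo (d.aX _) hx hn (hb n)
    obtain ⟨l, hl⟩ := hC b h3
    refine ⟨nat l, mem_omega_iff.2 ⟨l, rfl⟩, (hG l x).2 fun k => ?_⟩
    obtain ⟨k', hk'⟩ := d.gd.ha k
    obtain ⟨N, hN⟩ := hl k'
    obtain ⟨N', hN'⟩ := h2 k'
    refine ⟨max N N', fun n hn => hk' x hx _ (d.aX _) (a (b n)) (d.aX _)
      (hN' n ((le_max_right _ _).trans hn)) ?_⟩
    exact d.gd.sy (d.aX _) (d.aX _) ((d.hE _ _ _).2 (hN n ((le_max_left _ _).trans hn)))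

end Dat

end Pool.Agent.Q207.CT
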