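import Pool.Agent.Q207.CT.Idi

/-!
# Well-ordered families of finite sets
-/

set_option autoImplicit false
set_option linter.unusedSectionVars false
set_option linter.unreachableTactic false
set_option linter.unusedTactic false


namespace Pool.Agent.Q207.CT

open Pool.Agent.W868 Pool.Agent.W868.PName Pool.Agent.Q211.SY
open Pool.Agent.Q207.UL (frc_all frc_of)
open ZFSet (pair)
open Cnd

/-- The set `F` consists of finite sets, and `e` is an injection from `F` to `α`. -/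
def Hy (M : Set ZFSet.{0}) (F e α : ZFSet.{0}) : Prop :=
  (∀ y ∈ F, ∃ n ∈ ZFSet.omega, FLe M y n) ∧ IsInj F α e

theorem ud_hy0 : UD fun M (v : Fin 3 → ZFSet.{0}) => Hy M (v 0) (v 1) (v 2) := by
  unfold Hy FLe
  (repeat' first
      | assumption
      | exact UF.proj _
      | exact UF.om
      | exact UF.empty
      | exact UD.prop _
      | exact UF.nat _
      | exact ud_fle
      | exact ud_hy
      | exact UF.sUnion (by first | exact UF.proj _)
      | apply UD.isInj | apply UD.isFunc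
      | apply UD.not | apply UD.and | apply UD.or | apply UD.imp | apply UD.iff
      | apply UD.bex | apply UD.ball | apply UD.ex | apply UD.all | apply UD.subset
      | apply UD.eq | apply UD.mem | apply UF.pair
      | apply UF.insert)

theorem ud_hy : UD fun M (v : Fin 3 → ZFSet.{0}) => Hy M (v 0) (v 1) (v 2) := ud_hy0

/-- All the elements of elements of `F` occur in `W`. -/
def Cov (M : Set ZFSet.{0}) (F W : ZFSet.{0}) : Prop :=
  ∀ y ∈ F, ∀ x ∈ y, ∃ κ ∈ M, pair κ x ∈ W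

theorem ud_cov : UD fun M (v : Fin 2 → ZFSet.{0}) => Cov M (v 0) (v 1) := by
  unfold Cov
  (repeat' first
      | assumption
      | exact UF.proj _
      | exact UF.om
      | exact UF.empty
      | exact UD.prop _
      | exact UF.nat _
      | exact ud_fle
      | exact ud_hy
      | exact UF.sUnion (by first | exact UF.proj _)
      | apply UD.isInj | apply UD.isFunc
      | apply UD.not | apply UD.and | apply UD.or | apply UD.imp | apply UD.iff
      | apply UD.bex | apply UD.ball | apply UD.ex | apply UD.all | apply UD.subset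
      | apply UD.eq | apply UD.mem | apply UF.pair
      | apply UF.insert)

/-- The set `x` does not occur in `W`. -/
def NoK (M : Set ZFSet.{0}) (x W : ZFSet.{0}) : Prop := ∀ κ ∈ M, pair κ x ∉ W

theorem ud_nok : UD fun M (v : Fin 2 → ZFSet.{0}) => NoK M (v 0) (v 1) := by
  unfold NoK
  (repeat' first
      | assumption
      | exact UF.proj _
      | exact UF.om
      | exact UF.empty
      | exact UD.prop _
      | exact UF.nat _
      | exact ud_fle
      | exact ud_hy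
      | exact UF.sUnion (by first | exact UF.proj _)
      | apply UD.isInj | apply UD.isFunc
      | apply UD.not | apply UD.and | apply UD.or | apply UD.imp | apply UD.iff
      | apply UD.bex | apply UD.ball | apply UD.ex | apply UD.all | apply UD.subset
      | apply UD.eq | apply UD.mem | apply UF.pair
      | apply UF.insert)

/-- The choice principle. -/
def Wch (M : Set ZFSet.{0}) (F e α : ZFSet.{0}) : Prop :=
  Hy M F e α → (∀ y ∈ F, ∃ x ∈ y, x = x) →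
    ∃ c ∈ M, ZFSet.IsFunc F (ZFSet.sUnion F) c ∧ ∀ y ∈ F, ∀ x ∈ M, pair y x ∈ c → x ∈ y

theorem ud_wch : UD fun M (v : Fin 3 → ZFSet.{0}) => Wch M (v 0) (v 1) (v 2) := by
  unfold Wch
  (repeat' first
      | assumption
      | exact UF.proj _
      | exact UF.om
      | exact UF.empty
      | exact UD.prop _
      | exact UF.nat _
      | exact ud_fle
      | exact ud_hy
      | exact UF.sUnion (by first | exact UF.proj _)
      | apply UD.isInj | apply UD.isFunc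
      | apply UD.not | apply UD.and | apply UD.or | apply UD.imp | apply UD.iff
      | apply UD.bex | apply UD.ball | apply UD.ex | apply UD.all | apply UD.subset
      | apply UD.eq | apply UD.mem | apply UF.pair
      | apply UF.insert)

/-- The indices of the elements of elements. -/
abbrev WI (F : PName Cnd) : Type := Σ i : F.idx, (F.chd i).idx × Cnd

open Classical in
/-- The names with a small support for the elements of elements. -/
noncomputable def zN (k : ℕ) (s : Set Om) (F : PName Cnd) (t : WI F) : PName Cnd :=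
  if h : ∃ f', SS.HS f' ∧ Fx k s f' ∧ Feq ((F.chd t.1).chd t.2.1) f' t.2.2 then h.choose else emp

theorem fx_emp (k : ℕ) (s : Set Om) : Fx k s emp := by
  intro g _ p
  change Feq (ax g emp) emp p
  rw [show ax g emp = emp from act_emp _]
  exact Feq.refl _ _

theorem hs_zN (k : ℕ) (s : Set Om) (F : PName Cnd) (t : WI F) :
    SS.HS (zN k s F t) ∧ Fx k s (zN k s F t) := by
  by_cases h : ∃ f', SS.HS f' ∧ Fx k s f' ∧ Feq ((F.chd t.1).chd t.2.1) f' t.2.2
  · rw [zN, dif_pos h]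
    exact ⟨h.choose_spec.1, h.choose_spec.2.1⟩
  · rw [zN, dif_neg h]
    exact ⟨hs_emp SS, fx_emp k s⟩

theorem zN_spec {k : ℕ} {s : Set Om} {F : PName Cnd} {t : WI F}
    (h : ∃ f', SS.HS f' ∧ Fx k s f' ∧ Feq ((F.chd t.1).chd t.2.1) f' t.2.2) :
    Feq ((F.chd t.1).chd t.2.1) (zN k s F t) t.2.2 := by
  rw [zN, dif_pos h]
  exact h.choose_spec.2.2

/-- The well-ordering of the elements of elements. -/
noncomputable def wN (k : ℕ) (s : Set Om) (F : PName Cnd) : PName Cnd :=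
  setN fun t : WI F => opN (check (cd t)) (zN k s F t)

theorem fx_wN (k : ℕ) (s : Set Om) (F : PName Cnd) : Fx k s (wN k s F) := by
  intro (g : Gam) hg p
  change Feq (ax g _) _ p
  have h1 : ∀ t : WI F, ∀ q, Feq (ax g (opN (check (cd t)) (zN k s F t)))
      (opN (check (cd t)) (zN k s F t)) q := by
    intro t q
    rw [ax_opN, ax_check]
    exact feq_opN (Feq.refl _ _) ((hs_zN k s F t).2.feq hg q)
  exact feq_setN (fun t => ⟨t, h1 t⟩) (fun t => ⟨t, h1 t⟩)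

theorem hs_wN {k : ℕ} {s : Set Om} (hs : s.Countable) (F : PName Cnd) : SS.HS (wN k s F) :=
  hs_setN hs (fx_wN k s F) fun t => SS.hs_opN (SS.hs_check _) (hs_zN k s F t).1

section

variable {k : ℕ} {s : Set Om} (hs : s.Countable) (hsk : ∀ x ∈ s, x.1 < k) {F e : PName Cnd}
  (hF : SS.HS F) (fF : Fx k s F) (he : SS.HS e) (fe : Fx k s e) {a0 : ZFSet.{0}} {p : Cnd}
  (hp : SS.Frc ud_hy ![F, e, check a0] p)

include hs hF he fe hp in
theorem sup_el {q : Cnd} (hq : q ≤ p) (i : F.idx) (hi : Fmem (F.chd i) F q) :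
    ∃ q' ≤ q, ∃ y, SS.HS y ∧ Fx k s y ∧ Feq (F.chd i) y q' := by
  set y := F.chd i with hy
  have hyH : SS.HS y := hF.el ⟨i, rfl, rfl⟩
  have hh := all3 (p := SS.HS) hF he (SS.hs_check a0)
  obtain ⟨π, h1, h2, hcl, -⟩ := Sys.exists_cld SS ({F, e, y, check a0}) (Set.toFinite _).countable
    ∅ Set.countable_empty q
  have hFN : F ∈ π.N := h1 (by simp)
  have heN : e ∈ π.N := h1 (by simp)
  have hyN : y ∈ π.N := h1 (by simp)
  have haN : check a0 ∈ π.N := h1 (by simp)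
  have h3 : Hy (SS.Ms π) (π.val F) (π.val e) (π.val (check a0)) :=
    (Sys.frc_sem hh).1 hp π hcl (all3 (p := fun y => y ∈ π.N) hFN heN haN) ⟨0, h2.le.trans hq⟩
  obtain ⟨β, hβ, -⟩ := h3.2.1.2 _ ((π.val_mem_iff hyN hFN).2 ⟨0, hi.mono h2.le⟩)
  obtain ⟨b, hb, hbZ, rfl⟩ := π.mem_hat.1 (ZFSet.pair_mem_prod.1 (h3.2.1.1 hβ)).2
  have hbN : (check b : PName Cnd) ∈ π.N := hbZ
  obtain ⟨m, hm⟩ : ∃ m, Fmem (opN y (check b)) e (π.g m) := by
    refine (π.val_mem_iff (π.opN_mem hyN hbN) heN).1 ?_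
    rw [π.val_opN hyN hbN]
    exact hβ
  set q1 := π.g m with hq1
  have hq1q : q1 ≤ q := (π.g_anti (Nat.zero_le m)).trans h2.le
  refine ⟨q1, hq1q, avg (Hk k s) q1 y, hs_avg hs q1 hyH, fx_avg k s q1 y, (feq_avg ?_).symm⟩
  intro g hg r hr hrg
  refine feq_dense fun r' hr' => ?_
  have h4 : Fmem (opN (ax g y) (check b)) e r' := by
    have h5 : Fmem (ax g (opN y (check b))) (ax g e) (ap g.1 q1) := fmem_ax.2 hm
    rw [ax_opN, ax_check] at h5
    exact (fmem_congr (Feq.refl _ _) (fe.feq hg _) h5).mono (hr'.trans hrg)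
  have h5 : Fmem (opN y (check b)) e r' := hm.mono (hr'.trans hr)
  obtain ⟨ρ, g1, g2, hcl', -⟩ := Sys.exists_cld SS ({F, e, y, check a0, ax g y, check b})
    (Set.toFinite _).countable ∅ Set.countable_empty r'
  have hFN : F ∈ ρ.N := g1 (by simp)
  have heN : e ∈ ρ.N := g1 (by simp)
  have hyN : y ∈ ρ.N := g1 (by simp)
  have haN : check a0 ∈ ρ.N := g1 (by simp)
  have hgN : ax g y ∈ ρ.N := g1 (by simp)
  have hbN : (check b : PName Cnd) ∈ ρ.N := g1 (by simp)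
  have h6 : Hy (SS.Ms ρ) (ρ.val F) (ρ.val e) (ρ.val (check a0)) :=
    (Sys.frc_sem hh).1 hp ρ hcl' (all3 (p := fun y => y ∈ ρ.N) hFN heN haN)
      ⟨0, g2.le.trans (hr'.trans (hr.trans (hq1q.trans hq)))⟩
  have h7 := (ρ.val_mem_iff (ρ.opN_mem hgN hbN) heN).2 ⟨0, h4.mono g2.le⟩
  have h8 := (ρ.val_mem_iff (ρ.opN_mem hyN hbN) heN).2 ⟨0, h5.mono g2.le⟩
  rw [ρ.val_opN hgN hbN] at h7
  rw [ρ.val_opN hyN hbN] at h8
  obtain ⟨n, hn⟩ := (ρ.val_eq_iff hgN hyN).1 (h6.2.2 _ _ _ h7 h8)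
  exact ⟨ρ.g n, (ρ.g_anti (Nat.zero_le n)).trans g2.le, hn⟩

include hs hsk hF fF he fe hp in
theorem sup_el2 {q : Cnd} (hq : q ≤ p) (i : F.idx) (hi : Fmem (F.chd i) F q)
    (j : (F.chd i).idx) (hj : Fmem ((F.chd i).chd j) (F.chd i) q) :
    ∃ q' ≤ q, ∃ f, SS.HS f ∧ Fx k s f ∧ Feq ((F.chd i).chd j) f q' := by
  have hyH : SS.HS (F.chd i) := hF.el ⟨i, rfl, rfl⟩
  have hfH : SS.HS ((F.chd i).chd j) := hyH.el ⟨j, rfl, rfl⟩
  obtain ⟨q1, hq1, y, hy, fy, hey⟩ := sup_el hs hF he fe hp hq i hi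
  have hh := all3 (p := SS.HS) hF he (SS.hs_check a0)
  obtain ⟨π, h1, h2, hcl, -⟩ := Sys.exists_cld SS ({F, e, y, check a0}) (Set.toFinite _).countable
    ∅ Set.countable_empty q1
  have hFN : F ∈ π.N := h1 (by simp)
  have heN : e ∈ π.N := h1 (by simp)
  have hyN : y ∈ π.N := h1 (by simp)
  have haN : check a0 ∈ π.N := h1 (by simp)
  have h3 : Hy (SS.Ms π) (π.val F) (π.val e) (π.val (check a0)) :=
    (Sys.frc_sem hh).1 hp π hcl (all3 (p := fun y => y ∈ π.N) hFN heN haN)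
      ⟨0, h2.le.trans (hq1.trans hq)⟩
  obtain ⟨N, hN, h4⟩ := h3.1 (π.val y) ((π.val_mem_iff hyN hFN).2
    ⟨0, (fmem_congr hey (Feq.refl _ _) (hi.mono hq1)).mono h2.le⟩)
  obtain ⟨N, rfl⟩ := mem_omega_iff.1 hN
  obtain ⟨m, hm⟩ := (Sys.frc_iff (x := ![y, check (nat N)]) ud_fle hcl
    (all2 (p := fun y => y ∈ π.N ∧ SS.HS y) ⟨hyN, hy⟩ ⟨π.nat_Z N, SS.hs_check _⟩)).1 (by
      change FLe (SS.Ms π) (π.val y) (π.val (check (nat N)))
      rw [show π.val (check (nat N)) = nat N from π.hat_nat N]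
      exact h4)
  have h5 : π.g m ≤ q1 := (π.g_anti (Nat.zero_le m)).trans h2.le
  obtain ⟨q2, hq2, f, hf, ff, hef⟩ := fin_supp hs hsk hy fy hfH hm
    (fmem_congr (Feq.refl _ _) (hey.mono h5) (hj.mono (h5.trans hq1)))
  exact ⟨q2, hq2.trans (h5.trans hq1), f, hf, ff, hef⟩

include hs hsk hF fF he fe hp in
theorem frc_cov : SS.Frc ud_cov ![F, wN k s F] p := by
  set W := wN k s F with hW
  have hWH : SS.HS W := hs_wN hs F
  refine Sys.frc_dense fun q hq => ?_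
  obtain ⟨q', hq', h1 | h1⟩ := Sys.frc_dec (h := ud_cov) (x := ![F, W])
    (all2 (p := SS.HS) hF hWH) q
  · exact ⟨q', hq', h1⟩
  · exfalso
    obtain ⟨ρ, g1, g2, hcl, -⟩ := Sys.exists_cld SS ({F, W}) (Set.toFinite _).countable
      ∅ Set.countable_empty q'
    have hFN : F ∈ ρ.N := g1 (by simp)
    have hWN : W ∈ ρ.N := g1 (by simp)
    have h2 : ¬ Cov (SS.Ms ρ) (ρ.val F) (ρ.val W) := (Sys.frc_sem (all2 (p := SS.HS) hF hWH)).1 h1
      ρ hcl (all2 (p := fun y => y ∈ ρ.N) hFN hWN) ⟨0, g2.le⟩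
    unfold Cov at h2
    push Not at h2
    obtain ⟨y, hy, x, hx, h3⟩ := h2
    obtain ⟨y1, hy1, c1, hc1, -, rfl⟩ := ρ.mem_val.1 hy
    obtain ⟨x1, hx1, c2, hc2, -, rfl⟩ := ρ.mem_val.1 hx
    obtain ⟨n1, hn1⟩ := (ρ.val_mem_iff hy1 hFN).1 hy
    obtain ⟨n2, hn2⟩ := (ρ.val_mem_iff hx1 hy1).1 hx
    have hy1H : SS.HS y1 := hF.el hc1
    have hx1H : SS.HS x1 := hy1H.el hc2
    obtain ⟨m, hm⟩ := (Sys.frc_iff (x := ![x1, W]) ud_nok hcl
      (all2 (p := fun y => y ∈ ρ.N ∧ SS.HS y) ⟨hx1, hx1H⟩ ⟨hWN, hWH⟩)).1 h3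
    set q1 := ρ.g (max m (max n1 n2)) with hq1
    have l1 : q1 ≤ q' := (ρ.g_anti (Nat.zero_le _)).trans g2.le
    have l2 : q1 ≤ ρ.g m := ρ.g_anti (le_max_left _ _)
    have l3 : q1 ≤ ρ.g n1 := ρ.g_anti ((le_max_left _ _).trans (le_max_right _ _))
    have l4 : q1 ≤ ρ.g n2 := ρ.g_anti ((le_max_right _ _).trans (le_max_right _ _))
    obtain ⟨i, rfl, -⟩ := hc1
    obtain ⟨j, rfl, -⟩ := hc2
    obtain ⟨q2, hq2, hf⟩ := sup_el2 hs hsk hF fF he fe hp (l1.trans (hq'.trans hq)) i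
      (hn1.mono l3) j (hn2.mono l4)
    set t : WI F := ⟨i, (j, q2)⟩ with ht
    have h4 : Feq ((F.chd i).chd j) (zN k s F t) q2 := zN_spec (t := t) hf
    obtain ⟨σ, g3, g4, hcl', -⟩ := Sys.exists_cld SS ({W, (F.chd i).chd j, zN k s F t,
      check (cd t)}) (Set.toFinite _).countable ∅ Set.countable_empty q2
    have hWs : W ∈ σ.N := g3 (by simp)
    have hxs : (F.chd i).chd j ∈ σ.N := g3 (by simp)
    have hzs : zN k s F t ∈ σ.N := g3 (by simp)
    have hcs : check (cd t) ∈ σ.N := g3 (by simp)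
    have h5 : NoK (SS.Ms σ) (σ.val ((F.chd i).chd j)) (σ.val W) :=
      (Sys.frc_sem (all2 (p := SS.HS) hx1H hWH)).1 hm σ hcl'
        (all2 (p := fun y => y ∈ σ.N) hxs hWs) ⟨0, g4.le.trans (hq2.trans l2)⟩
    refine h5 (σ.val (check (cd t))) (Sys.mem_Ms hcs (SS.hs_check _)) ?_
    rw [(σ.val_eq_iff hxs hzs).2 ⟨0, h4.mono g4.le⟩, ← σ.val_opN hcs hzs]
    exact val_setN.2 ⟨t, σ.opN_mem hcs hzs, rfl⟩

end

/-- Well-ordered families of nonempty finite sets have choice functions. -/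
theorem wch {π : Pkg Cnd} (hcl : SS.Cld π) {F e α : ZFSet.{0}} (hF : F ∈ SS.Ms π)
    (he : e ∈ SS.Ms π) (hα : α ∈ SS.Ms π) (hαo : α.IsOrdinal) : Wch (SS.Ms π) F e α := by
  obtain ⟨F, ⟨hFN, hF⟩, rfl⟩ := hF
  obtain ⟨e, ⟨heN, he⟩, rfl⟩ := he
  obtain ⟨a0, ha0, rfl⟩ := π.ord_V hαo (by
    obtain ⟨y, ⟨hy, -⟩, rfl⟩ := hα
    exact ⟨y, hy, rfl⟩)
  have haN : check a0 ∈ π.N := ha0
  refine frc_all (x := ![F, e, check a0]) ud_wch (all3 (p := SS.HS) hF he (SS.hs_check _)) ?_ π hcl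
    (all3 (p := fun y => y ∈ π.N) hFN heN haN)
  clear hFN heN haN ha0 hα hαo hcl π
  intro q
  by_cases hP : ∃ q1 ≤ q, SS.Frc ud_hy ![F, e, check a0] q1
  swap
  · refine ⟨q, le_rfl, ∅, Set.countable_empty, fun π hcl hN _ hm => ?_⟩
    have hFN : F ∈ π.N := hN 0
    have heN : e ∈ π.N := hN 1
    have haN : check a0 ∈ π.N := hN 2
    obtain ⟨m, hm⟩ := hm
    change Wch (SS.Ms π) (π.val F) (π.val e) (π.val (check a0))
    intro hi
    exfalso
    obtain ⟨m1, hm1⟩ := (Sys.frc_iff (x := ![F, e, check a0]) ud_hy hcl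
      (all3 (p := fun y => y ∈ π.N ∧ SS.HS y) ⟨hFN, hF⟩ ⟨heN, he⟩ ⟨haN, SS.hs_check _⟩)).1 hi
    exact hP ⟨π.g (max m m1), (π.g_le_left _ _).trans hm, hm1.mono (π.g_le_right _ _)⟩
  obtain ⟨p, hpq, hp⟩ := hP
  obtain ⟨k1, s1, hs1, fX1⟩ := sym_iff.1 hF.sym
  obtain ⟨k, s2, hk2, hss, hs2, fD2⟩ := exists_fx he k1 hs1
  set s := lev k s2 with hs'
  have hs : s.Countable := lev_countable hs2
  have hsk : ∀ x ∈ s, x.1 < k := fun x hx => hx.1
  have fe : Fx k s e := fx_lev fD2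
  have fF : Fx k s F := fx_lev (fX1.mono hk2 fun x hx => hss hx.2)
  have hcov := frc_cov hs hsk hF fF he fe hp
  refine ⟨p, hpq, {wN k s F}, Set.countable_singleton _, fun π hcl hN hA hm => ?_⟩
  have hFN : F ∈ π.N := hN 0
  have hWN : wN k s F ∈ π.N := hA rfl
  have hC : Cov (SS.Ms π) (π.val F) (π.val (wN k s F)) :=
    (Sys.frc_sem (all2 (p := SS.HS) hF (hs_wN hs F))).1 hcov π hcl
      (all2 (p := fun y => y ∈ π.N) hFN hWN) hm
  change Wch (SS.Ms π) (π.val F) (π.val e) (π.val (check a0))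
  intro _ hne
  have hM := T_ZF.isZF hcl
  have hB := hM.base
  have hFM : π.val F ∈ SS.Ms π := Sys.mem_Ms hFN hF
  have hWM : π.val (wN k s F) ∈ SS.Ms π := Sys.mem_Ms hWN (hs_wN hs F)
  have hUM := hM.union _ hFM
  set W := π.val (wN k s F) with hW
  have hform : ∀ κ x, pair κ x ∈ W → ∃ t : WI F, cd t ∈ π.Z ∧ κ = π.hat (cd t) ∧
      x = π.val (zN k s F t) := by
    intro κ x h
    obtain ⟨t, ht, h1⟩ := val_setN.1 h
    have h2 : check (cd t) ∈ π.N := π.fst_mem ht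
    have h3 := π.snd_mem ht
    rw [π.val_opN h2 h3] at h1
    obtain ⟨h4, h5⟩ := ZFSet.pair_inj.1 h1
    exact ⟨t, h2, h4, h5⟩
  have hord : ∀ κ x, pair κ x ∈ W → κ.IsOrdinal := by
    intro κ x h
    obtain ⟨t, -, rfl, -⟩ := hform κ x h
    exact π.hat_isOrdinal (ZFSet.isOrdinal_toZFSet _)
  have huni : ∀ κ x x', pair κ x ∈ W → pair κ x' ∈ W → x = x' := by
    intro κ x x' h h'
    obtain ⟨t, ht, h1, rfl⟩ := hform κ x h
    obtain ⟨t', ht', h2, rfl⟩ := hform κ x' h'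
    rw [cd_injective ((π.hat_inj ht ht').1 (h1.symm.trans h2))]
  obtain ⟨c, hc, hcs, hc'⟩ := hM.rel_mem hFM hUM (Q := fun y x => x ∈ y ∧ ∃ κ ∈ SS.Ms π,
    pair κ x ∈ W ∧ ∀ x' ∈ y, ∀ κ' ∈ κ, pair κ' x' ∉ W) (by (repeat' first
      | assumption
      | exact DfnF.proj _
      | exact DfnF.const (by assumption)
      | exact DfnF.const' (by first | assumption | trivial) (by first | assumption | trivial)
      | exact Dfn.prop _
      | apply Dfn.not | apply Dfn.and | apply Dfn.or | apply Dfn.imp | apply Dfn.iff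
      | apply hB.bex | apply hB.ball | apply Dfn.ex | apply Dfn.all
      | apply Dfn.eq | apply Dfn.mem | apply hB.pair' | apply hB.subset' | apply hB.insert'
      | apply hB.isFunc' | apply hB.isInj' | apply hB.isBij' | apply hB.isOrdinal'))
  refine ⟨c, hc, ⟨hcs, fun y hy => ?_⟩, fun y hy x _ hyx => ((hc' y x).1 hyx).2.2.1⟩
  obtain ⟨x0, hx0, -⟩ := hne y hy
  obtain ⟨κ0, hκ0, h1⟩ := hC y hy x0 hx0
  obtain ⟨κ, ⟨x, hx, hκx⟩, hmin⟩ := ZFSet.mem_wf.has_min {κ | ∃ x ∈ y, pair κ x ∈ W}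
    ⟨κ0, x0, hx0, h1⟩
  have hxU : x ∈ ZFSet.sUnion (π.val F) := ZFSet.mem_sUnion.2 ⟨y, hy, hx⟩
  have hκM : κ ∈ SS.Ms π := by
    obtain ⟨t, ht, rfl, -⟩ := hform κ x hκx
    exact Sys.mem_Ms ht (SS.hs_check _)
  refine ⟨x, (hc' y x).2 ⟨hy, hxU, hx, κ, hκM, hκx, fun x' hx' κ' hκ' h2 =>
    hmin κ' ⟨x', hx', h2⟩ hκ'⟩, fun z hz => ?_⟩
  obtain ⟨-, -, hzy, κ', -, hκz, hmin'⟩ := (hc' y z).1 hz
  have h3 : κ' = κ := by
    rcases (hord _ _ hκz).mem_trichotomous (hord _ _ hκx) with h4 | h4 | h4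
    · exact absurd h4 (hmin κ' ⟨z, hzy, hκz⟩)
    · exact h4
    · exact absurd hκx (hmin' x hx κ h4)
  rw [h3] at hκz
  exact huni κ z x hκz hκx

end Pool.Agent.Q207.CT
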