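import Pool.Agent.Q207.CT.Neg
import Pool.Agent.Q207.CT.Wo

/-!
# A product of countably many compact metrizable spaces that is not compact
-/

set_option autoImplicit false
set_option linter.unusedSectionVars false
set_option linter.unreachableTactic false
set_option linter.unusedTactic false

namespace Pool.Agent.Q207.CT

open Pool.Agent.W868 Pool.Agent.W868.PName Pool.Agent.Q211.SY
open Pool.Agent.Q211.FS (CodedIn MetricIn MetrizableIn CompactIn)
open ZFSet (pair)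
open Cnd

/-- The product of a sequence of subspaces exists in the model. -/
theorem exists_prod {M : Set ZFSet.{0}} (hM : IsZF M) {X S P1 P2 : ZFSet.{0}} (hX : X ∈ M)
    (hP1 : P1 ∈ M) (hP1' : ∀ z, z ∈ P1 ↔ z ∈ M ∧ z ⊆ X) (hP2 : P2 ∈ M)
    (hP2' : ∀ z, z ∈ P2 ↔ z ∈ M ∧ z ⊆ P1) (hS : S ∈ M) {Y τ : ℕ → ZFSet.{0}}
    (hY : ∀ n, Y n ∈ P1) (hτ : ∀ n, τ n ∈ P2)
    (hS' : ∀ n Z σ, pair n (pair Z σ) ∈ S ↔ ∃ i : ℕ, n = nat i ∧ Z = Y i ∧ σ = τ i) :
    ∃ P ∈ M, ∃ ρ ∈ M, IsProd M S P ρ := by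
  classical
  have hB := hM.base
  have h0 := hM.infinity
  have hpr : ZFSet.prod ZFSet.omega X ∈ M := hM.prod_mem h0 hX
  obtain ⟨Q, hQ, hQ'⟩ := hM.power _ hpr
  have hPm : ZFSet.sep (fun f => ZFSet.IsFunc ZFSet.omega X f ∧ ∀ n ∈ ZFSet.omega, ∀ Z ∈ P1,
      ∀ σ ∈ P2, ∀ x ∈ X, pair n (pair Z σ) ∈ S → pair n x ∈ f → x ∈ Z) Q ∈ M :=
    hM.sep_mem (Q := fun f => ZFSet.IsFunc ZFSet.omega X f ∧ ∀ n ∈ ZFSet.omega, ∀ Z ∈ P1,
      ∀ σ ∈ P2, ∀ x ∈ X, pair n (pair Z σ) ∈ S → pair n x ∈ f → x ∈ Z) (by (repeat' first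
      | assumption
      | exact DfnF.proj _
      | exact DfnF.const (by assumption)
      | exact DfnF.const' (by first | assumption | trivial) (by first | assumption | trivial)
      | exact Dfn.prop _
      | apply hB.isInj' | apply hB.isFunc' | apply hB.isOrdinal'
      | apply Dfn.not | apply Dfn.and | apply Dfn.or | apply Dfn.imp | apply Dfn.iff
      | apply hB.bex | apply hB.ball | apply Dfn.ex | apply Dfn.all
      | apply Dfn.eq | apply Dfn.mem | apply hB.pair' | apply hB.subset' | apply hB.insert'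
      | apply hB.isFunc' | apply hB.isInj' | apply hB.isBij' | apply hB.isOrdinal')) hQ
  set P := ZFSet.sep (fun f => ZFSet.IsFunc ZFSet.omega X f ∧ ∀ n ∈ ZFSet.omega, ∀ Z ∈ P1,
      ∀ σ ∈ P2, ∀ x ∈ X, pair n (pair Z σ) ∈ S → pair n x ∈ f → x ∈ Z) Q with hPd
  obtain ⟨R, hR, hR'⟩ := hM.power _ hPm
  have hρm : ZFSet.sep (fun U => ∀ f ∈ U, ∃ N ∈ ZFSet.omega, ∃ v ∈ M, ZFSet.IsFunc N P1 v ∧
      (∀ i ∈ N, ∀ Z ∈ P1, ∀ σ ∈ P2, ∀ V ∈ P1, pair i (pair Z σ) ∈ S → pair i V ∈ v → V ∈ σ) ∧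
      (∀ i ∈ N, ∀ V ∈ P1, ∀ x ∈ X, pair i V ∈ v → pair i x ∈ f → x ∈ V) ∧
      ∀ g ∈ P, (∀ i ∈ N, ∀ V ∈ P1, ∀ x ∈ X, pair i V ∈ v → pair i x ∈ g → x ∈ V) → g ∈ U) R
      ∈ M :=
    hM.sep_mem (Q := fun U => ∀ f ∈ U, ∃ N ∈ ZFSet.omega, ∃ v ∈ M, ZFSet.IsFunc N P1 v ∧
      (∀ i ∈ N, ∀ Z ∈ P1, ∀ σ ∈ P2, ∀ V ∈ P1, pair i (pair Z σ) ∈ S → pair i V ∈ v → V ∈ σ) ∧
      (∀ i ∈ N, ∀ V ∈ P1, ∀ x ∈ X, pair i V ∈ v → pair i x ∈ f → x ∈ V) ∧
      ∀ g ∈ P, (∀ i ∈ N, ∀ V ∈ P1, ∀ x ∈ X, pair i V ∈ v → pair i x ∈ g → x ∈ V) → g ∈ U)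
      (by (repeat' first
      | assumption
      | exact DfnF.proj _
      | exact DfnF.const (by assumption)
      | exact DfnF.const' (by first | assumption | trivial) (by first | assumption | trivial)
      | exact Dfn.prop _
      | apply hB.isInj' | apply hB.isFunc' | apply hB.isOrdinal'
      | apply Dfn.not | apply Dfn.and | apply Dfn.or | apply Dfn.imp | apply Dfn.iff
      | apply hB.bex | apply hB.ball | apply Dfn.ex | apply Dfn.all
      | apply Dfn.eq | apply Dfn.mem | apply hB.pair' | apply hB.subset' | apply hB.insert'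
      | apply hB.isFunc' | apply hB.isInj' | apply hB.isBij' | apply hB.isOrdinal')) hR
  have hPX : ∀ f ∈ P, ∀ n x, pair n x ∈ f → x ∈ X := by
    intro f hf n x hx
    obtain ⟨-, hff, -⟩ := ZFSet.mem_sep.1 hf
    exact (ZFSet.pair_mem_prod.1 (hff.1 hx)).2
  refine ⟨P, hPm, _, hρm, fun f => ?_, fun U => ?_⟩
  · rw [hPd, ZFSet.mem_sep, hQ']
    constructor
    · rintro ⟨⟨h1, -⟩, h2, h3⟩
      refine ⟨h1, ⟨X, hX, h2⟩, fun n Z σ x hn hx => ?_⟩
      obtain ⟨i, rfl, rfl, rfl⟩ := (hS' _ _ _).1 hn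
      exact h3 _ (mem_omega_iff.2 ⟨i, rfl⟩) _ (hY i) _ (hτ i) _
        (ZFSet.pair_mem_prod.1 (h2.1 hx)).2 hn hx
    · rintro ⟨h1, ⟨Z, -, h2⟩, h3⟩
      have h4 : f ⊆ ZFSet.prod ZFSet.omega X := by
        intro z hz
        obtain ⟨n, hn, x, -, rfl⟩ := ZFSet.mem_prod.1 (h2.1 hz)
        obtain ⟨i, rfl⟩ := mem_omega_iff.1 hn
        have h5 := h3 _ _ _ _ ((hS' _ _ _).2 ⟨i, rfl, rfl, rfl⟩) hz
        exact ZFSet.pair_mem_prod.2 ⟨hn, ((hP1' _).1 (hY i)).2 h5⟩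
      exact ⟨⟨h1, h4⟩, ⟨h4, h2.2⟩, fun n _ Z _ σ _ x _ hn hx => h3 n Z σ x hn hx⟩
  · rw [ZFSet.mem_sep, hR', and_assoc]
    refine and_congr_right fun _ => and_congr_right fun hUP => forall₂_congr fun f hf => ?_
    have hfP := hUP hf
    constructor
    · rintro ⟨N, hN, v, -, hv, h1, h2, h3⟩
      obtain ⟨N, rfl⟩ := mem_omega_iff.1 hN
      have h4 : ∀ i : ℕ, ∃ V, i < N → V ∈ P1 ∧ pair (nat i) V ∈ v := by
        intro i
        by_cases hi : i < N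
        · obtain ⟨V, hV, -⟩ := hv.2 (nat i) (nat_mem_nat.2 hi)
          exact ⟨V, fun _ => ⟨(ZFSet.pair_mem_prod.1 (hv.1 hV)).2, hV⟩⟩
        · exact ⟨∅, fun h => absurd h hi⟩
      choose V hV using h4
      refine ⟨N, V, fun i hi Z σ hn => ?_, fun i hi x hx => ?_, fun g hg hgV => ?_⟩
      · obtain ⟨j, hj, rfl, rfl⟩ := (hS' _ _ _).1 hn
        exact h1 _ (nat_mem_nat.2 hi) _ (hY j) _ (hτ j) _ (hV i hi).1 hn (hV i hi).2
      · exact h2 _ (nat_mem_nat.2 hi) _ (hV i hi).1 x (hPX f hfP _ _ hx) (hV i hi).2 hx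
      · refine h3 g hg fun i hi W hW x _ hiW hx => ?_
        obtain ⟨i, hi', rfl⟩ := mem_nat_iff.1 hi
        rw [(hv.2 _ hi).unique hiW (hV i hi').2]
        exact hgV i hi' x hx
    · rintro ⟨N, V, h1, h2, h3⟩
      have h4 : ∀ i < N, V i ∈ P1 := by
        intro i hi
        have h5 := h1 i hi _ _ ((hS' _ _ _).2 ⟨i, rfl, rfl, rfl⟩)
        exact ((hP2' _).1 (hτ i)).2 h5
      refine ⟨nat N, mem_omega_iff.2 ⟨N, rfl⟩, fseq V N, fseq_mem hM fun i hi =>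
        hM.trans _ hP1 _ (h4 i hi), isFunc_fseq h4, ?_, ?_, ?_⟩
      · intro i hi Z _ σ _ W _ hn hW
        obtain ⟨i, hi', rfl⟩ := mem_nat_iff.1 hi
        obtain ⟨-, rfl⟩ := pair_mem_fseq.1 hW
        exact h1 i hi' Z σ hn
      · intro i hi W _ x _ hW hx
        obtain ⟨i, hi', rfl⟩ := mem_nat_iff.1 hi
        obtain ⟨-, rfl⟩ := pair_mem_fseq.1 hW
        exact h2 i hi' x hx
      · intro g hg hgV
        refine h3 g hg fun i hi x hx => ?_
        exact hgV _ (nat_mem_nat.2 hi) _ (h4 i hi) x (hPX g hg _ _ hx)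
          (pair_mem_fseq.2 ⟨hi, rfl⟩) hx

namespace IsMod

variable {π : Pkg Cnd} (h : IsMod π)

include h

theorem none_mem (n : ℕ) : π.val (pt none) ∈ π.val (ptS (blk' n)) :=
  (pt_mem_val (emp_mem π)).2 (Or.inl rfl)

/-- A product of compact metrizable spaces that is not compact. -/
theorem not_cpm : ¬ CPMle (SS.Ms π) := by
  classical
  intro hcp
  have hM := h.isZF
  have hB := hM.base
  have h0 := hM.infinity
  obtain ⟨τ, hτ, S, hS, hSp, hS'⟩ := h.exists_sq h.bl' fx_blk' clo_blk' h.sb'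
  have hX : π.val (ptS Set.univ) ∈ SS.Ms π := Sys.mem_Ms h.un hs_univ
  obtain ⟨P1, hP1, hP1'⟩ := hM.power _ hX
  obtain ⟨P2, hP2, hP2'⟩ := hM.power _ hP1
  have hYM : ∀ n, π.val (ptS (blk' n)) ∈ SS.Ms π := fun n => Sys.mem_Ms (h.bl' n) (hs_blk' n)
  have hYP : ∀ n, π.val (ptS (blk' n)) ∈ P1 := fun n => (hP1' _).2 ⟨hYM n, h.ptS_sub⟩
  have hτP : ∀ n, τ n ∈ P2 := fun n => (hP2' _).2 ⟨(hτ n).1, fun U hU => by
    obtain ⟨h1, h2, -⟩ := ((hτ n).2.top U).1 hU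
    exact (hP1' _).2 ⟨h1, fun z hz => h.ptS_sub (h2 hz)⟩⟩
  obtain ⟨P, hP, ρ, hρ, hpr⟩ := exists_prod hM hX hP1 hP1' hP2 hP2' hS hYP hτP
    (fun n Z σ => h.pair_sq hS')
  obtain ⟨hprP, hprρ⟩ := id hpr
  set X := π.val (ptS Set.univ) with hXd
  set w := π.val (pt none) with hw
  have hwM : w ∈ SS.Ms π := Sys.mem_Ms (emp_mem π) (hs_emp SS)
  -- the values of the elements of the product
  have hval : ∀ f ∈ P, ∀ n : ℕ, ∃ x ∈ π.val (ptS (blk' n)), ∀ y, pair (nat n) y ∈ f ↔ y = x := by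
    intro f hf n
    obtain ⟨hfM, ⟨Z, -, hfZ⟩, h1⟩ := (hprP f).1 hf
    obtain ⟨x, hx, hxu⟩ := hfZ.2 (nat n) (mem_omega_iff.2 ⟨n, rfl⟩)
    exact ⟨x, h1 _ _ _ _ ((h.pair_sq hS').2 ⟨n, rfl, rfl, rfl⟩) hx, fun y =>
      ⟨fun hy => hxu y hy, fun hy => hy ▸ hx⟩⟩
  -- the open sets of the cover
  have hUM : ∀ n : ℕ, ZFSet.sep (fun f => pair (nat n) w ∈ f) P ∈ SS.Ms π := by
    intro n
    have hn := hM.nat_mem n
    exact hM.sep_mem (Q := fun f => pair (nat n) w ∈ f) (by (repeat' first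
      | assumption
      | exact DfnF.proj _
      | exact DfnF.const (by assumption)
      | exact DfnF.const' (by first | assumption | trivial) (by first | assumption | trivial)
      | exact Dfn.prop _
      | apply hB.isInj' | apply hB.isFunc' | apply hB.isOrdinal'
      | apply Dfn.not | apply Dfn.and | apply Dfn.or | apply Dfn.imp | apply Dfn.iff
      | apply hB.bex | apply hB.ball | apply Dfn.ex | apply Dfn.all
      | apply Dfn.eq | apply Dfn.mem | apply hB.pair' | apply hB.subset' | apply hB.insert'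
      | apply hB.isFunc' | apply hB.isInj' | apply hB.isBij' | apply hB.isOrdinal')) hP
  have hUρ : ∀ n : ℕ, ZFSet.sep (fun f => pair (nat n) w ∈ f) P ∈ ρ := by
    intro n
    refine (hprρ _).2 ⟨hUM n, fun z hz => (ZFSet.mem_sep.1 hz).1, fun f hf => ?_⟩
    obtain ⟨hfP, hfw⟩ := ZFSet.mem_sep.1 hf
    obtain ⟨V, hVn, hVi⟩ : ∃ V : ℕ → ZFSet.{0}, V n = {w} ∧
        ∀ i, i ≠ n → V i = π.val (ptS (blk' i)) :=
      ⟨fun i => if i = n then {w} else π.val (ptS (blk' i)), if_pos rfl, fun i hi => if_neg hi⟩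
    refine ⟨n + 1, V, ?_, ?_, ?_⟩
    · intro i hi Z σ hZ
      obtain ⟨j, hj, rfl, rfl⟩ := (h.pair_sq hS').1 hZ
      rw [← nat_injective hj]
      by_cases hin : i = n
      · subst hin
        rw [hVn]
        refine ((hτ i).2.top _).2 ⟨?_, ?_, ?_⟩
        · have := hM.pairing w hwM w hwM
          rwa [ZFSet.pair_eq_singleton] at this
        · intro z hz
          rw [ZFSet.mem_singleton.1 hz]
          exact h.none_mem i
        · intro x hx
          rw [ZFSet.mem_singleton.1 hx]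
          refine ⟨(1 / 2) ^ i, by positivity, fun y hy hd => ZFSet.mem_singleton.2 ?_⟩
          obtain ⟨o, ho1, ho, rfl⟩ := val_ptS.1 hy
          rw [hw, dv_val (emp_mem π) ho] at hd
          rcases ho1 with rfl | ⟨t, rfl⟩
          · rfl
          · rw [Pt.de_diff (by simp [Pt.lv])] at hd
            exact absurd (lt_of_le_of_lt (le_max_right _ _) hd) (lt_irrefl _)
      · rw [hVi i hin]
        exact ((hτ i).2.top _).2 ⟨hYM i, fun z hz => hz, fun x _ => ⟨1, one_pos, fun y hy _ => hy⟩⟩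
    · intro i hi x hx
      obtain ⟨x', hx', h1⟩ := hval f hfP i
      rw [(h1 x).1 hx]
      by_cases hin : i = n
      · subst hin
        rw [hVn, ZFSet.mem_singleton]
        exact ((h1 w).1 hfw).symm
      · rw [hVi i hin]
        exact hx'
    · intro g hg hgV
      refine ZFSet.mem_sep.2 ⟨hg, ?_⟩
      obtain ⟨x', -, h1⟩ := hval g hg n
      have h2 := hgV n (Nat.lt_succ_self n) x' ((h1 x').2 rfl)
      rw [hVn, ZFSet.mem_singleton] at h2
      exact (h1 w).2 h2.symm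
  have hC : ZFSet.sep (fun U => ∃ n ∈ ZFSet.omega, ∀ f ∈ P, f ∈ U ↔ pair n w ∈ f) ρ ∈ SS.Ms π :=
    hM.sep_mem (Q := fun U => ∃ n ∈ ZFSet.omega, ∀ f ∈ P, f ∈ U ↔ pair n w ∈ f) (by (repeat' first
      | assumption
      | exact DfnF.proj _
      | exact DfnF.const (by assumption)
      | exact DfnF.const' (by first | assumption | trivial) (by first | assumption | trivial)
      | exact Dfn.prop _
      | apply hB.isInj' | apply hB.isFunc' | apply hB.isOrdinal'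
      | apply Dfn.not | apply Dfn.and | apply Dfn.or | apply Dfn.imp | apply Dfn.iff
      | apply hB.bex | apply hB.ball | apply Dfn.ex | apply Dfn.all
      | apply Dfn.eq | apply Dfn.mem | apply hB.pair' | apply hB.subset' | apply hB.insert'
      | apply hB.isFunc' | apply hB.isInj' | apply hB.isBij' | apply hB.isOrdinal')) hρ
  obtain ⟨F, hF1, hF2⟩ := hcp S hS hSp P hP ρ hρ hpr _ hC (fun U hU => (ZFSet.mem_sep.1 hU).1) (by
    intro f hf
    have hfM : f ∈ SS.Ms π := hM.trans _ hP _ hf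
    obtain ⟨N, hN⟩ := no_choice h.cl hfM
    obtain ⟨x, hx, h1⟩ := hval f hf N
    have h2 : pair (nat N) w ∈ f := by
      obtain ⟨o, ho1, ho, rfl⟩ := val_ptS.1 hx
      rcases ho1 with rfl | ⟨t, rfl⟩
      · exact (h1 _).2 rfl
      · exact absurd ⟨(h1 _).2 rfl, fun b _ hb => (h1 b).1 hb⟩ (hN N le_rfl t ho)
    refine ⟨_, ZFSet.mem_sep.2 ⟨hUρ N, nat N, mem_omega_iff.2 ⟨N, rfl⟩, fun g hg => ?_⟩,
      ZFSet.mem_sep.2 ⟨hf, h2⟩⟩
    rw [ZFSet.mem_sep]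
    exact and_iff_right hg)
  have h1 : ∀ U : ZFSet.{0}, ∃ n : ℕ, U ∈ F → ∀ f ∈ P, f ∈ U → pair (nat n) w ∈ f := by
    intro U
    by_cases hU : U ∈ F
    · obtain ⟨-, n, hn, h2⟩ := ZFSet.mem_sep.1 (hF1 U hU)
      obtain ⟨n, rfl⟩ := mem_omega_iff.1 hn
      exact ⟨n, fun _ f hf hfU => (h2 f hf).1 hfU⟩
    · exact ⟨0, fun h => absurd h hU⟩
  choose n hn using h1
  set L := F.sup n + 1 with hL
  -- an element of the product outside the finite subcover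
  have hra : ∀ i, π.val (pt (some (i, rt 0))) ∈ SS.Ms π := fun i =>
    Sys.mem_Ms (h.ra i 0) (hs_pt _)
  have hq : fseq (fun i => π.val (pt (some (i, rt 0)))) L ∈ SS.Ms π :=
    fseq_mem hM fun i _ => hra i
  set q := fseq (fun i => π.val (pt (some (i, rt 0)))) L with hqd
  have hLM := hM.nat_mem L
  obtain ⟨g, hg, hgs, hg'⟩ := hM.rel_mem h0 hX (Q := fun i x => pair i x ∈ q ∨
    (i ∉ nat L ∧ x = w)) (by (repeat' first
      | assumption
      | exact DfnF.proj _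
      | exact DfnF.const (by assumption)
      | exact DfnF.const' (by first | assumption | trivial) (by first | assumption | trivial)
      | exact Dfn.prop _
      | apply hB.isInj' | apply hB.isFunc' | apply hB.isOrdinal'
      | apply Dfn.not | apply Dfn.and | apply Dfn.or | apply Dfn.imp | apply Dfn.iff
      | apply hB.bex | apply hB.ball | apply Dfn.ex | apply Dfn.all
      | apply Dfn.eq | apply Dfn.mem | apply hB.pair' | apply hB.subset' | apply hB.insert'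
      | apply hB.isFunc' | apply hB.isInj' | apply hB.isBij' | apply hB.isOrdinal'))
  have hgX : ∀ o : Pt, pt o ∈ π.N → π.val (pt o) ∈ X := fun o ho => (pt_mem_val ho).2 trivial
  have hgv : ∀ (i : ℕ) x, pair (nat i) x ∈ g ↔
      x = if i < L then π.val (pt (some (i, rt 0))) else w := by
    intro i x
    rw [hg']
    by_cases hi : i < L
    · rw [if_pos hi]
      constructor
      · rintro ⟨-, -, h2 | ⟨h2, -⟩⟩
        · exact (pair_mem_fseq.1 h2).2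
        · exact absurd (nat_mem_nat.2 hi) h2
      · rintro rfl
        exact ⟨mem_omega_iff.2 ⟨i, rfl⟩, hgX _ (h.ra i 0), Or.inl (pair_mem_fseq.2 ⟨hi, rfl⟩)⟩
    · rw [if_neg hi]
      constructor
      · rintro ⟨-, -, h2 | ⟨-, h2⟩⟩
        · exact absurd (pair_mem_fseq.1 h2).1 hi
        · exact h2
      · rintro rfl
        exact ⟨mem_omega_iff.2 ⟨i, rfl⟩, hgX none (emp_mem π),
          Or.inr ⟨fun h2 => hi (nat_mem_nat.1 h2), rfl⟩⟩
  have hgP : g ∈ P := by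
    refine (hprP g).2 ⟨hg, ⟨X, hX, hgs, fun z hz => ?_⟩, fun i Z σ x hi hx => ?_⟩
    · obtain ⟨i, rfl⟩ := mem_omega_iff.1 hz
      exact ⟨_, (hgv i _).2 rfl, fun y hy => (hgv i y).1 hy⟩
    · obtain ⟨i, rfl, rfl, rfl⟩ := (h.pair_sq hS').1 hi
      rw [(hgv i x).1 hx]
      by_cases hiL : i < L
      · rw [if_pos hiL]
        exact (pt_mem_val (h.ra i 0)).2 (Or.inr ⟨_, rfl⟩)
      · rw [if_neg hiL]
        exact h.none_mem i
  obtain ⟨U, hU, hgU⟩ := hF2 g hgP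
  have h2 := hn U hU g hgP hgU
  have h3 : n U < L := Nat.lt_succ_of_le (Finset.le_sup hU)
  rw [hgv, if_pos h3] at h2
  have h4 := val_pt (o := none) (emp_mem π) (h.ra (n U) 0) h2
  exact absurd h4 (by simp)

end IsMod

/-! ### The positive statements -/

/-- Finite sets of the model. -/
theorem finIn_of {M : Set ZFSet.{0}} (hM : IsZF M) {X : ZFSet.{0}} (hX : X ∈ M)
    (h : {z | z ∈ X}.Finite) : FinIn M X := by
  obtain ⟨n, g, hg, hb⟩ := exists_bij_of_finite hM hX h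
  exact ⟨n, g, hg, hb⟩

theorem fle_of_fin {M : Set ZFSet.{0}} {X : ZFSet.{0}} (h : FinIn M X) :
    ∃ n : ℕ, FLe M X (nat n) := by
  classical
  obtain ⟨n, g, -, hg⟩ := h
  have h1 : ∀ z, ∃ i : ℕ, z ∈ X → i < n ∧ pair (nat i) z ∈ g := by
    intro z
    by_cases hz : z ∈ X
    · obtain ⟨a, ha, h2⟩ := hg.2 z hz
      obtain ⟨i, hi, rfl⟩ := mem_nat_iff.1 ha
      exact ⟨i, fun _ => ⟨hi, h2⟩⟩
    · exact ⟨0, fun h => absurd h hz⟩
  choose e he using h1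
  refine ⟨n + 1, fun t _ ht => ?_⟩
  have h2 : ∀ i : ℕ, ∃ z, i < n + 1 → z ∈ X ∧ pair (nat i) z ∈ t := by
    intro i
    by_cases hi : i < n + 1
    · obtain ⟨z, hz, -⟩ := ht.2 (nat i) (nat_mem_nat.2 hi)
      exact ⟨z, fun _ => ⟨(ZFSet.pair_mem_prod.1 (ht.1 hz)).2, hz⟩⟩
    · exact ⟨∅, fun h => absurd h hi⟩
  choose z hz using h2
  obtain ⟨i, hi, j, hj, hij, h3⟩ := Finset.exists_ne_map_eq_of_card_lt_of_maps_to
    (s := Finset.range (n + 1)) (t := Finset.range n) (by simp) (f := fun i => e (z i))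
    (fun i hi => Finset.mem_coe.2 (Finset.mem_range.2
      (he _ (hz i (Finset.mem_range.1 hi)).1).1))
  have hi' := hz i (Finset.mem_range.1 hi)
  have hj' := hz j (Finset.mem_range.1 hj)
  have h4 : z i = z j := by
    have h5 := (he _ hi'.1).2
    have h6 := (he _ hj'.1).2
    have h7 : e (z i) = e (z j) := h3
    rw [h7] at h5
    exact (hg.1.1.2 _ (ZFSet.pair_mem_prod.1 (hg.1.1.1 h6)).1).unique h5 h6
  rcases lt_or_gt_of_ne hij with h5 | h5
  · exact ⟨nat j, nat_mem_nat.2 (Finset.mem_range.1 hj), nat i, nat_mem_nat.2 h5, z i, hi'.1,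
      h4 ▸ hj'.2, hi'.2⟩
  · exact ⟨nat i, nat_mem_nat.2 (Finset.mem_range.1 hi), nat j, nat_mem_nat.2 h5, z i, hi'.1,
      hi'.2, h4 ▸ hj'.2⟩

theorem idi_ms {π : Pkg Cnd} (hcl : SS.Cld π) : IDI (SS.Ms π) := by
  intro X hX hn
  have hM := T_ZF.isZF hcl
  exact idi hcl hX (inf_of hM hX fun hf => hn (finIn_of hM hX hf))

theorem woac_ms {π : Pkg Cnd} (hcl : SS.Cld π) : WOACfin (SS.Ms π) := by
  intro F hF hy ⟨α, hα, hαo, e, he, hi⟩
  have hM := T_ZF.isZF hcl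
  obtain ⟨c, hc, hcf, hc'⟩ := wch hcl hF he hα hαo ⟨fun y hyF => by
    obtain ⟨n, hn⟩ := fle_of_fin (hy y hyF).1
    exact ⟨nat n, mem_omega_iff.2 ⟨n, rfl⟩, hn⟩, hi⟩ (fun y hyF => by
    obtain ⟨x, hx⟩ := (hy y hyF).2
    exact ⟨x, hx, rfl⟩)
  refine ⟨c, hc, hcf, fun y x hyx => ?_⟩
  obtain ⟨h1, h2⟩ := ZFSet.pair_mem_prod.1 (hcf.1 hyx)
  exact hc' y h1 x (hM.trans _ (hM.union _ hF) _ h2) hyx

/-- The model of both conjunctions. -/
theorem main2 : ∃ M : Set ZFSet.{0}, M.Countable ∧ IsZF M ∧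
    (IDI M ∧ WOACfin M ∧ MCSize M) ∧ ¬ CACle M ∧ ¬ CPMle M ∧ ¬ CMComega M := by
  obtain ⟨π, h⟩ := exists_mod
  exact ⟨SS.Ms π, IsMod.countable π, h.isZF, ⟨idi_ms h.cl, woac_ms h.cl,
    fun X hX τ hτ hm hc hn => unc h.cl hX hτ hm hc hn⟩, h.not_cac, h.not_cpm, h.not_cmc⟩

end Pool.Agent.Q207.CT
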