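import Pool.Agent.Q207.CT.Sym

/-!
# The metric on the union of the circles
-/

set_option autoImplicit false

namespace Pool.Agent.Q207.CT

open Set Topology

/-- The points of the space. -/
abbrev Pt : Type := Option (ℕ × T)

namespace Pt

/-- The level. -/
def lv (o : Pt) : Option ℕ := o.map Prod.fst

/-- The point of the circle. -/
noncomputable def tt (o : Pt) : T := o.elim 0 Prod.snd

/-- The weight. -/
noncomputable def wt (o : Pt) : ℝ := o.elim 0 fun q => (1 / 2) ^ q.1

theorem wt_nonneg (o : Pt) : 0 ≤ wt o := by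
  cases o with
  | none => exact le_rfl
  | some q => exact pow_nonneg (by norm_num) _

theorem wt_eq_zero {o : Pt} (h : wt o = 0) : o = none := by
  cases o with
  | none => rfl
  | some q =>
    have h1 : (0 : ℝ) < (1 / 2) ^ q.1 := pow_pos (by norm_num) _
    exact absurd h h1.ne'

theorem wt_congr {o o' : Pt} (h : lv o = lv o') : wt o = wt o' := by
  cases o with
  | none =>
    cases o' with
    | none => rfl
    | some q => exact absurd h (by simp [lv])
  | some q =>
    cases o' with
    | none => exact absurd h (by simp [lv])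
    | some q' =>
      have h1 : q.1 = q'.1 := by simpa [lv] using h
      change ((1 : ℝ) / 2) ^ q.1 = (1 / 2) ^ q'.1
      rw [h1]

theorem ext' {o o' : Pt} (h : lv o = lv o') (h' : tt o = tt o') : o = o' := by
  cases o with
  | none =>
    cases o' with
    | none => rfl
    | some q => exact absurd h (by simp [lv])
  | some q =>
    cases o' with
    | none => exact absurd h (by simp [lv])
    | some q' =>
      have h1 : q.1 = q'.1 := by simpa [lv] using h
      exact congrArg some (Prod.ext h1 h')

open Classical in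
/-- The metric. -/
noncomputable def de (o o' : Pt) : ℝ :=
  if lv o = lv o' then wt o * ‖tt o - tt o'‖ else max (wt o) (wt o')

theorem norm_le (x : T) : ‖x‖ ≤ 1 := by
  have h := AddCircle.norm_le_half_period (1 : ℝ) one_ne_zero (x := x)
  rw [abs_one] at h
  linarith

theorem de_same {o o' : Pt} (h : lv o = lv o') : de o o' = wt o * ‖tt o - tt o'‖ := if_pos h

theorem de_diff {o o' : Pt} (h : lv o ≠ lv o') : de o o' = max (wt o) (wt o') := if_neg h

theorem de_self (o : Pt) : de o o = 0 := by rw [de_same rfl, sub_self, norm_zero, mul_zero]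

theorem de_symm (o o' : Pt) : de o o' = de o' o := by
  by_cases h : lv o = lv o'
  · rw [de_same h, de_same h.symm, wt_congr h, norm_sub_rev]
  · rw [de_diff h, de_diff (Ne.symm h), max_comm]

theorem de_eq {o o' : Pt} (h : de o o' = 0) : o = o' := by
  by_cases h1 : lv o = lv o'
  · rw [de_same h1] at h
    rcases mul_eq_zero.1 h with h2 | h2
    · have h3 := wt_eq_zero h2
      rw [wt_congr h1] at h2
      rw [h3, wt_eq_zero h2]
    · exact ext' h1 (sub_eq_zero.1 (norm_eq_zero.1 h2))
  · rw [de_diff h1] at h
    have h2 : wt o = 0 := le_antisymm (h ▸ le_max_left _ _) (wt_nonneg _)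
    have h3 : wt o' = 0 := le_antisymm (h ▸ le_max_right _ _) (wt_nonneg _)
    rw [wt_eq_zero h2, wt_eq_zero h3]

theorem de_le {o o' : Pt} (h : lv o = lv o') : de o o' ≤ wt o := by
  rw [de_same h]
  exact mul_le_of_le_one_right (wt_nonneg _) (norm_le _)

theorem de_nonneg (o o' : Pt) : 0 ≤ de o o' := by
  by_cases h : lv o = lv o'
  · rw [de_same h]
    exact mul_nonneg (wt_nonneg _) (norm_nonneg _)
  · rw [de_diff h]
    exact (wt_nonneg o).trans (le_max_left _ _)

theorem de_tri (a b c : Pt) : de a c ≤ de a b + de b c := by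
  by_cases h1 : lv a = lv b
  · by_cases h2 : lv b = lv c
    · rw [de_same h1, de_same h2, de_same (h1.trans h2), wt_congr h1, ← mul_add]
      exact mul_le_mul_of_nonneg_left (norm_sub_le_norm_sub_add_norm_sub _ _ _) (wt_nonneg _)
    · have h3 : lv a ≠ lv c := fun h => h2 (h1.symm.trans h)
      rw [de_diff h2, de_diff h3, wt_congr h1]
      linarith [de_nonneg a b]
  · by_cases h2 : lv b = lv c
    · have h3 : lv a ≠ lv c := fun h => h1 (h.trans h2.symm)
      rw [de_diff h1, de_diff h3, wt_congr h2]
      linarith [de_nonneg b c]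
    · rw [de_diff h1, de_diff h2]
      by_cases h3 : lv a = lv c
      · refine (de_le h3).trans ?_
        have h4 := le_max_left (wt a) (wt b)
        have h5 := (wt_nonneg b).trans (le_max_left (wt b) (wt c))
        linarith
      · rw [de_diff h3]
        refine max_le ?_ ?_
        · have h4 := le_max_left (wt a) (wt b)
          have h5 := (wt_nonneg b).trans (le_max_left (wt b) (wt c))
          linarith
        · have h4 := le_max_right (wt b) (wt c)
          have h5 := (wt_nonneg b).trans (le_max_right (wt a) (wt b))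
          linarith

/-- The rotations. -/
noncomputable def mv (v : ℕ → ℚ) (o : Pt) : Pt := o.map fun q => (q.1, q.2 + rt (v q.1))

theorem lv_mv (v : ℕ → ℚ) (o : Pt) : lv (mv v o) = lv o := by
  cases o with
  | none => rfl
  | some q => rfl

theorem de_mv (v : ℕ → ℚ) (o o' : Pt) : de (mv v o) (mv v o') = de o o' := by
  have h0 : wt (mv v o) = wt o := wt_congr (lv_mv v o)
  have h0' : wt (mv v o') = wt o' := wt_congr (lv_mv v o')
  by_cases h : lv o = lv o'
  · have h1 : lv (mv v o) = lv (mv v o') := by rw [lv_mv, lv_mv, h]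
    rw [de_same h, de_same h1, h0]
    cases o with
    | none =>
      cases o' with
      | none => rfl
      | some q => exact absurd h (by simp [lv])
    | some q =>
      cases o' with
      | none => exact absurd h (by simp [lv])
      | some q' =>
        have h2 : q.1 = q'.1 := by simpa [lv] using h
        have h3 : tt (mv v (some q)) - tt (mv v (some q')) = tt (some q) - tt (some q') := by
          change q.2 + rt (v q.1) - (q'.2 + rt (v q'.1)) = q.2 - q'.2
          rw [h2]
          abel
        rw [h3]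
  · have h1 : lv (mv v o) ≠ lv (mv v o') := by rwa [lv_mv, lv_mv]
    rw [de_diff h, de_diff h1, h0, h0']

/-! ### Basic open sets -/

/-- The indices of the basic open sets. -/
abbrev Bs : Type := (ℕ × ℚ × ℕ) ⊕ ℕ

/-- The basic open sets. -/
def bs : Bs → Set Pt
  | Sum.inl (n, v, m) => {o | ∃ t, o = some (n, t) ∧ ‖t - rt v‖ < 1 / (m + 1)}
  | Sum.inr N => {o | ∀ n t, o = some (n, t) → N ≤ n}

theorem dense_rt (t : T) {ε : ℝ} (hε : 0 < ε) : ∃ v : ℚ, ‖t - rt v‖ < ε := by
  obtain ⟨x, rfl⟩ := QuotientAddGroup.mk_surjective t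
  obtain ⟨v, h1, h2⟩ := exists_rat_btwn (show x - ε < x by linarith)
  refine ⟨v, ?_⟩
  have h3 : ((x : T) - rt v) = ((x - v : ℝ) : T) := by
    rw [rt, ← AddCircle.coe_sub]
  change ‖(x : T) - rt v‖ < ε
  rw [h3]
  refine lt_of_le_of_lt (b := |x - v|) ?_ ?_
  · have h4 := round_le (x - (v : ℝ)) 0
    rw [Int.cast_zero, sub_zero] at h4
    exact (le_of_eq UnitAddCircle.norm_eq).trans h4
  · rw [abs_lt]
    constructor <;> linarith

/-- Every ball contains a basic open neighbourhood of its center. -/
theorem exists_bs (o : Pt) {ε : ℝ} (hε : 0 < ε) : ∃ b, o ∈ bs b ∧ ∀ o' ∈ bs b, de o o' < ε := by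
  cases o with
  | none =>
    obtain ⟨N, hN⟩ := exists_pow_lt_of_lt_one hε (show (1 / 2 : ℝ) < 1 by norm_num)
    refine ⟨Sum.inr N, fun n t h => absurd h (by simp), fun o' ho' => ?_⟩
    cases o' with
    | none => rwa [de_self]
    | some q =>
      rw [de_diff (by simp [lv])]
      refine max_lt hε (lt_of_le_of_lt ?_ hN)
      exact pow_le_pow_of_le_one (by norm_num) (by norm_num) (ho' q.1 q.2 rfl)
  | some q =>
    obtain ⟨m, hm⟩ := exists_nat_one_div_lt (half_pos hε)
    obtain ⟨v, hv⟩ := dense_rt q.2 (ε := 1 / (m + 1)) (by positivity)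
    refine ⟨Sum.inl (q.1, v, m), ⟨q.2, rfl, hv⟩, fun o' ho' => ?_⟩
    obtain ⟨t, rfl, ht⟩ := ho'
    rw [de_same (o := some q) (o' := some (q.1, t)) rfl]
    have h1 : ‖tt (some q) - tt (some (q.1, t))‖ < ε := by
      change ‖q.2 - t‖ < ε
      calc ‖q.2 - t‖ ≤ ‖q.2 - rt v‖ + ‖rt v - t‖ := norm_sub_le_norm_sub_add_norm_sub _ _ _
        _ < ε / 2 + ε / 2 := by
            rw [norm_sub_rev (rt v) t]
            exact add_lt_add (hv.trans hm) (ht.trans hm)
        _ = ε := by ring
    refine lt_of_le_of_lt ?_ h1
    refine mul_le_of_le_one_left (norm_nonneg _) ?_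
    exact pow_le_one₀ (by norm_num) (by norm_num)

theorem finite_cover {R : Set Bs} (h : ∀ o : Pt, ∃ b ∈ R, o ∈ bs b) :
    ∃ F : Finset Bs, (∀ b ∈ F, b ∈ R) ∧ ∀ o : Pt, ∃ b ∈ F, o ∈ bs b := by
  classical
  obtain ⟨b0, hb0, h0⟩ := h none
  obtain ⟨N, rfl⟩ : ∃ N, b0 = Sum.inr N := by
    cases b0 with
    | inl q =>
      obtain ⟨t, ht, -⟩ := h0
      exact absurd ht (by simp)
    | inr N => exact ⟨N, rfl⟩
  have h1 : ∀ n : ℕ, ∃ F : Finset Bs, (∀ b ∈ F, b ∈ R) ∧ ∀ t : T, ∃ b ∈ F, some (n, t) ∈ bs b := by
    intro n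
    have h2 : ∀ b : {b // b ∈ R}, IsOpen {t : T | (some (n, t) : Pt) ∈ bs b.1} := by
      rintro ⟨b, hb⟩
      cases b with
      | inl q =>
        by_cases hn : n = q.1
        · have h3 : {t : T | (some (n, t) : Pt) ∈ bs (Sum.inl q)} =
              Metric.ball (rt q.2.1) (1 / (q.2.2 + 1)) := by
            ext t
            rw [Metric.mem_ball, dist_eq_norm]
            constructor
            · rintro ⟨t', ht', h4⟩
              rw [Option.some.injEq, Prod.mk.injEq] at ht'
              rw [ht'.2]
              exact h4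
            · intro h4
              exact ⟨t, by rw [hn], h4⟩
          rw [h3]
          exact Metric.isOpen_ball
        · have h3 : {t : T | (some (n, t) : Pt) ∈ bs (Sum.inl q)} = ∅ := by
            ext t
            rw [mem_empty_iff_false, iff_false]
            rintro ⟨t', ht', -⟩
            rw [Option.some.injEq, Prod.mk.injEq] at ht'
            exact hn ht'.1
          rw [h3]
          exact isOpen_empty
      | inr N =>
        by_cases hn : N ≤ n
        · have h3 : {t : T | (some (n, t) : Pt) ∈ bs (Sum.inr N)} = univ := by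
            ext t
            rw [eq_true (mem_univ t), iff_true]
            intro n' t' h4
            rw [Option.some.injEq, Prod.mk.injEq] at h4
            rw [← h4.1]
            exact hn
          rw [h3]
          exact isOpen_univ
        · have h3 : {t : T | (some (n, t) : Pt) ∈ bs (Sum.inr N)} = ∅ := by
            ext t
            rw [mem_empty_iff_false, iff_false]
            intro h4
            exact hn (h4 n t rfl)
          rw [h3]
          exact isOpen_empty
    obtain ⟨F, hF⟩ := isCompact_univ.elim_finite_subcover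
      (fun b : {b // b ∈ R} => {t : T | (some (n, t) : Pt) ∈ bs b.1}) h2 (fun t _ => by
        obtain ⟨b, hb, h3⟩ := h (some (n, t))
        exact mem_iUnion.2 ⟨⟨b, hb⟩, h3⟩)
    refine ⟨F.image Subtype.val, fun b hb => ?_, fun t => ?_⟩
    · obtain ⟨b', -, rfl⟩ := Finset.mem_image.1 hb
      exact b'.2
    · obtain ⟨b, hb, h3⟩ := mem_iUnion₂.1 (hF (mem_univ t))
      exact ⟨b.1, Finset.mem_image_of_mem _ hb, h3⟩
  choose F hF1 hF2 using h1
  refine ⟨insert (Sum.inr N) ((Finset.range N).biUnion F), fun b hb => ?_, fun o => ?_⟩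
  · rcases Finset.mem_insert.1 hb with rfl | hb
    · exact hb0
    · obtain ⟨n, -, hb⟩ := Finset.mem_biUnion.1 hb
      exact hF1 n b hb
  · cases o with
    | none => exact ⟨Sum.inr N, Finset.mem_insert_self _ _, h0⟩
    | some q =>
      rcases Nat.lt_or_ge q.1 N with h3 | h3
      · obtain ⟨b, hb, h4⟩ := hF2 q.1 q.2
        exact ⟨b, Finset.mem_insert_of_mem (Finset.mem_biUnion.2
          ⟨q.1, Finset.mem_range.2 h3, hb⟩), h4⟩
      · refine ⟨Sum.inr N, Finset.mem_insert_self _ _, fun n t h4 => ?_⟩
        rw [Option.some.injEq] at h4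
        rw [h4] at h3
        exact h3

end Pt

end Pool.Agent.Q207.CT
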