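import Pool.Agent.Q211.FS.Met
import Pool.Agent.Q207.CT.Cnv

/-!
# Choice principles in transitive models
-/

set_option autoImplicit false

namespace Pool.Agent.Q207.CT

open Pool.Agent.W868 Pool.Agent.Q211.SY
open Pool.Agent.Q211.FS (MetrizableIn CompactIn)
open ZFSet (pair)

/-- In `M`, the set `X` is finite. -/
def FinIn (M : Set ZFSet.{0}) (X : ZFSet.{0}) : Prop := ∃ n : ℕ, ∃ g ∈ M, IsBij (nat n) X g

/-- In `M`, the set `X` is denumerable. -/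
def DenIn (M : Set ZFSet.{0}) (X : ZFSet.{0}) : Prop := ∃ g ∈ M, IsBij ZFSet.omega X g

/-- In `M`, every infinite set is Dedekind infinite. -/
def IDI (M : Set ZFSet.{0}) : Prop :=
  ∀ X ∈ M, ¬ FinIn M X → ∃ f ∈ M, IsInj ZFSet.omega X f

/-- The set `c` is a choice function of `F`. -/
def ChoiceFn (F c : ZFSet.{0}) : Prop :=
  ZFSet.IsFunc F (ZFSet.sUnion F) c ∧ ∀ y x, pair y x ∈ c → x ∈ y

/-- In `M`, every family of nonempty finite sets that can be well-ordered has a choice function. -/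
def WOACfin (M : Set ZFSet.{0}) : Prop :=
  ∀ F ∈ M, (∀ y ∈ F, FinIn M y ∧ ∃ x, x ∈ y) →
    (∃ α ∈ M, α.IsOrdinal ∧ ∃ e ∈ M, IsInj F α e) → ∃ c ∈ M, ChoiceFn F c

/-- In `M`, every uncountable compact metrizable space has at least the size of the continuum. -/
def MCSize (M : Set ZFSet.{0}) : Prop :=
  ∀ X ∈ M, ∀ τ ∈ M, MetrizableIn M X τ → CompactIn M X τ → ¬ CntIn M X → CLe M X

/-- In `M`, the set `S` is a sequence of compact metrizable spaces. -/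
def SpSeq (M : Set ZFSet.{0}) (S : ZFSet.{0}) : Prop :=
  (∃ Y ∈ M, ZFSet.IsFunc ZFSet.omega Y S) ∧
  ∀ n Z, pair n Z ∈ S → ∃ X τ, Z = pair X τ ∧ MetrizableIn M X τ ∧ CompactIn M X τ

/-- In `M`, for every sequence of nonempty compact metrizable spaces, the set of these spaces has
a choice function. -/
def CACle (M : Set ZFSet.{0}) : Prop :=
  ∀ S ∈ M, SpSeq M S → (∀ n X τ, pair n (pair X τ) ∈ S → ∃ x, x ∈ X) →
    ∀ F ∈ M, (∀ X, X ∈ F ↔ ∃ n τ, pair n (pair X τ) ∈ S) → ∃ c ∈ M, ChoiceFn F c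

/-- In `M`, the space `(P, ρ)` is the product of the sequence `S` of spaces, with the product
topology. -/
def IsProd (M : Set ZFSet.{0}) (S P ρ : ZFSet.{0}) : Prop :=
  (∀ f, f ∈ P ↔ f ∈ M ∧ (∃ Y ∈ M, ZFSet.IsFunc ZFSet.omega Y f) ∧
    ∀ n X τ x, pair n (pair X τ) ∈ S → pair n x ∈ f → x ∈ X) ∧
  ∀ U, U ∈ ρ ↔ U ∈ M ∧ U ⊆ P ∧ ∀ f ∈ U, ∃ (N : ℕ) (V : ℕ → ZFSet.{0}),
    (∀ i < N, ∀ X τ, pair (nat i) (pair X τ) ∈ S → V i ∈ τ) ∧
    (∀ i < N, ∀ x, pair (nat i) x ∈ f → x ∈ V i) ∧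
    ∀ g ∈ P, (∀ i < N, ∀ x, pair (nat i) x ∈ g → x ∈ V i) → g ∈ U

/-- In `M`, every product of countably many compact metrizable spaces is compact. -/
def CPMle (M : Set ZFSet.{0}) : Prop :=
  ∀ S ∈ M, SpSeq M S → ∀ P ∈ M, ∀ ρ ∈ M, IsProd M S P ρ → CompactIn M P ρ

/-- In `M`, every denumerable family of denumerable sets has a multiple choice function. -/
def CMComega (M : Set ZFSet.{0}) : Prop :=
  ∀ F ∈ M, DenIn M F → (∀ B ∈ F, DenIn M B) → ∃ f ∈ M, (∃ Y ∈ M, ZFSet.IsFunc F Y f) ∧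
    ∀ B b, pair B b ∈ f → b ⊆ B ∧ (∃ x, x ∈ b) ∧ FinIn M b

end Pool.Agent.Q207.CT
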