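import Pool.Agent.Q207.CT.Sym

/-!
# The elements of finite sets have the same support as the set
-/

set_option autoImplicit false
set_option linter.unusedSectionVars false
set_option linter.unreachableTactic false
set_option linter.unusedTactic false

namespace Pool.Agent.Q207.CT

open Pool.Agent.W868 Pool.Agent.W868.PName Pool.Agent.Q211.SY
open ZFSet (pair)
open Cnd

/-- The set `F` has less than `N` elements. -/
def FLe (M : Set ZFSet.{0}) (F N : ZFSet.{0}) : Prop :=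
  ∀ t ∈ M, ZFSet.IsFunc N F t → ∃ i ∈ N, ∃ j ∈ i, ∃ z ∈ F, pair i z ∈ t ∧ pair j z ∈ t

theorem ud_fle : UD fun M (v : Fin 2 → ZFSet.{0}) => FLe M (v 0) (v 1) := by
  unfold FLe
  (repeat' first
      | assumption
      | exact UF.proj _
      | exact UF.om
      | exact UF.empty
      | exact UD.prop _
      | exact UF.nat _
      | apply UD.isInj | apply UD.isFunc
      | apply UD.not | apply UD.and | apply UD.or | apply UD.imp | apply UD.iff
      | apply UD.bex | apply UD.ball | apply UD.ex | apply UD.all | apply UD.subset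
      | apply UD.eq | apply UD.mem | apply UF.pair
      | apply UF.insert)

/-- What smallness means in a model, for elements given by names. -/
theorem fle_use {F : PName Cnd} {N : ℕ} {p : Cnd} (hF : SS.HS F)
    (hN : SS.Frc ud_fle ![F, check (nat N)] p) {x : ℕ → PName Cnd} (hx : ∀ i, SS.HS (x i))
    {r : Cnd} (hrp : r ≤ p) (hm : ∀ i < N, Fmem (x i) F r) :
    ∃ i j, j < i ∧ i < N ∧ ∃ q ≤ r, Feq (x i) (x j) q := by
  obtain ⟨π, h1, h2, hcl, -⟩ := Sys.exists_cld SS ({F} ∪ Set.range x)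
    ((Set.countable_singleton _).union (Set.countable_range _)) ∅ Set.countable_empty r
  have hFN : F ∈ π.N := h1 (Or.inl rfl)
  have hxN : ∀ i, x i ∈ π.N := fun i => h1 (Or.inr ⟨i, rfl⟩)
  have hM := T_ZF.isZF hcl
  have h3 : FLe (SS.Ms π) (π.val F) (π.val (check (nat N))) :=
    (Sys.frc_sem (x := ![F, check (nat N)]) (all2 (p := SS.HS) hF (SS.hs_check _))).1 hN π hcl
      (all2 (p := fun y => y ∈ π.N) hFN (π.nat_Z N)) ⟨0, h2.le.trans hrp⟩
  have h4 : π.val (check (nat N)) = nat N := π.hat_nat N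
  rw [h4] at h3
  have hmem : ∀ i < N, π.val (x i) ∈ π.val F := fun i hi =>
    (π.val_mem_iff (hxN i) hFN).2 ⟨0, (hm i hi).mono h2.le⟩
  obtain ⟨i', hi, j', hj, z, -, h5, h6⟩ := h3 (fseq (fun i => π.val (x i)) N)
    (fseq_mem hM fun i _ => Sys.mem_Ms (hxN i) (hx i)) (isFunc_fseq hmem)
  obtain ⟨i, hi', rfl⟩ := mem_nat_iff.1 hi
  obtain ⟨j, hj', rfl⟩ := mem_nat_iff.1 hj
  obtain ⟨-, rfl⟩ := pair_mem_fseq.1 h5
  obtain ⟨-, h7⟩ := pair_mem_fseq.1 h6
  obtain ⟨m, hm'⟩ := (π.val_eq_iff (hxN i) (hxN j)).1 h7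
  exact ⟨i, j, hj', hi', π.g m, (π.g_anti (Nat.zero_le m)).trans h2.le, hm'⟩

theorem frc_mv {n : ℕ} {R : Set ZFSet.{0} → (Fin n → ZFSet.{0}) → Prop} {h : UD R} {k : ℕ}
    {s : Set Om} {x : Fin n → PName Cnd} (hf : ∀ i, Fx k s (x i)) {g : Gam} (hg : g ∈ Hk k s)
    {p : Cnd} (hp : SS.Frc h x p) : SS.Frc h x (ap g.1 p) :=
  Sys.frc_fix (S := SS) (H := Hk k s) hf hg hp

section copies

variable {k k' : ℕ} {s s' : Set Om} (hs : s.Countable) (hs' : s'.Countable)
  (hsk : ∀ x ∈ s, x.1 < k) (hk : k ≤ k') (hss : s ⊆ s') {F f : PName Cnd}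
  (hF : SS.HS F) (fF : Fx k s F) (hf : SS.HS f) (ff : Fx k' s' f)

/-- The element is given by its copies. -/
def Loc (k' : ℕ) (s : Set Om) (f : PName Cnd) (v : Cnd) : Prop :=
  ∀ g ∈ Hk k' s, ∀ r ≤ v, r ≤ ap g.1 v → Feq (ax g f) f r

include hs hs' hsk hk hss hF fF hf ff in
theorem exists_eq {N : ℕ} {p : Cnd} (hN : SS.Frc ud_fle ![F, check (nat N)] p)
    (hm : Fmem f F p) : ∃ b ∈ Hk k' s, (∀ x ∈ lev k' s', ∀ y ∈ lev k' s', b.1 x = y → x ∈ s) ∧
      ∃ r ≤ p, r ≤ ap b.1 p ∧ Feq f (ax b f) r := by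
  obtain ⟨α, h1, h2, h3, h4⟩ := exists_copies (A := ∅) (B := s' ∪ p.sp) (S := s)
    Set.countable_empty (hs'.union p.sp_countable) hs
  let g : ℕ → Gam := fun i => ⟨α i, pure_mem (h1 i)⟩
  have hg : ∀ i, g i ∈ Hk k' s := fun i => pure_Hk (h1 i) fun x hx => h2 i x hx.2
  have hg' : ∀ i, g i ∈ Hk k s := fun i => pure_Hk (h1 i) fun x hx => h2 i x hx.2
  have hc : ∀ i j, Cmp (ap (α i) p) (ap (α j) p) := by
    intro i j x κ b b' hb hb'
    rw [ap_f] at hb hb'
    set y := (α i).symm x with hy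
    set z := (α j).symm x with hz
    have hyx : α i y = x := by rw [hy, Equiv.apply_symm_apply]
    have hzx : α j z = x := by rw [hz, Equiv.apply_symm_apply]
    have hyz : y = z := by
      by_cases h5 : y ∈ s
      · have h6 : y = x := by rw [← hyx, h2 i y h5]
        by_cases h7 : z ∈ s
        · rw [h6, ← hzx, h2 j z h7]
        · exfalso
          have h8 := (h3 j z (Or.inr (of_sp hb')) h7).2.2
          rw [hzx, ← h6] at h8
          exact h8 h5
      · by_cases h7 : z ∈ s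
        · exfalso
          have h6 : z = x := by rw [← hzx, h2 j z h7]
          have h8 := (h3 i y (Or.inr (of_sp hb)) h5).2.2
          rw [hyx, ← h6] at h8
          exact h8 h7
        · exact (h4 i j y (Or.inr (of_sp hb)) z (Or.inr (of_sp hb')) h5 h7
            (hyx.trans hzx.symm)).2
    rw [hyz, hb'] at hb
    exact (Option.some_injective _ hb).symm
  set r := un fun i => ap (α i) p with hr
  have hrle : ∀ i, r ≤ ap (α i) p := un_le hc
  have hfr : SS.Frc ud_fle ![F, check (nat N)] (ap (α 0) p) :=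
    frc_mv (all2 (p := Fx k s) fF (fx_check _ _ _)) (hg' 0) hN
  obtain ⟨i, j, hji, -, q, hq, hq'⟩ := fle_use (x := fun i => ax (g i) f) hF hfr
    (fun i => hs_ax hf _) (hrle 0) fun i _ => by
      have h5 : Fmem (ax (g i) f) (ax (g i) F) (ap (g i).1 p) := fmem_ax.2 hm
      exact (fmem_congr (Feq.refl _ _) (fF.feq (hg' i) _) h5).mono (hrle i)
  refine ⟨(g i)⁻¹ * g j, mul_mem (inv_mem (hg i)) (hg j), ?_, ap (α i)⁻¹ q, ?_, ?_, ?_⟩
  · intro x hx y hy hxy
    have h5 : α j x = α i y := by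
      rw [← hxy]
      exact ((α i).apply_symm_apply (α j x)).symm
    by_contra hxs
    by_cases hys : y ∈ s
    · rw [h2 i y hys] at h5
      have h6 := (h3 j x (Or.inl hx.2) hxs).2.2
      rw [h5] at h6
      exact h6 hys
    · have h6 := (h4 j i x (Or.inl hx.2) y (Or.inl hy.2) hxs hys h5).1
      omega
  · exact le_ap_iff.1 (hq.trans (hrle i))
  · have h5 : q ≤ ap (α j) p := hq.trans (hrle j)
    exact ap_mono (σ := (α i)⁻¹) h5
  · have h5 : Feq (ax (g i)⁻¹ (ax (g i) f)) (ax (g i)⁻¹ (ax (g j) f)) (ap (g i)⁻¹.1 q) :=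
      feq_ax.2 hq'
    rw [← ax_mul, inv_mul_cancel, ax_one, ← ax_mul] at h5
    exact h5

include hs hs' hsk hk hss ff in
theorem loc_of_eq {b : Gam} (hb : b ∈ Hk k' s)
    (hi : ∀ x ∈ lev k' s', ∀ y ∈ lev k' s', b.1 x = y → x ∈ s) {r : Cnd}
    (hr : Feq f (ax b f) r) : Loc k' s f (res (lev k' s') (ap b.1⁻¹ r)) := by
  set L := lev k' s' with hL
  have hLc : L.Countable := lev_countable hs'
  set u := res L r with hu
  set v := res L (ap b.1⁻¹ r) with hv
  have hsL : s ⊆ L := fun x hx => ⟨(hsk x hx).trans_le hk, hss hx⟩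
  have hfix : ∀ g ∈ Hk k' s, ∀ x ∈ s, g.1 x = x := fun g hg x hx =>
    (hg x ((hsk x hx).trans_le hk)).2 hx
  -- first step
  have h1 : ∀ γ ∈ Hk k' s, (∀ x ∈ L, ∀ y ∈ L, γ.1 x = y → x ∈ s) → ∀ w, w ≤ u →
      w ≤ ap γ.1 v → Feq f (ax γ f) w := by
    classical
    intro γ hγ hiγ w hwu hwv
    let φ : Om → Om := fun x => if x ∈ L then x else γ.1 (b.1.symm x)
    have hφ1 : ∀ x ∈ L, φ x = x := fun x hx => if_pos hx
    have hφ2 : ∀ y ∈ L, φ (b.1 y) = γ.1 y := by
      intro y hy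
      by_cases h2 : b.1 y ∈ L
      · have h3 := hi y hy _ h2 rfl
        rw [hφ1 _ h2, hfix b hb y h3, hfix γ hγ y h3]
      · change (if b.1 y ∈ L then b.1 y else γ.1 (b.1.symm (b.1 y))) = _
        rw [if_neg h2, Equiv.symm_apply_apply]
    obtain ⟨θ, hθ, hθ'⟩ := exists_pure (D := L ∪ b.1 '' L) (hLc.union (hLc.image _)) (φ := φ)
      (by
        rintro x (hx | ⟨x, hx, rfl⟩) y (hy | ⟨y, hy, rfl⟩) h
        · rwa [hφ1 x hx, hφ1 y hy] at h
        · rw [hφ1 x hx, hφ2 y hy] at h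
          have h2 := hiγ y hy x hx h.symm
          rw [h, hfix γ hγ y h2, hfix b hb y h2]
        · rw [hφ2 x hx, hφ1 y hy] at h
          have h2 := hiγ x hx y hy h
          rw [← h, hfix γ hγ x h2, hfix b hb x h2]
        · rw [hφ2 x hx, hφ2 y hy] at h
          rw [γ.1.injective h])
      (by
        rintro x (hx | ⟨x, hx, rfl⟩)
        · rw [hφ1 x hx]
          exact ⟨rfl, rfl⟩
        · rw [hφ2 x hx, lvl, lvl, (hγ x hx.1).1, (hb x hx.1).1]
          exact ⟨rfl, rfl⟩)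
    have hθ1 : ∀ x ∈ L, θ x = x := fun x hx => by rw [hθ' x (Or.inl hx), hφ1 x hx]
    have hθ2 : ∀ x ∈ L, θ (b.1 x) = γ.1 x := fun x hx => by
      rw [hθ' _ (Or.inr ⟨x, hx, rfl⟩), hφ2 x hx]
    let t : Gam := ⟨θ, pure_mem hθ⟩
    have ht : t ∈ Hk k' s' := pure_Hk hθ hθ1
    have ht' : t ∈ Hk k' s := pure_Hk hθ fun x hx => hθ1 x (hsL hx.2)
    have hcs : (s' ∪ b.1 '' L).Countable := hs'.union (hLc.image _)
    have h2 : Feq f (ax b f) (res (lev k' (s' ∪ b.1 '' L)) r) :=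
      feq_res hcs (ff.mono le_rfl fun x hx => Or.inl hx.2)
        ((ff.ax b).mono le_rfl fun x hx => Or.inr hx.2) hr
    have h3 : Feq (ax t f) (ax t (ax b f)) (ap θ (res (lev k' (s' ∪ b.1 '' L)) r)) := feq_ax.2 h2
    rw [← ax_mul] at h3
    have h4 : γ⁻¹ * (t * b) ∈ Hk k' s' := by
      have h5 : γ⁻¹ * (t * b) ∈ Hk k' s := mul_mem (inv_mem hγ) (mul_mem ht' hb)
      intro x hx
      refine ⟨(h5 x hx).1, fun hxs => ?_⟩
      change γ.1.symm (θ (b.1 x)) = x
      rw [hθ2 x ⟨hx, hxs⟩, Equiv.symm_apply_apply]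
    have h5 : Feq f (ax γ f) (ap θ (res (lev k' (s' ∪ b.1 '' L)) r)) :=
      feq_trans (ff.feq ht _).symm (feq_trans h3 (feq_of_agree ff h4 _))
    refine h5.mono ?_
    intro x κ c hc
    rw [ap_f] at hc
    obtain ⟨h6, h7⟩ := res_some hc
    set y := θ.symm x with hy
    have hx : θ y = x := by rw [hy, Equiv.apply_symm_apply]
    by_cases h8 : y ∈ L
    · rw [← hx, hθ1 y h8]
      refine hwu _ _ _ ?_
      rw [hu, res_pos h8]
      exact h7
    · obtain ⟨z, hz, h9⟩ : y ∈ b.1 '' L := by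
        rcases h6.2 with h9 | h9
        · exact absurd ⟨h6.1, h9⟩ h8
        · exact h9
      rw [← hx, ← h9, hθ2 z hz]
      refine hwv _ _ _ ?_
      rw [ap_f', hv, res_pos hz, ap_f]
      change r.f (b.1 z) κ = some c
      rw [h9]
      exact h7
  -- second step
  intro γ hγ w hwv hwγ
  refine (feq_dense fun w' hw' => ?_).symm
  obtain ⟨α, g1, g2, g3, -⟩ := exists_copies (A := w'.sp ∪ L ∪ γ.1 '' L) (B := L) (S := s)
    ((w'.sp_countable.union hLc).union (hLc.image _)) hLc hs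
  let ε : Gam := ⟨α 0, pure_mem (g1 0)⟩
  have hε : ε ∈ Hk k' s := pure_Hk (g1 0) fun x hx => g2 0 x hx.2
  have hc : Cmp (ap ε.1 u) w' := by
    intro x κ c c' hc hc'
    rw [ap_f] at hc
    set y := ε.1.symm x with hy
    have hx : α 0 y = x := by
      rw [hy]
      exact Equiv.apply_symm_apply ε.1 x
    obtain ⟨h2, h3⟩ := res_some hc
    by_cases h4 : y ∈ s
    · have h5 : y = x := by rw [← hx, g2 0 y h4]
      have h6 : v.f x κ = some c := by
        rw [← h5, hv, res_pos h2, ap_f]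
        change r.f (b.1 y) κ = some c
        rw [hfix b hb y h4]
        exact h3
      have h7 := (hw'.trans hwv) _ _ _ h6
      rw [hc'] at h7
      exact (Option.some_injective _ h7).symm
    · exact absurd (Or.inl (Or.inl (of_sp hc'))) (hx ▸ (g3 0 y h2 h4).1)
  obtain ⟨w'', h2, h3, -⟩ := exists_join hc
  refine ⟨w'', h3, ?_⟩
  have key : ∀ δ ∈ Hk k' s, (∀ x ∈ L, ∀ y ∈ L, δ.1 x = ε.1 y → x ∈ s) → w'' ≤ ap δ.1 v →
      Feq (ax ε f) (ax δ f) w'' := by
    intro δ hδ hi' hw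
    have h4 := h1 (ε⁻¹ * δ) (mul_mem (inv_mem hε) hδ) (fun x hx y hy h => hi' x hx y hy (by
      rw [← h]
      exact (ε.1.apply_symm_apply (δ.1 x)).symm)) (ap ε.1⁻¹ w'') (le_ap_iff.1 h2)
      (ap_mono (σ := ε.1⁻¹) hw)
    have h5 : Feq (ax ε f) (ax ε (ax (ε⁻¹ * δ) f)) w'' := by
      have h6 := feq_ax (g := ε) (x := f) (y := ax (ε⁻¹ * δ) f) (p := ap ε.1⁻¹ w'')
      rw [ap_ap_inv] at h6
      exact h6.2 h4
    rw [← ax_mul, mul_inv_cancel_left] at h5
    exact h5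
  have hind : ∀ δ ∈ Hk k' s, (∀ x ∈ L, δ.1 x ∈ L ∪ γ.1 '' L) →
      ∀ x ∈ L, ∀ y ∈ L, δ.1 x = ε.1 y → x ∈ s := by
    intro δ hδ hsub x hx y hy h
    by_contra hxs
    have hys : y ∉ s := by
      intro hys
      have h4 : ε.1 y = y := g2 0 y hys
      have h5 : δ.1 x = δ.1 y := by rw [h, h4, hfix δ hδ y hys]
      exact hxs (δ.1.injective h5 ▸ hys)
    have h4 := (g3 0 y hy hys).1
    apply h4
    change ε.1 y ∈ _
    rw [← h]
    rcases hsub x hx with h5 | h5
    exacts [Or.inl (Or.inr h5), Or.inr h5]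
  have h4 := key 1 (one_mem _) (hind 1 (one_mem _) fun x hx => Or.inl hx) (h3.trans (hw'.trans hwv))
  have h5 := key γ hγ (hind γ hγ fun x hx => Or.inr ⟨x, hx, rfl⟩) (h3.trans (hw'.trans hwγ))
  rw [ax_one] at h4
  exact feq_trans h4.symm h5

include hs hs' hsk hk hss hF fF hf ff in
/-- The first reduction: the copies do not matter. -/
theorem fin_copies {N : ℕ} {p : Cnd} (hN : SS.Frc ud_fle ![F, check (nat N)] p)
    (hm : Fmem f F p) : ∃ q ≤ p, ∃ f', SS.HS f' ∧ Fx k' s f' ∧ Feq f f' q := by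
  obtain ⟨b, hb, hi, r, h1, h2, h3⟩ := exists_eq hs hs' hsk hk hss hF fF hf ff hN hm
  have h4 := loc_of_eq hs hs' hsk hk hss ff hb hi h3
  set v := res (lev k' s') (ap b.1⁻¹ r) with hv
  have hc : Cmp p v := by
    intro x κ c c' hc hc'
    obtain ⟨h5, h6⟩ := res_some hc'
    have h7 := le_ap_iff.1 h2 _ _ _ hc
    rw [h6] at h7
    exact (Option.some_injective _ h7).symm
  obtain ⟨q, h5, h6, -⟩ := exists_join hc
  exact ⟨q, h5, avg (Hk k' s) v f, hs_avg hs v hf, fx_avg k' s v f, (feq_avg h4).symm.mono h6⟩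

end copies

/-! ### Rotations -/

/-- The rotation. -/
noncomputable def rotP (v : ℕ → ℚ) : Equiv.Perm Om where
  toFun x := (x.1, x.2.1 + rt (v x.1), x.2.2)
  invFun x := (x.1, x.2.1 - rt (v x.1), x.2.2)
  left_inv x := by simp
  right_inv x := by simp

theorem rotP_mem (v : ℕ → ℚ) : rotP v ∈ Gam := fun n => ⟨v n, fun _ _ => ⟨rfl, rfl⟩⟩

/-- The rotation as an element of the group. -/
noncomputable def rot (v : ℕ → ℚ) : Gam := ⟨rotP v, rotP_mem v⟩

theorem rot_apply (v : ℕ → ℚ) (x : Om) : (rot v).1 x = (x.1, x.2.1 + rt (v x.1), x.2.2) := rfl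

theorem rot_add (v w : ℕ → ℚ) : rot (v + w) = rot v * rot w := by
  refine Subtype.ext (Equiv.ext fun x => ?_)
  change (x.1, x.2.1 + rt ((v + w) x.1), x.2.2) = (x.1, x.2.1 + rt (w x.1) + rt (v x.1), x.2.2)
  rw [Pi.add_apply, rt_add]
  refine Prod.ext rfl (Prod.ext ?_ rfl)
  change x.2.1 + (rt (v x.1) + rt (w x.1)) = x.2.1 + rt (w x.1) + rt (v x.1)
  abel

theorem rot_zero : rot 0 = 1 := by
  refine Subtype.ext (Equiv.ext fun x => ?_)
  change (x.1, x.2.1 + rt 0, x.2.2) = x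
  rw [rt_zero, add_zero]

theorem rot_Hk {v : ℕ → ℚ} {k : ℕ} (hv : ∀ n < k, v n = 0) (s : Set Om) : rot v ∈ Hk k s := by
  intro x hx
  have h1 : (rot v).1 x = x := by
    rw [rot_apply, hv _ hx, rt_zero, add_zero]
  rw [h1]
  exact ⟨rfl, fun _ => rfl⟩

theorem rot_lev {v : ℕ → ℚ} {k : ℕ} (hv : ∀ n < k, v n = 0) {s : Set Om}
    (hsk : ∀ x ∈ s, x.1 < k) : ∀ x ∈ s, (rot v).1 x = x := fun x hx =>
  ((rot_Hk hv s) x (hsk x hx)).2 hx

section rotations

variable {k k' : ℕ} {s : Set Om} (hs : s.Countable)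
  (hsk : ∀ x ∈ s, x.1 < k) (hk : k ≤ k') {F f : PName Cnd}
  (hF : SS.HS F) (fF : Fx k s F) (hf : SS.HS f) (ff : Fx k' s f)

include hsk in
theorem ap_fix {p : Cnd} (hp : p.sp ⊆ s) {g : Gam} (hg : g ∈ Hk k s) : ap g.1 p = p := by
  have h1 : ap g.1 p = ap 1 p := ap_congr fun x hx => (hg x (hsk x (hp hx))).2 (hp hx)
  rw [h1, ap_one]

include hsk in
theorem lev_eq (h : k ≤ k') : lev k' s = s :=
  Set.Subset.antisymm (fun _ hx => hx.2) fun x hx => ⟨(hsk x hx).trans_le h, hx⟩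

include hs hsk hk hF fF hf ff in
theorem rot_fix {N : ℕ} {p : Cnd} (hp : p.sp ⊆ s)
    (hN : SS.Frc ud_fle ![F, check (nat N)] p) (hm : Fmem f F p) {v : ℕ → ℚ}
    (hv : ∀ n < k, v n = 0) : Feq (ax (rot v) f) f p := by
  refine feq_dense fun q hq => ?_
  set w : ℕ → ℚ := fun n => v n / (N.factorial : ℚ) with hw
  have hw0 : ∀ (i : ℕ), ∀ n < k, (fun n => (i : ℚ) * w n) n = 0 := by
    intro i n hn
    change (i : ℚ) * (v n / _) = 0
    rw [hv n hn]
    simp
  have hmem : ∀ i : ℕ, Fmem (ax (rot fun n => (i : ℚ) * w n) f) F p := by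
    intro i
    have h1 := rot_Hk (hw0 i) s
    have h2 : Fmem (ax (rot fun n => (i : ℚ) * w n) f) (ax (rot fun n => (i : ℚ) * w n) F)
      (ap (rot fun n => (i : ℚ) * w n).1 p) := fmem_ax.2 hm
    rw [ap_fix hsk hp h1] at h2
    exact fmem_congr (Feq.refl _ _) (fF.feq h1 _) h2
  obtain ⟨i, j, hji, hiN, r, hr, h1⟩ := fle_use
    (x := fun i : ℕ => ax (rot fun n => (i : ℚ) * w n) f) hF hN (fun i => hs_ax hf _) hq
    fun i _ => (hmem i).mono hq
  refine ⟨r, hr, ?_⟩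
  have hfx : ∀ i : ℕ, Fx k' s (ax (rot fun n => (i : ℚ) * w n) f) := by
    intro i
    have h2 := ff.ax (rot fun n => (i : ℚ) * w n)
    have h3 : (rot fun n => (i : ℚ) * w n).1 '' lev k' s = s := by
      rw [lev_eq hsk hk]
      ext x
      constructor
      · rintro ⟨y, hy, rfl⟩
        rwa [rot_lev (hw0 i) hsk y hy]
      · intro hx
        exact ⟨x, hx, rot_lev (hw0 i) hsk x hx⟩
    rwa [h3] at h2
  have h2 := feq_res hs (hfx i) (hfx j) h1
  rw [lev_eq hsk hk] at h2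
  set r0 := res s r with hr0
  have hr0s : r0.sp ⊆ s := (sp_res _ _).trans Set.inter_subset_left
  have hfix0 : ∀ {v : ℕ → ℚ}, (∀ n < k, v n = 0) → ap (rot v).1 r0 = r0 := fun hv =>
    ap_fix hsk hr0s (rot_Hk hv s)
  -- the difference
  have h3 : Feq (ax (rot fun n => ((i - j : ℕ) : ℚ) * w n) f) f r0 := by
    have h4 : (rot fun n => (i : ℚ) * w n) =
        (rot fun n => (j : ℚ) * w n) * rot fun n => ((i - j : ℕ) : ℚ) * w n := by
      rw [← rot_add]
      congr 1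
      funext n
      rw [Pi.add_apply, Nat.cast_sub hji.le]
      ring
    have h5 : Feq (ax (rot fun n => (j : ℚ) * w n) (ax (rot fun n => ((i - j : ℕ) : ℚ) * w n) f))
        (ax (rot fun n => (j : ℚ) * w n) f) r0 := by
      rw [← ax_mul, ← h4]
      exact h2
    rw [← hfix0 (hw0 j)] at h5
    exact feq_ax.1 h5
  -- the multiples
  have h4 : ∀ m : ℕ, Feq (ax (rot fun n => (m : ℚ) * (((i - j : ℕ) : ℚ) * w n)) f) f r0 := by
    intro m
    induction m with
    | zero =>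
      have h5 : (rot fun n => ((0 : ℕ) : ℚ) * (((i - j : ℕ) : ℚ) * w n)) = 1 := by
        rw [← rot_zero]
        congr 1
        funext n
        simp
      rw [h5, ax_one]
      exact Feq.refl _ _
    | succ m ih =>
      have h5 : (rot fun n => ((m + 1 : ℕ) : ℚ) * (((i - j : ℕ) : ℚ) * w n)) =
          (rot fun n => ((i - j : ℕ) : ℚ) * w n) *
            rot fun n => (m : ℚ) * (((i - j : ℕ) : ℚ) * w n) := by
        rw [← rot_add]
        congr 1
        funext n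
        rw [Pi.add_apply]
        push_cast
        ring
      rw [h5, ax_mul]
      refine feq_trans ?_ h3
      have h6 := feq_ax (g := rot fun n => ((i - j : ℕ) : ℚ) * w n)
        (x := ax (rot fun n => (m : ℚ) * (((i - j : ℕ) : ℚ) * w n)) f) (y := f) (p := r0)
      rw [hfix0 (hw0 _)] at h6
      exact h6.2 ih
  have hd : (i - j) ∣ N.factorial := Nat.dvd_factorial (by omega) (by omega)
  obtain ⟨m, hm'⟩ := hd
  have h5 : (rot fun n => (m : ℚ) * (((i - j : ℕ) : ℚ) * w n)) = rot v := by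
    congr 1
    funext n
    have h6 : (N.factorial : ℚ) = ((i - j : ℕ) : ℚ) * m := by exact_mod_cast hm'
    have h7 : (N.factorial : ℚ) ≠ 0 := by exact_mod_cast Nat.factorial_ne_zero N
    change (m : ℚ) * (((i - j : ℕ) : ℚ) * (v n / N.factorial)) = v n
    have h8 : ((i - j : ℕ) : ℚ) * m ≠ 0 := h6 ▸ h7
    rw [h6, ← mul_assoc, mul_comm (m : ℚ), mul_div_cancel₀ _ h8]
  have h6 := h4 m
  rw [h5] at h6
  exact h6.mono (le_res _ _)

include hs hsk hk hF fF hf ff in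
theorem fin_rot {N : ℕ} {p : Cnd} (hN : SS.Frc ud_fle ![F, check (nat N)] p)
    (hm : Fmem f F p) : ∃ f', SS.HS f' ∧ Fx k s f' ∧ Feq f f' p := by
  have h1 := fmem_res hs ff (fF.mono hk fun x hx => hx.2) hm
  rw [lev_eq hsk hk] at h1
  have h2 := frc_res hs (all2 (p := SS.HS) hF (SS.hs_check _))
    (all2 (p := Fx k s) fF (fx_check _ _ _)) hN
  rw [lev_eq hsk le_rfl] at h2
  set p0 := res s p with hp0
  have hp0s : p0.sp ⊆ s := (sp_res _ _).trans Set.inter_subset_left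
  have h3 : ∀ g ∈ Hk k s, Feq (ax g f) f p0 := by
    intro g hg
    choose v hv using rotat g
    let w : ℕ → ℚ := fun n => if n < k then 0 else v n
    have hw : ∀ n < k, w n = 0 := fun n hn => if_pos hn
    have hgw : ∀ x : Om, (g.1 x).2.1 = x.2.1 + rt (w x.1) := by
      intro x
      by_cases h4 : x.1 < k
      · rw [hw _ h4, rt_zero, add_zero]
        exact (hg x h4).1
      · have h5 : w x.1 = v x.1 := if_neg h4
        rw [h5]
        exact hv x.1 x rfl
    have h4 : (rot w)⁻¹ * g ∈ Hk k' s := by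
      intro x hx
      have h5 : ((rot w)⁻¹ * g).1 x = ((g.1 x).1, (g.1 x).2.1 - rt (w (g.1 x).1), (g.1 x).2.2) := rfl
      refine ⟨?_, fun hxs => ?_⟩
      · rw [h5]
        change (g.1 x).2.1 - rt (w (g.1 x).1) = _
        rw [hgw, lvl, add_sub_cancel_right]
      · rw [h5, (hg x (hsk x hxs)).2 hxs, hw _ (hsk x hxs), rt_zero, sub_zero]
    have h5 : Feq (ax g f) (ax (rot w) f) p0 := feq_of_agree ff h4 p0
    exact feq_trans h5 (rot_fix hs hsk hk hF fF hf ff hp0s h2 h1 hw)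
  refine ⟨avg (Hk k s) p0 f, hs_avg hs p0 hf, fx_avg k s p0 f, ?_⟩
  have h4 : Feq (avg (Hk k s) p0 f) f p0 := feq_avg fun g hg r hr _ => (h3 g hg).mono hr
  exact h4.symm.mono (le_res _ _)

end rotations

/-- The elements of finite sets have the same support as the set. -/
theorem fin_supp {k : ℕ} {s : Set Om} (hs : s.Countable) (hsk : ∀ x ∈ s, x.1 < k)
    {F f : PName Cnd} (hF : SS.HS F) (fF : Fx k s F) (hf : SS.HS f) {N : ℕ} {p : Cnd}
    (hN : SS.Frc ud_fle ![F, check (nat N)] p) (hm : Fmem f F p) :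
    ∃ q ≤ p, ∃ f', SS.HS f' ∧ Fx k s f' ∧ Feq f f' q := by
  obtain ⟨k', s', hk, hss, hs', ff⟩ := exists_fx hf k hs
  obtain ⟨q, hq, f', h1, h2, h3⟩ := fin_copies hs hs' hsk hk hss hF fF hf ff hN hm
  obtain ⟨f'', h4, h5, h6⟩ := fin_rot hs hsk hk hF fF h1 h2 (hN.mono hq)
    (fmem_congr h3 (Feq.refl _ _) (hm.mono hq))
  exact ⟨q, hq, f'', h4, h5, feq_trans h3 h6⟩

end Pool.Agent.Q207.CT
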