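import Pool.Agent.Q207.CT.Fin
import Pool.Agent.Q207.UL.Sym
import Pool.Agent.Q211.FS.Met

/-!
# Complete totally bounded spaces, and near copies of points
-/

set_option autoImplicit false
set_option linter.unusedSectionVars false
set_option linter.unreachableTactic false
set_option linter.unusedTactic false


namespace Pool.Agent.Q207.CT

open Pool.Agent.W868 Pool.Agent.W868.PName Pool.Agent.Q211.SY
open Pool.Agent.Q211.FS (reg ud_reg tb ud_tb hf)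
open ZFSet (pair)
open Cnd

/-- Every Cauchy sequence converges. -/
def cpl (M : Set ZFSet.{0}) (X D : ZFSet.{0}) : Prop :=
  ∀ t ∈ M, ZFSet.IsFunc ZFSet.omega X t →
    (∀ k ∈ ZFSet.omega, ∃ n ∈ ZFSet.omega, ∀ i ∈ ZFSet.omega, ∀ j ∈ ZFSet.omega, n ∈ i → n ∈ j →
      ∀ x ∈ X, ∀ y ∈ X, pair i x ∈ t → pair j y ∈ t → pair (pair x y) k ∈ D) →
    ∃ x ∈ X, ∀ k ∈ ZFSet.omega, ∃ n ∈ ZFSet.omega, ∀ i ∈ ZFSet.omega, n ∈ i →
      ∀ y ∈ X, pair i y ∈ t → pair (pair x y) k ∈ D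

theorem ud_cpl0 : UD fun M (v : Fin 2 → ZFSet.{0}) => cpl M (v 0) (v 1) := by
  unfold cpl
  (repeat' first
      | assumption
      | exact UF.proj _
      | exact UF.om
      | exact UF.empty
      | exact UD.prop _
      | exact UF.nat _
      | exact ud_reg
      | exact ud_cpl
      | apply UD.isInj | apply UD.isFunc
      | apply UD.not | apply UD.and | apply UD.or | apply UD.imp | apply UD.iff
      | apply UD.bex | apply UD.ball | apply UD.ex | apply UD.all | apply UD.subset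
      | apply UD.eq | apply UD.mem | apply UF.pair
      | apply UF.insert)

theorem ud_cpl : UD fun M (v : Fin 2 → ZFSet.{0}) => cpl M (v 0) (v 1) := ud_cpl0

/-- The relation `D` gives a complete and totally bounded metric structure on `X`. -/
def GD (M : Set ZFSet.{0}) (X D : ZFSet.{0}) : Prop :=
  reg M X D ∧ cpl M X D ∧ (∀ x ∈ X, ∀ k ∈ ZFSet.omega, pair (pair x x) k ∈ D) ∧
  (∀ x ∈ X, ∀ y ∈ X, ∀ k ∈ ZFSet.omega, pair (pair x y) k ∈ D → pair (pair y x) k ∈ D) ∧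
  (∀ x ∈ X, ∀ y ∈ X, (∀ k ∈ ZFSet.omega, pair (pair x y) k ∈ D) → x = y) ∧
  ∀ x ∈ X, ∀ y ∈ X, ∀ k ∈ ZFSet.omega, ∀ l ∈ k, pair (pair x y) k ∈ D → pair (pair x y) l ∈ D

theorem ud_gd : UD fun M (v : Fin 2 → ZFSet.{0}) => GD M (v 0) (v 1) := by
  unfold GD
  (repeat' first
      | assumption
      | exact UF.proj _
      | exact UF.om
      | exact UF.empty
      | exact UD.prop _
      | exact UF.nat _
      | exact ud_reg
      | exact ud_cpl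
      | apply UD.isInj | apply UD.isFunc
      | apply UD.not | apply UD.and | apply UD.or | apply UD.imp | apply UD.iff
      | apply UD.bex | apply UD.ball | apply UD.ex | apply UD.all | apply UD.subset
      | apply UD.eq | apply UD.mem | apply UF.pair
      | apply UF.insert)

namespace GD

variable {M : Set ZFSet.{0}} {X D : ZFSet.{0}} (h : GD M X D)

include h

theorem rf {x : ZFSet.{0}} (hx : x ∈ X) (k : ℕ) : pair (pair x x) (nat k) ∈ D :=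
  h.2.2.1 x hx _ (mem_omega_iff.2 ⟨k, rfl⟩)

theorem sy {x y : ZFSet.{0}} (hx : x ∈ X) (hy : y ∈ X) {k : ℕ}
    (hD : pair (pair x y) (nat k) ∈ D) : pair (pair y x) (nat k) ∈ D :=
  h.2.2.2.1 x hx y hy _ (mem_omega_iff.2 ⟨k, rfl⟩) hD

theorem se {x y : ZFSet.{0}} (hx : x ∈ X) (hy : y ∈ X)
    (hD : ∀ k : ℕ, pair (pair x y) (nat k) ∈ D) : x = y := by
  refine h.2.2.2.2.1 x hx y hy fun k hk => ?_
  obtain ⟨k, rfl⟩ := mem_omega_iff.1 hk
  exact hD k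

theorem mo {x y : ZFSet.{0}} (hx : x ∈ X) (hy : y ∈ X) {k l : ℕ} (hl : l ≤ k)
    (hD : pair (pair x y) (nat k) ∈ D) : pair (pair x y) (nat l) ∈ D := by
  rcases hl.lt_or_eq with h1 | rfl
  · exact h.2.2.2.2.2 x hx y hy _ (mem_omega_iff.2 ⟨k, rfl⟩) _ (nat_mem_nat.2 h1) hD
  · exact hD

theorem ha (k : ℕ) : ∃ l : ℕ, ∀ x ∈ X, ∀ y ∈ X, ∀ z ∈ X, pair (pair x z) (nat l) ∈ D →
    pair (pair y z) (nat l) ∈ D → pair (pair x y) (nat k) ∈ D := by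
  obtain ⟨-, l, hl, h1⟩ := h.1 _ (mem_omega_iff.2 ⟨k, rfl⟩)
  obtain ⟨l, rfl⟩ := mem_omega_iff.1 hl
  exact ⟨l, h1⟩

theorem bd (k : ℕ) : ∃ m : ℕ, tb M X D (nat k) (nat m) := by
  obtain ⟨⟨m, hm, h1⟩, -⟩ := h.1 _ (mem_omega_iff.2 ⟨k, rfl⟩)
  obtain ⟨m, rfl⟩ := mem_omega_iff.1 hm
  exact ⟨m, h1⟩

theorem cp {a : ℕ → ZFSet.{0}} (ha : ∀ i, a i ∈ X) {t : ZFSet.{0}} (ht : t ∈ M)
    (hta : ∀ z, z ∈ t ↔ ∃ i, z = pair (nat i) (a i))
    (hc : ∀ k : ℕ, ∃ N, ∀ m n, N ≤ m → N ≤ n → pair (pair (a m) (a n)) (nat k) ∈ D) :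
    ∃ x ∈ X, ∀ k : ℕ, ∃ N, ∀ n, N ≤ n → pair (pair x (a n)) (nat k) ∈ D := by
  have h0 : ∀ i z, pair (nat i) z ∈ t → z = a i := by
    intro i z hz
    obtain ⟨j, hj⟩ := (hta _).1 hz
    obtain ⟨h1, h2⟩ := ZFSet.pair_inj.1 hj
    rw [h2, nat_injective h1]
  obtain ⟨x, hx, h1⟩ := h.2.1 t ht ⟨fun z hz => by
      obtain ⟨i, rfl⟩ := (hta z).1 hz
      exact ZFSet.pair_mem_prod.2 ⟨mem_omega_iff.2 ⟨i, rfl⟩, ha i⟩, fun i hi => by
      obtain ⟨i, rfl⟩ := mem_omega_iff.1 hi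
      exact ⟨a i, (hta _).2 ⟨i, rfl⟩, fun z hz => h0 i z hz⟩⟩ (by
    intro k hk
    obtain ⟨k, rfl⟩ := mem_omega_iff.1 hk
    obtain ⟨N, hN⟩ := hc k
    refine ⟨nat N, mem_omega_iff.2 ⟨N, rfl⟩, fun i hi j hj hNi hNj x hx y hy hxt hyt => ?_⟩
    obtain ⟨i, rfl⟩ := mem_omega_iff.1 hi
    obtain ⟨j, rfl⟩ := mem_omega_iff.1 hj
    rw [h0 i x hxt, h0 j y hyt]
    exact hN i j (nat_mem_nat.1 hNi).le (nat_mem_nat.1 hNj).le)
  refine ⟨x, hx, fun k => ?_⟩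
  obtain ⟨n, hn, h2⟩ := h1 _ (mem_omega_iff.2 ⟨k, rfl⟩)
  obtain ⟨N, rfl⟩ := mem_omega_iff.1 hn
  exact ⟨N + 1, fun n hn => h2 _ (mem_omega_iff.2 ⟨n, rfl⟩) (nat_mem_nat.2 hn) _ (ha n)
    ((hta _).2 ⟨n, rfl⟩)⟩

end GD

/-! ### Orbits -/

/-- The name of all the copies of `f`. -/
def orbN (H : Subgroup Gam) (q : Cnd) (f : PName Cnd) : PName Cnd :=
  PName.mk H (fun g => ax g.1 f) (fun g => ap g.1.1 q)

theorem el_orbN {H : Subgroup Gam} {q : Cnd} {f z : PName Cnd} {c : Cnd} :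
    El (orbN H q f) z c ↔ ∃ g ∈ H, z = ax g f ∧ c = ap g.1 q := by
  constructor
  · rintro ⟨⟨g, hg⟩, rfl, rfl⟩
    exact ⟨g, hg, rfl, rfl⟩
  · rintro ⟨g, hg, rfl, rfl⟩
    exact ⟨⟨g, hg⟩, rfl, rfl⟩

theorem fx_orbN (k : ℕ) (s : Set Om) (q : Cnd) (f : PName Cnd) :
    Fx k s (orbN (Hk k s) q f) := by
  intro (g : Gam) hg p
  refine feq_of_el fun z c => ?_
  change El (ax g _) z c ↔ _
  rw [el_ax]
  constructor
  · rintro ⟨z', c', h1, rfl, rfl⟩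
    obtain ⟨u, hu, rfl, rfl⟩ := el_orbN.1 h1
    exact el_orbN.2 ⟨g * u, mul_mem hg hu, (ax_mul _ _ _).symm, rfl⟩
  · intro h1
    obtain ⟨u, hu, rfl, rfl⟩ := el_orbN.1 h1
    refine ⟨ax (g⁻¹ * u) f, ap (g⁻¹ * u).1 q, el_orbN.2 ⟨g⁻¹ * u, mul_mem (inv_mem hg) hu,
      rfl, rfl⟩, ?_, ?_⟩
    · rw [← ax_mul, mul_inv_cancel_left]
    · have h2 : ap g.1 (ap (g⁻¹ * u).1 q) = ap (g * (g⁻¹ * u)).1 q := rfl
      rw [h2, mul_inv_cancel_left]

theorem hs_orbN {k : ℕ} {s : Set Om} (hs : s.Countable) (q : Cnd) {f : PName Cnd}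
    (hf : SS.HS f) : SS.HS (orbN (Hk k s) q f) := by
  rw [Sys.hs_iff]
  refine ⟨sym_iff.2 ⟨k, s, hs, fx_orbN k s q f⟩, ?_⟩
  intro z c h
  obtain ⟨g, -, rfl, -⟩ := el_orbN.1 h
  exact hs_ax hf g

theorem fmem_orbN {H : Subgroup Gam} {q : Cnd} {f : PName Cnd} : Fmem f (orbN H q f) q := by
  refine fmem_iff.2 fun r hr => ⟨r, le_rfl, f, q, el_orbN.2 ⟨1, one_mem _, (ax_one f).symm, ?_⟩,
    hr, Feq.refl _ _⟩
  exact (ap_one q).symm

/-! ### Truth -/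

theorem nfeq_of_ne {π : Pkg Cnd} {x y : PName Cnd} (hx : x ∈ π.N) (hy : y ∈ π.N)
    (h : π.val x ≠ π.val y) : ∃ m, ∀ q ≤ π.g m, ¬ Feq x y q := by
  obtain ⟨k, h1 | ⟨z, hz, h1 | h1⟩⟩ := π.gen_eq hx hy
  · exact absurd ((π.val_eq_iff hx hy).2 ⟨k, h1⟩) h
  · obtain ⟨⟨c, hc, hkc⟩, hn⟩ := h1
    refine ⟨k, fun q hq hf => ?_⟩
    obtain ⟨r, hr, w, d, hw, hrd, he⟩ := (feq_iff'.1 hf).1 z c hc q le_rfl (hq.trans hkc)
    exact hn r (hr.trans hq) w d hw hrd he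
  · obtain ⟨⟨c, hc, hkc⟩, hn⟩ := h1
    refine ⟨k, fun q hq hf => ?_⟩
    obtain ⟨r, hr, w, d, hw, hrd, he⟩ := (feq_iff'.1 hf.symm).1 z c hc q le_rfl (hq.trans hkc)
    exact hn r (hr.trans hq) w d hw hrd he

theorem nfmem_of {π : Pkg Cnd} {x y : PName Cnd} (hx : x ∈ π.N) (hy : y ∈ π.N)
    (h : π.val x ∉ π.val y) : ∃ m, ∀ q ≤ π.g m, ¬ Fmem x y q := by
  obtain ⟨k, h1, -⟩ := π.gen ⟨0, .mem (Sum.inr x) (Sum.inr y), Fin.elim0, ⊤⟩
    ⟨⟨tOver_inr.2 hx, tOver_inr.2 hy⟩, fun i => i.elim0⟩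
  rcases h1 with h1 | h1
  · exact absurd ((π.val_mem_iff hx hy).2 ⟨k, h1⟩) h
  · exact ⟨k, h1⟩

/-- If there are many copies, then they are distinct in some model. -/
theorem exists_distinct {k : ℕ} {s : Set Om} (hs : s.Countable) {q : Cnd} {f : PName Cnd}
    (hf : SS.HS f) {N : ℕ}
    (hN : ¬ SS.Frc ud_fle ![orbN (Hk k s) q f, check (nat N)] q) {A : Set (PName Cnd)}
    (hA : A.Countable) : ∃ π : Pkg Cnd, SS.Cld π ∧ A ⊆ π.N ∧ π.g 0 ≤ q ∧ ∃ g : ℕ → Gam,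
      (∀ i < N, g i ∈ Hk k s ∧ (∃ n, π.g n ≤ ap (g i).1 q) ∧ ax (g i) f ∈ π.N) ∧
      ∀ i < N, ∀ j < i, π.val (ax (g i) f) ≠ π.val (ax (g j) f) := by
  set O := orbN (Hk k s) q f with hO
  have hOH : SS.HS O := hs_orbN hs q hf
  have hh : ∀ i, SS.HS ((![O, check (nat N)] : Fin 2 → PName Cnd) i) :=
    all2 (p := SS.HS) hOH (SS.hs_check _)
  obtain ⟨q', hq', h1⟩ : ∃ q' ≤ q, SS.Frc (UD.not ud_fle) ![O, check (nat N)] q' := by
    by_contra hc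
    push Not at hc
    refine hN (Sys.frc_dense fun r hr => ?_)
    obtain ⟨r', hr', h2 | h2⟩ := Sys.frc_dec (h := ud_fle) hh r
    · exact ⟨r', hr', h2⟩
    · exact absurd h2 (hc r' (hr'.trans hr))
  obtain ⟨π, h2, h3, hcl, -⟩ := Sys.exists_cld SS ({O} ∪ A)
    ((Set.countable_singleton _).union hA) ∅ Set.countable_empty q'
  have hON : O ∈ π.N := h2 (Or.inl rfl)
  have h4 := (Sys.frc_sem hh).1 h1 π hcl (all2 (p := fun y => y ∈ π.N) hON (π.nat_Z N))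
    ⟨0, h3.le⟩
  change ¬ FLe (SS.Ms π) (π.val O) (π.val (check (nat N))) at h4
  rw [show π.val (check (nat N)) = nat N from π.hat_nat N] at h4
  unfold FLe at h4
  push Not at h4
  obtain ⟨t, -, htf, ht⟩ := h4
  refine ⟨π, hcl, fun a ha => h2 (Or.inr ha), h3.le.trans hq', ?_⟩
  have h5 : ∀ i : ℕ, ∃ g : Gam, i < N → (g ∈ Hk k s ∧ (∃ n, π.g n ≤ ap g.1 q) ∧ ax g f ∈ π.N) ∧
      pair (nat i) (π.val (ax g f)) ∈ t := by
    intro i
    by_cases hi : i < N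
    · obtain ⟨z, hz, -⟩ := htf.2 (nat i) (nat_mem_nat.2 hi)
      have hzO := (ZFSet.pair_mem_prod.1 (htf.1 hz)).2
      obtain ⟨y, hy, c, hc, hn, rfl⟩ := π.mem_val.1 hzO
      obtain ⟨g, hg, rfl, rfl⟩ := el_orbN.1 hc
      exact ⟨g, fun _ => ⟨⟨hg, hn, hy⟩, hz⟩⟩
    · exact ⟨1, fun h => absurd h hi⟩
  choose g hg using h5
  refine ⟨g, fun i hi => (hg i hi).1, fun i hi j hj he => ?_⟩
  have h6 := (hg i hi).2
  have h7 := (hg j (hj.trans hi)).2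
  refine ht (nat i) (nat_mem_nat.2 hi) (nat j) (nat_mem_nat.2 hj) _
    (ZFSet.pair_mem_prod.1 (htf.1 h6)).2 h6 ?_
  rw [he]
  exact h7

section near

variable {k : ℕ} {s : Set Om} (hs : s.Countable) (hsk : ∀ x ∈ s, x.1 < k)
  {X f : PName Cnd} (hX : SS.HS X) (fX : Fx k s X)
  (hf : SS.HS f) {q1 : Cnd} (hm : Fmem f X q1)
  (hns : ∀ q ≤ q1, ∀ f', SS.HS f' → Fx k s f' → ¬ Feq f f' q)

include hs hsk hf hns in
theorem not_fle {q : Cnd} (hq : q ≤ q1) (N : ℕ) :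
    ¬ SS.Frc ud_fle ![orbN (Hk k s) q f, check (nat N)] q := by
  intro h
  obtain ⟨r, hr, f', h1, h2, h3⟩ := fin_supp hs hsk (hs_orbN hs q hf) (fx_orbN k s q f) hf h
    fmem_orbN
  exact hns r (hr.trans hq) f' h1 h2 h3

include hs hsk hX fX hf hm hns in
/-- There are infinitely many copies. -/
theorem far_copy {q : Cnd} (hq : q ≤ q1) {N : ℕ} (x : ℕ → PName Cnd) :
    ∃ r ≤ q, ∃ g ∈ Hk k s, r ≤ ap g.1 q1 ∧ ∀ i < N, ∀ r' ≤ r, ¬ Feq (x i) (ax g f) r' := by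
  obtain ⟨π, hcl, hA, h0, g, h1, h2⟩ := exists_distinct hs hf
    (not_fle hs hsk hf hns hq (N + 1)) (A := Set.range x) (Set.countable_range _)
  obtain ⟨j, hj, h3⟩ : ∃ j < N + 1, ∀ i < N, π.val (x i) ≠ π.val (ax (g j) f) := by
    classical
    by_contra hc
    push Not at hc
    choose! e he1 he2 using hc
    obtain ⟨a, ha, b, hb, hab, h4⟩ := Finset.exists_ne_map_eq_of_card_lt_of_maps_to
      (s := Finset.range (N + 1)) (t := Finset.range N) (by simp) (f := e)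
      (fun i hi => Finset.mem_coe.2 (Finset.mem_range.2 (he1 i (Finset.mem_range.1 hi))))
    have h5 := he2 a (Finset.mem_range.1 ha)
    have h6 := he2 b (Finset.mem_range.1 hb)
    rw [h4] at h5
    rw [h5] at h6
    rcases lt_or_gt_of_ne hab with h7 | h7
    · exact h2 b (Finset.mem_range.1 hb) a h7 h6.symm
    · exact h2 a (Finset.mem_range.1 ha) b h7 h6
  obtain ⟨hg, ⟨n, hn⟩, hN⟩ := h1 j hj
  have h4 : ∀ i : ℕ, ∃ m, i < N → ∀ q ≤ π.g m, ¬ Feq (x i) (ax (g j) f) q := by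
    intro i
    by_cases hi : i < N
    · obtain ⟨m, hm⟩ := nfeq_of_ne (hA ⟨i, rfl⟩) hN (h3 i hi)
      exact ⟨m, fun _ => hm⟩
    · exact ⟨0, fun h => absurd h hi⟩
  choose m hm' using h4
  obtain ⟨L, hL⟩ : ∃ L, ∀ i < N, m i ≤ L :=
    ⟨(Finset.range N).sup m, fun i hi => Finset.le_sup (Finset.mem_range.2 hi)⟩
  refine ⟨π.g (max n L), (π.g_anti (Nat.zero_le _)).trans h0, g j, hg, ?_, ?_⟩
  · exact (π.g_le_left _ _).trans (hn.trans (ap_mono hq))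
  · intro i hi r' hr'
    exact hm' i hi r' (hr'.trans (π.g_anti ((hL i hi).trans (le_max_right _ _))))

end near

/-- The number of the points that are pairwise not close is bounded. -/
theorem frc_bd {X D : PName Cnd} (hX : SS.HS X) (hD : SS.HS D) {p : Cnd}
    (hg : SS.Frc ud_gd ![X, D] p) (k0 : ℕ) : ∃ N : ℕ, ∃ q ≤ p,
      SS.Frc ud_tb ![X, D, check (nat k0), check (nat N)] q := by
  obtain ⟨π, h1, h2, hcl, -⟩ := Sys.exists_cld SS ({X, D})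
    (Set.toFinite _).countable ∅ Set.countable_empty p
  have hXN : X ∈ π.N := h1 (by simp)
  have hDN : D ∈ π.N := h1 (by simp)
  have h3 := (Sys.frc_sem (x := ![X, D]) (all2 (p := SS.HS) hX hD)).1 hg π hcl
    (all2 (p := fun y => y ∈ π.N) hXN hDN) ⟨0, h2.le⟩
  change GD (SS.Ms π) (π.val X) (π.val D) at h3
  obtain ⟨N, hN⟩ := h3.bd k0
  obtain ⟨m, hm⟩ := (Sys.frc_iff (x := ![X, D, check (nat k0), check (nat N)]) ud_tb hcl
    (all4 (p := fun y => y ∈ π.N ∧ SS.HS y) ⟨hXN, hX⟩ ⟨hDN, hD⟩ ⟨π.nat_Z k0, SS.hs_check _⟩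
      ⟨π.nat_Z N, SS.hs_check _⟩)).1 (by
        change tb (SS.Ms π) (π.val X) (π.val D) (π.val (check (nat k0))) (π.val (check (nat N)))
        rw [show π.val (check (nat k0)) = nat k0 from π.hat_nat k0,
          show π.val (check (nat N)) = nat N from π.hat_nat N]
        exact hN)
  exact ⟨N, π.g m, (π.g_anti (Nat.zero_le m)).trans h2.le, hm⟩

/-- Two points are close. -/
def Nr (D x y : PName Cnd) (k0 : ℕ) (r : Cnd) : Prop :=
  Fmem (opN (opN x y) (check (nat k0))) D r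

theorem Nr.mono {D x y : PName Cnd} {k0 : ℕ} {r r' : Cnd} (h : Nr D x y k0 r) (hr : r' ≤ r) :
    Nr D x y k0 r' := Fmem.mono h hr

theorem nr_ax {k : ℕ} {s : Set Om} {D x y : PName Cnd} (fD : Fx k s D) {g : Gam}
    (hg : g ∈ Hk k s) {k0 : ℕ} {r : Cnd} (h : Nr D x y k0 r) :
    Nr D (ax g x) (ax g y) k0 (ap g.1 r) := by
  have h1 : Fmem (ax g (opN (opN x y) (check (nat k0)))) (ax g D) (ap g.1 r) := fmem_ax.2 h
  rw [ax_opN, ax_opN, ax_check] at h1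
  exact fmem_congr (Feq.refl _ _) (fD.feq hg _) h1

theorem nr_val {π : Pkg Cnd} {D x y : PName Cnd} (hD : D ∈ π.N) (hx : x ∈ π.N) (hy : y ∈ π.N)
    {k0 : ℕ} : pair (pair (π.val x) (π.val y)) (nat k0) ∈ π.val D ↔
      ∃ m, Nr D x y k0 (π.g m) := by
  have h1 : opN (opN x y) (check (nat k0)) ∈ π.N := π.opN_mem (π.opN_mem hx hy) (π.nat_Z k0)
  have h2 := π.val_mem_iff h1 hD
  rw [π.val_opN (π.opN_mem hx hy) (π.nat_Z k0), π.val_opN hx hy,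
    show π.val (check (nat k0)) = nat k0 from π.hat_nat k0] at h2
  exact h2

section near

variable {k : ℕ} {s : Set Om} (hs : s.Countable) (hsk : ∀ x ∈ s, x.1 < k)
  {X D f : PName Cnd} (hX : SS.HS X) (fX : Fx k s X) (hD : SS.HS D) (fD : Fx k s D)
  (hf : SS.HS f) {q1 : Cnd} (hgd : SS.Frc ud_gd ![X, D] q1) (hm : Fmem f X q1)
  (hns : ∀ q ≤ q1, ∀ f', SS.HS f' → Fx k s f' → ¬ Feq f f' q)

include hs hsk hX fX hD fD hf hgd hm hns in
/-- There are near copies. -/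
theorem near_copy (k0 : ℕ) {q : Cnd} (hq : q ≤ q1) : ∃ r ≤ q, ∃ g ∈ Hk k s, r ≤ ap g.1 q1 ∧
    (∀ r' ≤ r, ¬ Feq f (ax g f) r') ∧ Nr D f (ax g f) k0 r := by
  obtain ⟨N, q2, hq2, hN⟩ := frc_bd hX hD (hgd.mono hq) k0
  obtain ⟨π, hcl, hA, h0, g, h1, h2⟩ := exists_distinct hs hf
    (not_fle hs hsk hf hns (hq2.trans hq) N) (A := {X, D}) (Set.toFinite _).countable
  have hXN : X ∈ π.N := hA (by simp)
  have hDN : D ∈ π.N := hA (by simp)
  have hM := T_ZF.isZF hcl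
  have h3 := (Sys.frc_sem (x := ![X, D, check (nat k0), check (nat N)])
    (all4 (p := SS.HS) hX hD (SS.hs_check _) (SS.hs_check _))).1 hN π hcl
    (all4 (p := fun y => y ∈ π.N) hXN hDN (π.nat_Z k0) (π.nat_Z N)) ⟨0, h0⟩
  change tb (SS.Ms π) (π.val X) (π.val D) (π.val (check (nat k0))) (π.val (check (nat N))) at h3
  rw [show π.val (check (nat k0)) = nat k0 from π.hat_nat k0,
    show π.val (check (nat N)) = nat N from π.hat_nat N] at h3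
  have hmem : ∀ i < N, π.val (ax (g i) f) ∈ π.val X := by
    intro i hi
    obtain ⟨hg, ⟨n, hn⟩, hN⟩ := h1 i hi
    refine (π.val_mem_iff hN hXN).2 ⟨n, ?_⟩
    have h4 : Fmem (ax (g i) f) (ax (g i) X) (ap (g i).1 q2) :=
      fmem_ax.2 (Fmem.mono hm (hq2.trans hq))
    exact (fmem_congr (Feq.refl _ _) (fX.feq hg _) h4).mono hn
  obtain ⟨i', hi', j', hj', x, hx, y, hy, h5, h6, h7⟩ := h3
    (fseq (fun i => π.val (ax (g i) f)) N)
    (fseq_mem hM fun i hi => Sys.mem_Ms (h1 i hi).2.2 (hs_ax hf _)) (isFunc_fseq hmem)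
  obtain ⟨i, hi, rfl⟩ := mem_nat_iff.1 hi'
  obtain ⟨j, hj, rfl⟩ := mem_nat_iff.1 hj'
  obtain ⟨-, rfl⟩ := pair_mem_fseq.1 h5
  obtain ⟨-, rfl⟩ := pair_mem_fseq.1 h6
  obtain ⟨hgi, ⟨ni, hni⟩, hNi⟩ := h1 i hi
  obtain ⟨hgj, ⟨nj, hnj⟩, hNj⟩ := h1 j (hj.trans hi)
  obtain ⟨m, hm1⟩ := (nr_val hDN hNj hNi).1 h7
  obtain ⟨m', hm2⟩ := nfeq_of_ne hNj hNi (h2 i hi j hj).symm
  set L := max (max m m') (max ni nj) with hL
  have l1 : π.g L ≤ π.g m := π.g_anti ((le_max_left _ _).trans (le_max_left _ _))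
  have l2 : π.g L ≤ π.g m' := π.g_anti ((le_max_right _ _).trans (le_max_left _ _))
  have l3 : π.g L ≤ ap (g i).1 q2 :=
    (π.g_anti ((le_max_left _ _).trans (le_max_right _ _))).trans hni
  have l4 : π.g L ≤ ap (g j).1 q2 :=
    (π.g_anti ((le_max_right _ _).trans (le_max_right _ _))).trans hnj
  refine ⟨ap (g j).1⁻¹ (π.g L), (le_ap_iff.1 l4).trans hq2, (g j)⁻¹ * g i,
    mul_mem (inv_mem hgj) hgi, ?_, ?_, ?_⟩
  · have h8 := ap_mono (σ := (g j).1⁻¹) (l3.trans (ap_mono (hq2.trans hq)))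
    exact h8
  · intro r' hr' he
    have h8 : Feq (ax (g j) f) (ax (g j) (ax ((g j)⁻¹ * g i) f)) (ap (g j).1 r') := feq_ax.2 he
    rw [← ax_mul, mul_inv_cancel_left] at h8
    refine hm2 _ (le_trans ?_ l2) h8
    have h9 := ap_mono (σ := (g j).1) hr'
    rwa [ap_ap_inv] at h9
  · have h8 := nr_ax fD (inv_mem hgj) (hm1.mono l1)
    rw [← ax_mul, ← ax_mul, inv_mul_cancel, ax_one] at h8
    exact h8

end near

end Pool.Agent.Q207.CT
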