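import Pool.Agent.Q207.CT.Mod

/-!
# Infinite sets are Dedekind infinite, and well-ordered families of finite sets
-/

set_option autoImplicit false
set_option linter.unusedSectionVars false
set_option linter.unreachableTactic false
set_option linter.unusedTactic false


namespace Pool.Agent.Q207.CT

open Pool.Agent.W868 Pool.Agent.W868.PName Pool.Agent.Q211.SY
open Pool.Agent.Q207.UL (frc_all frc_of)
open ZFSet (pair)
open Cnd

/-! ### Infinite sets -/

/-- The set is infinite. -/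
def Inf (M : Set ZFSet.{0}) (X : ZFSet.{0}) : Prop := ∀ n ∈ ZFSet.omega, ¬ FLe M X n

theorem ud_inf0 : UD fun M (v : Fin 1 → ZFSet.{0}) => Inf M (v 0) := by
  unfold Inf FLe
  (repeat' first
      | assumption
      | exact UF.proj _
      | exact UF.om
      | exact UF.empty
      | exact UD.prop _
      | exact UF.nat _
      | exact ud_inf
      | exact ud_fle
      | apply UD.isInj | apply UD.isFunc
      | apply UD.not | apply UD.and | apply UD.or | apply UD.imp | apply UD.iff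
      | apply UD.bex | apply UD.ball | apply UD.ex | apply UD.all | apply UD.subset
      | apply UD.eq | apply UD.mem | apply UF.pair
      | apply UF.insert)

theorem ud_inf : UD fun M (v : Fin 1 → ZFSet.{0}) => Inf M (v 0) := ud_inf0

/-- Infinite sets are Dedekind infinite. -/
def Idi (M : Set ZFSet.{0}) (X : ZFSet.{0}) : Prop :=
  Inf M X → ∃ f ∈ M, IsInj ZFSet.omega X f

theorem ud_idi : UD fun M (v : Fin 1 → ZFSet.{0}) => Idi M (v 0) := by
  unfold Idi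
  (repeat' first
      | assumption
      | exact UF.proj _
      | exact UF.om
      | exact UF.empty
      | exact UD.prop _
      | exact UF.nat _
      | exact ud_inf
      | exact ud_fle
      | apply UD.isInj | apply UD.isFunc
      | apply UD.not | apply UD.and | apply UD.or | apply UD.imp | apply UD.iff
      | apply UD.bex | apply UD.ball | apply UD.ex | apply UD.all | apply UD.subset
      | apply UD.eq | apply UD.mem | apply UF.pair
      | apply UF.insert)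

theorem all0 {α : Type*} {p : α → Prop} {a : α} (ha : p a) : ∀ i, p ((![a] : Fin 1 → α) i) :=
  all1 ha

/-- A new element. -/
theorem exists_new {X : PName Cnd} (hX : SS.HS X) {q : Cnd} (hi : SS.Frc ud_inf ![X] q)
    (g : ℕ → PName Cnd) (N : ℕ) : ∃ q' ≤ q, ∃ y, SS.HS y ∧ Fmem y X q' ∧
      ∀ i < N, ∀ r ≤ q', ¬ Feq (g i) y r := by
  classical
  obtain ⟨π, h1, h2, hcl, -⟩ := Sys.exists_cld SS ({X} ∪ Set.range g)
    ((Set.countable_singleton _).union (Set.countable_range _)) ∅ Set.countable_empty q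
  have hXN : X ∈ π.N := h1 (Or.inl rfl)
  have hgN : ∀ i, g i ∈ π.N := fun i => h1 (Or.inr ⟨i, rfl⟩)
  have h3 : Inf (SS.Ms π) (π.val X) := (Sys.frc_sem (x := ![X]) (all1 (p := SS.HS) hX)).1 hi π
    hcl (all1 (p := fun y => y ∈ π.N) hXN) ⟨0, h2.le⟩
  have h4 := h3 (nat (N + 1)) (mem_omega_iff.2 ⟨N + 1, rfl⟩)
  unfold FLe at h4
  push Not at h4
  obtain ⟨t, -, htf, ht⟩ := h4
  have h5 : ∀ i : ℕ, ∃ z, i < N + 1 → z ∈ π.val X ∧ pair (nat i) z ∈ t := by
    intro i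
    by_cases hi : i < N + 1
    · obtain ⟨z, hz, -⟩ := htf.2 (nat i) (nat_mem_nat.2 hi)
      exact ⟨z, fun _ => ⟨(ZFSet.pair_mem_prod.1 (htf.1 hz)).2, hz⟩⟩
    · exact ⟨∅, fun h => absurd h hi⟩
  choose z hz using h5
  have hdis : ∀ i < N + 1, ∀ j < i, z i ≠ z j := by
    intro i hi j hj he
    refine ht (nat i) (nat_mem_nat.2 hi) (nat j) (nat_mem_nat.2 hj) (z i) (hz i hi).1
      (hz i hi).2 ?_
    rw [he]
    exact (hz j (hj.trans hi)).2
  obtain ⟨j, hj, h6⟩ : ∃ j < N + 1, ∀ i < N, π.val (g i) ≠ z j := by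
    by_contra hc
    push Not at hc
    choose! e he1 he2 using hc
    obtain ⟨a, ha, b, hb, hab, h7⟩ := Finset.exists_ne_map_eq_of_card_lt_of_maps_to
      (s := Finset.range (N + 1)) (t := Finset.range N) (by simp) (f := e)
      (fun i hi => Finset.mem_coe.2 (Finset.mem_range.2 (he1 i (Finset.mem_range.1 hi))))
    have h8 := he2 a (Finset.mem_range.1 ha)
    have h9 := he2 b (Finset.mem_range.1 hb)
    rw [h7] at h8
    rw [h8] at h9
    rcases lt_or_gt_of_ne hab with h10 | h10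
    · exact hdis b (Finset.mem_range.1 hb) a h10 h9.symm
    · exact hdis a (Finset.mem_range.1 ha) b h10 h9
  obtain ⟨y, hy, c, hc, -, hyz⟩ := π.mem_val.1 (hz j hj).1
  obtain ⟨n, hn⟩ := (π.val_mem_iff hy hXN).1 (hyz ▸ (hz j hj).1)
  have h7 : ∀ i : ℕ, ∃ m, i < N → ∀ q ≤ π.g m, ¬ Feq (g i) y q := by
    intro i
    by_cases hi : i < N
    · obtain ⟨m, hm⟩ := nfeq_of_ne (hgN i) hy (by rw [hyz]; exact h6 i hi)
      exact ⟨m, fun _ => hm⟩
    · exact ⟨0, fun h => absurd h hi⟩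
  choose m hm using h7
  obtain ⟨L, hL⟩ : ∃ L, ∀ i < N, m i ≤ L :=
    ⟨(Finset.range N).sup m, fun i hi => Finset.le_sup (Finset.mem_range.2 hi)⟩
  refine ⟨π.g (max n L), (π.g_anti (Nat.zero_le _)).trans h2.le, y, hX.el hc,
    hn.mono (π.g_le_left _ _), fun i hi r hr => hm i hi r (hr.trans ?_)⟩
  exact π.g_anti ((hL i hi).trans (le_max_right _ _))

theorem idi {π : Pkg Cnd} (hcl : SS.Cld π) {X : ZFSet.{0}} (hX : X ∈ SS.Ms π) :
    Idi (SS.Ms π) X := by
  obtain ⟨X, ⟨hXN, hX⟩, rfl⟩ := hX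
  refine frc_all (x := ![X]) ud_idi (all1 (p := SS.HS) hX) ?_ π hcl
    (all1 (p := fun y => y ∈ π.N) hXN)
  clear hXN hcl π
  intro q
  by_cases hP : ∃ q1 ≤ q, SS.Frc ud_inf ![X] q1
  swap
  · refine ⟨q, le_rfl, ∅, Set.countable_empty, fun π hcl hN _ hm => ?_⟩
    have hXN : X ∈ π.N := hN 0
    obtain ⟨m, hm⟩ := hm
    change Idi (SS.Ms π) (π.val X)
    intro hi
    exfalso
    obtain ⟨m1, hm1⟩ := (Sys.frc_iff (x := ![X]) ud_inf hcl
      (all1 (p := fun y => y ∈ π.N ∧ SS.HS y) ⟨hXN, hX⟩)).1 hi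
    exact hP ⟨π.g (max m m1), (π.g_le_left _ _).trans hm, hm1.mono (π.g_le_right _ _)⟩
  obtain ⟨q1, hq1, hi⟩ := hP
  obtain ⟨k, s2, hs2, fX2⟩ := sym_iff.1 hX.sym
  set s := lev k s2 with hs'
  have hs : s.Countable := lev_countable hs2
  have hsk : ∀ x ∈ s, x.1 < k := fun x hx => hx.1
  have fX : Fx k s X := fx_lev fX2
  obtain ⟨r, hr, S, ⟨k', s', hs1', hfx⟩, hS2, hdis⟩ : ∃ r ≤ q1, ∃ S : ℕ → PName Cnd,
      (∃ k' s', s'.Countable ∧ ∀ i, Fx k' s' (S i)) ∧ (∀ i, SS.HS (S i) ∧ Fmem (S i) X r) ∧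
      ∀ i j, i < j → ∀ r' ≤ r, ¬ Feq (S i) (S j) r' := by
    by_cases hC : ∃ q2 ≤ q1, ∃ f', SS.HS f' ∧ Fmem f' X q2 ∧ ∀ q ≤ q2, ∀ f'', SS.HS f'' →
        Fx k s f'' → ¬ Feq f' f'' q
    · obtain ⟨q2, hq2, f', hf', hfm', hns⟩ := hC
      obtain ⟨r, hr, S, h1, h2, h3⟩ := exists_dist hs hsk hX fX hf' hfm' hns
      exact ⟨r, hr.trans hq2, S, h1, h2, h3⟩
    · have hall : ∀ q ≤ q1, ∀ f, SS.HS f → Fmem f X q → ∃ q' ≤ q, ∃ f', SS.HS f' ∧ Fx k s f' ∧
          Feq f f' q' := by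
        intro q hq f hf hm
        by_contra hc
        push Not at hc
        exact hC ⟨q, hq, f, hf, hm, hc⟩
      obtain ⟨q2, hq2, y0, hy0, hm0, -⟩ := exists_new hX hi (fun _ => emp) 0
      obtain ⟨q3, hq3, y1, hy1, hf1, he1⟩ := hall q2 hq2 y0 hy0 hm0
      obtain ⟨r, hr, S, -, h1, h2⟩ := exists_seq
        (P := fun y q => SS.HS y ∧ Fx k s y ∧ Fmem y X q)
        (Q := fun n g a r => ∀ i ≤ n, ∀ r' ≤ r, ¬ Feq (g i) a r')
        (a0 := y1) (q0 := q3) ⟨hy1, hf1, fmem_congr he1 (Feq.refl _ _) (hm0.mono hq3)⟩ (by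
          intro n g q hq _
          obtain ⟨q', hq', y, hy, hm, hd⟩ := exists_new hX (hi.mono (hq.trans (hq3.trans hq2))) g
            (n + 1)
          obtain ⟨r, hr, y', hy', hf', he'⟩ := hall q'
            (hq'.trans (hq.trans (hq3.trans hq2))) y hy hm
          refine ⟨r, hr.trans hq', y', ⟨hy', hf', fmem_congr he' (Feq.refl _ _) (hm.mono hr)⟩,
            fun i hi r' hr' h => ?_⟩
          exact hd i (by omega) r' (hr'.trans hr) (feq_trans h (he'.mono hr').symm))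
        (fun a q r h hr => ⟨h.1, h.2.1, h.2.2.mono hr⟩)
        (fun n g a q r h hr i hi r' hr' => h i hi r' (hr'.trans hr))
        (fun n g g' a q h hQ i hi => by
          rw [← h _ hi]
          exact hQ i hi)
      refine ⟨r, hr.trans (hq3.trans hq2), S, ⟨k, s, hs, fun i => (h1 i).2.1⟩,
        fun i => ⟨(h1 i).1, (h1 i).2.2⟩, fun i j hij => ?_⟩
      obtain ⟨j, rfl⟩ : ∃ j', j = j' + 1 := ⟨j - 1, by omega⟩
      exact h2 j i (by omega)
  refine ⟨r, hr.trans hq1, {seqN S} ∪ Set.range S,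
    (Set.countable_singleton _).union (Set.countable_range _), fun π hcl hN hA hm => ?_⟩
  have hXN : X ∈ π.N := hN 0
  have hSN : ∀ i, S i ∈ π.N := fun i => hA (Or.inr ⟨i, rfl⟩)
  obtain ⟨m, hm⟩ := hm
  change Idi (SS.Ms π) (π.val X)
  intro _
  have hne : ∀ i j, i < j → π.val (S i) ≠ π.val (S j) := by
    intro i j hij he
    obtain ⟨n, hn⟩ := (π.val_eq_iff (hSN i) (hSN j)).1 he
    exact hdis i j hij (π.g (max m n)) ((π.g_le_left _ _).trans hm) (hn.mono (π.g_le_right _ _))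
  refine ⟨π.val (seqN S), Sys.mem_Ms (hA (Or.inl rfl)) (hs_seqN hs1' hfx fun i => (hS2 i).1),
    ⟨fun z hz => ?_, fun z hz => ?_⟩, fun a b c ha hb => ?_⟩
  · obtain ⟨i, rfl⟩ := (val_seqN hSN).1 hz
    exact ZFSet.pair_mem_prod.2 ⟨mem_omega_iff.2 ⟨i, rfl⟩,
      (π.val_mem_iff (hSN i) hXN).2 ⟨m, (hS2 i).2.mono hm⟩⟩
  · obtain ⟨i, rfl⟩ := mem_omega_iff.1 hz
    refine ⟨π.val (S i), (val_seqN hSN).2 ⟨i, rfl⟩, fun w hw => ?_⟩
    obtain ⟨j, hj⟩ := (val_seqN hSN).1 hw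
    obtain ⟨h1, h2⟩ := ZFSet.pair_inj.1 hj
    rw [h2, nat_injective h1]
  · obtain ⟨i, hi⟩ := (val_seqN hSN).1 ha
    obtain ⟨j, hj⟩ := (val_seqN hSN).1 hb
    obtain ⟨h1, h2⟩ := ZFSet.pair_inj.1 hi
    obtain ⟨h3, h4⟩ := ZFSet.pair_inj.1 hj
    rw [h1, h3]
    rcases lt_trichotomy i j with h5 | h5 | h5
    · exact absurd (h2.symm.trans h4) (hne i j h5)
    · rw [h5]
    · exact absurd (h4.symm.trans h2) (hne j i h5)

/-- The infinite sets of the model. -/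
theorem inf_of {M : Set ZFSet.{0}} (hM : IsZF M) {X : ZFSet.{0}} (hX : X ∈ M)
    (h : ¬ {z | z ∈ X}.Finite) : Inf M X := by
  intro n hn hc
  obtain ⟨n, rfl⟩ := mem_omega_iff.1 hn
  have f := Set.Infinite.natEmbedding {z | z ∈ X} h
  have hf : ∀ i, (f i).1 ∈ X := fun i => (f i).2
  obtain ⟨i', hi, j', hj, z, -, h1, h2⟩ := hc (fseq (fun i => (f i).1) n)
    (fseq_mem hM fun i _ => hM.trans _ hX _ (hf i)) (isFunc_fseq fun i _ => hf i)
  obtain ⟨i, hi', rfl⟩ := mem_nat_iff.1 hi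
  obtain ⟨j, hj', rfl⟩ := mem_nat_iff.1 hj
  obtain ⟨-, h3⟩ := pair_mem_fseq.1 h1
  obtain ⟨-, h4⟩ := pair_mem_fseq.1 h2
  have h5 := f.injective (Subtype.ext (h3.symm.trans h4))
  omega

end Pool.Agent.Q207.CT
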