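import Pool.Agent.Q207.CT.Nm

/-!
# Rotations and choice functions
-/

set_option autoImplicit false
set_option linter.unusedSectionVars false
set_option linter.unreachableTactic false
set_option linter.unusedTactic false

namespace Pool.Agent.Q207.CT

open Pool.Agent.W868 Pool.Agent.W868.PName Pool.Agent.Q211.SY
open ZFSet (pair)
open Cnd

theorem rt_inj {v w : ℚ} (hv : 0 ≤ v ∧ v < 1) (hw : 0 ≤ w ∧ w < 1) (h : rt v = rt w) :
    v = w := by
  have : Fact (0 < (1 : ℝ)) := ⟨one_pos⟩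
  have h1 : (v : ℝ) ∈ Set.Ico (0 : ℝ) (0 + 1) := by
    rw [zero_add]
    exact ⟨by exact_mod_cast hv.1, by exact_mod_cast hv.2⟩
  have h2 : (w : ℝ) ∈ Set.Ico (0 : ℝ) (0 + 1) := by
    rw [zero_add]
    exact ⟨by exact_mod_cast hw.1, by exact_mod_cast hw.2⟩
  have h3 := (AddCircle.coe_eq_coe_iff_of_mem_Ico h1 h2).1 h
  exact_mod_cast h3

/-- A rotation of one level that is compatible with a condition. -/
theorem rot_compat {k : ℕ} {s : Set Om} (hs : s.Countable) (p : Cnd) {n : ℕ} (hn : k ≤ n)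
    (v : ℚ) : ∃ g : Gam, g ∈ Hk k s ∧ (∀ x : Om, x.1 = n → (g.1 x).2.1 = x.2.1 + rt v) ∧
      ∃ r, r ≤ p ∧ r ≤ ap g.1 p := by
  classical
  let w : ℕ → ℚ := fun m => if m = n then v else 0
  have hw : w n = v := if_pos rfl
  have hw' : ∀ m, m ≠ n → w m = 0 := fun m hm => if_neg hm
  have hrot : ∀ x : Om, x.1 ≠ n → (rot w).1 x = x := by
    intro x hx
    rw [rot_apply, hw' _ hx, rt_zero, add_zero]
  have hrot' : ∀ x : Om, x.1 = n → ((rot w).1 x).1 = n ∧ ((rot w).1 x).2.1 = x.2.1 + rt v := by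
    intro x hx
    rw [rot_apply, hx, hw]
    exact ⟨rfl, rfl⟩
  set B : Set Om := (rot w).1 '' {x | x ∈ p.sp ∧ x.1 = n} with hB
  set S : Set Om := {x | x.1 ≠ n ∧ (x ∈ p.sp ∨ x ∈ lev k s)} with hS
  have hBc : B.Countable := (p.sp_countable.mono fun x hx => hx.1).image _
  have hSc : S.Countable := (p.sp_countable.union (lev_countable hs)).mono fun x hx => hx.2
  obtain ⟨α, h1, h2, h3, -⟩ := exists_copies p.sp_countable hBc hSc
  set g : Gam := ⟨α 0, pure_mem (h1 0)⟩ * rot w with hg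
  have hgx : ∀ x, g.1 x = α 0 ((rot w).1 x) := fun x => rfl
  refine ⟨g, fun x hx => ?_, fun x hx => ?_, ?_⟩
  · have hxn : x.1 ≠ n := by omega
    rw [hgx, hrot x hxn]
    exact ⟨(h1 0 x).2, fun hxs => h2 0 x ⟨hxn, Or.inr ⟨hx, hxs⟩⟩⟩
  · rw [hgx, (h1 0 _).2, (hrot' x hx).2]
  · have hc : Cmp (ap g.1 p) p := by
      intro x κ b b' hb hb'
      rw [ap_f] at hb
      set y := g.1.symm x with hy
      have hyx : g.1 y = x := by rw [hy, Equiv.apply_symm_apply]
      have hys : y ∈ p.sp := of_sp hb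
      by_cases hyn : y.1 = n
      · exfalso
        have h4 : (rot w).1 y ∈ B := ⟨y, ⟨hys, hyn⟩, rfl⟩
        have h5 : (rot w).1 y ∉ S := fun h => h.1 (hrot' y hyn).1
        have h6 := (h3 0 _ h4 h5).1
        rw [← hgx, hyx] at h6
        exact h6 (of_sp hb')
      · have h4 : y = x := by
          rw [← hyx, hgx, hrot y hyn]
          exact (h2 0 y ⟨hyn, Or.inl hys⟩).symm
        rw [h4, hb'] at hb
        exact (Option.some_injective _ hb).symm
    obtain ⟨r, h4, h5, -⟩ := exists_join hc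
    exact ⟨r, h5, h4⟩

/-- Many rotations that are compatible with a condition. -/
theorem rot_many {k : ℕ} {s : Set Om} (hs : s.Countable) (p : Cnd) {n : ℕ} (hn : k ≤ n)
    (v : ℕ → ℚ) (N : ℕ) : ∃ g : ℕ → Gam, ∃ r ≤ p, ∀ i < N, g i ∈ Hk k s ∧
      (∀ x : Om, x.1 = n → ((g i).1 x).2.1 = x.2.1 + rt (v i)) ∧ r ≤ ap (g i).1 p := by
  classical
  induction N with
  | zero => exact ⟨fun _ => 1, p, le_rfl, fun i hi => absurd hi (Nat.not_lt_zero i)⟩
  | succ N ih =>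
    obtain ⟨g, r, hr, h1⟩ := ih
    obtain ⟨u, hu, hu', r', h2, h3⟩ := rot_compat hs r hn (v N)
    refine ⟨Function.update g N u, r', h2.trans hr, fun i hi => ?_⟩
    rcases Nat.lt_or_ge i N with h4 | h4
    · rw [Function.update_of_ne (by omega)]
      obtain ⟨h5, h6, h7⟩ := h1 i h4
      exact ⟨h5, h6, h2.trans h7⟩
    · rw [show i = N by omega, Function.update_self]
      exact ⟨hu, hu', h3.trans (ap_mono hr)⟩

/-- The value of `F` at `n` is `a`. -/
def Uq (M : Set ZFSet.{0}) (F n a : ZFSet.{0}) : Prop :=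
  pair n a ∈ F ∧ ∀ b ∈ M, pair n b ∈ F → b = a

theorem ud_uq : UD fun M (v : Fin 3 → ZFSet.{0}) => Uq M (v 0) (v 1) (v 2) := by
  unfold Uq
  (repeat' first
      | assumption
      | exact UF.proj _
      | exact UF.om
      | exact UF.empty
      | exact UD.prop _
      | exact UF.nat _
      | apply UD.isInj | apply UD.isFunc
      | apply UD.not | apply UD.and | apply UD.or | apply UD.imp | apply UD.iff
      | apply UD.bex | apply UD.ball | apply UD.ex | apply UD.all | apply UD.subset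
      | apply UD.eq | apply UD.mem | apply UF.pair
      | apply UF.insert)

theorem feq_of_uq {F a b : PName Cnd} (hF : SS.HS F) (ha : SS.HS a) (hb : SS.HS b) {n : ℕ}
    {r : Cnd} (h1 : SS.Frc ud_uq ![F, check (nat n), a] r)
    (h2 : SS.Frc ud_uq ![F, check (nat n), b] r) : Feq a b r := by
  refine feq_dense fun q hq => ?_
  obtain ⟨π, h3, h4, hcl, -⟩ := Sys.exists_cld SS ({F, a, b}) (Set.toFinite _).countable ∅
    Set.countable_empty q
  have hFN : F ∈ π.N := h3 (by simp)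
  have haN : a ∈ π.N := h3 (by simp)
  have hbN : b ∈ π.N := h3 (by simp)
  have h5 : Uq (SS.Ms π) (π.val F) (π.val (check (nat n))) (π.val a) :=
    (Sys.frc_sem (all3 (p := SS.HS) hF (SS.hs_check _) ha)).1 h1 π hcl
      (all3 (p := fun y => y ∈ π.N) hFN (π.nat_Z n) haN) ⟨0, h4.le.trans hq⟩
  have h6 : Uq (SS.Ms π) (π.val F) (π.val (check (nat n))) (π.val b) :=
    (Sys.frc_sem (all3 (p := SS.HS) hF (SS.hs_check _) hb)).1 h2 π hcl
      (all3 (p := fun y => y ∈ π.N) hFN (π.nat_Z n) hbN) ⟨0, h4.le.trans hq⟩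
  have h7 := h6.2 _ (Sys.mem_Ms haN ha) h5.1
  obtain ⟨m, hm⟩ := (π.val_eq_iff haN hbN).1 h7
  exact ⟨π.g m, (π.g_anti (Nat.zero_le m)).trans h4.le, hm⟩

theorem uq_ax {k : ℕ} {s : Set Om} {F a : PName Cnd} (fF : Fx k s F) {g : Gam}
    (hg : g ∈ Hk k s) {n : ℕ} {p : Cnd} (h : SS.Frc ud_uq ![F, check (nat n), a] p) :
    SS.Frc ud_uq ![F, check (nat n), ax g a] (ap g.1 p) := by
  have h1 : SS.Frc ud_uq (fun i => act (SS.ac g) ((![F, check (nat n), a] : Fin 3 → PName Cnd) i))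
      (SS.ac g p) := (Sys.frc_act (S := SS) g).2 h
  refine (Sys.frc_congr (x := fun i => act (SS.ac g) ((![F, check (nat n), a] :
    Fin 3 → PName Cnd) i)) fun i => ?_).1 h1
  refine Fin.cases ?_ (fun i => Fin.cases ?_ (fun i => Fin.cases ?_ (fun i => i.elim0) i) i) i
  · exact fF.feq hg _
  · have h2 : Feq (ax g (check (nat n))) (check (nat n)) (ap g.1 p) := by
      rw [ax_check]
      exact Feq.refl _ _
    exact h2
  · exact Feq.refl _ _

/-- There is no choice function for infinitely many blocks. -/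
theorem no_choice {π : Pkg Cnd} (hcl : SS.Cld π) {F : ZFSet.{0}} (hF : F ∈ SS.Ms π) :
    ∃ N, ∀ n, N ≤ n → ∀ t, pt (some (n, t)) ∈ π.N →
      ¬ Uq (SS.Ms π) F (nat n) (π.val (pt (some (n, t)))) := by
  obtain ⟨F, ⟨hFN, hF⟩, rfl⟩ := hF
  obtain ⟨k, s, hs, fF⟩ := sym_iff.1 hF.sym
  refine ⟨k, fun n hn t ht hU => ?_⟩
  change aN n t ∈ π.N at ht
  obtain ⟨m, hm⟩ := (Sys.frc_iff (x := ![F, check (nat n), aN n t]) ud_uq hcl
    (all3 (p := fun y => y ∈ π.N ∧ SS.HS y) ⟨hFN, hF⟩ ⟨π.nat_Z n, SS.hs_check _⟩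
      ⟨ht, hs_aN n t⟩)).1 (by
        change Uq (SS.Ms π) (π.val F) (π.val (check (nat n))) (π.val (aN n t))
        rw [show π.val (check (nat n)) = nat n from π.hat_nat n]
        exact hU)
  obtain ⟨g, hg, hg', r, h1, h2⟩ := rot_compat hs (π.g m) hn (1 / 2)
  have h3 := (uq_ax fF hg hm).mono h2
  have h4 := feq_of_uq hF (hs_aN n t) (hs_ax (hs_aN n t) g) (hm.mono h1) h3
  have h5 := feq_trans h4 (feq_ax_aN hg' t r)
  refine nfeq_aN (fun h6 => ?_) r h5
  have h7 : t = t + rt (1 / 2) := congrArg Prod.snd h6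
  have h8 : rt (1 / 2) = rt 0 := by
    rw [rt_zero]
    exact (left_eq_add.1 h7)
  have h9 := rt_inj (by norm_num) (by norm_num) h8
  norm_num at h9

/-- There is no multiple choice function for infinitely many blocks. -/
theorem no_mc {π : Pkg Cnd} (hcl : SS.Cld π) {F : ZFSet.{0}} (hF : F ∈ SS.Ms π) :
    ∃ N, ∀ n, N ≤ n → ∀ b ∈ SS.Ms π, Uq (SS.Ms π) F (nat n) b → ∀ t, pt (some (n, t)) ∈ π.N →
      π.val (pt (some (n, t))) ∈ b → ¬ {z | z ∈ b}.Finite := by
  classical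
  obtain ⟨F, ⟨hFN, hF⟩, rfl⟩ := hF
  obtain ⟨k, s, hs, fF⟩ := sym_iff.1 hF.sym
  refine ⟨k, fun n hn b hb hU t ht htb hfin => ?_⟩
  obtain ⟨b, ⟨hbN, hb⟩, rfl⟩ := hb
  change aN n t ∈ π.N at ht
  change π.val (aN n t) ∈ π.val b at htb
  set N := hfin.toFinset.card + 1 with hN
  have h0 : FLe (SS.Ms π) (π.val b) (nat N) := by
    intro f _ hf
    have h1 : ∀ i : ℕ, ∃ z, i < N → z ∈ π.val b ∧ pair (nat i) z ∈ f := by
      intro i
      by_cases hi : i < N
      · obtain ⟨z, hz, -⟩ := hf.2 (nat i) (nat_mem_nat.2 hi)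
        exact ⟨z, fun _ => ⟨(ZFSet.pair_mem_prod.1 (hf.1 hz)).2, hz⟩⟩
      · exact ⟨∅, fun h => absurd h hi⟩
    choose z hz using h1
    obtain ⟨i, hi, j, hj, hij, h2⟩ := Finset.exists_ne_map_eq_of_card_lt_of_maps_to
      (s := Finset.range N) (t := hfin.toFinset) (by rw [Finset.card_range]; omega) (f := z)
      (fun i hi => Finset.mem_coe.2 (hfin.mem_toFinset.2 (hz i (Finset.mem_range.1 hi)).1))
    have hi' := hz i (Finset.mem_range.1 hi)
    have hj' := hz j (Finset.mem_range.1 hj)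
    rcases lt_or_gt_of_ne hij with h3 | h3
    · exact ⟨nat j, nat_mem_nat.2 (Finset.mem_range.1 hj), nat i, nat_mem_nat.2 h3, z i, hi'.1,
        h2 ▸ hj'.2, hi'.2⟩
    · exact ⟨nat i, nat_mem_nat.2 (Finset.mem_range.1 hi), nat j, nat_mem_nat.2 h3, z i, hi'.1,
        hi'.2, h2 ▸ hj'.2⟩
  obtain ⟨m1, hm1⟩ := (Sys.frc_iff (x := ![F, check (nat n), b]) ud_uq hcl
    (all3 (p := fun y => y ∈ π.N ∧ SS.HS y) ⟨hFN, hF⟩ ⟨π.nat_Z n, SS.hs_check _⟩
      ⟨hbN, hb⟩)).1 (by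
        change Uq (SS.Ms π) (π.val F) (π.val (check (nat n))) (π.val b)
        rw [show π.val (check (nat n)) = nat n from π.hat_nat n]
        exact hU)
  obtain ⟨m2, hm2⟩ := (Sys.frc_iff (x := ![b, check (nat N)]) ud_fle hcl
    (all2 (p := fun y => y ∈ π.N ∧ SS.HS y) ⟨hbN, hb⟩ ⟨π.nat_Z N, SS.hs_check _⟩)).1 (by
        change FLe (SS.Ms π) (π.val b) (π.val (check (nat N)))
        rw [show π.val (check (nat N)) = nat N from π.hat_nat N]
        exact h0)
  obtain ⟨m3, hm3⟩ := (π.val_mem_iff ht hbN).1 htb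
  set p := π.g (max m1 (max m2 m3)) with hp
  have p1 : SS.Frc ud_uq ![F, check (nat n), b] p := hm1.mono (π.g_anti (le_max_left _ _))
  have p2 : SS.Frc ud_fle ![b, check (nat N)] p :=
    hm2.mono (π.g_anti ((le_max_left _ _).trans (le_max_right _ _)))
  have p3 : Fmem (aN n t) b p :=
    hm3.mono (π.g_anti ((le_max_right _ _).trans (le_max_right _ _)))
  obtain ⟨g, r, hr, h1⟩ := rot_many hs p hn (fun i => (i : ℚ) / (N + 1)) N
  obtain ⟨i, j, hji, hi, q, hq, hq'⟩ := fle_use (x := fun i => aN n (t + rt ((i : ℚ) / (N + 1))))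
    hb p2 (fun i => hs_aN _ _) hr fun i hi => by
      obtain ⟨h2, h3, h4⟩ := h1 i hi
      have h5 := feq_of_uq hF hb (hs_ax hb (g i)) (p1.mono hr) ((uq_ax fF h2 p1).mono h4)
      have h6 : Fmem (ax (g i) (aN n t)) (ax (g i) b) (ap (g i).1 p) := fmem_ax.2 p3
      exact fmem_congr (feq_ax_aN h3 t r) h5.symm (h6.mono h4)
  refine nfeq_aN (fun h6 => ?_) q hq'
  have h7 : t + rt ((i : ℚ) / (N + 1)) = t + rt ((j : ℚ) / (N + 1)) := congrArg Prod.snd h6
  have hN0 : (0 : ℚ) < N + 1 := by positivity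
  have hb : ∀ i < N, 0 ≤ (i : ℚ) / (N + 1) ∧ (i : ℚ) / (N + 1) < 1 := by
    intro i hi
    refine ⟨by positivity, (div_lt_one hN0).2 ?_⟩
    have : (i : ℚ) < N := by exact_mod_cast hi
    linarith
  have h8 := rt_inj (hb i hi) (hb j (hji.trans hi)) (add_left_cancel h7)
  rw [div_left_inj' hN0.ne'] at h8
  have h9 : i = j := by exact_mod_cast h8
  omega

end Pool.Agent.Q207.CT
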