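import Pool.Agent.Q207.CT.Nm
import Pool.Agent.Q207.UL.Sym
import Pool.Agent.Q211.FS.Met

/-!
# Compact metrizable spaces in the models
-/

set_option autoImplicit false
set_option linter.unusedSectionVars false
set_option linter.unreachableTactic false
set_option linter.unusedTactic false

namespace Pool.Agent.Q207.CT

open Pool.Agent.W868 Pool.Agent.W868.PName Pool.Agent.Q211.SY
open Pool.Agent.Q211.FS (CodedIn MetricIn MetrizableIn CompactIn)
open Pool.Agent.Q207.UL (frc_all frc_of)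
open ZFSet (pair)
open Cnd

/-! ### General facts -/

section

variable {M : Set ZFSet.{0}} (hM : IsZF M) {X Y : ZFSet.{0}} {d : ZFSet.{0} → ZFSet.{0} → ℝ}

include hM

theorem coded_sub (h : CodedIn M X d) (hY : Y ∈ M) (hYX : Y ⊆ X) : CodedIn M Y d := by
  have hB := hM.base
  have h0 := hM.infinity
  obtain ⟨G, hG, h1⟩ := h
  refine ⟨ZFSet.sep (fun z => ∃ x ∈ Y, ∃ y ∈ Y, ∃ m ∈ ZFSet.omega, ∃ n ∈ ZFSet.omega,
    z = pair (pair x y) (pair m n)) G, hM.sep_mem (Q := fun z => ∃ x ∈ Y, ∃ y ∈ Y,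
    ∃ m ∈ ZFSet.omega, ∃ n ∈ ZFSet.omega, z = pair (pair x y) (pair m n)) (by (repeat' first
      | assumption
      | exact DfnF.proj _
      | exact DfnF.const (by assumption)
      | exact DfnF.const' (by first | assumption | trivial) (by first | assumption | trivial)
      | exact Dfn.prop _
      | apply Dfn.not | apply Dfn.and | apply Dfn.or | apply Dfn.imp | apply Dfn.iff
      | apply hB.bex | apply hB.ball | apply Dfn.ex | apply Dfn.all
      | apply Dfn.eq | apply Dfn.mem | apply hB.pair' | apply hB.subset' | apply hB.insert'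
      | apply hB.isFunc' | apply hB.isInj' | apply hB.isBij' | apply hB.isOrdinal')) hG,
    fun z => ?_⟩
  rw [ZFSet.mem_sep, h1]
  constructor
  · rintro ⟨⟨x, hx, y, hy, m, n, rfl, h2⟩, x', hx', y', hy', m', -, n', -, h3⟩
    obtain ⟨h4, -⟩ := ZFSet.pair_inj.1 h3
    obtain ⟨rfl, rfl⟩ := ZFSet.pair_inj.1 h4
    exact ⟨x, hx', y, hy', m, n, rfl, h2⟩
  · rintro ⟨x, hx, y, hy, m, n, rfl, h2⟩
    exact ⟨⟨x, hYX hx, y, hYX hy, m, n, rfl, h2⟩, x, hx, y, hy, _, mem_omega_iff.2 ⟨m, rfl⟩, _,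
      mem_omega_iff.2 ⟨n, rfl⟩, rfl⟩

/-- The topology of a coded metric. -/
theorem exists_top (hX : X ∈ M) (h : CodedIn M X d) (h1 : ∀ x ∈ X, d x x = 0)
    (h2 : ∀ x ∈ X, ∀ y ∈ X, d x y = 0 → x = y) (h3 : ∀ x ∈ X, ∀ y ∈ X, d x y = d y x)
    (h4 : ∀ x ∈ X, ∀ y ∈ X, ∀ z ∈ X, d x z ≤ d x y + d y z) : ∃ τ ∈ M, MetricIn M X τ d := by
  have hB := hM.base
  have h0 := hM.infinity
  obtain ⟨G, hG, h5⟩ := id h
  obtain ⟨P, hP, hP'⟩ := hM.power X hX
  have hn := hM.nat_mem 1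
  have h6 : ∀ x ∈ X, ∀ y ∈ X, ∀ k : ℕ, pair (pair x y) (pair (nat 1) (nat k)) ∈ G ↔
      d x y < 1 / (k + 1) := by
    intro x hx y hy k
    rw [h5]
    constructor
    · rintro ⟨x', -, y', -, a, b, h7, h8⟩
      obtain ⟨h9, h10⟩ := ZFSet.pair_inj.1 h7
      obtain ⟨rfl, rfl⟩ := ZFSet.pair_inj.1 h9
      obtain ⟨h11, h12⟩ := ZFSet.pair_inj.1 h10
      rw [nat_injective h12]
      rw [← nat_injective h11] at h8
      simpa using h8
    · intro h7
      exact ⟨x, hx, y, hy, 1, k, rfl, by simpa using h7⟩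
  refine ⟨ZFSet.sep (fun U => ∀ x ∈ U, ∃ k ∈ ZFSet.omega, ∀ y ∈ X,
    pair (pair x y) (pair (nat 1) k) ∈ G → y ∈ U) P, hM.sep_mem (Q := fun U => ∀ x ∈ U,
    ∃ k ∈ ZFSet.omega, ∀ y ∈ X, pair (pair x y) (pair (nat 1) k) ∈ G → y ∈ U) (by (repeat' first
      | assumption
      | exact DfnF.proj _
      | exact DfnF.const (by assumption)
      | exact DfnF.const' (by first | assumption | trivial) (by first | assumption | trivial)
      | exact Dfn.prop _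
      | apply Dfn.not | apply Dfn.and | apply Dfn.or | apply Dfn.imp | apply Dfn.iff
      | apply hB.bex | apply hB.ball | apply Dfn.ex | apply Dfn.all
      | apply Dfn.eq | apply Dfn.mem | apply hB.pair' | apply hB.subset' | apply hB.insert'
      | apply hB.isFunc' | apply hB.isInj' | apply hB.isBij' | apply hB.isOrdinal')) hP,
    h1, h2, h3, h4, h, fun U => ?_⟩
  rw [ZFSet.mem_sep, hP', and_assoc]
  refine and_congr_right fun _ => and_congr_right fun hUX => forall₂_congr fun x hx => ?_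
  constructor
  · rintro ⟨k, hk, h7⟩
    obtain ⟨k, rfl⟩ := mem_omega_iff.1 hk
    exact ⟨1 / (k + 1), by positivity, fun y hy h8 => h7 y hy ((h6 x (hUX hx) y hy k).2 h8)⟩
  · rintro ⟨ε, hε, h7⟩
    obtain ⟨k, hk⟩ := exists_nat_one_div_lt hε
    exact ⟨nat k, mem_omega_iff.2 ⟨k, rfl⟩, fun y hy h8 =>
      h7 y hy (((h6 x (hUX hx) y hy k).1 h8).trans hk)⟩

/-- Closed subspaces of compact spaces are compact. -/
theorem compact_sub {τ σ : ZFSet.{0}} (hX : X ∈ M) (hτ : τ ∈ M) (m : MetricIn M X τ d)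
    (hc : CompactIn M X τ) (hY : Y ∈ M) (hYX : Y ⊆ X)
    (hcl : ∀ x ∈ X, x ∉ Y → ∃ ε : ℝ, 0 < ε ∧ ∀ y ∈ X, d x y < ε → y ∉ Y)
    (m' : MetricIn M Y σ d) : CompactIn M Y σ := by
  classical
  have hB := hM.base
  intro C hC hCσ hcov
  by_cases hCe : ∃ U, U ∈ C
  swap
  · refine ⟨∅, fun U hU => absurd hU (Finset.notMem_empty U), fun x hx => ?_⟩
    obtain ⟨U, hU, -⟩ := hcov x hx
    exact absurd ⟨U, hU⟩ hCe
  have key : ∀ U ∈ C, ∃ V ∈ τ, (∀ z ∈ Y, z ∈ V ↔ z ∈ U) ∧ ∀ z ∈ X, z ∉ Y → z ∈ V := by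
    intro U hU
    obtain ⟨hUM, hUY, hUo⟩ := (m'.top U).1 (hCσ hU)
    have h1 : ZFSet.sep (fun z => z ∈ Y → z ∈ U) X ∈ M :=
      hM.sep_mem (Q := fun z => z ∈ Y → z ∈ U) (by (repeat' first
      | assumption
      | exact DfnF.proj _
      | exact DfnF.const (by assumption)
      | exact DfnF.const' (by first | assumption | trivial) (by first | assumption | trivial)
      | exact Dfn.prop _
      | apply Dfn.not | apply Dfn.and | apply Dfn.or | apply Dfn.imp | apply Dfn.iff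
      | apply hB.bex | apply hB.ball | apply Dfn.ex | apply Dfn.all
      | apply Dfn.eq | apply Dfn.mem | apply hB.pair' | apply hB.subset' | apply hB.insert'
      | apply hB.isFunc' | apply hB.isInj' | apply hB.isBij' | apply hB.isOrdinal')) hX
    refine ⟨_, (m.top _).2 ⟨h1, fun z hz => (ZFSet.mem_sep.1 hz).1, fun z hz => ?_⟩,
      fun z hz => ?_, fun z hz hzY => ZFSet.mem_sep.2 ⟨hz, fun h => absurd h hzY⟩⟩
    · obtain ⟨hzX, hzU⟩ := ZFSet.mem_sep.1 hz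
      by_cases hzY : z ∈ Y
      · obtain ⟨ε, hε, h2⟩ := hUo z (hzU hzY)
        exact ⟨ε, hε, fun y hy hd => ZFSet.mem_sep.2 ⟨hy, fun hyY => h2 y hyY hd⟩⟩
      · obtain ⟨ε, hε, h2⟩ := hcl z hzX hzY
        exact ⟨ε, hε, fun y hy hd => ZFSet.mem_sep.2 ⟨hy, fun hyY => absurd hyY (h2 y hy hd)⟩⟩
    · rw [ZFSet.mem_sep]
      exact ⟨fun h => h.2 hz, fun h => ⟨hYX hz, fun _ => h⟩⟩
  obtain ⟨F, hF1, hF2⟩ := hc (ZFSet.sep (fun V => ∃ U ∈ C, ∀ z ∈ Y, z ∈ V ↔ z ∈ U) τ)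
    (hM.sep_mem (Q := fun V => ∃ U ∈ C, ∀ z ∈ Y, z ∈ V ↔ z ∈ U) (by (repeat' first
      | assumption
      | exact DfnF.proj _
      | exact DfnF.const (by assumption)
      | exact DfnF.const' (by first | assumption | trivial) (by first | assumption | trivial)
      | exact Dfn.prop _
      | apply Dfn.not | apply Dfn.and | apply Dfn.or | apply Dfn.imp | apply Dfn.iff
      | apply hB.bex | apply hB.ball | apply Dfn.ex | apply Dfn.all
      | apply Dfn.eq | apply Dfn.mem | apply hB.pair' | apply hB.subset' | apply hB.insert'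
      | apply hB.isFunc' | apply hB.isInj' | apply hB.isBij' | apply hB.isOrdinal')) hτ)
    (fun V hV => (ZFSet.mem_sep.1 hV).1) (by
      intro x hx
      by_cases hxY : x ∈ Y
      · obtain ⟨U, hU, hxU⟩ := hcov x hxY
        obtain ⟨V, hV, h1, -⟩ := key U hU
        exact ⟨V, ZFSet.mem_sep.2 ⟨hV, U, hU, h1⟩, (h1 x hxY).2 hxU⟩
      · obtain ⟨U, hU⟩ := hCe
        obtain ⟨V, hV, h1, h2⟩ := key U hU
        exact ⟨V, ZFSet.mem_sep.2 ⟨hV, U, hU, h1⟩, h2 x hx hxY⟩)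
  have h3 : ∀ V : ZFSet.{0}, ∃ U, V ∈ F → U ∈ C ∧ ∀ z ∈ Y, z ∈ V ↔ z ∈ U := by
    intro V
    by_cases hV : V ∈ F
    · obtain ⟨-, U, hU, h1⟩ := ZFSet.mem_sep.1 (hF1 V hV)
      exact ⟨U, fun _ => ⟨hU, h1⟩⟩
    · exact ⟨∅, fun h => absurd h hV⟩
  choose u hu using h3
  refine ⟨F.image u, fun U hU => ?_, fun x hx => ?_⟩
  · obtain ⟨V, hV, rfl⟩ := Finset.mem_image.1 hU
    exact (hu V hV).1
  · obtain ⟨V, hV, hxV⟩ := hF2 x (hYX hx)
    exact ⟨u V, Finset.mem_image_of_mem _ hV, ((hu V hV).2 x hx).1 hxV⟩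

end

/-! ### Compactness -/

/-- Compactness with respect to a given family. -/
def Kp (M : Set ZFSet.{0}) (X G C : ZFSet.{0}) : Prop :=
  (∀ U ∈ C, ∀ x ∈ U, ∃ k ∈ ZFSet.omega, ∀ y ∈ X, pair (pair x y) (pair (nat 1) k) ∈ G → y ∈ U) →
  (∀ x ∈ X, ∃ U ∈ C, x ∈ U) → ∃ n ∈ ZFSet.omega, ∃ f ∈ M, ZFSet.IsFunc n C f ∧
    ∀ x ∈ X, ∃ i ∈ n, ∃ U ∈ C, pair i U ∈ f ∧ x ∈ U

theorem ud_kp : UD fun M (v : Fin 3 → ZFSet.{0}) => Kp M (v 0) (v 1) (v 2) := by
  unfold Kp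
  (repeat' first
      | assumption
      | exact UF.proj _
      | exact UF.om
      | exact UF.empty
      | exact UD.prop _
      | exact UF.nat _
      | apply UD.isInj | apply UD.isFunc
      | apply UD.not | apply UD.and | apply UD.or | apply UD.imp | apply UD.iff
      | apply UD.bex | apply UD.ball | apply UD.ex | apply UD.all | apply UD.subset
      | apply UD.eq | apply UD.mem | apply UF.pair
      | apply UF.insert)

/-- Some element of `C` contains `B`. -/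
def Exs (C B : ZFSet.{0}) : Prop := ∃ U ∈ C, B ⊆ U

theorem ud_exs : UD fun _ (v : Fin 2 → ZFSet.{0}) => Exs (v 0) (v 1) := by
  unfold Exs
  (repeat' first
      | assumption
      | exact UF.proj _
      | exact UF.om
      | exact UF.empty
      | exact UD.prop _
      | exact UF.nat _
      | apply UD.isInj | apply UD.isFunc
      | apply UD.not | apply UD.and | apply UD.or | apply UD.imp | apply UD.iff
      | apply UD.bex | apply UD.ball | apply UD.ex | apply UD.all | apply UD.subset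
      | apply UD.eq | apply UD.mem | apply UF.pair
      | apply UF.insert)

theorem mem_GN {π : Pkg Cnd} {o o' : Pt} (h : pt o ∈ π.N) (h' : pt o' ∈ π.N) {m n : ℕ} :
    pair (pair (π.val (pt o)) (π.val (pt o'))) (pair (nat m) (nat n)) ∈ π.val GN ↔
      Pt.de o o' < m / (n + 1) := by
  rw [val_GN]
  constructor
  · rintro ⟨a, b, ha, hb, m', n', h1, h2⟩
    obtain ⟨h3, h4⟩ := ZFSet.pair_inj.1 h2
    obtain ⟨h5, h6⟩ := ZFSet.pair_inj.1 h3
    obtain ⟨h7, h8⟩ := ZFSet.pair_inj.1 h4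
    rw [val_pt h ha h5, val_pt h' hb h6, nat_injective h7, nat_injective h8]
    exact h1
  · intro h1
    exact ⟨o, o', h, h', m, n, h1, rfl⟩

theorem kp {π : Pkg Cnd} (hcl : SS.Cld π) (hX : ptS Set.univ ∈ π.N) (hG : GN ∈ π.N)
    {C : ZFSet.{0}} (hC : C ∈ SS.Ms π) : Kp (SS.Ms π) (π.val (ptS Set.univ)) (π.val GN) C := by
  classical
  obtain ⟨C, ⟨hCN, hC⟩, rfl⟩ := hC
  refine frc_all (x := ![ptS Set.univ, GN, C]) ud_kp (all3 (p := SS.HS) hs_univ hs_GN hC) ?_ π hcl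
    (all3 (p := fun y => y ∈ π.N) hX hG hCN)
  clear hCN hX hG hcl π
  intro q
  obtain ⟨e, he⟩ := exists_surjective_nat Pt.Bs
  have hh : ∀ b, ∀ i, SS.HS ((![C, ptS (Pt.bs b)] : Fin 2 → PName Cnd) i) := fun b =>
    all2 (p := SS.HS) hC (hs_bs b)
  obtain ⟨s1, hs1, hdec⟩ := exists_meet (fun n s => SS.Frc ud_exs ![C, ptS (Pt.bs (e n))] s ∨
    SS.Frc (UD.not ud_exs) ![C, ptS (Pt.bs (e n))] s) q
    (fun n q' _ => Sys.frc_dec (hh (e n)) q')
    (fun n q' r h hr => by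
      rcases h with h | h
      · exact Or.inl (h.mono hr)
      · exact Or.inr (h.mono hr))
  have claim : ∀ π : Pkg Cnd, SS.Cld π → ptS Set.univ ∈ π.N → GN ∈ π.N → C ∈ π.N →
      (∀ b, ptS (Pt.bs b) ∈ π.N) → (∃ m, π.g m ≤ s1) → ∀ o, pt o ∈ π.N →
      (∀ U ∈ π.val C, ∀ x ∈ U, ∃ k ∈ ZFSet.omega, ∀ y ∈ π.val (ptS Set.univ),
        pair (pair x y) (pair (nat 1) k) ∈ π.val GN → y ∈ U) →
      (∀ x ∈ π.val (ptS Set.univ), ∃ U ∈ π.val C, x ∈ U) →
      ∃ b, o ∈ Pt.bs b ∧ SS.Frc ud_exs ![C, ptS (Pt.bs b)] s1 := by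
    intro π hcl hX hG hCN hbN hm o ho H1 H2
    obtain ⟨U, hU, hoU⟩ := H2 _ ((pt_mem_val ho).2 trivial)
    obtain ⟨k, hk, h1⟩ := H1 U hU _ hoU
    obtain ⟨k, rfl⟩ := mem_omega_iff.1 hk
    obtain ⟨b, hob, h2⟩ := Pt.exists_bs o (ε := 1 / ((k : ℝ) + 1)) (by positivity)
    refine ⟨b, hob, ?_⟩
    obtain ⟨n, rfl⟩ := he b
    rcases hdec n with h3 | h3
    · exact h3
    · exfalso
      have h4 := (Sys.frc_sem (hh (e n))).1 h3 π hcl (all2 (p := fun y => y ∈ π.N) hCN (hbN _)) hm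
      refine h4 ⟨U, hU, fun z hz => ?_⟩
      obtain ⟨o', ho', ho'N, rfl⟩ := val_ptS.1 hz
      refine h1 _ ((pt_mem_val ho'N).2 trivial) ((mem_GN ho ho'N).2 ?_)
      rw [Nat.cast_one]
      exact h2 o' ho'
  by_cases hcov : ∀ o : Pt, ∃ b ∈ {b | SS.Frc ud_exs ![C, ptS (Pt.bs b)] s1}, o ∈ Pt.bs b
  · obtain ⟨F, hF1, hF2⟩ := Pt.finite_cover hcov
    refine ⟨s1, hs1, Set.range fun b => ptS (Pt.bs b), Set.countable_range _,
      fun π hcl hN hA hm => ?_⟩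
    have hX : ptS Set.univ ∈ π.N := hN 0
    have hG : GN ∈ π.N := hN 1
    have hCN : C ∈ π.N := hN 2
    have hbN : ∀ b, ptS (Pt.bs b) ∈ π.N := fun b => hA ⟨b, rfl⟩
    have hM := T_ZF.isZF hcl
    change Kp (SS.Ms π) (π.val (ptS Set.univ)) (π.val GN) (π.val C)
    intro H1 H2
    have h3 : ∀ b, ∃ U, b ∈ F → U ∈ π.val C ∧ π.val (ptS (Pt.bs b)) ⊆ U := by
      intro b
      by_cases hb : b ∈ F
      · obtain ⟨U, hU, h4⟩ := (Sys.frc_sem (hh b)).1 (hF1 b hb) π hcl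
          (all2 (p := fun y => y ∈ π.N) hCN (hbN _)) hm
        exact ⟨U, fun _ => ⟨hU, h4⟩⟩
      · exact ⟨∅, fun h => absurd h hb⟩
    choose u hu using h3
    set l := F.toList with hl
    have h4 : ∀ i < l.length, u (l.getD i (Sum.inr 0)) ∈ π.val C := by
      intro i hi
      refine (hu _ ?_).1
      rw [List.getD_eq_getElem _ _ hi]
      exact Finset.mem_toList.1 (List.getElem_mem hi)
    have hCM : π.val C ∈ SS.Ms π := Sys.mem_Ms hCN hC
    refine ⟨nat l.length, mem_omega_iff.2 ⟨_, rfl⟩,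
      fseq (fun i => u (l.getD i (Sum.inr 0))) l.length,
      fseq_mem hM fun i hi => hM.trans _ hCM _ (h4 i hi), isFunc_fseq h4, fun x hx => ?_⟩
    obtain ⟨o, -, hoN, rfl⟩ := val_ptS.1 hx
    obtain ⟨b, hb, hob⟩ := hF2 o
    obtain ⟨i, hi, hib⟩ := List.mem_iff_getElem.1 (Finset.mem_toList.2 hb)
    have h5 : l.getD i (Sum.inr 0) = b := by
      rw [List.getD_eq_getElem _ _ hi]
      exact hib
    refine ⟨nat i, nat_mem_nat.2 hi, u b, (hu b hb).1, pair_mem_fseq.2 ⟨hi, by rw [h5]⟩,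
      (hu b hb).2 (val_ptS.2 ⟨o, hob, hoN, rfl⟩)⟩
  · push Not at hcov
    obtain ⟨o, ho⟩ := hcov
    refine ⟨s1, hs1, {pt o} ∪ Set.range fun b => ptS (Pt.bs b),
      (Set.countable_singleton _).union (Set.countable_range _), fun π hcl hN hA hm => ?_⟩
    change Kp (SS.Ms π) (π.val (ptS Set.univ)) (π.val GN) (π.val C)
    intro H1 H2
    exfalso
    obtain ⟨b, hob, hb⟩ := claim π hcl (hN 0) (hN 1) (hN 2) (fun b => hA (Or.inr ⟨b, rfl⟩)) hm o
      (hA (Or.inl rfl)) H1 H2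
    exact ho b hb hob

/-! ### The spaces -/

open Classical in
/-- The point with a given value. -/
noncomputable def ix (π : Pkg Cnd) (x : ZFSet.{0}) : Pt :=
  if h : ∃ o, pt o ∈ π.N ∧ x = π.val (pt o) then h.choose else none

theorem ix_val {π : Pkg Cnd} {o : Pt} (ho : pt o ∈ π.N) : ix π (π.val (pt o)) = o := by
  have h : ∃ o', pt o' ∈ π.N ∧ π.val (pt o) = π.val (pt o') := ⟨o, ho, rfl⟩
  rw [ix, dif_pos h]
  exact (val_pt ho h.choose_spec.1 h.choose_spec.2).symm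

/-- The metric. -/
noncomputable def dv (π : Pkg Cnd) (x y : ZFSet.{0}) : ℝ := Pt.de (ix π x) (ix π y)

theorem dv_val {π : Pkg Cnd} {o o' : Pt} (ho : pt o ∈ π.N) (ho' : pt o' ∈ π.N) :
    dv π (π.val (pt o)) (π.val (pt o')) = Pt.de o o' := by
  rw [dv, ix_val ho, ix_val ho']

section spaces

variable {π : Pkg Cnd} (hcl : SS.Cld π) (hX : ptS Set.univ ∈ π.N) (hG : GN ∈ π.N)

include hcl hX hG

theorem coded_univ : CodedIn (SS.Ms π) (π.val (ptS Set.univ)) (dv π) := by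
  refine ⟨π.val GN, Sys.mem_Ms hG hs_GN, fun z => ?_⟩
  rw [val_GN]
  constructor
  · rintro ⟨o, o', ho, ho', m, n, h, rfl⟩
    exact ⟨_, (pt_mem_val ho).2 trivial, _, (pt_mem_val ho').2 trivial, m, n, rfl, by
      rw [dv_val ho ho']
      exact h⟩
  · rintro ⟨x, hx, y, hy, m, n, rfl, h⟩
    obtain ⟨o, -, ho, rfl⟩ := val_ptS.1 hx
    obtain ⟨o', -, ho', rfl⟩ := val_ptS.1 hy
    rw [dv_val ho ho'] at h
    exact ⟨o, o', ho, ho', m, n, h, rfl⟩

/-- The sets of points are metrizable spaces. -/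
theorem exists_metric {Y : ZFSet.{0}} (hY : Y ∈ SS.Ms π) (hYX : Y ⊆ π.val (ptS Set.univ)) :
    ∃ τ ∈ SS.Ms π, MetricIn (SS.Ms π) Y τ (dv π) := by
  have hM := T_ZF.isZF hcl
  refine exists_top hM hY (coded_sub hM (coded_univ hcl hX hG) hY hYX) ?_ ?_ ?_ ?_
  · intro x hx
    exact Pt.de_self _
  · intro x hx y hy h
    obtain ⟨o, -, ho, rfl⟩ := val_ptS.1 (hYX hx)
    obtain ⟨o', -, ho', rfl⟩ := val_ptS.1 (hYX hy)
    rw [dv_val ho ho'] at h
    rw [Pt.de_eq h]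
  · intro x hx y hy
    exact Pt.de_symm _ _
  · intro x hx y hy z hz
    exact Pt.de_tri _ _ _

/-- The space of all the points is compact. -/
theorem compact_univ {τ : ZFSet.{0}}
    (m : MetricIn (SS.Ms π) (π.val (ptS Set.univ)) τ (dv π)) :
    CompactIn (SS.Ms π) (π.val (ptS Set.univ)) τ := by
  classical
  intro C hC hCτ hcov
  obtain ⟨n, hn, f, hf, hfn, h1⟩ := kp hcl hX hG hC (by
    intro U hU x hx
    obtain ⟨-, hUX, h2⟩ := (m.top U).1 (hCτ hU)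
    obtain ⟨ε, hε, h3⟩ := h2 x hx
    obtain ⟨k, hk⟩ := exists_nat_one_div_lt hε
    refine ⟨nat k, mem_omega_iff.2 ⟨k, rfl⟩, fun y hy h4 => h3 y hy ?_⟩
    obtain ⟨o, -, ho, rfl⟩ := val_ptS.1 (hUX hx)
    obtain ⟨o', -, ho', rfl⟩ := val_ptS.1 hy
    rw [mem_GN ho ho', Nat.cast_one] at h4
    rw [dv_val ho ho']
    exact h4.trans hk) hcov
  obtain ⟨n, rfl⟩ := mem_omega_iff.1 hn
  have h2 : ∀ i : ℕ, ∃ U, i < n → U ∈ C ∧ pair (nat i) U ∈ f := by
    intro i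
    by_cases hi : i < n
    · obtain ⟨U, hU, -⟩ := hfn.2 (nat i) (nat_mem_nat.2 hi)
      exact ⟨U, fun _ => ⟨(ZFSet.pair_mem_prod.1 (hfn.1 hU)).2, hU⟩⟩
    · exact ⟨∅, fun h => absurd h hi⟩
  choose u hu using h2
  refine ⟨(Finset.range n).image u, fun U hU => ?_, fun x hx => ?_⟩
  · obtain ⟨i, hi, rfl⟩ := Finset.mem_image.1 hU
    exact (hu i (Finset.mem_range.1 hi)).1
  · obtain ⟨i, hi, U, -, hiU, hxU⟩ := h1 x hx
    obtain ⟨i, hi', rfl⟩ := mem_nat_iff.1 hi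
    refine ⟨u i, Finset.mem_image_of_mem _ (Finset.mem_range.2 hi'), ?_⟩
    rwa [← (hfn.2 (nat i) (nat_mem_nat.2 hi')).unique hiU (hu i hi').2]

/-- The closed sets of points are compact metrizable spaces. -/
theorem exists_compact {A : Set Pt} (hA : ptS A ∈ π.N) (hAH : SS.HS (ptS A))
    (hAc : ∀ o ∉ A, ∃ ε > 0, ∀ o', Pt.de o o' < ε → o' ∉ A) :
    ∃ τ ∈ SS.Ms π, MetrizableIn (SS.Ms π) (π.val (ptS A)) τ ∧
      CompactIn (SS.Ms π) (π.val (ptS A)) τ := by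
  have hM := T_ZF.isZF hcl
  have h1 : π.val (ptS A) ∈ SS.Ms π := Sys.mem_Ms hA hAH
  have h2 : π.val (ptS Set.univ) ∈ SS.Ms π := Sys.mem_Ms hX hs_univ
  have h3 : π.val (ptS A) ⊆ π.val (ptS Set.univ) := by
    intro z hz
    obtain ⟨o, -, ho, rfl⟩ := val_ptS.1 hz
    exact (pt_mem_val ho).2 trivial
  obtain ⟨τ, hτ, m⟩ := exists_metric hcl hX hG h2 (fun _ h => h)
  obtain ⟨σ, hσ, m'⟩ := exists_metric hcl hX hG h1 h3
  refine ⟨σ, hσ, ⟨_, m'⟩, compact_sub hM h2 hτ m (compact_univ hcl hX hG m) h1 h3 ?_ m'⟩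
  intro x hx hxA
  obtain ⟨o, -, ho, rfl⟩ := val_ptS.1 hx
  rw [pt_mem_val ho] at hxA
  obtain ⟨ε, hε, h4⟩ := hAc o hxA
  refine ⟨ε, hε, fun y hy hd => ?_⟩
  obtain ⟨o', -, ho', rfl⟩ := val_ptS.1 hy
  rw [dv_val ho ho'] at hd
  rw [pt_mem_val ho']
  exact h4 o' hd

end spaces

end Pool.Agent.Q207.CT
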