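import Pool.Agent.Q207.CT.Uncc
import Pool.Agent.Q207.CT.Sp
import Pool.Agent.Q207.CT.Rt

/-!
# The model
-/

set_option autoImplicit false
set_option linter.unusedSectionVars false
set_option linter.unreachableTactic false
set_option linter.unusedTactic false

namespace Pool.Agent.Q207.CT

open Pool.Agent.W868 Pool.Agent.W868.PName Pool.Agent.Q211.SY
open Pool.Agent.Q211.FS (CodedIn MetricIn MetrizableIn CompactIn SeparableIn)
open ZFSet (pair)
open Cnd

theorem exists_enumQ : ∃ e : ℕ → ℚ, (∀ i j, rt (e i) = rt (e j) → i = j) ∧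
    ∀ v : ℚ, ∃ i, rt (e i) = rt v := by
  have h1 : (Set.range rt).Countable := Set.countable_range _
  have h2 : (Set.range rt).Infinite := by
    have h3 : Function.Injective fun n : ℕ => rt (1 / (n + 2)) := by
      intro m n h
      have hb : ∀ n : ℕ, (0 : ℚ) ≤ 1 / (n + 2) ∧ (1 : ℚ) / (n + 2) < 1 := by
        intro n
        have h0 : (0 : ℚ) < n + 2 := by positivity
        refine ⟨by positivity, (div_lt_one h0).2 ?_⟩
        have : (0 : ℚ) ≤ n := Nat.cast_nonneg n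
        linarith
      have h4 := rt_inj (hb m) (hb n) h
      rw [one_div, one_div] at h4
      have h7 := inv_injective h4
      have h8 : (m : ℚ) = n := by linarith
      exact_mod_cast h8
    exact (Set.infinite_range_of_injective h3).mono (by
      rintro _ ⟨n, rfl⟩
      exact ⟨_, rfl⟩)
  have : Infinite (Set.range rt) := h2.to_subtype
  have : Countable (Set.range rt) := h1.to_subtype
  obtain ⟨E⟩ := nonempty_denumerable (Set.range rt)
  have e := (Denumerable.eqv (Set.range rt)).symm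
  choose f hf using fun i : ℕ => (e i).2
  refine ⟨f, fun i j h => ?_, fun v => ?_⟩
  · rw [hf, hf] at h
    exact e.injective (Subtype.ext h)
  · refine ⟨e.symm ⟨rt v, v, rfl⟩, ?_⟩
    rw [hf, Equiv.apply_symm_apply]

/-- An enumeration of the rational points. -/
noncomputable def eQ : ℕ → ℚ := exists_enumQ.choose

theorem eQ_inj {i j : ℕ} (h : rt (eQ i) = rt (eQ j)) : i = j := exists_enumQ.choose_spec.1 i j h

theorem eQ_surj (v : ℚ) : ∃ i, rt (eQ i) = rt v := exists_enumQ.choose_spec.2 v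

/-- The packages that contain the relevant names. -/
structure IsMod (π : Pkg Cnd) : Prop where
  cl : SS.Cld π
  un : ptS Set.univ ∈ π.N
  gn : GN ∈ π.N
  bl : ∀ n, ptS (blk n) ∈ π.N
  bl' : ∀ n, ptS (blk' n) ∈ π.N
  blQ : ∀ n, ptS (blkQ n) ∈ π.N
  sb : seqN (fun n => ptS (blk n)) ∈ π.N
  sb' : seqN (fun n => ptS (blk' n)) ∈ π.N
  sQ : seqN (fun n => ptS (blkQ n)) ∈ π.N
  ra : ∀ n v, pt (some (n, rt v)) ∈ π.N
  en : ∀ n, seqN (fun i => pt (some (n, rt (eQ i)))) ∈ π.N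

theorem exists_mod : ∃ π : Pkg Cnd, IsMod π := by
  obtain ⟨π, h1, -, h3, -⟩ := Sys.exists_cld SS
    (({ptS Set.univ, GN, seqN (fun n => ptS (blk n)), seqN (fun n => ptS (blk' n)),
      seqN (fun n => ptS (blkQ n))} ∪ (Set.range fun n => ptS (blk n))) ∪
      ((Set.range fun n => ptS (blk' n)) ∪ (Set.range fun n => ptS (blkQ n))) ∪
      ((Set.range fun q : ℕ × ℚ => pt (some (q.1, rt q.2))) ∪
        Set.range fun n => seqN (fun i => pt (some (n, rt (eQ i))))))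
    ((((Set.toFinite _).countable.union (Set.countable_range _)).union
      ((Set.countable_range _).union (Set.countable_range _))).union
      ((Set.countable_range _).union (Set.countable_range _))) ∅ Set.countable_empty ⊤
  exact ⟨π, h3, h1 (Or.inl (Or.inl (Or.inl (by simp)))), h1 (Or.inl (Or.inl (Or.inl (by simp)))),
    fun n => h1 (Or.inl (Or.inl (Or.inr ⟨n, rfl⟩))),
    fun n => h1 (Or.inl (Or.inr (Or.inl ⟨n, rfl⟩))),
    fun n => h1 (Or.inl (Or.inr (Or.inr ⟨n, rfl⟩))),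
    h1 (Or.inl (Or.inl (Or.inl (by simp)))), h1 (Or.inl (Or.inl (Or.inl (by simp)))),
    h1 (Or.inl (Or.inl (Or.inl (by simp)))),
    fun n v => h1 (Or.inr (Or.inl ⟨(n, v), rfl⟩)), fun n => h1 (Or.inr (Or.inr ⟨n, rfl⟩))⟩

theorem hs_sqn {A : ℕ → Set Pt} (h : ∀ n, Fx 0 ∅ (ptS (A n))) : SS.HS (seqN fun n => ptS (A n)) :=
  hs_seqN Set.countable_empty h fun n =>
    hs_setN Set.countable_empty (h n) fun o => hs_pt o.1

namespace IsMod

variable {π : Pkg Cnd} (h : IsMod π)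

include h

theorem isZF : IsZF (SS.Ms π) := T_ZF.isZF h.cl

omit h in
theorem countable (π : Pkg Cnd) : (SS.Ms π).Countable :=
  (π.cnt.mono fun _ hx => hx.1).image _

theorem blk_sub (n : ℕ) : π.val (ptS (blk n)) ⊆ π.val (ptS Set.univ) := by
  intro z hz
  obtain ⟨o, -, ho, rfl⟩ := val_ptS.1 hz
  exact (pt_mem_val ho).2 trivial

/-- The blocks are open. -/
theorem blk_open {τ : ZFSet.{0}} (m : MetricIn (SS.Ms π) (π.val (ptS Set.univ)) τ (dv π))
    (n : ℕ) : π.val (ptS (blk n)) ∈ τ := by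
  refine (m.top _).2 ⟨Sys.mem_Ms (h.bl n) (hs_blk n), h.blk_sub n, fun x hx => ?_⟩
  obtain ⟨o, ⟨t, rfl⟩, ho, rfl⟩ := val_ptS.1 hx
  refine ⟨(1 / 2) ^ n, by positivity, fun y hy hd => ?_⟩
  obtain ⟨o', -, ho', rfl⟩ := val_ptS.1 hy
  rw [dv_val ho ho'] at hd
  refine (pt_mem_val ho').2 ?_
  by_contra hc
  have h1 : Pt.lv (some (n, t)) ≠ Pt.lv o' := by
    intro h2
    cases o' with
    | none => exact absurd h2 (by simp [Pt.lv])
    | some q =>
      have h3 : n = q.1 := by simpa [Pt.lv] using h2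
      exact hc ⟨q.2, by rw [h3]⟩
  rw [Pt.de_diff h1] at hd
  exact absurd (lt_of_le_of_lt (le_max_left _ _) hd) (lt_irrefl _)

theorem not_separable {τ : ZFSet.{0}}
    (m : MetricIn (SS.Ms π) (π.val (ptS Set.univ)) τ (dv π)) :
    ¬ SeparableIn (SS.Ms π) (π.val (ptS Set.univ)) τ := by
  rintro ⟨Y, hY, hYX, ⟨f, hf, hfi⟩, hd⟩
  have hM := h.isZF
  have hB := hM.base
  have h0 := hM.infinity
  set SB := π.val (seqN fun n => ptS (blk n)) with hSB
  have hSBM : SB ∈ SS.Ms π := Sys.mem_Ms h.sb (hs_sqn fx_blk)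
  have hSB' : ∀ (n : ℕ) A, pair (nat n) A ∈ SB ↔ A = π.val (ptS (blk n)) := by
    intro n A
    rw [hSB, val_seqN h.bl]
    constructor
    · rintro ⟨i, hi⟩
      obtain ⟨h1, h2⟩ := ZFSet.pair_inj.1 hi
      rw [h2, nat_injective h1]
    · rintro rfl
      exact ⟨n, rfl⟩
  obtain ⟨F, hF, -, hF'⟩ := hM.rel_mem h0 hY (Q := fun n y => ∃ A ∈ SS.Ms π, pair n A ∈ SB ∧
    y ∈ A ∧ ∀ z ∈ Y, z ∈ A → ∀ i ∈ ZFSet.omega, ∀ j ∈ ZFSet.omega, pair y i ∈ f →
    pair z j ∈ f → j ∉ i) (by (repeat' first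
      | assumption
      | exact DfnF.proj _
      | exact DfnF.const (by assumption)
      | exact DfnF.const' (by first | assumption | trivial) (by first | assumption | trivial)
      | exact Dfn.prop _
      | apply Dfn.not | apply Dfn.and | apply Dfn.or | apply Dfn.imp | apply Dfn.iff
      | apply hB.bex | apply hB.ball | apply Dfn.ex | apply Dfn.all
      | apply Dfn.eq | apply Dfn.mem | apply hB.pair' | apply hB.subset' | apply hB.insert'
      | apply hB.isFunc' | apply hB.isInj' | apply hB.isBij' | apply hB.isOrdinal'))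
  obtain ⟨N, hN⟩ := no_choice h.cl hF
  -- the first element of the dense set in the block
  have h1 : ∀ y ∈ Y, ∃ i : ℕ, pair y (nat i) ∈ f := by
    intro y hy
    obtain ⟨i, hi, -⟩ := hfi.1.2 y hy
    obtain ⟨i, rfl⟩ := mem_omega_iff.1 (ZFSet.pair_mem_prod.1 (hfi.1.1 hi)).2
    exact ⟨i, hi⟩
  have h2 : ∃ i : ℕ, ∃ y ∈ Y, y ∈ π.val (ptS (blk N)) ∧ pair y (nat i) ∈ f := by
    obtain ⟨y, hy, hyb⟩ := hd _ (h.blk_open m N) ⟨π.val (pt (some (N, rt 0))),
      (pt_mem_val (h.ra N 0)).2 ⟨_, rfl⟩⟩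
    obtain ⟨i, hi⟩ := h1 y hy
    exact ⟨i, y, hy, hyb, hi⟩
  classical
  obtain ⟨y, hy, hyb, hyi⟩ := Nat.find_spec h2
  have hmin : ∀ z ∈ Y, z ∈ π.val (ptS (blk N)) → ∀ j : ℕ, pair z (nat j) ∈ f →
      Nat.find h2 ≤ j := fun z hz hzb j hj => Nat.find_min' h2 ⟨z, hz, hzb, hj⟩
  have hyF : pair (nat N) y ∈ F := by
    refine (hF' _ _).2 ⟨mem_omega_iff.2 ⟨N, rfl⟩, hy, _, Sys.mem_Ms (h.bl N) (hs_blk N),
      (hSB' _ _).2 rfl, hyb, fun z hz hzb i hi j hj hyi' hzj hji => ?_⟩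
    obtain ⟨i, rfl⟩ := mem_omega_iff.1 hi
    obtain ⟨j, rfl⟩ := mem_omega_iff.1 hj
    have h3 := nat_injective ((hfi.1.2 y hy).unique hyi hyi')
    have h4 := hmin z hz hzb j hzj
    have h5 := nat_mem_nat.1 hji
    omega
  obtain ⟨o, ⟨t, rfl⟩, ho, rfl⟩ := val_ptS.1 hyb
  refine hN N le_rfl t ho ⟨hyF, fun b hb hbF => ?_⟩
  obtain ⟨-, hbY, A, -, hA, hbA, h3⟩ := (hF' _ _).1 hbF
  rw [hSB'] at hA
  subst hA
  obtain ⟨j, hj⟩ := h1 b hbY
  have h4 : Nat.find h2 ≤ j := hmin b hbY hbA j hj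
  have h5 : ¬ Nat.find h2 < j := fun h6 =>
    h3 _ hy hyb (nat j) (mem_omega_iff.2 ⟨j, rfl⟩) (nat (Nat.find h2)) (mem_omega_iff.2 ⟨_, rfl⟩)
      hj hyi (nat_mem_nat.2 h6)
  have h6 : Nat.find h2 = j := by omega
  rw [← h6] at hj
  exact hfi.2 _ _ _ hj hyi

end IsMod

/-- A model of ZF in which every uncountable compact metrizable space has at least the size of the
continuum, but some compact metrizable space is not separable. -/
theorem main1 : ∃ M : Set ZFSet.{0}, M.Countable ∧ IsZF M ∧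
    (∀ X ∈ M, ∀ τ ∈ M, MetrizableIn M X τ → CompactIn M X τ → ¬ CntIn M X → CLe M X) ∧
    ∃ X ∈ M, ∃ τ ∈ M, MetrizableIn M X τ ∧ CompactIn M X τ ∧ ¬ SeparableIn M X τ := by
  obtain ⟨π, h⟩ := exists_mod
  refine ⟨SS.Ms π, IsMod.countable π, h.isZF, fun X hX τ hτ hm hc hn => unc h.cl hX hτ hm hc hn,
    π.val (ptS Set.univ), Sys.mem_Ms h.un hs_univ, ?_⟩
  obtain ⟨τ, hτ, m⟩ := exists_metric h.cl h.un h.gn (Sys.mem_Ms h.un hs_univ) (fun _ h => h)
  exact ⟨τ, hτ, ⟨_, m⟩, compact_univ h.cl h.un h.gn m, h.not_separable m⟩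

end Pool.Agent.Q207.CT
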