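import Pool.Agent.Q207.CT.Dfs
import Pool.Agent.Q207.CT.Mod

/-!
# Families without choice functions
-/

set_option autoImplicit false
set_option linter.unusedSectionVars false
set_option linter.unreachableTactic false
set_option linter.unusedTactic false

namespace Pool.Agent.Q207.CT

open Pool.Agent.W868 Pool.Agent.W868.PName Pool.Agent.Q211.SY
open Pool.Agent.Q211.FS (CodedIn MetricIn MetrizableIn CompactIn)
open ZFSet (pair)
open Cnd

/-- Two topologies given by the same metric are equal. -/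
theorem top_unique {M : Set ZFSet.{0}} {X τ τ' : ZFSet.{0}} {d : ZFSet.{0} → ZFSet.{0} → ℝ}
    (m : MetricIn M X τ d) (m' : MetricIn M X τ' d) : τ = τ' := by
  ext U
  rw [m.top, m'.top]

/-- Closedness in the space. -/
def Clo (A : Set Pt) : Prop := ∀ o ∉ A, ∃ ε > 0, ∀ o', Pt.de o o' < ε → o' ∉ A

theorem clo_blk' (n : ℕ) : Clo (blk' n) := by
  intro o ho
  have h0 : 0 < Pt.wt o := by
    refine lt_of_le_of_ne (Pt.wt_nonneg o) fun h => ho ?_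
    exact Or.inl (Pt.wt_eq_zero h.symm)
  refine ⟨Pt.wt o, h0, fun o' hd ho' => ?_⟩
  have h1 : Pt.lv o ≠ Pt.lv o' := by
    intro h
    rcases ho' with rfl | ⟨t, rfl⟩
    · cases o with
      | none => exact ho (Or.inl rfl)
      | some q => exact absurd h (by simp [Pt.lv])
    · cases o with
      | none => exact ho (Or.inl rfl)
      | some q =>
        have h2 : q.1 = n := by simpa [Pt.lv] using h
        exact ho (Or.inr ⟨q.2, by rw [← h2]⟩)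
  rw [Pt.de_diff h1] at hd
  exact absurd (lt_of_le_of_lt (le_max_left _ _) hd) (lt_irrefl _)

theorem clo_blk (n : ℕ) : Clo (blk n) := by
  intro o ho
  by_cases h0 : o = none
  · subst h0
    refine ⟨(1 / 2) ^ n, by positivity, fun o' hd ho' => ?_⟩
    obtain ⟨t, rfl⟩ := ho'
    rw [Pt.de_diff (by simp [Pt.lv])] at hd
    exact absurd (lt_of_le_of_lt (le_max_right _ _) hd) (lt_irrefl _)
  · obtain ⟨ε, hε, h1⟩ := clo_blk' n o (by
      rintro (h | h)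
      · exact h0 h
      · exact ho h)
    exact ⟨ε, hε, fun o' hd ho' => h1 o' hd (Or.inr ho')⟩

namespace IsMod

variable {π : Pkg Cnd} (h : IsMod π)

include h

theorem ptS_sub {A : Set Pt} : π.val (ptS A) ⊆ π.val (ptS Set.univ) := by
  intro z hz
  obtain ⟨o, -, ho, rfl⟩ := val_ptS.1 hz
  exact (pt_mem_val ho).2 trivial

theorem sq_pair {A : ℕ → Set Pt} (hA : ∀ n, ptS (A n) ∈ π.N) (n : ℕ) (Y : ZFSet.{0}) :
    pair (nat n) Y ∈ π.val (seqN fun n => ptS (A n)) ↔ Y = π.val (ptS (A n)) := by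
  rw [val_seqN hA]
  constructor
  · rintro ⟨i, hi⟩
    obtain ⟨h1, h2⟩ := ZFSet.pair_inj.1 hi
    rw [h2, nat_injective h1]
  · rintro rfl
    exact ⟨n, rfl⟩

/-- Sequences of spaces. -/
theorem exists_sq {A : ℕ → Set Pt} (hA : ∀ n, ptS (A n) ∈ π.N) (fA : ∀ n, Fx 0 ∅ (ptS (A n)))
    (hc : ∀ n, Clo (A n)) (hS : seqN (fun n => ptS (A n)) ∈ π.N) :
    ∃ τ : ℕ → ZFSet.{0}, (∀ n, τ n ∈ SS.Ms π ∧
      MetricIn (SS.Ms π) (π.val (ptS (A n))) (τ n) (dv π)) ∧ ∃ S ∈ SS.Ms π, SpSeq (SS.Ms π) S ∧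
      ∀ z, z ∈ S ↔ ∃ n, z = pair (nat n) (pair (π.val (ptS (A n))) (τ n)) := by
  have hM := h.isZF
  have hB := hM.base
  have h0 := hM.infinity
  have hH : ∀ n, SS.HS (ptS (A n)) := fun n =>
    hs_setN Set.countable_empty (fA n) fun o => hs_pt o.1
  have hYM : ∀ n, π.val (ptS (A n)) ∈ SS.Ms π := fun n => Sys.mem_Ms (hA n) (hH n)
  have hX : π.val (ptS Set.univ) ∈ SS.Ms π := Sys.mem_Ms h.un hs_univ
  have hAS : π.val (seqN fun n => ptS (A n)) ∈ SS.Ms π := Sys.mem_Ms hS (hs_sqn fA)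
  have hG : π.val GN ∈ SS.Ms π := Sys.mem_Ms h.gn hs_GN
  have hn1 := hM.nat_mem 1
  set AS := π.val (seqN fun n => ptS (A n)) with hASd
  set X := π.val (ptS Set.univ) with hXd
  set G := π.val GN with hGd
  choose τ hτ m using fun n => exists_metric h.cl h.un h.gn (hYM n) (h.ptS_sub (A := A n))
  obtain ⟨P1, hP1, hP1'⟩ := hM.power X hX
  obtain ⟨P2, hP2, hP2'⟩ := hM.power P1 hP1
  have hPP : ZFSet.prod P1 P2 ∈ SS.Ms π := hM.prod_mem hP1 hP2
  have hopen : ∀ n U, U ∈ τ n ↔ U ∈ P1 ∧ U ⊆ π.val (ptS (A n)) ∧ ∀ x ∈ U, ∃ k ∈ ZFSet.omega,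
      ∀ y ∈ π.val (ptS (A n)), pair (pair x y) (pair (nat 1) k) ∈ G → y ∈ U := by
    intro n U
    rw [(m n).top U, hP1']
    constructor
    · rintro ⟨h1, h2, h3⟩
      refine ⟨⟨h1, fun z hz => h.ptS_sub (h2 hz)⟩, h2, fun x hx => ?_⟩
      obtain ⟨ε, hε, h4⟩ := h3 x hx
      obtain ⟨k, hk⟩ := exists_nat_one_div_lt hε
      refine ⟨nat k, mem_omega_iff.2 ⟨k, rfl⟩, fun y hy hd => h4 y hy ?_⟩
      obtain ⟨o, -, ho, rfl⟩ := val_ptS.1 (h2 hx)
      obtain ⟨o', -, ho', rfl⟩ := val_ptS.1 hy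
      rw [hGd, mem_GN ho ho', Nat.cast_one] at hd
      rw [dv_val ho ho']
      exact hd.trans hk
    · rintro ⟨⟨h1, -⟩, h2, h3⟩
      refine ⟨h1, h2, fun x hx => ?_⟩
      obtain ⟨k, hk, h4⟩ := h3 x hx
      obtain ⟨k, rfl⟩ := mem_omega_iff.1 hk
      refine ⟨1 / (k + 1), by positivity, fun y hy hd => h4 y hy ?_⟩
      obtain ⟨o, -, ho, rfl⟩ := val_ptS.1 (h2 hx)
      obtain ⟨o', -, ho', rfl⟩ := val_ptS.1 hy
      rw [dv_val ho ho'] at hd
      rw [hGd, mem_GN ho ho', Nat.cast_one]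
      exact hd
  obtain ⟨S, hS, hSs, hS'⟩ := hM.rel_mem h0 hPP (Q := fun n Z => ∃ Y ∈ P1, ∃ σ ∈ P2,
    Z = pair Y σ ∧ pair n Y ∈ AS ∧ ∀ U ∈ P1, (U ∈ σ ↔ U ⊆ Y ∧ ∀ x ∈ U, ∃ k ∈ ZFSet.omega,
    ∀ y ∈ Y, pair (pair x y) (pair (nat 1) k) ∈ G → y ∈ U)) (by (repeat' first
      | assumption
      | exact DfnF.proj _
      | exact DfnF.const (by assumption)
      | exact DfnF.const' (by first | assumption | trivial) (by first | assumption | trivial)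
      | exact Dfn.prop _
      | apply Dfn.not | apply Dfn.and | apply Dfn.or | apply Dfn.imp | apply Dfn.iff
      | apply hB.bex | apply hB.ball | apply Dfn.ex | apply Dfn.all
      | apply Dfn.eq | apply Dfn.mem | apply hB.pair' | apply hB.subset' | apply hB.insert'
      | apply hB.isFunc' | apply hB.isInj' | apply hB.isBij' | apply hB.isOrdinal'))
  have hτP : ∀ n, τ n ∈ P2 := by
    intro n
    refine (hP2' _).2 ⟨hτ n, fun U hU => ((hopen n U).1 hU).1⟩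
  have hYP : ∀ n, π.val (ptS (A n)) ∈ P1 := fun n => (hP1' _).2 ⟨hYM n, h.ptS_sub⟩
  have key : ∀ n Z, pair (nat n) Z ∈ S ↔ Z = pair (π.val (ptS (A n))) (τ n) := by
    intro n Z
    rw [hS']
    constructor
    · rintro ⟨-, -, Y, -, σ, hσ, rfl, h1, h2⟩
      rw [hASd, sq_pair h hA] at h1
      subst h1
      congr 1
      ext U
      constructor
      · intro hU
        have hUP := ((hP2' σ).1 hσ).2 hU
        exact (hopen n U).2 ⟨hUP, (h2 U hUP).1 hU⟩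
      · intro hU
        have h3 := (hopen n U).1 hU
        exact (h2 U h3.1).2 h3.2
    · rintro rfl
      refine ⟨mem_omega_iff.2 ⟨n, rfl⟩, ZFSet.pair_mem_prod.2 ⟨hYP n, hτP n⟩, _, hYP n, _, hτP n,
        rfl, (sq_pair h hA n _).2 rfl, fun U hU => ?_⟩
      rw [hopen n U]
      exact and_iff_right hU
  have hSz : ∀ z, z ∈ S ↔ ∃ n, z = pair (nat n) (pair (π.val (ptS (A n))) (τ n)) := by
    intro z
    constructor
    · intro hz
      obtain ⟨n, hn, Z, hZ, rfl⟩ := ZFSet.mem_prod.1 (hSs hz)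
      obtain ⟨n, rfl⟩ := mem_omega_iff.1 hn
      exact ⟨n, by rw [(key n Z).1 hz]⟩
    · rintro ⟨n, rfl⟩
      exact (key n _).2 rfl
  refine ⟨τ, fun n => ⟨hτ n, m n⟩, S, hS, ⟨⟨_, hPP, hSs, fun z hz => ?_⟩, fun n Z hZ => ?_⟩, hSz⟩
  · obtain ⟨n, rfl⟩ := mem_omega_iff.1 hz
    exact ⟨_, (key n _).2 rfl, fun w hw => (key n w).1 hw⟩
  · obtain ⟨n', hn'⟩ := (hSz _).1 hZ
    obtain ⟨rfl, rfl⟩ := ZFSet.pair_inj.1 hn'
    obtain ⟨σ, hσ, ⟨d, md⟩, hcp⟩ := exists_compact h.cl h.un h.gn (hA n') (hH n') (hc n')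
    refine ⟨_, _, rfl, ⟨_, m n'⟩, ?_⟩
    obtain ⟨τX, hτX, mX⟩ := exists_metric h.cl h.un h.gn hX (fun _ h => h)
    refine compact_sub hM hX hτX mX (compact_univ h.cl h.un h.gn mX) (hYM n') h.ptS_sub ?_ (m n')
    intro x hx hxA
    obtain ⟨o, -, ho, rfl⟩ := val_ptS.1 hx
    rw [pt_mem_val ho] at hxA
    obtain ⟨ε, hε, h4⟩ := hc n' o hxA
    refine ⟨ε, hε, fun y hy hd => ?_⟩
    obtain ⟨o', -, ho', rfl⟩ := val_ptS.1 hy
    rw [dv_val ho ho'] at hd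
    rw [pt_mem_val ho']
    exact h4 o' hd

theorem pair_sq {A : ℕ → Set Pt} {τ : ℕ → ZFSet.{0}} {S : ZFSet.{0}}
    (hS : ∀ z, z ∈ S ↔ ∃ n, z = pair (nat n) (pair (π.val (ptS (A n))) (τ n)))
    {n X σ : ZFSet.{0}} : pair n (pair X σ) ∈ S ↔
      ∃ i : ℕ, n = nat i ∧ X = π.val (ptS (A i)) ∧ σ = τ i := by
  rw [hS]
  constructor
  · rintro ⟨i, hi⟩
    obtain ⟨h1, h2⟩ := ZFSet.pair_inj.1 hi
    obtain ⟨h3, h4⟩ := ZFSet.pair_inj.1 h2
    exact ⟨i, h1, h3, h4⟩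
  · rintro ⟨i, rfl, rfl, rfl⟩
    exact ⟨i, rfl⟩

/-- The family of the blocks has no choice function. -/
theorem not_cac : ¬ CACle (SS.Ms π) := by
  intro hc
  have hM := h.isZF
  have hB := hM.base
  have h0 := hM.infinity
  obtain ⟨τ, hτ, S, hS, hSp, hS'⟩ := h.exists_sq h.bl fx_blk clo_blk h.sb
  have hX : π.val (ptS Set.univ) ∈ SS.Ms π := Sys.mem_Ms h.un hs_univ
  obtain ⟨P1, hP1, hP1'⟩ := hM.power _ hX
  have hSB : π.val (seqN fun n => ptS (blk n)) ∈ SS.Ms π := Sys.mem_Ms h.sb (hs_sqn fx_blk)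
  set SB := π.val (seqN fun n => ptS (blk n)) with hSBd
  have hYM : ∀ n, π.val (ptS (blk n)) ∈ SS.Ms π := fun n => Sys.mem_Ms (h.bl n) (hs_blk n)
  have hYP : ∀ n, π.val (ptS (blk n)) ∈ P1 := fun n => (hP1' _).2 ⟨hYM n, h.ptS_sub⟩
  have hF : ZFSet.sep (fun Y => ∃ n ∈ ZFSet.omega, pair n Y ∈ SB) P1 ∈ SS.Ms π :=
    hM.sep_mem (Q := fun Y => ∃ n ∈ ZFSet.omega, pair n Y ∈ SB) (by (repeat' first
      | assumption
      | exact DfnF.proj _
      | exact DfnF.const (by assumption)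
      | exact DfnF.const' (by first | assumption | trivial) (by first | assumption | trivial)
      | exact Dfn.prop _
      | apply Dfn.not | apply Dfn.and | apply Dfn.or | apply Dfn.imp | apply Dfn.iff
      | apply hB.bex | apply hB.ball | apply Dfn.ex | apply Dfn.all
      | apply Dfn.eq | apply Dfn.mem | apply hB.pair' | apply hB.subset' | apply hB.insert'
      | apply hB.isFunc' | apply hB.isInj' | apply hB.isBij' | apply hB.isOrdinal')) hP1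
  set F := ZFSet.sep (fun Y => ∃ n ∈ ZFSet.omega, pair n Y ∈ SB) P1 with hFd
  have hF' : ∀ Y, Y ∈ F ↔ ∃ n, Y = π.val (ptS (blk n)) := by
    intro Y
    rw [hFd, ZFSet.mem_sep]
    constructor
    · rintro ⟨-, n, hn, h1⟩
      obtain ⟨n, rfl⟩ := mem_omega_iff.1 hn
      exact ⟨n, (h.sq_pair h.bl n Y).1 h1⟩
    · rintro ⟨n, rfl⟩
      exact ⟨hYP n, nat n, mem_omega_iff.2 ⟨n, rfl⟩, (h.sq_pair h.bl n _).2 rfl⟩
  obtain ⟨c, hcM, hcf, hcc⟩ := hc S hS hSp (fun n X σ hn => by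
      obtain ⟨i, -, rfl, -⟩ := (h.pair_sq hS').1 hn
      exact ⟨_, (pt_mem_val (h.ra i 0)).2 ⟨_, rfl⟩⟩) F hF (fun Y => by
      rw [hF']
      constructor
      · rintro ⟨n, rfl⟩
        exact ⟨nat n, τ n, (h.pair_sq hS').2 ⟨n, rfl, rfl, rfl⟩⟩
      · rintro ⟨n, σ, hn⟩
        obtain ⟨i, -, h1, -⟩ := (h.pair_sq hS').1 hn
        exact ⟨i, h1⟩)
  obtain ⟨c', hc', -, hc''⟩ := hM.rel_mem h0 hX (Q := fun n x => ∃ Y ∈ P1, pair n Y ∈ SB ∧
    pair Y x ∈ c) (by (repeat' first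
      | assumption
      | exact DfnF.proj _
      | exact DfnF.const (by assumption)
      | exact DfnF.const' (by first | assumption | trivial) (by first | assumption | trivial)
      | exact Dfn.prop _
      | apply Dfn.not | apply Dfn.and | apply Dfn.or | apply Dfn.imp | apply Dfn.iff
      | apply hB.bex | apply hB.ball | apply Dfn.ex | apply Dfn.all
      | apply Dfn.eq | apply Dfn.mem | apply hB.pair' | apply hB.subset' | apply hB.insert'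
      | apply hB.isFunc' | apply hB.isInj' | apply hB.isBij' | apply hB.isOrdinal'))
  obtain ⟨N, hN⟩ := no_choice h.cl hc'
  obtain ⟨x, hx, hxu⟩ := hcf.2 _ ((hF' _).2 ⟨N, rfl⟩)
  have hxb := hcc _ _ hx
  obtain ⟨o, ⟨t, rfl⟩, ho, rfl⟩ := val_ptS.1 hxb
  refine hN N le_rfl t ho ⟨(hc'' _ _).2 ⟨mem_omega_iff.2 ⟨N, rfl⟩, h.ptS_sub hxb, _, hYP N,
    (h.sq_pair h.bl N _).2 rfl, hx⟩, fun b _ hb => ?_⟩
  obtain ⟨-, -, Y, -, h1, h2⟩ := (hc'' _ _).1 hb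
  rw [hSBd, h.sq_pair h.bl] at h1
  subst h1
  exact hxu b h2

/-- The family of the rational parts of the blocks has no multiple choice function. -/
theorem not_cmc : ¬ CMComega (SS.Ms π) := by
  intro hc
  have hM := h.isZF
  have hB := hM.base
  have h0 := hM.infinity
  have hX : π.val (ptS Set.univ) ∈ SS.Ms π := Sys.mem_Ms h.un hs_univ
  obtain ⟨P1, hP1, hP1'⟩ := hM.power _ hX
  have hSB : π.val (seqN fun n => ptS (blkQ n)) ∈ SS.Ms π := Sys.mem_Ms h.sQ (hs_sqn fx_blkQ)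
  set SB := π.val (seqN fun n => ptS (blkQ n)) with hSBd
  have hYM : ∀ n, π.val (ptS (blkQ n)) ∈ SS.Ms π := fun n => Sys.mem_Ms (h.blQ n) (hs_blkQ n)
  have hYP : ∀ n, π.val (ptS (blkQ n)) ∈ P1 := fun n => (hP1' _).2 ⟨hYM n, h.ptS_sub⟩
  have hF : ZFSet.sep (fun Y => ∃ n ∈ ZFSet.omega, pair n Y ∈ SB) P1 ∈ SS.Ms π :=
    hM.sep_mem (Q := fun Y => ∃ n ∈ ZFSet.omega, pair n Y ∈ SB) (by (repeat' first
      | assumption
      | exact DfnF.proj _
      | exact DfnF.const (by assumption)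
      | exact DfnF.const' (by first | assumption | trivial) (by first | assumption | trivial)
      | exact Dfn.prop _
      | apply Dfn.not | apply Dfn.and | apply Dfn.or | apply Dfn.imp | apply Dfn.iff
      | apply hB.bex | apply hB.ball | apply Dfn.ex | apply Dfn.all
      | apply Dfn.eq | apply Dfn.mem | apply hB.pair' | apply hB.subset' | apply hB.insert'
      | apply hB.isFunc' | apply hB.isInj' | apply hB.isBij' | apply hB.isOrdinal')) hP1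
  set F := ZFSet.sep (fun Y => ∃ n ∈ ZFSet.omega, pair n Y ∈ SB) P1 with hFd
  have hF' : ∀ Y, Y ∈ F ↔ ∃ n, Y = π.val (ptS (blkQ n)) := by
    intro Y
    rw [hFd, ZFSet.mem_sep]
    constructor
    · rintro ⟨-, n, hn, h1⟩
      obtain ⟨n, rfl⟩ := mem_omega_iff.1 hn
      exact ⟨n, (h.sq_pair h.blQ n Y).1 h1⟩
    · rintro ⟨n, rfl⟩
      exact ⟨hYP n, nat n, mem_omega_iff.2 ⟨n, rfl⟩, (h.sq_pair h.blQ n _).2 rfl⟩
  have hinj : ∀ n n', π.val (ptS (blkQ n)) = π.val (ptS (blkQ n')) → n = n' := by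
    intro n n' he
    have h1 : π.val (pt (some (n, rt 0))) ∈ π.val (ptS (blkQ n)) :=
      (pt_mem_val (h.ra n 0)).2 ⟨0, rfl⟩
    rw [he, pt_mem_val (h.ra n 0)] at h1
    obtain ⟨v, hv⟩ := h1
    rw [Option.some.injEq] at hv
    exact (Prod.ext_iff.1 hv).1
  have hdF : DenIn (SS.Ms π) F := by
    refine ⟨SB, hSB, ⟨⟨fun z hz => ?_, fun z hz => ?_⟩, fun a b c ha hb => ?_⟩, fun Y hY => ?_⟩
    · obtain ⟨n, rfl⟩ := (val_seqN h.blQ).1 hz
      exact ZFSet.pair_mem_prod.2 ⟨mem_omega_iff.2 ⟨n, rfl⟩, (hF' _).2 ⟨n, rfl⟩⟩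
    · obtain ⟨n, rfl⟩ := mem_omega_iff.1 hz
      exact ⟨_, (h.sq_pair h.blQ n _).2 rfl, fun w hw => (h.sq_pair h.blQ n _).1 hw⟩
    · obtain ⟨i, hi⟩ := (val_seqN h.blQ).1 ha
      obtain ⟨j, hj⟩ := (val_seqN h.blQ).1 hb
      obtain ⟨h1, h2⟩ := ZFSet.pair_inj.1 hi
      obtain ⟨h3, h4⟩ := ZFSet.pair_inj.1 hj
      rw [h1, h3, hinj i j (h2.symm.trans h4)]
    · obtain ⟨n, rfl⟩ := (hF' Y).1 hY
      exact ⟨nat n, mem_omega_iff.2 ⟨n, rfl⟩, (h.sq_pair h.blQ n _).2 rfl⟩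
  have hdB : ∀ B ∈ F, DenIn (SS.Ms π) B := by
    intro B hB'
    obtain ⟨n, rfl⟩ := (hF' B).1 hB'
    have hN : ∀ i, pt (some (n, rt (eQ i))) ∈ π.N := fun i => h.ra n (eQ i)
    refine ⟨π.val (seqN fun i => pt (some (n, rt (eQ i)))), Sys.mem_Ms (h.en n)
      (hs_seqN Set.countable_empty (fun i => fx_aN n _) fun i => hs_pt _),
      ⟨⟨fun z hz => ?_, fun z hz => ?_⟩, fun a b c ha hb => ?_⟩, fun Y hY => ?_⟩
    · obtain ⟨i, rfl⟩ := (val_seqN hN).1 hz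
      exact ZFSet.pair_mem_prod.2 ⟨mem_omega_iff.2 ⟨i, rfl⟩, (pt_mem_val (hN i)).2 ⟨_, rfl⟩⟩
    · obtain ⟨i, rfl⟩ := mem_omega_iff.1 hz
      refine ⟨_, (val_seqN hN).2 ⟨i, rfl⟩, fun w hw => ?_⟩
      obtain ⟨j, hj⟩ := (val_seqN hN).1 hw
      obtain ⟨h1, h2⟩ := ZFSet.pair_inj.1 hj
      rw [h2, nat_injective h1]
    · obtain ⟨i, hi⟩ := (val_seqN hN).1 ha
      obtain ⟨j, hj⟩ := (val_seqN hN).1 hb
      obtain ⟨h1, h2⟩ := ZFSet.pair_inj.1 hi
      obtain ⟨h3, h4⟩ := ZFSet.pair_inj.1 hj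
      have h5 := val_pt (hN i) (hN j) (h2.symm.trans h4)
      rw [Option.some.injEq] at h5
      rw [h1, h3, eQ_inj (Prod.ext_iff.1 h5).2]
    · obtain ⟨o, ⟨v, rfl⟩, ho, rfl⟩ := val_ptS.1 hY
      obtain ⟨i, hi⟩ := eQ_surj v
      refine ⟨nat i, mem_omega_iff.2 ⟨i, rfl⟩, (val_seqN hN).2 ⟨i, ?_⟩⟩
      rw [hi]
  obtain ⟨f, hf, ⟨Y0, hY0, hff⟩, hfc⟩ := hc F hF hdF hdB
  obtain ⟨c', hc', -, hc''⟩ := hM.rel_mem h0 hY0 (Q := fun n x => ∃ Y ∈ P1, pair n Y ∈ SB ∧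
    pair Y x ∈ f) (by (repeat' first
      | assumption
      | exact DfnF.proj _
      | exact DfnF.const (by assumption)
      | exact DfnF.const' (by first | assumption | trivial) (by first | assumption | trivial)
      | exact Dfn.prop _
      | apply Dfn.not | apply Dfn.and | apply Dfn.or | apply Dfn.imp | apply Dfn.iff
      | apply hB.bex | apply hB.ball | apply Dfn.ex | apply Dfn.all
      | apply Dfn.eq | apply Dfn.mem | apply hB.pair' | apply hB.subset' | apply hB.insert'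
      | apply hB.isFunc' | apply hB.isInj' | apply hB.isBij' | apply hB.isOrdinal'))
  obtain ⟨N, hN⟩ := no_mc h.cl hc'
  obtain ⟨b, hb, hbu⟩ := hff.2 _ ((hF' _).2 ⟨N, rfl⟩)
  obtain ⟨hbB, ⟨x, hx⟩, n, g, -, hg⟩ := hfc _ _ hb
  have hbY := (ZFSet.pair_mem_prod.1 (hff.1 hb)).2
  obtain ⟨o, ⟨v, rfl⟩, ho, rfl⟩ := val_ptS.1 (hbB hx)
  refine hN N le_rfl b (hM.trans _ hY0 _ hbY) ⟨(hc'' _ _).2 ⟨mem_omega_iff.2 ⟨N, rfl⟩, hbY, _,
    hYP N, (h.sq_pair h.blQ N _).2 rfl, hb⟩, fun b' _ hb' => ?_⟩ _ ho hx ?_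
  · obtain ⟨-, -, Y, -, h1, h2⟩ := (hc'' _ _).1 hb'
    rw [hSBd, h.sq_pair h.blQ] at h1
    subst h1
    exact hbu b' h2
  · -- the set `b` is finite
    have h1 : ∀ z ∈ b, ∃ i : ℕ, i < n ∧ pair (nat i) z ∈ g := by
      intro z hz
      obtain ⟨a, ha, h2⟩ := hg.2 z hz
      obtain ⟨i, hi, rfl⟩ := mem_nat_iff.1 ha
      exact ⟨i, hi, h2⟩
    have h2 : ∀ i : ℕ, ∃ z, ∀ w, pair (nat i) w ∈ g → w = z := by
      intro i
      by_cases hi : i < n
      · obtain ⟨z, -, hz⟩ := hg.1.1.2 (nat i) (nat_mem_nat.2 hi)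
        exact ⟨z, fun w hw => hz w hw⟩
      · refine ⟨∅, fun w hw => absurd (ZFSet.pair_mem_prod.1 (hg.1.1.1 hw)).1 fun h3 => ?_⟩
        exact hi (nat_mem_nat.1 h3)
    choose z hz using h2
    refine ((Set.finite_Iio n).image z).subset ?_
    intro w hw
    obtain ⟨i, hi, h3⟩ := h1 w hw
    exact ⟨i, hi, (hz i w h3).symm⟩

end IsMod

end Pool.Agent.Q207.CT
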