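import Pool.Agent.Q207.CT.Sq
import Pool.Agent.Q207.CT.Del

/-!
# The names of the points and of the blocks
-/

set_option autoImplicit false
set_option linter.unusedSectionVars false

namespace Pool.Agent.Q207.CT

open Pool.Agent.W868 Pool.Agent.W868.PName Pool.Agent.Q211.SY
open ZFSet (pair)
open Cnd

/-! ### Extension of conditions -/

open Classical in
/-- Add one value. -/
noncomputable def add (p : Cnd) (x : Om) (κ : ℝ) (b : Bool) : Cnd where
  f y l := if y = x ∧ l = κ then some b else p.f y l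
  cn := by
    refine (p.cn.union (Set.countable_singleton (x, κ))).mono ?_
    rintro ⟨y, l⟩ h
    by_cases h1 : y = x ∧ l = κ
    · right
      rw [h1.1, h1.2]
      rfl
    · left
      change (if y = x ∧ l = κ then some b else p.f y l) ≠ none at h
      rwa [if_neg h1] at h

theorem add_self (p : Cnd) (x : Om) (κ : ℝ) (b : Bool) : (add p x κ b).f x κ = some b :=
  if_pos ⟨rfl, rfl⟩

theorem add_ne {p : Cnd} {x y : Om} {κ l : ℝ} {b : Bool} (h : ¬ (y = x ∧ l = κ)) :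
    (add p x κ b).f y l = p.f y l := if_neg h

theorem add_le {p : Cnd} {x : Om} {κ : ℝ} {b : Bool} (h : p.f x κ = none) :
    add p x κ b ≤ p := by
  intro y l c hc
  by_cases h1 : y = x ∧ l = κ
  · rw [h1.1, h1.2, h] at hc
    cases hc
  · rw [add_ne h1]
    exact hc

theorem exists_fresh (p : Cnd) : ∃ κ : ℝ, ∀ x, p.f x κ = none := by
  have h1 : (Prod.snd '' {x : Om × ℝ | p.f x.1 x.2 ≠ none}).Countable := p.cn.image _
  obtain ⟨κ, hκ⟩ : ∃ κ : ℝ, κ ∉ Prod.snd '' {x : Om × ℝ | p.f x.1 x.2 ≠ none} := by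
    by_contra hc
    push Not at hc
    refine Cardinal.not_countable_real ?_
    exact h1.mono fun κ _ => hc κ
  exact ⟨κ, fun x => by_contra fun h => hκ ⟨(x, κ), h, rfl⟩⟩

/-! ### The generic sets -/

/-- The generic sets. -/
noncomputable def yN (x : Om) : PName Cnd :=
  PName.mk {t : ℝ × Cnd // t.2.f x t.1 = some true} (fun t => check (cd t.1.1)) (fun t => t.1.2)

theorem el_yN {x : Om} {z : PName Cnd} {c : Cnd} :
    El (yN x) z c ↔ ∃ κ : ℝ, z = check (cd κ) ∧ c.f x κ = some true := by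
  constructor
  · rintro ⟨⟨⟨κ, c⟩, h⟩, rfl, rfl⟩
    exact ⟨κ, rfl, h⟩
  · rintro ⟨κ, rfl, h⟩
    exact ⟨⟨⟨κ, c⟩, h⟩, rfl, rfl⟩

theorem feq_ax_yN (g : Gam) (x : Om) (p : Cnd) : Feq (ax g (yN x)) (yN (g.1 x)) p := by
  refine feq_of_el fun z c => ?_
  rw [el_ax]
  constructor
  · rintro ⟨z', c', h, rfl, rfl⟩
    obtain ⟨κ, rfl, h1⟩ := el_yN.1 h
    refine el_yN.2 ⟨κ, ax_check _ _, ?_⟩
    rw [ap_f']
    exact h1
  · intro h
    obtain ⟨κ, rfl, h1⟩ := el_yN.1 h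
    exact ⟨check (cd κ), ap g.1⁻¹ c, el_yN.2 ⟨κ, rfl, h1⟩, (ax_check _ _).symm,
      (ap_ap_inv _ _).symm⟩

theorem nfeq_yN {x y : Om} (h : x ≠ y) (p : Cnd) : ¬ Feq (yN x) (yN y) p := by
  intro hf
  obtain ⟨κ, hκ⟩ := exists_fresh p
  set q1 := add p x κ true with hq1
  have h1 : q1 ≤ p := add_le (hκ x)
  have h2 : q1.f x κ = some true := add_self _ _ _ _
  have h3 : q1.f y κ = none := by
    rw [hq1, add_ne fun h' => h h'.1.symm]
    exact hκ y
  set q2 := add q1 y κ false with hq2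
  have h4 : q2 ≤ q1 := add_le h3
  have h5 : q2.f y κ = some false := add_self _ _ _ _
  obtain ⟨s, hs, w, d, hw, hsd, he⟩ := (feq_iff'.1 hf).1 (check (cd κ)) q2
    (el_yN.2 ⟨κ, rfl, h4 _ _ _ h2⟩) q2 (h4.trans h1) le_rfl
  obtain ⟨l, rfl, hl⟩ := el_yN.1 hw
  have h6 : κ = l := cd_injective ((feq_check _ _ _).1 he)
  have h7 := hsd _ _ _ hl
  have h8 := hs _ _ _ h5
  rw [← h6, h8] at h7
  cases h7

theorem fx_yN (x : Om) : Fx (x.1 + 1) {x} (yN x) := by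
  intro (g : Gam) hg p
  change Feq (ax g _) _ p
  have h1 : g.1 x = x := (hg x (Nat.lt_succ_self _)).2 rfl
  have h2 := feq_ax_yN g x p
  rwa [h1] at h2

theorem hs_yN (x : Om) : SS.HS (yN x) := by
  rw [Sys.hs_iff]
  refine ⟨sym_iff.2 ⟨_, _, Set.countable_singleton x, fx_yN x⟩, fun z c hz => ?_⟩
  obtain ⟨κ, rfl, -⟩ := el_yN.1 hz
  exact SS.hs_check _

/-! ### Names of sets -/

/-- The name of a set of names. -/
def setN {ι : Type} (f : ι → PName Cnd) : PName Cnd := PName.mk ι f (fun _ => ⊤)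

section setN

variable {ι : Type} {f : ι → PName Cnd}

theorem el_setN {z : PName Cnd} {c : Cnd} : El (setN f) z c ↔ ∃ i, z = f i ∧ c = ⊤ := by
  constructor
  · rintro ⟨i, rfl, rfl⟩
    exact ⟨i, rfl, rfl⟩
  · rintro ⟨i, rfl, rfl⟩
    exact ⟨i, rfl, rfl⟩

theorem fmem_setN (i : ι) (p : Cnd) : Fmem (f i) (setN f) p :=
  fmem_iff.2 fun q _ => ⟨q, le_rfl, f i, ⊤, el_setN.2 ⟨i, rfl, rfl⟩, le_top, Feq.refl _ _⟩

theorem of_fmem_setN {z : PName Cnd} {p : Cnd} (h : Fmem z (setN f) p) :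
    ∃ q ≤ p, ∃ i, Feq z (f i) q := by
  obtain ⟨s, hs, w, c, hw, -, he⟩ := fmem_iff.1 h p le_rfl
  obtain ⟨i, rfl, -⟩ := el_setN.1 hw
  exact ⟨s, hs, i, he⟩

theorem feq_setN {κ : Type} {h : κ → PName Cnd} {g : Gam} {p : Cnd}
    (h1 : ∀ i, ∃ j, ∀ q, Feq (ax g (f i)) (h j) q)
    (h2 : ∀ j, ∃ i, ∀ q, Feq (ax g (f i)) (h j) q) : Feq (ax g (setN f)) (setN h) p := by
  rw [feq_iff']
  constructor
  · intro z c hz q hq hqc
    obtain ⟨z', c', h3, rfl, rfl⟩ := el_ax.1 hz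
    obtain ⟨i, rfl, rfl⟩ := el_setN.1 h3
    obtain ⟨j, hj⟩ := h1 i
    exact ⟨q, le_rfl, _, ⊤, el_setN.2 ⟨j, rfl, rfl⟩, le_top, hj q⟩
  · intro z c hz q hq hqc
    obtain ⟨j, rfl, rfl⟩ := el_setN.1 hz
    obtain ⟨i, hi⟩ := h2 j
    exact ⟨q, le_rfl, _, _, el_ax.2 ⟨_, _, el_setN.2 ⟨i, rfl, rfl⟩, rfl, rfl⟩,
      fun _ _ _ h => absurd h (by simp [ap_f]), hi q⟩

theorem hs_setN {k : ℕ} {s : Set Om} (hs : s.Countable) (hf : Fx k s (setN f))
    (h : ∀ i, SS.HS (f i)) : SS.HS (setN f) := by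
  rw [Sys.hs_iff]
  refine ⟨sym_iff.2 ⟨k, s, hs, hf⟩, fun z c hz => ?_⟩
  obtain ⟨i, rfl, -⟩ := el_setN.1 hz
  exact h i

theorem val_setN {π : Pkg Cnd} {z : ZFSet.{0}} :
    z ∈ π.val (setN f) ↔ ∃ i, f i ∈ π.N ∧ z = π.val (f i) := by
  rw [π.mem_val]
  constructor
  · rintro ⟨y, hy, c, hc, -, rfl⟩
    obtain ⟨i, rfl, -⟩ := el_setN.1 hc
    exact ⟨i, hy, rfl⟩
  · rintro ⟨i, hi, rfl⟩
    exact ⟨_, hi, ⊤, el_setN.2 ⟨i, rfl, rfl⟩, ⟨0, le_top⟩, rfl⟩

end setN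

/-! ### The points -/

/-- The points of the blocks. -/
noncomputable def aN (n : ℕ) (t : T) : PName Cnd := setN fun j : ℝ => yN (n, t, j)

theorem feq_ax_aN {g : Gam} {n : ℕ} {v : ℚ} (hv : ∀ x : Om, x.1 = n → (g.1 x).2.1 = x.2.1 + rt v)
    (t : T) (p : Cnd) : Feq (ax g (aN n t)) (aN n (t + rt v)) p := by
  refine feq_setN (fun j => ⟨(g.1 (n, t, j)).2.2, fun q => ?_⟩)
    (fun j => ⟨(g.1.symm (n, t + rt v, j)).2.2, fun q => ?_⟩)
  · have h1 : g.1 (n, t, j) = (n, t + rt v, (g.1 (n, t, j)).2.2) :=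
      Prod.ext (lvl g _) (Prod.ext (hv _ rfl) rfl)
    rw [← h1]
    exact feq_ax_yN g _ q
  · set y := g.1.symm (n, t + rt v, j) with hy
    have h0 : g.1 y = (n, t + rt v, j) := by rw [hy, Equiv.apply_symm_apply]
    have h1 : y.1 = n := by rw [← lvl g y, h0]
    have h2 : y.2.1 = t := by
      have h3 := hv y h1
      rw [h0] at h3
      exact (add_right_cancel h3).symm
    have h3 : y = (n, t, y.2.2) := Prod.ext h1 (Prod.ext h2 rfl)
    have h4 := feq_ax_yN g y q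
    rw [h0] at h4
    rw [← h3]
    exact h4

theorem nfeq_aN {n n' : ℕ} {t t' : T} (h : (n, t) ≠ (n', t')) (p : Cnd) :
    ¬ Feq (aN n t) (aN n' t') p := by
  intro hf
  obtain ⟨q, hq, j, hj⟩ := of_fmem_setN (fmem_congr (Feq.refl _ _) hf
    (fmem_setN (f := fun j : ℝ => yN (n, t, j)) 0 p))
  refine nfeq_yN (fun h' => h ?_) q hj
  have h1 : n = n' := congrArg Prod.fst h'
  exact Prod.ext h1 (congrArg (fun z : Om => z.2.1) h')

theorem nfeq_aN_emp {n : ℕ} {t : T} (p : Cnd) : ¬ Feq (aN n t) emp p := by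
  intro hf
  have h1 := fmem_congr (Feq.refl _ _) hf (fmem_setN (f := fun j : ℝ => yN (n, t, j)) 0 p)
  obtain ⟨s, hs, w, c, ⟨i, -, -⟩, -⟩ := fmem_iff.1 h1 p le_rfl
  exact i.elim

theorem fx_aN (n : ℕ) (t : T) : Fx (n + 1) ∅ (aN n t) := by
  intro (g : Gam) hg p
  change Feq (ax g _) _ p
  have h1 := feq_ax_aN (g := g) (n := n) (v := 0) (fun x hx => by
    rw [rt_zero, add_zero]
    exact (hg x (by rw [hx]; exact Nat.lt_succ_self _)).1) t p
  rwa [rt_zero, add_zero] at h1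

theorem hs_aN (n : ℕ) (t : T) : SS.HS (aN n t) :=
  hs_setN Set.countable_empty (fx_aN n t) fun _ => hs_yN _

/-- The names of the points. -/
noncomputable def pt (o : Pt) : PName Cnd := o.elim emp fun q => aN q.1 q.2

theorem hs_pt (o : Pt) : SS.HS (pt o) := by
  cases o with
  | none => exact hs_emp SS
  | some q => exact hs_aN _ _

theorem nfeq_pt {o o' : Pt} (h : o ≠ o') (p : Cnd) : ¬ Feq (pt o) (pt o') p := by
  cases o with
  | none =>
    cases o' with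
    | none => exact absurd rfl h
    | some q => exact fun h' => nfeq_aN_emp p h'.symm
  | some q =>
    cases o' with
    | none => exact nfeq_aN_emp p
    | some q' => exact nfeq_aN (fun h' => h (congrArg some h')) p

theorem val_pt {π : Pkg Cnd} {o o' : Pt} (h : pt o ∈ π.N) (h' : pt o' ∈ π.N)
    (he : π.val (pt o) = π.val (pt o')) : o = o' := by
  obtain ⟨n, hn⟩ := (π.val_eq_iff h h').1 he
  by_contra hc
  exact nfeq_pt hc _ hn

/-- The rotations given by an element of the group. -/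
noncomputable def rv (g : Gam) (n : ℕ) : ℚ := (rotat g n).choose

theorem rv_spec (g : Gam) (n : ℕ) (x : Om) (hx : x.1 = n) :
    (g.1 x).2.1 = x.2.1 + rt (rv g n) := (rotat g n).choose_spec x hx

theorem feq_ax_pt (g : Gam) (o : Pt) (p : Cnd) : Feq (ax g (pt o)) (pt (Pt.mv (rv g) o)) p := by
  cases o with
  | none =>
    have h1 : ax g (pt none) = emp := act_emp _
    rw [h1]
    exact Feq.refl _ _
  | some q => exact feq_ax_aN (rv_spec g q.1) q.2 p

theorem mv_inv (v : ℕ → ℚ) (o : Pt) : Pt.mv v (Pt.mv (-v) o) = o := by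
  cases o with
  | none => rfl
  | some q =>
    change some (q.1, q.2 + rt (-v q.1) + rt (v q.1)) = some q
    rw [rt_neg, neg_add_cancel_right]

theorem rv_Hk {g : Gam} {k : ℕ} {s : Set Om} (hg : g ∈ Hk k s) {n : ℕ} (hn : n < k) :
    rt (rv g n) = 0 := by
  have h1 := rv_spec g n (n, 0, 0) rfl
  rw [(hg (n, 0, 0) hn).1] at h1
  exact (add_eq_left.1 h1.symm)

/-! ### Sets of points -/

/-- The name of a set of points. -/
noncomputable def ptS (A : Set Pt) : PName Cnd := setN fun o : {o // o ∈ A} => pt o.1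

theorem feq_ax_ptS {g : Gam} {A B : Set Pt} (h : ∀ o, o ∈ A ↔ Pt.mv (rv g) o ∈ B) (p : Cnd) :
    Feq (ax g (ptS A)) (ptS B) p := by
  refine feq_setN (fun o => ⟨⟨Pt.mv (rv g) o.1, (h _).1 o.2⟩, fun q => feq_ax_pt g o.1 q⟩)
    (fun o => ⟨⟨Pt.mv (-(rv g)) o.1, (h _).2 (by rw [mv_inv]; exact o.2)⟩, fun q => ?_⟩)
  have h1 := feq_ax_pt g (Pt.mv (-(rv g)) o.1) q
  rwa [mv_inv] at h1

theorem fx_ptS {k : ℕ} {s : Set Om} {A : Set Pt}
    (h : ∀ g ∈ Hk k s, ∀ o, o ∈ A ↔ Pt.mv (rv g) o ∈ A) : Fx k s (ptS A) :=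
  fun g hg p => feq_ax_ptS (h g hg) p

theorem hs_ptS {k : ℕ} {A : Set Pt}
    (h : ∀ g ∈ Hk k ∅, ∀ o, o ∈ A ↔ Pt.mv (rv g) o ∈ A) : SS.HS (ptS A) :=
  hs_setN Set.countable_empty (fx_ptS h) fun o => hs_pt o.1

theorem val_ptS {π : Pkg Cnd} {A : Set Pt} {z : ZFSet.{0}} :
    z ∈ π.val (ptS A) ↔ ∃ o ∈ A, pt o ∈ π.N ∧ z = π.val (pt o) := by
  rw [ptS, val_setN]
  constructor
  · rintro ⟨⟨o, ho⟩, h1, rfl⟩
    exact ⟨o, ho, h1, rfl⟩
  · rintro ⟨o, ho, h1, rfl⟩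
    exact ⟨⟨o, ho⟩, h1, rfl⟩

/-- Membership in the name of a set of points. -/
theorem pt_mem_val {π : Pkg Cnd} {A : Set Pt} {o : Pt} (ho : pt o ∈ π.N) :
    π.val (pt o) ∈ π.val (ptS A) ↔ o ∈ A := by
  rw [val_ptS]
  constructor
  · rintro ⟨o', h1, h2, h3⟩
    rw [val_pt ho h2 h3]
    exact h1
  · intro h
    exact ⟨o, h, ho, rfl⟩

/-- The block. -/
def blk (n : ℕ) : Set Pt := {o | ∃ t, o = some (n, t)}

/-- The block and the point at infinity. -/
def blk' (n : ℕ) : Set Pt := {o | o = none ∨ ∃ t, o = some (n, t)}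

/-- The rational points of the block. -/
def blkQ (n : ℕ) : Set Pt := {o | ∃ v : ℚ, o = some (n, rt v)}

theorem mem_blk (g : Gam) (n : ℕ) (o : Pt) : o ∈ blk n ↔ Pt.mv (rv g) o ∈ blk n := by
  cases o with
  | none => exact ⟨fun ⟨t, h⟩ => absurd h (by simp), fun ⟨t, h⟩ => absurd h (by simp [Pt.mv])⟩
  | some q =>
    change (∃ t, some q = some (n, t)) ↔ ∃ t, some (q.1, q.2 + rt (rv g q.1)) = some (n, t)
    simp only [Option.some.injEq]
    constructor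
    · rintro ⟨t, rfl⟩
      exact ⟨_, rfl⟩
    · rintro ⟨t, h⟩
      refine ⟨q.2, Prod.ext ?_ rfl⟩
      exact (Prod.ext_iff.1 h).1

theorem mem_blk' (g : Gam) (n : ℕ) (o : Pt) : o ∈ blk' n ↔ Pt.mv (rv g) o ∈ blk' n := by
  cases o with
  | none => exact ⟨fun _ => Or.inl rfl, fun _ => Or.inl rfl⟩
  | some q =>
    have h1 := mem_blk g n (some q)
    constructor
    · rintro (h | h)
      · exact absurd h (by simp)
      · exact Or.inr (h1.1 h)
    · rintro (h | h)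
      · exact absurd h (by simp [Pt.mv])
      · exact Or.inr (h1.2 h)

theorem mem_blkQ (g : Gam) (n : ℕ) (o : Pt) : o ∈ blkQ n ↔ Pt.mv (rv g) o ∈ blkQ n := by
  cases o with
  | none => exact ⟨fun ⟨t, h⟩ => absurd h (by simp), fun ⟨t, h⟩ => absurd h (by simp [Pt.mv])⟩
  | some q =>
    change (∃ v : ℚ, some q = some (n, rt v)) ↔
      ∃ v : ℚ, some (q.1, q.2 + rt (rv g q.1)) = some (n, rt v)
    simp only [Option.some.injEq]
    constructor
    · rintro ⟨v, rfl⟩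
      exact ⟨v + rv g n, by rw [rt_add]⟩
    · rintro ⟨v, h⟩
      obtain ⟨h1, h2⟩ := Prod.ext_iff.1 h
      refine ⟨v + -rv g q.1, Prod.ext h1 ?_⟩
      rw [rt_add, rt_neg, ← show q.2 + rt (rv g q.1) = rt v from h2, add_neg_cancel_right]

theorem hs_blk (n : ℕ) : SS.HS (ptS (blk n)) := hs_ptS (k := 0) fun g _ => mem_blk g n

theorem hs_blk' (n : ℕ) : SS.HS (ptS (blk' n)) := hs_ptS (k := 0) fun g _ => mem_blk' g n

theorem hs_blkQ (n : ℕ) : SS.HS (ptS (blkQ n)) := hs_ptS (k := 0) fun g _ => mem_blkQ g n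

theorem hs_univ : SS.HS (ptS Set.univ) :=
  hs_ptS (k := 0) fun _ _ _ => ⟨fun _ => trivial, fun _ => trivial⟩

theorem fx_blk (n : ℕ) : Fx 0 ∅ (ptS (blk n)) := fx_ptS fun g _ => mem_blk g n

theorem fx_blk' (n : ℕ) : Fx 0 ∅ (ptS (blk' n)) := fx_ptS fun g _ => mem_blk' g n

theorem fx_blkQ (n : ℕ) : Fx 0 ∅ (ptS (blkQ n)) := fx_ptS fun g _ => mem_blkQ g n

theorem hs_bs (b : Pt.Bs) : SS.HS (ptS (Pt.bs b)) := by
  cases b with
  | inl q =>
    refine hs_ptS (k := q.1 + 1) fun g hg o => ?_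
    cases o with
    | none => exact ⟨fun ⟨t, h, _⟩ => absurd h (by simp), fun ⟨t, h, _⟩ =>
        absurd h (by simp [Pt.mv])⟩
    | some w =>
      change (∃ t, some w = some (q.1, t) ∧ ‖t - rt q.2.1‖ < 1 / (q.2.2 + 1)) ↔
        ∃ t, some (w.1, w.2 + rt (rv g w.1)) = some (q.1, t) ∧ ‖t - rt q.2.1‖ < 1 / (q.2.2 + 1)
      by_cases hw : w.1 = q.1
      · have h1 : rt (rv g w.1) = 0 := rv_Hk hg (by rw [hw]; exact Nat.lt_succ_self _)
        rw [h1, add_zero]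
      · constructor
        · rintro ⟨t, h, -⟩
          rw [Option.some.injEq] at h
          exact absurd (congrArg Prod.fst h) hw
        · rintro ⟨t, h, -⟩
          rw [Option.some.injEq] at h
          exact absurd (congrArg Prod.fst h) hw
  | inr N =>
    refine hs_ptS (k := 0) fun g hg o => ?_
    cases o with
    | none => exact ⟨fun _ n t h => absurd h (by simp [Pt.mv]), fun _ n t h =>
        absurd h (by simp)⟩
    | some w =>
      constructor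
      · intro h n t h1
        have h2 : w.1 = n := by
          change some (w.1, w.2 + rt (rv g w.1)) = some (n, t) at h1
          rw [Option.some.injEq] at h1
          exact (congrArg Prod.fst h1)
        exact h n w.2 (by rw [← h2])
      · intro h n t h1
        rw [Option.some.injEq] at h1
        refine h n (t + rt (rv g n)) ?_
        change some (w.1, w.2 + rt (rv g w.1)) = _
        rw [h1]

/-! ### The metric -/

/-- The indices for the coded metric. -/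
abbrev GI : Type := {q : (Pt × Pt) × (ℕ × ℕ) // Pt.de q.1.1 q.1.2 < q.2.1 / (q.2.2 + 1)}

/-- The name of the coded metric. -/
noncomputable def GN : PName Cnd := setN fun q : GI =>
  opN (opN (pt q.1.1.1) (pt q.1.1.2)) (opN (check (nat q.1.2.1)) (check (nat q.1.2.2)))

theorem fx_GN : Fx 0 ∅ GN := by
  intro (g : Gam) hg p
  change Feq (ax g _) _ p
  refine feq_setN (fun q => ⟨⟨((Pt.mv (rv g) q.1.1.1, Pt.mv (rv g) q.1.1.2), q.1.2), ?_⟩,
    fun r => ?_⟩) (fun q => ⟨⟨((Pt.mv (-rv g) q.1.1.1, Pt.mv (-rv g) q.1.1.2), q.1.2), ?_⟩,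
    fun r => ?_⟩)
  · rw [Pt.de_mv]
    exact q.2
  · rw [ax_opN, ax_opN, ax_opN, ax_check, ax_check]
    exact feq_opN (feq_opN (feq_ax_pt g _ r) (feq_ax_pt g _ r)) (Feq.refl _ _)
  · rw [Pt.de_mv]
    exact q.2
  · rw [ax_opN, ax_opN, ax_opN, ax_check, ax_check]
    have h1 := feq_ax_pt g (Pt.mv (-(rv g)) q.1.1.1) r
    have h2 := feq_ax_pt g (Pt.mv (-(rv g)) q.1.1.2) r
    rw [mv_inv] at h1 h2
    exact feq_opN (feq_opN h1 h2) (Feq.refl _ _)

theorem hs_GN : SS.HS GN := hs_setN Set.countable_empty fx_GN fun _ =>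
  SS.hs_opN (SS.hs_opN (hs_pt _) (hs_pt _)) (SS.hs_opN (SS.hs_check _) (SS.hs_check _))

theorem val_GN {π : Pkg Cnd} {z : ZFSet.{0}} :
    z ∈ π.val GN ↔ ∃ o o', pt o ∈ π.N ∧ pt o' ∈ π.N ∧ ∃ m n : ℕ, Pt.de o o' < m / (n + 1) ∧
      z = pair (pair (π.val (pt o)) (π.val (pt o'))) (pair (nat m) (nat n)) := by
  have h0 : ∀ o o', pt o ∈ π.N → pt o' ∈ π.N → ∀ m n : ℕ,
      π.val (opN (opN (pt o) (pt o')) (opN (check (nat m)) (check (nat n)))) =
      pair (pair (π.val (pt o)) (π.val (pt o'))) (pair (nat m) (nat n)) := by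
    intro o o' h h' m n
    rw [π.val_opN (π.opN_mem h h') (π.opN_mem (π.nat_Z m) (π.nat_Z n)), π.val_opN h h',
      π.val_opN (π.nat_Z m) (π.nat_Z n), show π.val (check (nat m)) = nat m from π.hat_nat m,
      show π.val (check (nat n)) = nat n from π.hat_nat n]
  rw [GN, val_setN]
  constructor
  · rintro ⟨⟨⟨⟨o, o'⟩, m, n⟩, h⟩, h1, rfl⟩
    have h2 : pt o ∈ π.N := π.fst_mem (π.fst_mem h1)
    have h3 : pt o' ∈ π.N := π.snd_mem (π.fst_mem h1)
    exact ⟨o, o', h2, h3, m, n, h, h0 o o' h2 h3 m n⟩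
  · rintro ⟨o, o', h2, h3, m, n, h, rfl⟩
    exact ⟨⟨⟨⟨o, o'⟩, m, n⟩, h⟩, π.opN_mem (π.opN_mem h2 h3) (π.opN_mem (π.nat_Z m) (π.nat_Z n)),
      (h0 o o' h2 h3 m n).symm⟩

end Pool.Agent.Q207.CT
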