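import Pool.Agent.Q207.CT.Gd

/-!
# Sequences of points
-/

set_option autoImplicit false
set_option linter.unusedSectionVars false
set_option linter.unreachableTactic false
set_option linter.unusedTactic false

namespace Pool.Agent.Q207.CT

open Pool.Agent.W868 Pool.Agent.W868.PName Pool.Agent.Q211.SY
open Pool.Agent.Q211.FS (reg ud_reg tb ud_tb hf)
open ZFSet (pair)
open Cnd

/-! ### Names of sequences -/

/-- The name of a sequence. -/
noncomputable def seqN (S : ℕ → PName Cnd) : PName Cnd :=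
  PName.mk ℕ (fun i => opN (check (nat i)) (S i)) (fun _ => ⊤)

theorem el_seqN {S : ℕ → PName Cnd} {z : PName Cnd} {c : Cnd} :
    El (seqN S) z c ↔ ∃ i, z = opN (check (nat i)) (S i) ∧ c = ⊤ := by
  constructor
  · rintro ⟨i, rfl, rfl⟩
    exact ⟨i, rfl, rfl⟩
  · rintro ⟨i, rfl, rfl⟩
    exact ⟨i, rfl, rfl⟩

theorem fx_seqN {k : ℕ} {s : Set Om} {S : ℕ → PName Cnd} (h : ∀ i, Fx k s (S i)) :
    Fx k s (seqN S) := by
  intro (g : Gam) hg p
  change Feq (ax g _) _ p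
  rw [feq_iff']
  constructor
  · intro z c hz q hq hqc
    obtain ⟨z', c', h1, rfl, rfl⟩ := el_ax.1 hz
    obtain ⟨i, rfl, rfl⟩ := el_seqN.1 h1
    refine ⟨q, le_rfl, _, ⊤, el_seqN.2 ⟨i, rfl, rfl⟩, le_top, ?_⟩
    rw [ax_opN, ax_check]
    exact feq_opN (Feq.refl _ _) ((h i).feq hg q)
  · intro z c hz q hq hqc
    obtain ⟨i, rfl, rfl⟩ := el_seqN.1 hz
    refine ⟨q, le_rfl, _, _, el_ax.2 ⟨_, _, el_seqN.2 ⟨i, rfl, rfl⟩, rfl, rfl⟩,
      fun _ _ _ h => absurd h (by simp [ap_f]), ?_⟩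
    rw [ax_opN, ax_check]
    exact feq_opN (Feq.refl _ _) ((h i).feq hg q)

theorem hs_seqN {k : ℕ} {s : Set Om} (hs : s.Countable) {S : ℕ → PName Cnd}
    (h : ∀ i, Fx k s (S i)) (hS : ∀ i, SS.HS (S i)) : SS.HS (seqN S) := by
  rw [Sys.hs_iff]
  refine ⟨sym_iff.2 ⟨k, s, hs, fx_seqN h⟩, ?_⟩
  intro z c hz
  obtain ⟨i, rfl, -⟩ := el_seqN.1 hz
  exact SS.hs_opN (SS.hs_check _) (hS i)

theorem val_seqN {π : Pkg Cnd} {S : ℕ → PName Cnd} (h : ∀ i, S i ∈ π.N) {z : ZFSet.{0}} :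
    z ∈ π.val (seqN S) ↔ ∃ i, z = pair (nat i) (π.val (S i)) := by
  have h0 : ∀ i, π.val (opN (check (nat i)) (S i)) = pair (nat i) (π.val (S i)) := by
    intro i
    rw [π.val_opN (π.nat_Z i) (h i), show π.val (check (nat i)) = nat i from π.hat_nat i]
  rw [π.mem_val]
  constructor
  · rintro ⟨y, hy, c, hc, -, rfl⟩
    obtain ⟨i, rfl, -⟩ := el_seqN.1 hc
    exact ⟨i, h0 i⟩
  · rintro ⟨i, rfl⟩
    exact ⟨_, π.opN_mem (π.nat_Z i) (h i), ⊤, el_seqN.2 ⟨i, rfl, rfl⟩, ⟨0, le_top⟩, h0 i⟩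

/-! ### Construction of sequences -/

theorem exists_seq {α : Type 1} {P : α → Cnd → Prop} {Q : ℕ → (ℕ → α) → α → Cnd → Prop} {a0 : α}
    {q0 : Cnd} (h0 : P a0 q0)
    (step : ∀ n (g : ℕ → α) (q : Cnd), q ≤ q0 → (∀ i ≤ n, P (g i) q) →
      ∃ r ≤ q, ∃ a, P a r ∧ Q n g a r)
    (hP : ∀ a q r, P a q → r ≤ q → P a r)
    (hQm : ∀ n g a q r, Q n g a q → r ≤ q → Q n g a r)
    (hQ : ∀ n g g' a q, (∀ i ≤ n, g i = g' i) → Q n g a q → Q n g' a q) :
    ∃ r ≤ q0, ∃ g : ℕ → α, g 0 = a0 ∧ (∀ i, P (g i) r) ∧ ∀ n, Q n g (g (n + 1)) r := by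
  classical
  have F : ∀ n (t : (ℕ → α) × Cnd), (t.2 ≤ q0 ∧ ∀ i ≤ n, P (t.1 i) t.2) →
      ∃ t' : (ℕ → α) × Cnd, (t'.2 ≤ q0 ∧ ∀ i ≤ n + 1, P (t'.1 i) t'.2) ∧ t'.2 ≤ t.2 ∧
        (∀ i ≤ n, t'.1 i = t.1 i) ∧ Q n t'.1 (t'.1 (n + 1)) t'.2 := by
    rintro n ⟨g, q⟩ ⟨h1, h2⟩
    obtain ⟨r, hr, a, ha, hQa⟩ := step n g q h1 h2
    have h3 : ∀ i ≤ n, Function.update g (n + 1) a i = g i := fun i hi =>
      Function.update_of_ne (by omega) _ _
    have h4 : Function.update g (n + 1) a (n + 1) = a := Function.update_self _ _ _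
    refine ⟨(Function.update g (n + 1) a, r), ⟨hr.trans h1, ?_⟩, hr, h3, ?_⟩
    · intro i hi
      rcases Nat.lt_or_ge i (n + 1) with h5 | h5
      · change P (Function.update g (n + 1) a i) r
        rw [h3 i (by omega)]
        exact hP _ _ _ (h2 i (by omega)) hr
      · have h6 : i = n + 1 := by omega
        change P (Function.update g (n + 1) a i) r
        rw [h6, h4]
        exact ha
    · change Q n (Function.update g (n + 1) a) (Function.update g (n + 1) a (n + 1)) r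
      rw [h4]
      exact hQ n g _ a r (fun i hi => (h3 i hi).symm) hQa
  choose F hF using F
  let st : ∀ n, {t : (ℕ → α) × Cnd // t.2 ≤ q0 ∧ ∀ i ≤ n, P (t.1 i) t.2} := fun n =>
    Nat.rec ⟨(fun _ => a0, q0), le_rfl, fun i _ => h0⟩
      (fun n t => ⟨F n t.1 t.2, (hF n t.1 t.2).1⟩) n
  have hst : ∀ n, (st (n + 1)).1 = F n (st n).1 (st n).2 := fun n => rfl
  have stab : ∀ m n, n ≤ m → (st m).1.1 n = (st n).1.1 n := by
    intro m
    induction m with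
    | zero =>
      intro n hn
      rw [Nat.le_zero.1 hn]
    | succ m ih =>
      intro n hn
      rcases Nat.lt_or_ge n (m + 1) with h5 | h5
      · rw [hst, (hF m (st m).1 (st m).2).2.2.1 n (by omega)]
        exact ih n (by omega)
      · rw [Nat.le_antisymm hn h5]
  obtain ⟨b, hb⟩ := exists_lb (r := fun n => (st n).1.2) fun n => by
    change (st (n + 1)).1.2 ≤ (st n).1.2
    rw [hst]
    exact (hF n (st n).1 (st n).2).2.1
  refine ⟨b, (hb 0).trans (st 0).2.1, fun n => (st n).1.1 n, rfl, fun i =>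
    hP _ _ _ ((st i).2.2 i le_rfl) (hb i), fun n => ?_⟩
  have h1 := (hF n (st n).1 (st n).2).2.2.2
  rw [← hst] at h1
  refine hQm _ _ _ _ _ (hQ n _ _ _ _ (fun i hi => ?_) h1) (hb (n + 1))
  exact stab (n + 1) i (by omega)

section near

variable {k : ℕ} {s : Set Om} (hs : s.Countable) (hsk : ∀ x ∈ s, x.1 < k)
  {X D f : PName Cnd} (hX : SS.HS X) (fX : Fx k s X) (hD : SS.HS D) (fD : Fx k s D)
  (hf : SS.HS f) {q1 : Cnd} (hgd : SS.Frc ud_gd ![X, D] q1) (hm : Fmem f X q1)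
  (hns : ∀ q ≤ q1, ∀ f', SS.HS f' → Fx k s f' → ¬ Feq f f' q)

/-- Common support for copies. -/
theorem exists_common (hf : SS.HS f) (g : ℕ → Gam) : ∃ (k' : ℕ) (s' : Set Om), s'.Countable ∧
    ∀ i, Fx k' s' (ax (g i) f) := by
  obtain ⟨k', s', hs', h1⟩ := sym_iff.1 hf.sym
  refine ⟨k', ⋃ i, (g i).1 '' lev k' s', Set.countable_iUnion fun i =>
    (lev_countable hs').image _, fun i => ?_⟩
  exact (h1.ax (g i)).mono le_rfl fun x hx => Set.mem_iUnion.2 ⟨i, hx.2⟩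

include hs hsk hX fX hD fD hf hgd hm hns in
/-- A sequence of points that is dense in itself. -/
theorem exists_self : ∃ r ≤ q1, ∃ S : ℕ → PName Cnd, (∃ k' s', s'.Countable ∧
    ∀ i, Fx k' s' (S i)) ∧ (∀ i, SS.HS (S i) ∧ Fmem (S i) X r) ∧
    ∀ i k0, ∃ j, (∀ r' ≤ r, ¬ Feq (S i) (S j) r') ∧ Nr D (S i) (S j) k0 r := by
  obtain ⟨r, hr, g, h0, h1, h2⟩ := exists_seq (α := ULift.{1} Gam)
    (P := fun g q => g.down ∈ Hk k s ∧ q ≤ ap g.down.1 q1)
    (Q := fun n g a r => (∀ r' ≤ r, ¬ Feq (ax (g (Nat.unpair n).1).down f) (ax a.down f) r') ∧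
      Nr D (ax (g (Nat.unpair n).1).down f) (ax a.down f) (Nat.unpair n).2 r)
    (a0 := ⟨1⟩) (q0 := q1) ⟨one_mem _, (ap_one q1).ge⟩ (by
      intro n g q hq hP
      obtain ⟨h1, h2⟩ := hP (Nat.unpair n).1 (Nat.unpair_left_le n)
      set u := (g (Nat.unpair n).1).down with hu
      obtain ⟨r, hr, v, hv, h3, h4, h5⟩ := near_copy hs hsk hX fX hD fD hf hgd hm hns
        (Nat.unpair n).2 (le_ap_iff.1 h2)
      refine ⟨ap u.1 r, ?_, ⟨u * v⟩, ⟨mul_mem h1 hv, ?_⟩, ?_, ?_⟩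
      · have h6 := ap_mono (σ := u.1) hr
        rwa [ap_ap_inv] at h6
      · exact ap_mono h3
      · intro r' hr' he
        have h6 : Feq (ax u⁻¹ (ax u f)) (ax u⁻¹ (ax (u * v) f)) (ap u⁻¹.1 r') := feq_ax.2 he
        rw [← ax_mul, ← ax_mul, inv_mul_cancel, ax_one, inv_mul_cancel_left] at h6
        refine h4 _ ?_ h6
        have h7 := ap_mono (σ := u.1⁻¹) hr'
        rwa [ap_inv_ap] at h7
      · have h6 := nr_ax fD h1 h5
        rwa [← ax_mul] at h6)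
    (fun a q r h hr => ⟨h.1, hr.trans h.2⟩)
    (fun n g a q r h hr => ⟨fun r' hr' => h.1 r' (hr'.trans hr), h.2.mono hr⟩)
    (fun n g g' a q h hQ => by
      rw [← h _ (Nat.unpair_left_le n)]
      exact hQ)
  refine ⟨r, hr, fun i => ax (g i).down f, exists_common hf _, fun i => ⟨hs_ax hf _, ?_⟩,
    fun i k0 => ⟨Nat.pair i k0 + 1, ?_⟩⟩
  · have h4 : Fmem (ax (g i).down f) (ax (g i).down X) (ap (g i).down.1 q1) := fmem_ax.2 hm
    exact (fmem_congr (Feq.refl _ _) (fX.feq (h1 i).1 _) h4).mono (h1 i).2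
  · have h4 := h2 (Nat.pair i k0)
    rw [Nat.unpair_pair] at h4
    exact h4

include hs hsk hX fX hf hm hns in
/-- A sequence of distinct elements. -/
theorem exists_dist : ∃ r ≤ q1, ∃ S : ℕ → PName Cnd, (∃ k' s', s'.Countable ∧
    ∀ i, Fx k' s' (S i)) ∧ (∀ i, SS.HS (S i) ∧ Fmem (S i) X r) ∧
    ∀ i j, i < j → ∀ r' ≤ r, ¬ Feq (S i) (S j) r' := by
  obtain ⟨r, hr, g, h0, h1, h2⟩ := exists_seq (α := ULift.{1} Gam)
    (P := fun g q => g.down ∈ Hk k s ∧ q ≤ ap g.down.1 q1)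
    (Q := fun n g a r => ∀ i ≤ n, ∀ r' ≤ r, ¬ Feq (ax (g i).down f) (ax a.down f) r')
    (a0 := ⟨1⟩) (q0 := q1) ⟨one_mem _, (ap_one q1).ge⟩ (by
      intro n g q hq hP
      obtain ⟨r, hr, v, hv, h3, h4⟩ := far_copy hs hsk hX fX hf hm hns hq (N := n + 1)
        (fun i => ax (g i).down f)
      exact ⟨r, hr, ⟨v⟩, ⟨hv, h3⟩, fun i hi => h4 i (by omega)⟩)
    (fun a q r h hr => ⟨h.1, hr.trans h.2⟩)
    (fun n g a q r h hr i hi r' hr' => h i hi r' (hr'.trans hr))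
    (fun n g g' a q h hQ i hi => by
      rw [← h _ hi]
      exact hQ i hi)
  refine ⟨r, hr, fun i => ax (g i).down f, exists_common hf _, fun i => ⟨hs_ax hf _, ?_⟩,
    fun i j hij => ?_⟩
  · have h4 : Fmem (ax (g i).down f) (ax (g i).down X) (ap (g i).down.1 q1) := fmem_ax.2 hm
    exact (fmem_congr (Feq.refl _ _) (fX.feq (h1 i).1 _) h4).mono (h1 i).2
  · obtain ⟨j, rfl⟩ : ∃ j', j = j' + 1 := ⟨j - 1, by omega⟩
    exact h2 j i (by omega)

end near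

/-! ### The case that all the points have a small support -/

section all

variable {k : ℕ} {s : Set Om} {X D : PName Cnd} (hX : SS.HS X) (hD : SS.HS D) {p : Cnd}
  (hgd : SS.Frc ud_gd ![X, D] p)
  (hall : ∀ q ≤ p, ∀ f, SS.HS f → Fmem f X q → ∃ q' ≤ q, ∃ f', SS.HS f' ∧ Fx k s f' ∧
    Feq f f' q')

include hX hD hgd hall in
/-- A finite net. -/
theorem exists_net (k0 : ℕ) {q : Cnd} (hq : q ≤ p) : ∃ r ≤ q, ∃ (y : ℕ → PName Cnd) (n : ℕ),
    (∀ i < n, SS.HS (y i) ∧ Fx k s (y i) ∧ Fmem (y i) X r) ∧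
    ∀ r' ≤ r, ∀ x, SS.HS x → Fmem x X r' → ∃ r'' ≤ r', ∃ i < n, Nr D (y i) x k0 r'' := by
  classical
  obtain ⟨N, q2, hq2, hN⟩ := frc_bd hX hD (hgd.mono hq) k0
  by_contra hc
  have key : ∀ n : ℕ, ∃ r ≤ q2, ∃ y : ℕ → PName Cnd,
      (∀ i < n, SS.HS (y i) ∧ Fx k s (y i) ∧ Fmem (y i) X r) ∧
      ∀ i < n, ∀ j < i, ∀ r' ≤ r, ¬ Nr D (y j) (y i) k0 r' := by
    intro n
    induction n with
    | zero => exact ⟨q2, le_rfl, fun _ => emp, fun i hi => absurd hi (Nat.not_lt_zero i),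
        fun i hi => absurd hi (Nat.not_lt_zero i)⟩
    | succ n ih =>
      obtain ⟨r, hr, y, h1, h2⟩ := ih
      have h3 : ∃ r' ≤ r, ∃ x, SS.HS x ∧ Fmem x X r' ∧ ∀ r'' ≤ r', ∀ i < n,
          ¬ Nr D (y i) x k0 r'' := by
        by_contra h3
        push Not at h3
        exact hc ⟨r, hr.trans hq2, y, n, h1, h3⟩
      obtain ⟨r', hr', x, hx, h4, h5⟩ := h3
      obtain ⟨r2, hr2, x', hx', h6, h7⟩ := hall r' (hr'.trans (hr.trans (hq2.trans hq))) x hx h4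
      have e1 : ∀ i < n, Function.update y n x' i = y i := fun i hi =>
        Function.update_of_ne (by omega) _ _
      have e2 : Function.update y n x' n = x' := Function.update_self _ _ _
      refine ⟨r2, hr2.trans (hr'.trans hr), Function.update y n x', ?_, ?_⟩
      · intro i hi
        rcases Nat.lt_or_ge i n with h8 | h8
        · rw [e1 i h8]
          exact ⟨(h1 i h8).1, (h1 i h8).2.1, (h1 i h8).2.2.mono (hr2.trans hr')⟩
        · rw [show i = n by omega, e2]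
          exact ⟨hx', h6, fmem_congr h7 (Feq.refl _ _) (h4.mono hr2)⟩
      · intro i hi j hj r3 hr3
        rcases Nat.lt_or_ge i n with h8 | h8
        · rw [e1 i h8, e1 j (hj.trans h8)]
          exact h2 i h8 j hj r3 (hr3.trans (hr2.trans hr'))
        · rw [show i = n by omega, e2, e1 j (by omega)]
          intro h9
          refine h5 r3 (hr3.trans hr2) j (by omega) ?_
          exact fmem_congr (feq_opN (feq_opN (Feq.refl _ _) (h7.symm.mono hr3)) (Feq.refl _ _))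
            (Feq.refl _ _) h9
  obtain ⟨r, hr, y, h1, h2⟩ := key N
  obtain ⟨π, hA, h3, hcl, -⟩ := Sys.exists_cld SS ({X, D} ∪ Set.range y)
    ((Set.toFinite _).countable.union (Set.countable_range _)) ∅ Set.countable_empty r
  have hXN : X ∈ π.N := hA (by simp)
  have hDN : D ∈ π.N := hA (by simp)
  have hyN : ∀ i, y i ∈ π.N := fun i => hA (Or.inr ⟨i, rfl⟩)
  have hM := T_ZF.isZF hcl
  have h4 := (Sys.frc_sem (x := ![X, D, check (nat k0), check (nat N)])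
    (all4 (p := SS.HS) hX hD (SS.hs_check _) (SS.hs_check _))).1 hN π hcl
    (all4 (p := fun y => y ∈ π.N) hXN hDN (π.nat_Z k0) (π.nat_Z N)) ⟨0, h3.le.trans hr⟩
  change tb (SS.Ms π) (π.val X) (π.val D) (π.val (check (nat k0))) (π.val (check (nat N))) at h4
  rw [show π.val (check (nat k0)) = nat k0 from π.hat_nat k0,
    show π.val (check (nat N)) = nat N from π.hat_nat N] at h4
  obtain ⟨i', hi', j', hj', x, hx, z, hz, h5, h6, h7⟩ := h4
    (fseq (fun i => π.val (y i)) N)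
    (fseq_mem hM fun i hi => Sys.mem_Ms (hyN i) (h1 i hi).1)
    (isFunc_fseq fun i hi => (π.val_mem_iff (hyN i) hXN).2 ⟨0, (h1 i hi).2.2.mono h3.le⟩)
  obtain ⟨i, hi, rfl⟩ := mem_nat_iff.1 hi'
  obtain ⟨j, hj, rfl⟩ := mem_nat_iff.1 hj'
  obtain ⟨-, rfl⟩ := pair_mem_fseq.1 h5
  obtain ⟨-, rfl⟩ := pair_mem_fseq.1 h6
  obtain ⟨m, hm⟩ := (nr_val hDN (hyN j) (hyN i)).1 h7
  exact h2 i hi j hj _ ((π.g_anti (Nat.zero_le m)).trans h3.le) hm

include hX hD hgd hall in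
/-- A dense sequence. -/
theorem exists_dense {q : Cnd} (hq : q ≤ p) {f : PName Cnd} (hf : SS.HS f) (hm : Fmem f X q) :
    ∃ r ≤ q, ∃ S : ℕ → PName Cnd, (∀ i, SS.HS (S i) ∧ Fx k s (S i) ∧ Fmem (S i) X r) ∧
      ∀ k0, ∀ r' ≤ r, ∀ x, SS.HS x → Fmem x X r' → ∃ r'' ≤ r', ∃ i, Nr D (S i) x k0 r'' := by
  classical
  obtain ⟨q0, hq0, f0, h1, h2, h3⟩ := hall q hq f hf hm
  obtain ⟨r, hr, h4⟩ := exists_meet (fun k0 r => ∃ (y : ℕ → PName Cnd) (n : ℕ),
    (∀ i < n, SS.HS (y i) ∧ Fx k s (y i) ∧ Fmem (y i) X r) ∧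
    ∀ r' ≤ r, ∀ x, SS.HS x → Fmem x X r' → ∃ r'' ≤ r', ∃ i < n, Nr D (y i) x k0 r'') q0
    (fun k0 q' hq' => exists_net hX hD hgd hall k0 (hq'.trans (hq0.trans hq)))
    (fun k0 q' r hy hr => by
      obtain ⟨y, n, h5, h6⟩ := hy
      exact ⟨y, n, fun i hi => ⟨(h5 i hi).1, (h5 i hi).2.1, (h5 i hi).2.2.mono hr⟩,
        fun r' hr' => h6 r' (hr'.trans hr)⟩)
  choose y n h5 h6 using h4
  let S : ℕ → PName Cnd := fun m =>
    if (Nat.unpair m).2 < n (Nat.unpair m).1 then y (Nat.unpair m).1 (Nat.unpair m).2 else f0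
  refine ⟨r, hr.trans hq0, S, fun m => ?_, fun k0 r' hr' x hx hxm => ?_⟩
  · by_cases h7 : (Nat.unpair m).2 < n (Nat.unpair m).1
    · change SS.HS (if _ then _ else _) ∧ Fx k s (if _ then _ else _) ∧
        Fmem (if _ then _ else _) X r
      simp only [h7, if_true]
      exact h5 _ _ h7
    · change SS.HS (if _ then _ else _) ∧ Fx k s (if _ then _ else _) ∧
        Fmem (if _ then _ else _) X r
      simp only [h7, if_false]
      exact ⟨h1, h2, (fmem_congr h3 (Feq.refl _ _) (hm.mono hq0)).mono hr⟩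
  · obtain ⟨r'', hr'', i, hi, h7⟩ := h6 k0 r' hr' x hx hxm
    refine ⟨r'', hr'', Nat.pair k0 i, ?_⟩
    have h8 : S (Nat.pair k0 i) = y k0 i := by
      change (if (Nat.unpair (Nat.pair k0 i)).2 < n (Nat.unpair (Nat.pair k0 i)).1 then
        y (Nat.unpair (Nat.pair k0 i)).1 (Nat.unpair (Nat.pair k0 i)).2 else f0) = _
      rw [Nat.unpair_pair]
      exact if_pos hi
    rw [h8]
    exact h7

end all

/-- We can decide which elements of a sequence are close. -/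
theorem exists_decided (D : PName Cnd) (S : ℕ → PName Cnd) (q : Cnd) : ∃ r ≤ q,
    ∀ k0 i j, Nr D (S i) (S j) k0 r ∨ ∀ r' ≤ r, ¬ Nr D (S i) (S j) k0 r' := by
  obtain ⟨r, hr, h1⟩ := exists_meet (fun n r =>
    Nr D (S (Nat.unpair (Nat.unpair n).2).1) (S (Nat.unpair (Nat.unpair n).2).2)
      (Nat.unpair n).1 r ∨ ∀ r' ≤ r, ¬ Nr D (S (Nat.unpair (Nat.unpair n).2).1)
      (S (Nat.unpair (Nat.unpair n).2).2) (Nat.unpair n).1 r') q
    (fun n q' _ => by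
      by_cases h : ∃ r ≤ q', Nr D (S (Nat.unpair (Nat.unpair n).2).1)
        (S (Nat.unpair (Nat.unpair n).2).2) (Nat.unpair n).1 r
      · obtain ⟨r, hr, h⟩ := h
        exact ⟨r, hr, Or.inl h⟩
      · push Not at h
        exact ⟨q', le_rfl, Or.inr h⟩)
    (fun n q' r h hr => by
      rcases h with h | h
      · exact Or.inl (h.mono hr)
      · exact Or.inr fun r' hr' => h r' (hr'.trans hr))
  refine ⟨r, hr, fun k0 i j => ?_⟩
  have h2 := h1 (Nat.pair k0 (Nat.pair i j))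
  simpa only [Nat.unpair_pair] using h2

end Pool.Agent.Q207.CT
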