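import Pool.Agent.Q207.CT.Cnd
import Pool.Agent.Q211.SY.Cnt
import Pool.Agent.Q211.SY.Fin

/-!
# The symmetric system
-/

set_option autoImplicit false
set_option linter.unusedSectionVars false

namespace Pool.Agent.Q207.CT

open Pool.Agent.W868 Pool.Agent.W868.PName Pool.Agent.Q211.SY
open ZFSet (pair)
open Cnd

/-! ### Tuples -/

section vec

variable {α : Type*} {p : α → Prop}

theorem all1 {a : α} (ha : p a) : ∀ i, p ((![a] : Fin 1 → α) i) := by
  intro i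
  fin_cases i
  exact ha

theorem all2 {a b : α} (ha : p a) (hb : p b) : ∀ i, p ((![a, b] : Fin 2 → α) i) := by
  intro i
  fin_cases i
  exacts [ha, hb]

theorem all3 {a b c : α} (ha : p a) (hb : p b) (hc : p c) :
    ∀ i, p ((![a, b, c] : Fin 3 → α) i) := by
  intro i
  fin_cases i
  exacts [ha, hb, hc]

theorem all4 {a b c d : α} (ha : p a) (hb : p b) (hc : p c) (hd : p d) :
    ∀ i, p ((![a, b, c, d] : Fin 4 → α) i) := by
  intro i
  fin_cases i
  exacts [ha, hb, hc, hd]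

theorem all5 {a b c d e : α} (ha : p a) (hb : p b) (hc : p c) (hd : p d) (he : p e) :
    ∀ i, p ((![a, b, c, d, e] : Fin 5 → α) i) := by
  intro i
  fin_cases i
  exacts [ha, hb, hc, hd, he]

end vec

/-! ### The group -/

/-- The point of the circle given by a rational number. -/
noncomputable def rt (v : ℚ) : T := ((v : ℝ) : T)

theorem rt_zero : rt 0 = 0 := by simp [rt]

theorem rt_add (v w : ℚ) : rt (v + w) = rt v + rt w := by simp [rt]

theorem rt_neg (v : ℚ) : rt (-v) = - rt v := by simp [rt]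

/-- The group: the permutations that rotate all the levels by rational numbers. -/
def Gam : Subgroup (Equiv.Perm Om) where
  carrier := {σ | ∀ n, ∃ v : ℚ, ∀ t j, (σ (n, t, j)).1 = n ∧ (σ (n, t, j)).2.1 = t + rt v}
  mul_mem' := by
    intro σ τ hσ hτ n
    obtain ⟨v, hv⟩ := hσ n
    obtain ⟨w, hw⟩ := hτ n
    refine ⟨w + v, fun t j => ?_⟩
    obtain ⟨h1, h2⟩ := hw t j
    have h3 : τ (n, t, j) = (n, t + rt w, (τ (n, t, j)).2.2) := Prod.ext h1 (Prod.ext h2 rfl)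
    rw [Equiv.Perm.mul_apply, h3]
    obtain ⟨h4, h5⟩ := hv (t + rt w) (τ (n, t, j)).2.2
    exact ⟨h4, by rw [h5, rt_add, add_assoc]⟩
  one_mem' := fun n => ⟨0, fun t j => ⟨rfl, by rw [rt_zero, add_zero]; rfl⟩⟩
  inv_mem' := by
    intro σ hσ n
    obtain ⟨v, hv⟩ := hσ n
    refine ⟨-v, fun t j => ?_⟩
    set y := σ⁻¹ (n, t, j) with hy
    have h1 : σ y = (n, t, j) := by rw [hy]; exact σ.apply_symm_apply _
    obtain ⟨w, hw⟩ := hσ y.1
    have h2 := hw y.2.1 y.2.2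
    have h3 : σ (y.1, y.2.1, y.2.2) = (n, t, j) := h1
    rw [h3] at h2
    have h4 : y.1 = n := h2.1.symm
    have h5 := hv y.2.1 y.2.2
    rw [← h4, h3] at h5
    refine ⟨h4, ?_⟩
    have h6 : t = y.2.1 + rt v := h5.2
    rw [rt_neg, h6]
    abel

theorem lvl (g : Gam) (x : Om) : (g.1 x).1 = x.1 := by
  obtain ⟨v, hv⟩ := g.2 x.1
  exact (hv x.2.1 x.2.2).1

theorem rotat (g : Gam) (n : ℕ) : ∃ v : ℚ, ∀ x : Om, x.1 = n → (g.1 x).2.1 = x.2.1 + rt v := by
  obtain ⟨v, hv⟩ := g.2 n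
  refine ⟨v, ?_⟩
  rintro ⟨m, t, j⟩ h
  have h' : m = n := h
  subst h'
  exact (hv t j).2

theorem pure_mem {σ : Equiv.Perm Om} (h : Pure σ) : σ ∈ Gam := fun n =>
  ⟨0, fun t j => ⟨(h _).1, by rw [rt_zero, add_zero]; exact (h _).2⟩⟩

/-- The coordinates in `s` of the levels below `k`. -/
def lev (k : ℕ) (s : Set Om) : Set Om := {x | x.1 < k ∧ x ∈ s}

theorem lev_countable {k : ℕ} {s : Set Om} (hs : s.Countable) : (lev k s).Countable :=
  hs.mono fun _ h => h.2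

/-- The subgroup of the elements that do not rotate the levels below `k`, and fix the elements of
`s` in these levels. -/
def Hk (k : ℕ) (s : Set Om) : Subgroup Gam where
  carrier := {g | ∀ x : Om, x.1 < k → (g.1 x).2.1 = x.2.1 ∧ (x ∈ s → g.1 x = x)}
  mul_mem' := by
    intro a b ha hb x hx
    have h1 := hb x hx
    have h2 := ha (b.1 x) (by rw [lvl]; exact hx)
    refine ⟨?_, fun hs => ?_⟩
    · change (a.1 (b.1 x)).2.1 = _
      rw [h2.1, h1.1]
    · change a.1 (b.1 x) = x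
      rw [h1.2 hs, (ha x hx).2 hs]
  one_mem' := fun x _ => ⟨rfl, fun _ => rfl⟩
  inv_mem' := by
    intro a ha x hx
    set y := a.1⁻¹ x with hy
    have h1 : a.1 y = x := by rw [hy]; exact a.1.apply_symm_apply _
    have h2 : y.1 = x.1 := by rw [← h1, lvl]
    have h3 := ha y (by rw [h2]; exact hx)
    refine ⟨?_, fun hs => ?_⟩
    · change y.2.1 = x.2.1
      rw [← h3.1, h1]
    · change y = x
      have h4 := (ha x hx).2 hs
      exact a.1.injective (h1.trans h4.symm)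

theorem mem_Hk {k : ℕ} {s : Set Om} {g : Gam} :
    g ∈ Hk k s ↔ ∀ x : Om, x.1 < k → (g.1 x).2.1 = x.2.1 ∧ (x ∈ s → g.1 x = x) := Iff.rfl

theorem Hk_anti {k l : ℕ} {s t : Set Om} (hk : k ≤ l) (hs : lev k s ⊆ t) : Hk l t ≤ Hk k s := by
  intro g hg x hx
  have h1 := hg x (hx.trans_le hk)
  exact ⟨h1.1, fun h => h1.2 (hs ⟨hx, h⟩)⟩

theorem pure_Hk {σ : Equiv.Perm Om} (h : Pure σ) {k : ℕ} {s : Set Om}
    (hs : ∀ x ∈ lev k s, σ x = x) : (⟨σ, pure_mem h⟩ : Gam) ∈ Hk k s := fun x hx =>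
  ⟨(h x).2, fun h1 => hs x ⟨hx, h1⟩⟩

/-- The action on the conditions. -/
def acG : Gam →* (Cnd ≃o Cnd) where
  toFun g :=
    { toFun := ap g.1
      invFun := ap g.1⁻¹
      left_inv := ap_inv_ap g.1
      right_inv := ap_ap_inv g.1
      map_rel_iff' := by
        intro p q
        constructor
        · intro h
          have h1 := ap_mono (σ := g.1⁻¹) h
          change ap g.1⁻¹ (ap g.1 p) ≤ ap g.1⁻¹ (ap g.1 q) at h1
          rwa [ap_inv_ap, ap_inv_ap] at h1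
        · exact ap_mono }
  map_one' := RelIso.ext fun _ => rfl
  map_mul' _ _ := RelIso.ext fun _ => rfl

/-- The symmetric system. -/
def SS : Sys Cnd where
  G := Gam
  grp := inferInstance
  ac := acG
  top g := ext' fun _ _ => rfl
  F := {K | ∃ (k : ℕ) (s : Set Om), s.Countable ∧ K = Hk k s}
  ne := ⟨_, 0, ∅, Set.countable_empty, rfl⟩
  conj := by
    rintro _ ⟨k, s, hs, rfl⟩ g
    refine ⟨Hk k (g.1 '' s), ⟨k, _, hs.image _, rfl⟩, fun h hh x hx => ?_⟩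
    obtain ⟨v, hv⟩ := rotat g x.1
    set y := (g⁻¹ * h * g).1 x with hy
    have h1 : g.1 y = h.1 (g.1 x) := by
      rw [hy]
      change g.1 (g.1.symm (h.1 (g.1 x))) = _
      rw [Equiv.apply_symm_apply]
    have h2 := hh (g.1 x) (by rw [lvl]; exact hx)
    have h3 : y.1 = x.1 := by rw [← lvl g y, h1, lvl, lvl]
    refine ⟨?_, fun hs => ?_⟩
    · have h4 := hv y h3
      rw [h1, h2.1, hv x rfl] at h4
      exact (add_right_cancel h4).symm
    · rw [h2.2 ⟨x, hs, rfl⟩] at h1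
      exact g.1.injective h1
  dir := by
    rintro _ ⟨k, s, hs, rfl⟩ _ ⟨l, t, ht, rfl⟩
    exact ⟨Hk (max k l) (s ∪ t), ⟨_, _, hs.union ht, rfl⟩,
      Hk_anti (le_max_left _ _) (fun x h => Or.inl h.2),
      Hk_anti (le_max_right _ _) (fun x h => Or.inr h.2)⟩

/-- The action on the names. -/
def ax (g : Gam) (x : PName Cnd) : PName Cnd := act (acG g) x

/-- The support of `x` is given by `k` and `s`. -/
def Fx (k : ℕ) (s : Set Om) (x : PName Cnd) : Prop := SS.Fix (Hk k s) x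

theorem fx_iff {k : ℕ} {s : Set Om} {x : PName Cnd} :
    Fx k s x ↔ ∀ g ∈ Hk k s, ∀ p, Feq (ax g x) x p := Iff.rfl

theorem sym_iff {x : PName Cnd} : SS.Sym x ↔ ∃ k s, s.Countable ∧ Fx k s x := by
  constructor
  · rintro ⟨_, ⟨k, s, hs, rfl⟩, h⟩
    exact ⟨k, s, hs, h⟩
  · rintro ⟨k, s, hs, h⟩
    exact ⟨_, ⟨k, s, hs, rfl⟩, h⟩

theorem Fx.mono {k l : ℕ} {s t : Set Om} {x : PName Cnd} (h : Fx k s x) (hk : k ≤ l)
    (hs : lev k s ⊆ t) : Fx l t x := fun g hg => h g (Hk_anti hk hs hg)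

theorem fx_lev {k : ℕ} {s : Set Om} {x : PName Cnd} (h : Fx k s x) : Fx k (lev k s) x :=
  h.mono le_rfl subset_rfl

/-- All the names have a common support. -/
theorem exists_fx {x : PName Cnd} (h : SS.HS x) (k : ℕ) {s : Set Om} (hs : s.Countable) :
    ∃ l t, k ≤ l ∧ s ⊆ t ∧ t.Countable ∧ Fx l t x := by
  obtain ⟨l, t, ht, hf⟩ := sym_iff.1 h.sym
  exact ⟨max k l, s ∪ t, le_max_left _ _, Set.subset_union_left, hs.union ht,
    hf.mono (le_max_right _ _) fun x hx => Or.inr hx.2⟩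

theorem ax_one (x : PName Cnd) : ax 1 x = x := by
  change act (acG 1) x = x
  rw [map_one]
  exact act_one x

theorem ax_mul (g h : Gam) (x : PName Cnd) : ax (g * h) x = ax g (ax h x) := by
  change act (acG (g * h)) x = _
  rw [map_mul]
  exact act_mul _ _ _

theorem ax_check (g : Gam) (z : ZFSet.{0}) : ax g (check z) = check z := act_check (SS.top g) z

theorem ax_opN (g : Gam) (x y : PName Cnd) : ax g (opN x y) = opN (ax g x) (ax g y) :=
  act_opN (SS.top g) x y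

theorem hs_ax {x : PName Cnd} (h : SS.HS x) (g : Gam) : SS.HS (ax g x) := SS.hs_act h g

theorem el_ax {g : Gam} {x z : PName Cnd} {c : Cnd} :
    El (ax g x) z c ↔ ∃ z' c', El x z' c' ∧ z = ax g z' ∧ c = ap g.1 c' := el_act

theorem feq_ax {g : Gam} {x y : PName Cnd} {p : Cnd} :
    Feq (ax g x) (ax g y) (ap g.1 p) ↔ Feq x y p := feq_act (e := SS.ac g)

theorem fmem_ax {g : Gam} {x y : PName Cnd} {p : Cnd} :
    Fmem (ax g x) (ax g y) (ap g.1 p) ↔ Fmem x y p := fmem_act (e := SS.ac g)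

theorem feq_ax' {g : Gam} {x y : PName Cnd} {p : Cnd} :
    Feq (ax g x) (ax g y) p ↔ Feq x y (ap g.1⁻¹ p) := by
  have h := feq_ax (g := g) (x := x) (y := y) (p := ap g.1⁻¹ p)
  rw [ap_ap_inv] at h
  exact h

theorem fx_check (k : ℕ) (s : Set Om) (a : ZFSet.{0}) : Fx k s (check a) := by
  intro g _ p
  rw [act_check (SS.top g)]
  exact Feq.refl _ _

theorem Fx.feq {k : ℕ} {s : Set Om} {x : PName Cnd} (h : Fx k s x) {g : Gam} (hg : g ∈ Hk k s)
    (p : Cnd) : Feq (ax g x) x p := h g hg p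

/-- The support of a moved name. -/
theorem Fx.ax {k : ℕ} {s : Set Om} {x : PName Cnd} (h : Fx k s x) (g : Gam) :
    Fx k (g.1 '' lev k s) (ax g x) := by
  intro (u : Gam) hu p
  have h1 : g⁻¹ * u * g ∈ Hk k s := by
    intro y hy
    obtain ⟨v, hv⟩ := rotat g y.1
    set w := (g⁻¹ * u * g).1 y with hw
    have h1 : g.1 w = u.1 (g.1 y) := by
      rw [hw]
      change g.1 (g.1.symm (u.1 (g.1 y))) = _
      rw [Equiv.apply_symm_apply]
    have h2 := hu (g.1 y) (by rw [lvl]; exact hy)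
    have h3 : w.1 = y.1 := by rw [← lvl g w, h1, lvl, lvl]
    refine ⟨?_, fun hs => ?_⟩
    · have h4 := hv w h3
      rw [h1, h2.1, hv y rfl] at h4
      exact (add_right_cancel h4).symm
    · rw [h2.2 ⟨y, ⟨hy, hs⟩, rfl⟩] at h1
      exact g.1.injective h1
  have h2 := h.feq h1 (ap g.1⁻¹ p)
  rw [← feq_ax', ← ax_mul] at h2
  have h3 : g * (g⁻¹ * u * g) = u * g := by group
  rw [h3, ax_mul] at h2
  exact h2

/-- Elements that agree on the support move the name in the same way. -/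
theorem feq_of_agree {k : ℕ} {s : Set Om} {x : PName Cnd} (h : Fx k s x) {g u : Gam}
    (hu : g⁻¹ * u ∈ Hk k s) (p : Cnd) : Feq (ax u x) (ax g x) p := by
  have h1 := h.feq hu (ap g.1⁻¹ p)
  rw [← feq_ax', ← ax_mul, mul_inv_cancel_left] at h1
  exact h1

/-! ### Restrictions -/

theorem hom {k : ℕ} {s : Set Om} (hs : s.Countable) {p q : Cnd} (h : q ≤ res (lev k s) p) :
    ∃ g : Gam, g ∈ Hk k s ∧ Pure g.1 ∧ ∃ r, r ≤ ap g.1 q ∧ r ≤ p := by
  obtain ⟨α, h1, h2, h3, -⟩ := exists_copies p.sp_countable q.sp_countable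
    (lev_countable (k := k) hs)
  refine ⟨⟨α 0, pure_mem (h1 0)⟩, pure_Hk (h1 0) (h2 0), h1 0, ?_⟩
  have hc : Cmp (ap (α 0) q) p := by
    intro x κ b b' hb hb'
    rw [ap_f] at hb
    set y := (α 0).symm x with hy
    have hx : α 0 y = x := by rw [hy, Equiv.apply_symm_apply]
    by_cases h4 : y ∈ lev k s
    · have h5 : y = x := by rw [← hx, h2 0 y h4]
      have h6 : (res (lev k s) p).f y κ = some b' := by
        rw [res_pos h4, h5]
        exact hb'
      have h7 := h _ _ _ h6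
      rw [hb] at h7
      exact Option.some_injective _ h7
    · exact absurd (of_sp hb') (hx ▸ (h3 0 y (of_sp hb) h4).1)
  obtain ⟨r, h4, h5, -⟩ := exists_join hc
  exact ⟨r, h4, h5⟩

section res

variable {k : ℕ} {s : Set Om} (hs : s.Countable)

include hs

theorem feq_res {x y : PName Cnd} (hx : Fx k s x) (hy : Fx k s y) {p : Cnd} (h : Feq x y p) :
    Feq x y (res (lev k s) p) := by
  refine feq_dense fun q hq => ?_
  obtain ⟨g, hg, -, r, h1, h2⟩ := hom hs hq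
  refine ⟨ap g.1⁻¹ r, le_ap_iff.1 h1, ?_⟩
  have h3 : Feq (ax g x) (ax g y) r :=
    feq_trans (hx.feq hg r) (feq_trans (h.mono h2) (hy.feq hg r).symm)
  exact feq_ax'.1 h3

theorem fmem_res {x y : PName Cnd} (hx : Fx k s x) (hy : Fx k s y) {p : Cnd} (h : Fmem x y p) :
    Fmem x y (res (lev k s) p) := by
  refine fmem_dense fun q hq => ?_
  obtain ⟨g, hg, -, r, h1, h2⟩ := hom hs hq
  refine ⟨ap g.1⁻¹ r, le_ap_iff.1 h1, ?_⟩
  have h3 : Fmem (ax g x) (ax g y) r :=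
    fmem_congr (hx.feq hg r).symm (hy.feq hg r).symm (h.mono h2)
  rw [← fmem_ax (g := g), ap_ap_inv]
  exact h3

theorem frc_res {n : ℕ} {R : Set ZFSet.{0} → (Fin n → ZFSet.{0}) → Prop} {h : UD R}
    {x : Fin n → PName Cnd} (hx : ∀ i, SS.HS (x i)) (hf : ∀ i, Fx k s (x i)) {p : Cnd}
    (hp : SS.Frc h x p) : SS.Frc h x (res (lev k s) p) := by
  refine Sys.frc_dense fun q hq => ?_
  obtain ⟨q', hq', h1 | h1⟩ := Sys.frc_dec (h := h) hx q
  · exact ⟨q', hq', h1⟩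
  · exfalso
    obtain ⟨g, hg, -, r, h2, h3⟩ := hom hs (hq'.trans hq)
    have h4 : SS.Frc h.not x (ap g.1 q') := Sys.frc_fix (S := SS) (H := Hk k s) hf hg h1
    exact (Sys.frc_not hx).1 h4 r h2 (hp.mono h3)

end res

/-! ### Averages -/

/-- The average of a name. -/
def avg (H : Subgroup Gam) (v : Cnd) (f : PName Cnd) : PName Cnd :=
  PName.mk {t : H × f.idx × Cnd // t.2.2 ≤ ap t.1.1.1 (f.cnd t.2.1) ∧ t.2.2 ≤ ap t.1.1.1 v}
    (fun t => ax t.1.1.1 (f.chd t.1.2.1)) (fun t => t.1.2.2)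

theorem el_avg {H : Subgroup Gam} {v : Cnd} {f z : PName Cnd} {c : Cnd} :
    El (avg H v f) z c ↔ ∃ g ∈ H, ∃ z' c', El f z' c' ∧ z = ax g z' ∧ c ≤ ap g.1 c' ∧
      c ≤ ap g.1 v := by
  constructor
  · rintro ⟨⟨⟨g, i, c'⟩, h1, h2⟩, rfl, rfl⟩
    exact ⟨g.1, g.2, _, _, ⟨i, rfl, rfl⟩, rfl, h1, h2⟩
  · rintro ⟨g, hg, _, _, ⟨i, rfl, rfl⟩, rfl, h1, h2⟩
    exact ⟨⟨⟨⟨g, hg⟩, i, c⟩, h1, h2⟩, rfl, rfl⟩

theorem fx_avg (k : ℕ) (s : Set Om) (v : Cnd) (f : PName Cnd) : Fx k s (avg (Hk k s) v f) := by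
  intro (g : Gam) hg p
  refine feq_of_el fun z c => ?_
  change El (ax g _) z c ↔ _
  rw [el_ax]
  constructor
  · rintro ⟨z', c', h1, rfl, rfl⟩
    obtain ⟨u, hu, z, c, h2, rfl, h3, h4⟩ := el_avg.1 h1
    refine el_avg.2 ⟨g * u, mul_mem hg hu, z, c, h2, (ax_mul _ _ _).symm, ?_, ?_⟩
    · exact ap_mono h3
    · exact ap_mono h4
  · intro h1
    obtain ⟨u, hu, z', c', h2, rfl, h3, h4⟩ := el_avg.1 h1
    refine ⟨ax (g⁻¹ * u) z', ap g.1⁻¹ c, el_avg.2 ⟨g⁻¹ * u, mul_mem (inv_mem hg) hu, z', c', h2,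
      rfl, ap_mono h3, ap_mono h4⟩, ?_, ?_⟩
    · rw [← ax_mul, mul_inv_cancel_left]
    · rw [ap_ap_inv]

theorem hs_avg {k : ℕ} {s : Set Om} (hs : s.Countable) (v : Cnd) {f : PName Cnd}
    (hf : SS.HS f) : SS.HS (avg (Hk k s) v f) := by
  rw [Sys.hs_iff]
  refine ⟨sym_iff.2 ⟨k, s, hs, fx_avg k s v f⟩, ?_⟩
  intro z c h
  obtain ⟨g, -, z', c', h1, rfl, -⟩ := el_avg.1 h
  exact hs_ax (hf.el h1) g

theorem feq_avg {H : Subgroup Gam} {v : Cnd} {f : PName Cnd}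
    (h : ∀ g ∈ H, ∀ r ≤ v, r ≤ ap g.1 v → Feq (ax g f) f r) : Feq (avg H v f) f v := by
  rw [feq_iff']
  constructor
  · intro z c hz q hq hqc
    obtain ⟨g, hg, z', c', h1, rfl, h2, h3⟩ := el_avg.1 hz
    have h4 := h g hg q hq (hqc.trans h3)
    exact (feq_iff'.1 h4).1 _ _ (el_ax.2 ⟨z', c', h1, rfl, rfl⟩) q le_rfl (hqc.trans h2)
  · intro w d hw q hq hqd
    refine ⟨q, le_rfl, w, q, el_avg.2 ⟨1, one_mem _, w, d, hw, (ax_one w).symm, hqd, hq⟩, le_rfl,
      Feq.refl _ _⟩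

end Pool.Agent.Q207.CT
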