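import Pool.Agent.Q207.CT.Cnv

/-!
# Complete totally bounded spaces of the model are countable or large
-/

set_option autoImplicit false
set_option linter.unusedSectionVars false
set_option linter.unreachableTactic false
set_option linter.unusedTactic false


namespace Pool.Agent.Q207.CT

open Pool.Agent.W868 Pool.Agent.W868.PName Pool.Agent.Q211.SY
open Pool.Agent.Q211.FS (reg ud_reg tb ud_tb hf)
open Pool.Agent.Q207.UL (frc_all frc_of)
open ZFSet (pair)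
open Cnd

/-- The point is far from the points of the sequence. -/
def Far (X D t x k : ZFSet.{0}) : Prop :=
  ∀ i ∈ ZFSet.omega, ∀ z ∈ X, pair i z ∈ t → pair (pair z x) k ∉ D

theorem ud_far : UD fun _ (v : Fin 5 → ZFSet.{0}) => Far (v 0) (v 1) (v 2) (v 3) (v 4) := by
  unfold Far
  (repeat' first
      | assumption
      | exact UF.proj _
      | exact UF.om
      | exact UF.empty
      | exact UD.prop _
      | exact UF.nat _
      | exact ud_gd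
      | exact ud_cle
      | exact ud_cnt
      | apply UD.isInj | apply UD.isFunc
      | apply UD.not | apply UD.and | apply UD.or | apply UD.imp | apply UD.iff
      | apply UD.bex | apply UD.ball | apply UD.ex | apply UD.all | apply UD.subset
      | apply UD.eq | apply UD.mem | apply UF.pair
      | apply UF.insert)

section

variable {X D : PName Cnd} (hX : SS.HS X) (hD : SS.HS D) {S : ℕ → PName Cnd}
  (hS1 : ∃ k' s', s'.Countable ∧ ∀ i, Fx k' s' (S i)) {r : Cnd}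
  (hS2 : ∀ i, SS.HS (S i) ∧ Fmem (S i) X r) (hgd : SS.Frc ud_gd ![X, D] r)
  (hdec : ∀ k0 i j, Nr D (S i) (S j) k0 r ∨ ∀ r' ≤ r, ¬ Nr D (S i) (S j) k0 r')

include hS1 hS2 in
theorem hs_sq : SS.HS (seqN S) := by
  obtain ⟨k', s', hs', h1⟩ := hS1
  exact hs_seqN hs' h1 fun i => (hS2 i).1

include hX hD hS1 hS2 hgd hdec in
theorem dat_of {π : Pkg Cnd} (hcl : SS.Cld π) (hXN : X ∈ π.N) (hDN : D ∈ π.N)
    (hSN : ∀ i, S i ∈ π.N) (hsN : seqN S ∈ π.N) (hm : ∃ m, π.g m ≤ r) :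
    Dat (SS.Ms π) (π.val X) (π.val D) (fun k i j => Nr D (S i) (S j) k r)
      (fun i => π.val (S i)) (π.val (seqN S)) := by
  obtain ⟨m, hm⟩ := hm
  refine ⟨T_ZF.isZF hcl, Sys.mem_Ms hXN hX, Sys.mem_Ms hDN hD, ?_, fun i =>
    (π.val_mem_iff (hSN i) hXN).2 ⟨m, (hS2 i).2.mono hm⟩, Sys.mem_Ms hsN (hs_sq hS1 hS2),
    fun z => val_seqN hSN, fun k i j => ?_⟩
  · exact (Sys.frc_sem (x := ![X, D]) (all2 (p := SS.HS) hX hD)).1 hgd π hcl
      (all2 (p := fun y => y ∈ π.N) hXN hDN) ⟨m, hm⟩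
  · rw [nr_val hDN (hSN i) (hSN j)]
    constructor
    · rintro ⟨n, hn⟩
      rcases hdec k i j with h1 | h1
      · exact h1
      · exact absurd (hn.mono (π.g_le_right m n)) (h1 _ ((π.g_le_left m n).trans hm))
    · intro h1
      exact ⟨m, h1.mono hm⟩

include hX hD hS1 hS2 hgd hdec in
theorem exists_dat : ∃ π : Pkg Cnd, SS.Cld π ∧ π.g 0 = r ∧ (∀ i, S i ∈ π.N) ∧
    Dat (SS.Ms π) (π.val X) (π.val D) (fun k i j => Nr D (S i) (S j) k r)
      (fun i => π.val (S i)) (π.val (seqN S)) := by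
  obtain ⟨π, h1, h2, hcl, -⟩ := Sys.exists_cld SS ({X, D, seqN S} ∪ Set.range S)
    ((Set.toFinite _).countable.union (Set.countable_range _)) ∅ Set.countable_empty r
  have hSN : ∀ i, S i ∈ π.N := fun i => h1 (Or.inr ⟨i, rfl⟩)
  exact ⟨π, hcl, h2, hSN, dat_of hX hD hS1 hS2 hgd hdec hcl (h1 (by simp)) (h1 (by simp)) hSN
    (h1 (by simp)) ⟨0, h2.le⟩⟩

end

/-- Sets of tuples of natural numbers belong to the models. -/
theorem code2_mem {π : Pkg Cnd} {C : ℕ → ℕ → ℕ} (h : check (code2 C) ∈ π.N) :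
    code2 C ∈ SS.Ms π := by
  have h1 : π.hat (code2 C) ∈ SS.Ms π := Sys.mem_Ms h (SS.hs_check _)
  have h2 : π.hat (code2 C) = code2 C := by
    ext z
    rw [π.mem_hat]
    have h3 : ∀ a b : ℕ, pair (pair (nat a) (nat b)) (nat (C a b)) ∈ π.Z ∧
        π.hat (pair (pair (nat a) (nat b)) (nat (C a b))) =
          pair (pair (nat a) (nat b)) (nat (C a b)) := by
      intro a b
      have h4 := π.pair_mem_Z (π.nat_Z a) (π.nat_Z b)
      refine ⟨π.pair_mem_Z h4 (π.nat_Z _), ?_⟩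
      rw [π.hat_pair h4 (π.nat_Z _), π.hat_pair (π.nat_Z a) (π.nat_Z b), π.hat_nat, π.hat_nat,
        π.hat_nat]
    constructor
    · rintro ⟨y, hy, -, rfl⟩
      obtain ⟨⟨a, b⟩, rfl⟩ := ZFSet.mem_range.1 hy
      rw [(h3 a b).2]
      exact hy
    · intro hz
      obtain ⟨⟨a, b⟩, rfl⟩ := ZFSet.mem_range.1 hz
      exact ⟨_, hz, (h3 a b).1, (h3 a b).2⟩
  rwa [h2] at h1

theorem bitT_mem {π : Pkg Cnd} (h : check bitT ∈ π.N) :
    bitT ∈ SS.Ms π := by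
  have h1 : π.hat bitT ∈ SS.Ms π := Sys.mem_Ms h (SS.hs_check _)
  have h2 : π.hat bitT = bitT := by
    ext z
    rw [π.mem_hat]
    have h3 : ∀ a b : ℕ, pair (nat a) (nat b) ∈ π.Z ∧
        π.hat (pair (nat a) (nat b)) = pair (nat a) (nat b) := by
      intro a b
      refine ⟨π.pair_mem_Z (π.nat_Z a) (π.nat_Z b), ?_⟩
      rw [π.hat_pair (π.nat_Z a) (π.nat_Z b), π.hat_nat, π.hat_nat]
    constructor
    · rintro ⟨y, hy, -, rfl⟩
      obtain ⟨⟨⟨a, b⟩, h0⟩, rfl⟩ := ZFSet.mem_range.1 hy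
      rw [(h3 a b).2]
      exact hy
    · intro hz
      obtain ⟨⟨⟨a, b⟩, h0⟩, rfl⟩ := ZFSet.mem_range.1 hz
      exact ⟨_, hz, (h3 a b).1, (h3 a b).2⟩
  rwa [h2] at h1

/-- The dichotomy. -/
def Dich (M : Set ZFSet.{0}) (X D : ZFSet.{0}) : Prop :=
  GD M X D → (∃ x ∈ X, x = x) → CntIn M X ∨ CLe M X

theorem ud_dich : UD fun M (v : Fin 2 → ZFSet.{0}) => Dich M (v 0) (v 1) := by
  unfold Dich
  (repeat' first
      | assumption
      | exact UF.proj _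
      | exact UF.om
      | exact UF.empty
      | exact UD.prop _
      | exact UF.nat _
      | exact ud_gd
      | exact ud_cle
      | exact ud_cnt
      | apply UD.isInj | apply UD.isFunc
      | apply UD.not | apply UD.and | apply UD.or | apply UD.imp | apply UD.iff
      | apply UD.bex | apply UD.ball | apply UD.ex | apply UD.all | apply UD.subset
      | apply UD.eq | apply UD.mem | apply UF.pair
      | apply UF.insert)

/-- Countable sequences of points that are dense in the space. -/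
theorem dense_val {X D : PName Cnd} (hX : SS.HS X) (hD : SS.HS D)
    {S : ℕ → PName Cnd}
    (hS1 : ∃ k' s', s'.Countable ∧ ∀ i, Fx k' s' (S i)) {r : Cnd}
    (hS2 : ∀ i, SS.HS (S i) ∧ Fmem (S i) X r)
    (hden : ∀ k0, ∀ r' ≤ r, ∀ x, SS.HS x → Fmem x X r' → ∃ r'' ≤ r', ∃ i, Nr D (S i) x k0 r'')
    {π : Pkg Cnd} (hcl : SS.Cld π) (hXN : X ∈ π.N) (hDN : D ∈ π.N)
    (hSN : ∀ i, S i ∈ π.N) (hsN : seqN S ∈ π.N) (hm : ∃ m, π.g m ≤ r) :
    ∀ x ∈ π.val X, ∀ k : ℕ, ∃ i, pair (pair (π.val (S i)) x) (nat k) ∈ π.val D := by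
  obtain ⟨m, hm⟩ := hm
  intro x hx k
  by_contra hc
  push Not at hc
  obtain ⟨y, hy, c, hc', ⟨n, hn⟩, rfl⟩ := π.mem_val.1 hx
  have hyH : SS.HS y := hX.el hc'
  obtain ⟨n', hn'⟩ := (π.val_mem_iff hy hXN).1 hx
  have hsH := hs_sq hS1 hS2
  have h1 : Far (π.val X) (π.val D) (π.val (seqN S)) (π.val y) (π.val (check (nat k))) := by
    rw [show π.val (check (nat k)) = nat k from π.hat_nat k]
    intro i hi z hz hiz
    obtain ⟨j, hj⟩ := (val_seqN hSN).1 hiz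
    obtain ⟨-, rfl⟩ := ZFSet.pair_inj.1 hj
    exact hc j
  have hh : ∀ i, SS.HS ((![X, D, seqN S, y, check (nat k)] : Fin 5 → PName Cnd) i) :=
    all5 (p := SS.HS) hX hD hsH hyH (SS.hs_check _)
  obtain ⟨m1, hm1⟩ := (Sys.frc_iff (x := ![X, D, seqN S, y, check (nat k)]) ud_far hcl
    (all5 (p := fun y => y ∈ π.N ∧ SS.HS y) ⟨hXN, hX⟩ ⟨hDN, hD⟩ ⟨hsN, hsH⟩ ⟨hy, hyH⟩
      ⟨π.nat_Z k, SS.hs_check _⟩)).1 h1
  set L := max m (max n' m1) with hL
  have l1 : π.g L ≤ r := (π.g_anti (le_max_left _ _)).trans hm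
  have l2 : π.g L ≤ π.g n' := π.g_anti ((le_max_left _ _).trans (le_max_right _ _))
  have l3 : π.g L ≤ π.g m1 := π.g_anti ((le_max_right _ _).trans (le_max_right _ _))
  obtain ⟨r2, hr2, i, hi⟩ := hden k _ l1 y hyH (hn'.mono l2)
  obtain ⟨ρ, h2, h3, hcl', -⟩ := Sys.exists_cld SS ({X, D, seqN S, y} ∪ Set.range S)
    ((Set.toFinite _).countable.union (Set.countable_range _)) ∅ Set.countable_empty r2
  have hXr : X ∈ ρ.N := h2 (by simp)
  have hDr : D ∈ ρ.N := h2 (by simp)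
  have hsr : seqN S ∈ ρ.N := h2 (by simp)
  have hyr : y ∈ ρ.N := h2 (by simp)
  have hSr : ∀ i, S i ∈ ρ.N := fun i => h2 (Or.inr ⟨i, rfl⟩)
  have h4 : Far (ρ.val X) (ρ.val D) (ρ.val (seqN S)) (ρ.val y) (ρ.val (check (nat k))) :=
    (Sys.frc_sem hh).1 hm1 ρ hcl' (all5 (p := fun y => y ∈ ρ.N) hXr hDr hsr hyr (ρ.nat_Z k))
      ⟨0, h3.le.trans (hr2.trans l3)⟩
  rw [show ρ.val (check (nat k)) = nat k from ρ.hat_nat k] at h4
  refine h4 (nat i) (mem_omega_iff.2 ⟨i, rfl⟩) (ρ.val (S i)) ?_ ((val_seqN hSr).2 ⟨i, rfl⟩)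
    ((nr_val hDr (hSr i) hyr).2 ⟨0, hi.mono h3.le⟩)
  exact (ρ.val_mem_iff (hSr i) hXr).2 ⟨0, (hS2 i).2.mono (h3.le.trans (hr2.trans l1))⟩

theorem dich {π : Pkg Cnd} (hcl : SS.Cld π) {X D : ZFSet.{0}} (hX : X ∈ SS.Ms π)
    (hD : D ∈ SS.Ms π) : Dich (SS.Ms π) X D := by
  obtain ⟨X, ⟨hXN, hX⟩, rfl⟩ := hX
  obtain ⟨D, ⟨hDN, hD⟩, rfl⟩ := hD
  have hh : ∀ i, SS.HS ((![X, D] : Fin 2 → PName Cnd) i) := all2 (p := SS.HS) hX hD
  refine frc_all (x := ![X, D]) ud_dich hh ?_ π hcl (all2 (p := fun y => y ∈ π.N) hXN hDN)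
  clear hXN hDN hcl π
  intro q
  by_cases hP : ∃ q1 ≤ q, ∃ f, SS.HS f ∧ Fmem f X q1 ∧ SS.Frc ud_gd ![X, D] q1
  swap
  · refine ⟨q, le_rfl, ∅, Set.countable_empty, fun π hcl hN _ hm => ?_⟩
    have hXN : X ∈ π.N := hN 0
    have hDN : D ∈ π.N := hN 1
    obtain ⟨m, hm⟩ := hm
    change Dich (SS.Ms π) (π.val X) (π.val D)
    intro hg hx
    exfalso
    obtain ⟨x, hx, -⟩ := hx
    obtain ⟨y, hy, c, hc', -, rfl⟩ := π.mem_val.1 hx
    obtain ⟨n', hn'⟩ := (π.val_mem_iff hy hXN).1 hx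
    obtain ⟨m1, hm1⟩ := (Sys.frc_iff (x := ![X, D]) ud_gd hcl
      (all2 (p := fun y => y ∈ π.N ∧ SS.HS y) ⟨hXN, hX⟩ ⟨hDN, hD⟩)).1 hg
    set L := max m (max n' m1) with hL
    have l1 : π.g L ≤ q := (π.g_anti (le_max_left _ _)).trans hm
    have l2 : π.g L ≤ π.g n' := π.g_anti ((le_max_left _ _).trans (le_max_right _ _))
    have l3 : π.g L ≤ π.g m1 := π.g_anti ((le_max_right _ _).trans (le_max_right _ _))
    exact hP ⟨π.g L, l1, y, hX.el hc', hn'.mono l2, hm1.mono l3⟩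
  obtain ⟨q1, hq1, f, hf, hfm, hgd⟩ := hP
  obtain ⟨k1, s1, hs1, fX1⟩ := sym_iff.1 hX.sym
  obtain ⟨k2, s2, hk2, hss, hs2, fD2⟩ := exists_fx hD k1 hs1
  set s := lev k2 s2 with hs'
  have hs : s.Countable := lev_countable hs2
  have hsk : ∀ x ∈ s, x.1 < k2 := fun x hx => hx.1
  have fD : Fx k2 s D := fx_lev fD2
  have fX : Fx k2 s X := fx_lev (fX1.mono hk2 fun x hx => hss hx.2)
  -- a common end of the argument
  have final : ∀ (S : ℕ → PName Cnd) (r : Cnd), (∃ k' s', s'.Countable ∧ ∀ i, Fx k' s' (S i)) →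
      (∀ i, SS.HS (S i) ∧ Fmem (S i) X r) → SS.Frc ud_gd ![X, D] r →
      (∀ k0 i j, Nr D (S i) (S j) k0 r ∨ ∀ r' ≤ r, ¬ Nr D (S i) (S j) k0 r') →
      (∃ φ : ℕ → (ℕ → Bool) → ℕ, (∀ m d d', (∀ i < m, d i = d' i) → φ m d = φ m d') ∧
        (∀ d, Cau (fun k i j => Nr D (S i) (S j) k r) fun m => φ m d) ∧
        ∀ d d', d ≠ d' → ∃ k N, ∀ m, N ≤ m → ¬ Nr D (S (φ m d)) (S (φ m d')) k r) →
      ∃ A : Set (PName Cnd), A.Countable ∧ ∀ π : Pkg Cnd, SS.Cld π →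
      (∀ i, (![X, D] : Fin 2 → PName Cnd) i ∈ π.N) → A ⊆ π.N → (∃ m, π.g m ≤ r) →
      Dich (SS.Ms π) (π.val X) (π.val D) := by
    rintro S r hS1 hS2 hg hdec ⟨φ, h1, h2, h3⟩
    refine ⟨{seqN S, check (code2 fun m e => φ m fun i => e.testBit i), check bitT} ∪ Set.range S,
      (Set.toFinite _).countable.union (Set.countable_range _), fun π hcl hN hA hm _ _ =>
      Or.inr ?_⟩
    have hSN : ∀ i, S i ∈ π.N := fun i => hA (Or.inr ⟨i, rfl⟩)
    exact (dat_of hX hD hS1 hS2 hg hdec hcl (hN 0) (hN 1) hSN (hA (by simp)) hm).cle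
      h1 h2 h3 (code2_mem (hA (by simp))) (bitT_mem (hA (by simp)))
  by_cases hC : ∃ q2 ≤ q1, ∃ f', SS.HS f' ∧ Fmem f' X q2 ∧ ∀ q ≤ q2, ∀ f'', SS.HS f'' →
      Fx k2 s f'' → ¬ Feq f' f'' q
  · obtain ⟨q2, hq2, f', hf', hfm', hns⟩ := hC
    obtain ⟨r, hr, S, hS1, hS2, hself⟩ := exists_self hs hsk hX fX hD fD hf' (hgd.mono hq2) hfm' hns
    obtain ⟨r1, hr1, hdec⟩ := exists_decided D S r
    have hS2' : ∀ i, SS.HS (S i) ∧ Fmem (S i) X r1 := fun i => ⟨(hS2 i).1, (hS2 i).2.mono hr1⟩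
    have hg1 : SS.Frc ud_gd ![X, D] r1 := hgd.mono (hr1.trans (hr.trans hq2))
    obtain ⟨π, hcl, hg0, hSN, d⟩ := exists_dat hX hD hS1 hS2' hg1 hdec
    obtain ⟨Y, _, _, _, co, hco⟩ := d.ent.exists_cpl
    obtain ⟨A, hA, H⟩ := final S r1 hS1 hS2' hg1 hdec (hco.exists_scheme
      (hco.uncountable_of fun i k => by
        obtain ⟨j, hj1, hj2⟩ := hself i k
        refine ⟨j, hj2.mono hr1, ?_⟩
        by_contra hc
        push Not at hc
        have h4 : π.val (S i) = π.val (S j) := d.gd.se (d.aX i) (d.aX j) fun l =>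
          (d.hE l i j).2 (hc l)
        obtain ⟨n, hn⟩ := (π.val_eq_iff (hSN i) (hSN j)).1 h4
        exact hj1 (π.g n) ((π.g_anti (Nat.zero_le n)).trans (hg0.le.trans hr1)) hn))
    exact ⟨r1, hr1.trans (hr.trans (hq2.trans hq1)), A, hA, H⟩
  · have hall : ∀ q ≤ q1, ∀ f, SS.HS f → Fmem f X q → ∃ q' ≤ q, ∃ f', SS.HS f' ∧ Fx k2 s f' ∧
        Feq f f' q' := by
      intro q hq f hf hm
      by_contra hc
      push Not at hc
      exact hC ⟨q, hq, f, hf, hm, hc⟩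
    obtain ⟨r, hr, S, hS2, hden⟩ := exists_dense hX hD hgd hall le_rfl hf hfm
    obtain ⟨r1, hr1, hdec⟩ := exists_decided D S r
    have hS1 : ∃ k' s', s'.Countable ∧ ∀ i, Fx k' s' (S i) := ⟨k2, s, hs, fun i => (hS2 i).2.1⟩
    have hS2' : ∀ i, SS.HS (S i) ∧ Fmem (S i) X r1 := fun i => ⟨(hS2 i).1, (hS2 i).2.2.mono hr1⟩
    have hg1 : SS.Frc ud_gd ![X, D] r1 := hgd.mono (hr1.trans hr)
    obtain ⟨π, hcl, hg0, hSN, d⟩ := exists_dat hX hD hS1 hS2' hg1 hdec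
    obtain ⟨Y, _, _, _, co, hco⟩ := d.ent.exists_cpl
    by_cases hcn : (Set.univ : Set Y).Countable
    · obtain ⟨C, hC⟩ := hco.exists_enum hcn
      refine ⟨r1, hr1.trans (hr.trans hq1), {seqN S, check (code2 C)} ∪ Set.range S,
        (Set.toFinite _).countable.union (Set.countable_range _), fun π hcl hN hA hm _ _ =>
        Or.inl ?_⟩
      have hSN : ∀ i, S i ∈ π.N := fun i => hA (Or.inr ⟨i, rfl⟩)
      have hsN : seqN S ∈ π.N := hA (by simp)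
      exact (dat_of hX hD hS1 hS2' hg1 hdec hcl (hN 0) (hN 1) hSN hsN hm).cnt
        (dense_val hX hD hS1 hS2'
          (fun k0 r' hr' => hden k0 r' (hr'.trans hr1)) hcl (hN 0) (hN 1) hSN hsN hm) hC
        (code2_mem (hA (by simp)))
    · obtain ⟨A, hA, H⟩ := final S r1 hS1 hS2' hg1 hdec (hco.exists_scheme hcn)
      exact ⟨r1, hr1.trans (hr.trans hq1), A, hA, H⟩

end Pool.Agent.Q207.CT
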