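import Pool.Agent.Q207.CT.Unc

/-!
# Compact metrizable spaces of the model are countable or large
-/

set_option autoImplicit false
set_option linter.unusedSectionVars false
set_option linter.unreachableTactic false
set_option linter.unusedTactic false

namespace Pool.Agent.Q207.CT

open Pool.Agent.W868 Pool.Agent.W868.PName Pool.Agent.Q211.SY
open Pool.Agent.Q211.FS (MetricIn MetrizableIn CompactIn Sp0 exists_ent)
open ZFSet (pair)
open Cnd

section

variable {M : Set ZFSet.{0}} {X τ D : ZFSet.{0}} {d : ZFSet.{0} → ZFSet.{0} → ℝ}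
  (s : Sp0 M X τ d D)

include s

theorem cpl_of : cpl M X D := by
  classical
  have hM := s.hM
  have hB := hM.base
  have h0 := hM.infinity
  have hX := s.hX
  have hD := s.hD
  have hτ := s.hτ
  intro t ht hf hc
  have hy : ∀ i : ℕ, ∃ y ∈ X, pair (nat i) y ∈ t := by
    intro i
    obtain ⟨y, hy, -⟩ := hf.2 (nat i) (mem_omega_iff.2 ⟨i, rfl⟩)
    exact ⟨y, (ZFSet.pair_mem_prod.1 (hf.1 hy)).2, hy⟩
  choose y hyX hyt using hy
  have hyu : ∀ (i : ℕ) z, pair (nat i) z ∈ t → z = y i := fun i z hz =>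
    (hf.2 (nat i) (mem_omega_iff.2 ⟨i, rfl⟩)).unique hz (hyt i)
  have hC : ZFSet.sep (fun U => ∃ n ∈ ZFSet.omega, ∀ i ∈ ZFSet.omega, n ∈ i → ∀ y ∈ X,
      pair i y ∈ t → y ∉ U) τ ∈ M := hM.sep_mem (Q := fun U => ∃ n ∈ ZFSet.omega,
      ∀ i ∈ ZFSet.omega, n ∈ i → ∀ y ∈ X, pair i y ∈ t → y ∉ U) (by (repeat' first
      | assumption
      | exact DfnF.proj _
      | exact DfnF.const (by assumption)
      | exact DfnF.const' (by first | assumption | trivial) (by first | assumption | trivial)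
      | exact Dfn.prop _
      | apply Dfn.not | apply Dfn.and | apply Dfn.or | apply Dfn.imp | apply Dfn.iff
      | apply hB.bex | apply hB.ball | apply Dfn.ex | apply Dfn.all
      | apply Dfn.eq | apply Dfn.mem | apply hB.pair' | apply hB.subset' | apply hB.insert'
      | apply hB.isFunc' | apply hB.isInj' | apply hB.isBij' | apply hB.isOrdinal')) hτ
  by_cases hcov : ∀ x ∈ X, ∃ U ∈ ZFSet.sep (fun U => ∃ n ∈ ZFSet.omega, ∀ i ∈ ZFSet.omega,
      n ∈ i → ∀ y ∈ X, pair i y ∈ t → y ∉ U) τ, x ∈ U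
  · exfalso
    obtain ⟨F, hF1, hF2⟩ := s.cpt _ hC (fun U hU => (ZFSet.mem_sep.1 hU).1) hcov
    have h1 : ∀ U : ZFSet.{0}, ∃ n : ℕ, U ∈ F → ∀ i, n < i → y i ∉ U := by
      intro U
      by_cases hU : U ∈ F
      · obtain ⟨-, n, hn, h2⟩ := ZFSet.mem_sep.1 (hF1 U hU)
        obtain ⟨n, rfl⟩ := mem_omega_iff.1 hn
        exact ⟨n, fun _ i hi => h2 _ (mem_omega_iff.2 ⟨i, rfl⟩) (nat_mem_nat.2 hi) _ (hyX i)
          (hyt i)⟩
      · exact ⟨0, fun h => absurd h hU⟩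
    choose n hn using h1
    obtain ⟨U, hU, h2⟩ := hF2 _ (hyX (F.sup n + 1))
    exact hn U hU _ (Nat.lt_succ_of_le (Finset.le_sup hU)) h2
  · push Not at hcov
    obtain ⟨x, hx, hxc⟩ := hcov
    refine ⟨x, hx, fun k hk => ?_⟩
    obtain ⟨k, rfl⟩ := mem_omega_iff.1 hk
    obtain ⟨U, hU, hxU, hU'⟩ := s.ball x hx (2 * k + 1)
    obtain ⟨n, hn, h1⟩ := hc _ (mem_omega_iff.2 ⟨2 * k + 1, rfl⟩)
    obtain ⟨n, rfl⟩ := mem_omega_iff.1 hn
    refine ⟨nat n, mem_omega_iff.2 ⟨n, rfl⟩, fun i hi hni z hz hiz => ?_⟩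
    obtain ⟨i, rfl⟩ := mem_omega_iff.1 hi
    have h2 : ∃ j, n < j ∧ y j ∈ U := by
      by_contra h2
      push Not at h2
      refine hxc U (ZFSet.mem_sep.2 ⟨hU, nat n, mem_omega_iff.2 ⟨n, rfl⟩,
        fun j hj hnj w hw hjw => ?_⟩) hxU
      obtain ⟨j, rfl⟩ := mem_omega_iff.1 hj
      rw [hyu j w hjw]
      exact h2 j (nat_mem_nat.1 hnj)
    obtain ⟨j, hj, hjU⟩ := h2
    have h3 := ((hU' _).1 hjU).2
    have h4 := (s.ent _ (hyX j) _ hz _).1 (h1 (nat j) (mem_omega_iff.2 ⟨j, rfl⟩) (nat i)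
      (mem_omega_iff.2 ⟨i, rfl⟩) (nat_mem_nat.2 hj) hni _ (hyX j) _ hz (hyt j) hiz)
    refine (s.ent x hx z hz k).2 ?_
    have h5 := s.m.tri x hx _ (hyX j) z hz
    have h13 : (1 : ℝ) / ((2 * k + 1 : ℕ) + 1) + 1 / ((2 * k + 1 : ℕ) + 1) = 1 / (k + 1) := by
      push_cast
      field_simp
      ring
    linarith

theorem gd_of : GD M X D := by
  refine ⟨s.reg, cpl_of s, fun x hx k hk => ?_, fun x hx y hy k hk h => ?_,
    fun x hx y hy h => ?_, fun x hx y hy k hk l hl h => ?_⟩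
  · obtain ⟨k, rfl⟩ := mem_omega_iff.1 hk
    refine (s.ent x hx x hx k).2 ?_
    rw [s.m.self x hx]
    positivity
  · obtain ⟨k, rfl⟩ := mem_omega_iff.1 hk
    refine (s.ent y hy x hx k).2 ?_
    rw [s.m.symm y hy x hx]
    exact (s.ent x hx y hy k).1 h
  · refine s.m.eq_of x hx y hy (le_antisymm ?_ (s.nonneg hx hy))
    refine le_of_forall_pos_lt_add fun ε hε => ?_
    obtain ⟨k, hk⟩ := exists_nat_one_div_lt hε
    have h1 := (s.ent x hx y hy k).1 (h _ (mem_omega_iff.2 ⟨k, rfl⟩))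
    rw [zero_add]
    exact h1.trans hk
  · obtain ⟨k, rfl⟩ := mem_omega_iff.1 hk
    obtain ⟨l, hl', rfl⟩ := mem_nat_iff.1 hl
    exact (s.ent x hx y hy l).2 (s.lt_small ((s.ent x hx y hy k).1 h) hl'.le)

end

/-- In the models, the uncountable compact metrizable spaces have at least the size of the
continuum. -/
theorem unc {π : Pkg Cnd} (hcl : SS.Cld π) {X τ : ZFSet.{0}} (hX : X ∈ SS.Ms π)
    (hτ : τ ∈ SS.Ms π) (hm : MetrizableIn (SS.Ms π) X τ) (hc : CompactIn (SS.Ms π) X τ)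
    (hn : ¬ CntIn (SS.Ms π) X) : CLe (SS.Ms π) X := by
  have hM := T_ZF.isZF hcl
  obtain ⟨d, m⟩ := hm
  obtain ⟨D, hD, hD'⟩ := exists_ent hM hX m
  have hg : GD (SS.Ms π) X D := gd_of (τ := τ) (d := d) ⟨hM, hX, hτ, m, hD, hD', hc⟩
  by_cases hx : ∃ x ∈ X, x = x
  · exact (dich hcl hX hD hg hx).resolve_left hn
  · exfalso
    apply hn
    have h1 : X = ∅ := by
      rw [ZFSet.eq_empty]
      intro z hz
      exact hx ⟨z, hz, rfl⟩
    subst h1
    refine ⟨∅, hX, ⟨fun z hz => absurd hz (ZFSet.notMem_empty z), fun z hz =>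
      absurd hz (ZFSet.notMem_empty z)⟩, fun a b c h => absurd h (ZFSet.notMem_empty _)⟩

end Pool.Agent.Q207.CT
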